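import Pool.Agent.Lib.MP_cf17a0_co.Sym

/-! # Assembly -/

namespace Pool.Agent.SignedQ

open Finset PowerSeries

theorem coeff_small (N : ℕ) (B : ℕ → ℕ) (hB : ∀ v, N < B v) (g : PowerSeries ℚ) (k : ℕ) :
    coeff N (g * ∏ v ∈ range k, (1 - (-X) ^ B v)) = coeff N g := by
  induction k with
  | zero => simp
  | succ k ih =>
    rw [prod_range_succ, ← mul_assoc, mul_sub, mul_one, map_sub, ih]
    have e : g * (∏ v ∈ range k, (1 - (-X) ^ B v)) * (-X) ^ B k =
        (PowerSeries.C ((-1 : ℚ) ^ B k)) *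
          ((g * ∏ v ∈ range k, (1 - (-X) ^ B v)) * X ^ B k) := by
      rw [neg_pow, map_pow, map_neg, map_one]
      ring
    rw [e, coeff_C_mul, coeff_mul_X_pow', if_neg (by have := hB k; omega), mul_zero, sub_zero]

/-- The indices of the even exponents. -/
def ev (n k : ℕ) : Finset ℕ := (range k).filter fun v => Even (n + v + 1)

/-- The indices of the odd exponents. -/
def od (n k : ℕ) : Finset ℕ := (range k).filter fun v => ¬ Even (n + v + 1)

theorem card_ev {n k : ℕ} (h : Even (n * k)) : (ev n k).card = k / 2 := by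
  have key : ∀ j n : ℕ, (ev n (2 * j)).card = j := by
    intro j n
    induction j with
    | zero => simp [ev]
    | succ j ih =>
      unfold ev at ih ⊢
      rw [show 2 * (j + 1) = 2 * j + 1 + 1 by ring, range_add_one, range_add_one,
        filter_insert, filter_insert]
      by_cases h1 : Even (n + 2 * j + 1)
      · have h2 : ¬ Even (n + (2 * j + 1) + 1) := by
          rw [Nat.even_iff] at *; omega
        rw [if_neg h2, if_pos h1, card_insert_of_notMem (by simp), ih]
      · have h2 : Even (n + (2 * j + 1) + 1) := by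
          rw [Nat.even_iff] at *; omega
        rw [if_pos h2, if_neg h1, card_insert_of_notMem (by simp), ih]
  rcases Nat.even_or_odd k with hk | hk
  · obtain ⟨j, rfl⟩ := hk
    rw [← two_mul, key]
    omega
  · have hn : Even n := by
      rcases Nat.even_mul.1 h with h | h
      · exact h
      · exact absurd h (Nat.not_even_iff_odd.2 hk)
    obtain ⟨j, rfl⟩ := hk
    have h1 : ¬ Even (n + 2 * j + 1) := by
      rw [Nat.even_iff] at *; omega
    have h2 := key j n
    unfold ev at h2 ⊢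
    rw [range_add_one, filter_insert, if_neg h1, h2]
    omega

theorem sum_ev {n k a v : ℕ} (h : Even (n * k)) (hk : 4 ≤ k) (hv : v ∈ od n k) :
    2 * (a * (n + v + 1)) + a * (n + 1) ≤ 2 * ∑ u ∈ ev n k, a * (n + u + 1) := by
  unfold od at hv
  rw [mem_filter, mem_range] at hv
  obtain ⟨hvk, hvo⟩ := hv
  obtain ⟨u1, hu1, hu1'⟩ : ∃ u1 ∈ ev n k, (1 ≤ v ∧ u1 = v - 1) ∨ (v = 0 ∧ u1 = 1) := by
    unfold ev
    rcases Nat.eq_zero_or_pos v with h0 | h0
    · refine ⟨1, ?_, Or.inr ⟨h0, rfl⟩⟩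
      rw [mem_filter, mem_range]
      subst h0
      refine ⟨by omega, ?_⟩
      rw [Nat.even_iff] at *; omega
    · refine ⟨v - 1, ?_, Or.inl ⟨h0, rfl⟩⟩
      rw [mem_filter, mem_range]
      refine ⟨by omega, ?_⟩
      rw [Nat.even_iff] at *; omega
  have hcard : 0 < ((ev n k).erase u1).card := by
    rw [card_erase_of_mem hu1, card_ev h]; omega
  obtain ⟨u2, hu2⟩ := card_pos.1 hcard
  have h1 : a * (n + u2 + 1) ≤ ∑ u ∈ (ev n k).erase u1, a * (n + u + 1) :=
    single_le_sum (f := fun u => a * (n + u + 1)) (fun _ _ => Nat.zero_le _) hu2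
  have h2 := add_sum_erase (ev n k) (fun u => a * (n + u + 1)) hu1
  have h3 : Even (n + u2 + 1) := by
    have := mem_of_mem_erase hu2
    unfold ev at this
    exact (mem_filter.1 this).2
  have h4 : 2 * (n + v + 1) + (n + 1) ≤ 2 * (n + u1 + 1) + 2 * (n + u2 + 1) := by
    rw [Nat.even_iff] at h3
    omega
  have h5 := Nat.mul_le_mul_left a h4
  have h6 : a * (2 * (n + v + 1) + (n + 1)) = 2 * (a * (n + v + 1)) + a * (n + 1) := by ring
  have h7 : a * (2 * (n + u1 + 1) + 2 * (n + u2 + 1)) =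
      2 * (a * (n + u1 + 1)) + 2 * (a * (n + u2 + 1)) := by ring
  rw [h6, h7] at h5
  omega

theorem NN_C {r : ℚ} (hr : 0 ≤ r) : NN (PowerSeries.C r) := by
  intro n
  rw [coeff_C]
  split
  · exact hr
  · exact le_rfl

/-- The power series form of `f`. -/
theorem f_series {n k a : ℕ} {f : Polynomial ℚ}
    (hf : f * poch (-Polynomial.X : Polynomial ℚ) k = num n k a) :
    (f : PowerSeries ℚ) = G k * ∏ v ∈ range k, (1 - (-X) ^ (a * (n + v + 1))) := by
  have h1 := congrArg co hf
  unfold num at h1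
  rw [map_mul, map_mul, map_pow, map_add, map_one, co_X, map_prod, co_poch, co_apply] at h1
  have h2 : ∀ v ∈ range k, co (1 - (-Polynomial.X) ^ (a * (n + v + 1))) =
      (1 - (-X : PowerSeries ℚ) ^ (a * (n + v + 1))) := by
    intro v _
    rw [map_sub, map_one, map_pow, map_neg, co_X]
  rw [prod_congr rfl h2] at h1
  calc (f : PowerSeries ℚ) = (f : PowerSeries ℚ) * (poch (-X) k * I k) := by
        rw [poch_mul_I, mul_one]
    _ = ((f : PowerSeries ℚ) * poch (-X) k) * I k := by ring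
    _ = _ := by rw [h1]; unfold G; ring

/-- The main part of the product. -/
theorem prod_split {n k a : ℕ} (h : Even (n * k)) (ha : Odd a) :
    Z 2 ^ (k / 2) * ∏ v ∈ range k, (1 - (-X : PowerSeries ℚ) ^ (a * (n + v + 1))) =
      (∏ v ∈ ev n k, str (a * (n + v + 1) / 2)) * ∏ v ∈ od n k, (1 + X ^ (a * (n + v + 1))) := by
  have h0 := prod_filter_mul_prod_filter_not (range k) (fun v => Even (n + v + 1))
    (fun v => (1 - (-X : PowerSeries ℚ) ^ (a * (n + v + 1))))
  rw [← h0]
  have h1 : ∀ v ∈ (range k).filter (fun v => Even (n + v + 1)),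
      (1 - (-X : PowerSeries ℚ) ^ (a * (n + v + 1))) =
        str (a * (n + v + 1) / 2) * (1 - X ^ 2) := by
    intro v hv
    have hev : Even (a * (n + v + 1)) := (mem_filter.1 hv).2.mul_left a
    rw [str_mul, hev.neg_pow]
    congr 2
    rw [Nat.even_iff] at hev
    omega
  have h2 : ∀ v ∈ (range k).filter (fun v => ¬ Even (n + v + 1)),
      (1 - (-X : PowerSeries ℚ) ^ (a * (n + v + 1))) = 1 + X ^ (a * (n + v + 1)) := by
    intro v hv
    have hodd : Odd (a * (n + v + 1)) := ha.mul (Nat.not_even_iff_odd.1 (mem_filter.1 hv).2)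
    rw [hodd.neg_pow]
    ring
  rw [prod_congr rfl h1, prod_congr rfl h2, prod_mul_distrib, prod_const]
  have h3 : ((range k).filter (fun v => Even (n + v + 1))).card = k / 2 := card_ev h
  rw [h3]
  have h4 : (1 - X ^ 2 : PowerSeries ℚ) ^ (k / 2) * Z 2 ^ (k / 2) = 1 := by
    rw [← mul_pow, Z_mul (by norm_num), one_pow]
  unfold ev od
  linear_combination ((∏ v ∈ (range k).filter (fun v => Even (n + v + 1)),
    str (a * (n + v + 1) / 2)) * ∏ v ∈ (range k).filter (fun v => ¬ Even (n + v + 1)),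
    (1 + X ^ (a * (n + v + 1)))) * h4

/-- The lower bound for the main term in the range `A ≤ N`, `2 N ≤ deg f`. -/
theorem main_bound {n k a N T : ℕ} (h : Even (n * k)) (hk : 4 ≤ k) (ha : Odd a)
    (hT : T = ∑ v ∈ range k, a * (n + v + 1))
    (hA : 16 * (k / 2) ≤ a * (n + 1)) (hN : a * (n + 1) ≤ N) (hN2 : 2 * N ≤ T) :
    (((a * (n + 1) / (16 * (k / 2)) : ℕ) : ℚ)) ^ (k / 2 - 1) ≤
      coeff N ((1 + X) * ((∏ v ∈ ev n k, str (a * (n + v + 1) / 2)) *
        ∏ v ∈ od n k, (1 + X ^ (a * (n + v + 1))))) := by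
  set A := a * (n + 1) with hAdef
  set κ := k / 2 with hκ
  have hκ2 : 2 ≤ κ := by omega
  obtain ⟨j, hj⟩ : ∃ j, κ = j + 1 := ⟨κ - 1, by omega⟩
  set δ := A / (16 * κ) with hδ
  have hδA : 16 * κ * δ ≤ A := Nat.mul_div_le A (16 * κ)
  have h16 : 16 * κ * δ = 16 * (j * δ) + 16 * δ := by rw [hj]; ring
  have hev2 : ∀ v ∈ ev n k, 2 * (a * (n + v + 1) / 2) = a * (n + v + 1) := by
    intro v hv
    have hev : Even (a * (n + v + 1)) := (mem_filter.1 hv).2.mul_left a
    rw [Nat.even_iff] at hev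
    omega
  have hBA : ∀ v, A ≤ a * (n + v + 1) := by
    intro v
    exact Nat.mul_le_mul_left a (by omega)
  have hj1 : k / 2 - 1 = j := by omega
  rw [show κ - 1 = j by omega, ← mul_assoc]
  have hsum : ∑ v ∈ ev n k, 2 * (a * (n + v + 1) / 2) = ∑ v ∈ ev n k, a * (n + v + 1) :=
    sum_congr rfl hev2
  refine main_lower δ (fun v => a * (n + v + 1) / 2) (fun v => a * (n + v + 1)) (ev n k) (od n k)
    j (by rw [card_ev h]; omega) ?_ ?_ N ?_ ?_
  · intro v hv
    have h1 := hev2 v hv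
    have h2 := hBA v
    show 2 * δ + 2 ≤ a * (n + v + 1) / 2
    omega
  · intro v hv
    have h1 := sum_ev (a := a) h hk hv
    show a * (n + v + 1) + 2 * (j * (2 * δ + 1)) ≤ ∑ v ∈ ev n k, 2 * (a * (n + v + 1) / 2)
    rw [hsum]
    have h2 : j * (2 * δ + 1) = 2 * (j * δ) + j := by ring
    rw [← hAdef] at h1
    omega
  · omega
  · show N + 1 + 2 * (j * (δ + 1)) ≤ ∑ v ∈ ev n k, 2 * (a * (n + v + 1) / 2) +
      ∑ v ∈ od n k, a * (n + v + 1)
    rw [hsum]
    have h1 : ∑ v ∈ ev n k, a * (n + v + 1) + ∑ v ∈ od n k, a * (n + v + 1) = T := by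
      rw [hT]
      exact sum_filter_add_sum_filter_not (range k) (fun v => Even (n + v + 1)) _
    rw [h1]
    have h2 : j * (δ + 1) = j * δ + j := by ring
    have h3 : 4 * A ≤ T := by
      rw [hT]
      calc 4 * A ≤ k * A := Nat.mul_le_mul_right A hk
        _ = ∑ v ∈ range k, A := by rw [sum_const, card_range, smul_eq_mul]
        _ ≤ _ := sum_le_sum fun v _ => hBA v
    omega

theorem sum_le {n k a : ℕ} (hk : 1 ≤ k) :
    ∑ v ∈ range k, a * (n + v + 1) ≤ k ^ 2 * (a * (n + 1)) := by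
  calc ∑ v ∈ range k, a * (n + v + 1) ≤ ∑ v ∈ range k, k * (a * (n + 1)) := by
        refine sum_le_sum fun v hv => ?_
        rw [mem_range] at hv
        have h1 : n + v + 1 ≤ k * (n + 1) := by
          have h2 : n + k ≤ k * (n + 1) := by
            have : k * (n + 1) = k * n + k := by ring
            have h3 : 1 * n ≤ k * n := Nat.mul_le_mul_right n hk
            omega
          omega
        calc a * (n + v + 1) ≤ a * (k * (n + 1)) := Nat.mul_le_mul_left a h1
          _ = k * (a * (n + 1)) := by ring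
    _ = k ^ 2 * (a * (n + 1)) := by rw [sum_const, card_range, smul_eq_mul]; ring

/-- For fixed `k ≥ 4`, the coefficients are nonnegative if `a (n + 1)` is large. -/
theorem main (k : ℕ) (hk : 4 ≤ k) : ∃ A0 : ℕ, ∀ n a : ℕ, Even (n * k) → Odd a →
    A0 ≤ a * (n + 1) → ∀ f : Polynomial ℚ,
      f * poch (-Polynomial.X : Polynomial ℚ) k = num n k a → ∀ i, 0 ≤ f.coeff i := by
  obtain ⟨α, β, W, L, hα, hβ, hL, hG⟩ := G_decomp k hk
  obtain ⟨C, hC, hGr⟩ := Gr_poly_Z W hL
  set κ := k / 2 with hκ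
  obtain ⟨r, hr⟩ : ∃ r, κ = r + 2 := ⟨κ - 2, by omega⟩
  set γ := min α β with hγ
  have hγ0 : 0 < γ := lt_min hα hβ
  set M : ℚ := 2 ^ k * C * ((k : ℚ) ^ 2) ^ r * (32 * κ) ^ (r + 1) / γ with hM
  obtain ⟨A1, hA1⟩ := exists_nat_ge M
  refine ⟨max A1 (32 * κ), fun n a h ha hA f hf => ?_⟩
  refine half h ha hf fun N hN => ?_
  set A := a * (n + 1) with hAdef
  have ha1 : 1 ≤ a := ha.pos
  have hA1' : A1 ≤ A := (le_max_left _ _).trans hA
  have hA2 : 32 * κ ≤ A := (le_max_right _ _).trans hA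
  have hfs := f_series hf
  have hcoe : f.coeff N = coeff N (f : PowerSeries ℚ) := (Polynomial.coeff_coe f N).symm
  rw [hcoe, hfs]
  have hBA : ∀ v, A ≤ a * (n + v + 1) := fun v => Nat.mul_le_mul_left a (by omega)
  rcases lt_or_ge N A with hNA | hNA
  · rw [coeff_small N (fun v => a * (n + v + 1)) (fun v => lt_of_lt_of_le hNA (hBA v))]
    exact NN_G k N
  · set T := ∑ v ∈ range k, a * (n + v + 1) with hT
    have hdeg := natDegree_f ha1 hf
    have hTN : 2 * N ≤ T := by
      have h1 : ∑ v ∈ range k, 1 ≤ ∑ v ∈ range k, (v + 1) :=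
        sum_le_sum fun v _ => by omega
      rw [sum_const, card_range, smul_eq_mul, mul_one] at h1
      omega
    rw [hG, add_mul, map_add]
    -- the error term
    have herr := (hGr r).mul_prod hC (fun v => a * (n + v + 1)) k N
    have hκ1 : κ - 1 = r + 1 := by omega
    rw [← hκ1] at herr
    -- the main term
    have hmain := main_bound (N := N) h hk ha hT (by omega) hNA hTN
    rw [← hAdef, ← hκ] at hmain
    set P := (∏ v ∈ ev n k, str (a * (n + v + 1) / 2)) *
      ∏ v ∈ od n k, (1 + X ^ (a * (n + v + 1))) with hP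
    have hPN : NN P := by
      rw [hP]
      refine NN.mul ?_ ?_
      · exact prod_induction _ NN (fun _ _ => NN.mul) NN.one fun v _ => NN_str _
      · exact prod_induction _ NN (fun _ _ => NN.mul) NN.one fun v _ =>
          NN.one.add (NN.varX.pow _)
    have hmt : (PowerSeries.C α + PowerSeries.C β * X) * Z 2 ^ κ *
        ∏ v ∈ range k, (1 - (-X : PowerSeries ℚ) ^ (a * (n + v + 1))) =
        PowerSeries.C γ * ((1 + X) * P) +
          (PowerSeries.C (α - γ) + PowerSeries.C (β - γ) * X) * P := by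
      rw [mul_assoc, prod_split h ha, ← hP, map_sub, map_sub]
      ring
    rw [hmt, map_add, coeff_C_mul]
    have hrest : 0 ≤ coeff N ((PowerSeries.C (α - γ) + PowerSeries.C (β - γ) * X) * P) :=
      ((NN_C (sub_nonneg.2 (min_le_left _ _))).add
        ((NN_C (sub_nonneg.2 (min_le_right _ _))).mul NN.varX)).mul hPN N
    -- numerical comparison
    have hAq : (A : ℚ) ≤ 32 * κ * ((A / (16 * κ) : ℕ) : ℚ) := by
      have h1 : A < 16 * κ * (A / (16 * κ) + 1) := Nat.lt_mul_div_succ A (by omega)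
      have h2 : A ≤ 32 * κ * (A / (16 * κ)) := by
        have e1 : 16 * κ * (A / (16 * κ) + 1) = 16 * κ * (A / (16 * κ)) + 16 * κ := by ring
        have e2 : 32 * κ * (A / (16 * κ)) = 16 * κ * (A / (16 * κ)) + 16 * κ * (A / (16 * κ)) := by
          ring
        omega
      exact_mod_cast h2
    set δ := ((A / (16 * κ) : ℕ) : ℚ) with hδ
    have hδ0 : 0 ≤ δ := by rw [hδ]; positivity
    have hN1 : ((N : ℚ) + 1) ≤ (k : ℚ) ^ 2 * A := by
      have h1 : T ≤ k ^ 2 * A := sum_le (by omega)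
      have h2 : 2 * N + 2 ≤ 2 * (k ^ 2 * A) := by
        have : 1 * A ≤ k ^ 2 * A := Nat.mul_le_mul_right A (Nat.one_le_pow _ _ (by omega))
        omega
      have h3 : N + 1 ≤ k ^ 2 * A := by omega
      exact_mod_cast h3
    have hkey : 2 ^ k * C * ((N : ℚ) + 1) ^ r ≤ γ * δ ^ (r + 1) := by
      have hMA : M ≤ A := hA1.trans (by exact_mod_cast hA1')
      have hκq : (0 : ℚ) < 32 * κ := by
        have : 0 < κ := by omega
        positivity
      have h1 : 2 ^ k * C * ((N : ℚ) + 1) ^ r ≤ 2 ^ k * C * ((k : ℚ) ^ 2 * A) ^ r := by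
        refine mul_le_mul_of_nonneg_left ?_ (by positivity)
        exact pow_le_pow_left₀ (by positivity) hN1 r
      have h2 : 2 ^ k * C * ((k : ℚ) ^ 2 * A) ^ r * (32 * κ) ^ (r + 1) = M * γ * (A : ℚ) ^ r := by
        rw [hM, div_mul_cancel₀ _ hγ0.ne', mul_pow]
        ring
      have h3 : M * γ * (A : ℚ) ^ r ≤ γ * (A : ℚ) ^ (r + 1) := by
        rw [pow_succ]
        have : 0 ≤ γ * (A : ℚ) ^ r := by positivity
        nlinarith
      have h4 : γ * (A : ℚ) ^ (r + 1) ≤ γ * δ ^ (r + 1) * (32 * κ) ^ (r + 1) := by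
        rw [mul_assoc, ← mul_pow]
        refine mul_le_mul_of_nonneg_left ?_ hγ0.le
        refine pow_le_pow_left₀ (by positivity) ?_ _
        linarith
      have h5 : 2 ^ k * C * ((N : ℚ) + 1) ^ r * (32 * κ) ^ (r + 1) ≤
          γ * δ ^ (r + 1) * (32 * κ) ^ (r + 1) :=
        (mul_le_mul_of_nonneg_right h1 (by positivity)).trans (h2.le.trans (h3.trans h4))
      exact le_of_mul_le_mul_right h5 (by positivity)
    rw [hκ1] at hmain
    have h6 : γ * δ ^ (r + 1) ≤ γ * coeff N ((1 + X) * P) := mul_le_mul_of_nonneg_left hmain hγ0.le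
    have h7 := neg_le_of_abs_le herr
    linarith

end Pool.Agent.SignedQ
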