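import Pool.Agent.Lib.MP_cf17a0_co.Mg.G095

/-! # Upper bounds for the error term, and the decomposition of `G k` -/

namespace Pool.Agent.SignedQ

open Finset PowerSeries

/-- The coefficients of `f` are bounded by `C (N + 1) ^ r`. -/
def Gr (r : ℕ) (C : ℚ) (f : PowerSeries ℚ) : Prop := ∀ N : ℕ, |coeff N f| ≤ C * ((N : ℚ) + 1) ^ r

theorem abs_le_sum {f g : PowerSeries ℚ} {L : ℕ} (hL : 1 ≤ L) (h : f = g + X ^ L * f) (N : ℕ) :
    |coeff N f| ≤ ∑ j ∈ range (N + 1), |coeff j g| := by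
  induction N using Nat.strong_induction_on with
  | _ N ih =>
    rw [h, map_add, coeff_X_pow_mul']
    refine (abs_add_le _ _).trans ?_
    rw [sum_range_succ, add_comm]
    refine add_le_add ?_ le_rfl
    split
    · rename_i hLN
      refine (ih (N - L) (by omega)).trans ?_
      refine sum_le_sum_of_subset_of_nonneg ?_ fun _ _ _ => abs_nonneg _
      intro i hi
      rw [mem_range] at *
      omega
    · rw [abs_zero]
      exact sum_nonneg fun _ _ => abs_nonneg _

theorem Gr.div {f g : PowerSeries ℚ} {L r : ℕ} {C : ℚ} (hC : 0 ≤ C) (hL : 1 ≤ L)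
    (hg : Gr r C g) (h : f = g + X ^ L * f) : Gr (r + 1) C f := by
  intro N
  refine (abs_le_sum hL h N).trans ?_
  have : ∀ j ∈ range (N + 1), |coeff j g| ≤ C * ((N : ℚ) + 1) ^ r := by
    intro j hj
    rw [mem_range] at hj
    refine (hg j).trans ?_
    refine mul_le_mul_of_nonneg_left ?_ hC
    refine pow_le_pow_left₀ (by positivity) ?_ r
    have : (j : ℚ) ≤ N := by exact_mod_cast Nat.lt_succ_iff.1 hj
    linarith
  refine (sum_le_sum this).trans (le_of_eq ?_)
  rw [sum_const, card_range, nsmul_eq_mul]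
  push_cast
  ring

theorem Gr.mul_factor {f : PowerSeries ℚ} {r : ℕ} {C : ℚ} (hC : 0 ≤ C) (hf : Gr r C f) (B : ℕ) :
    Gr r (2 * C) (f * (1 - (-X) ^ B)) := by
  intro N
  have e : f * (1 - (-X) ^ B) = f - (PowerSeries.C ((-1 : ℚ) ^ B)) * (f * X ^ B) := by
    rw [neg_pow, mul_sub, mul_one, map_pow, map_neg, map_one]
    ring
  rw [e, map_sub, coeff_C_mul, coeff_mul_X_pow']
  refine (abs_sub _ _).trans ?_
  rw [abs_mul, abs_pow, abs_neg, abs_one, one_pow, one_mul]
  have h1 := hf N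
  have h2 : |if B ≤ N then coeff (N - B) f else 0| ≤ C * ((N : ℚ) + 1) ^ r := by
    split
    · refine (hf (N - B)).trans ?_
      refine mul_le_mul_of_nonneg_left ?_ hC
      refine pow_le_pow_left₀ (by positivity) ?_ r
      have : ((N - B : ℕ) : ℚ) ≤ N := by exact_mod_cast Nat.sub_le N B
      linarith
    · rw [abs_zero]; positivity
  linarith

theorem Gr.mul_prod {f : PowerSeries ℚ} {r : ℕ} {C : ℚ} (hC : 0 ≤ C) (hf : Gr r C f)
    (B : ℕ → ℕ) (k : ℕ) : Gr r (2 ^ k * C) (f * ∏ v ∈ range k, (1 - (-X) ^ B v)) := by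
  induction k with
  | zero => simpa using hf
  | succ k ih =>
    rw [prod_range_succ, ← mul_assoc, pow_succ]
    have := ih.mul_factor (by positivity) (B k)
    rwa [show 2 ^ k * 2 * C = 2 * (2 ^ k * C) by ring]

/-- The geometric series `1 / (1 - X ^ L)`. -/
noncomputable def Z (L : ℕ) : PowerSeries ℚ := (1 - X ^ L)⁻¹

theorem Z_mul {L : ℕ} (hL : 1 ≤ L) : (1 - X ^ L) * Z L = 1 := by
  refine PowerSeries.mul_inv_cancel _ ?_
  have hL0 : L ≠ 0 := by omega
  rw [map_sub, map_pow, constantCoeff_X, zero_pow hL0, map_one, sub_zero]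
  exact one_ne_zero

theorem Gr_poly_Z (W : Polynomial ℚ) {L : ℕ} (hL : 1 ≤ L) :
    ∃ C : ℚ, 0 ≤ C ∧ ∀ r : ℕ, Gr r C ((W : PowerSeries ℚ) * Z L ^ (r + 1)) := by
  refine ⟨∑ j ∈ range (W.natDegree + 1), |W.coeff j|, sum_nonneg fun _ _ => abs_nonneg _,
    fun r => ?_⟩
  have hrec : ∀ g : PowerSeries ℚ, g * Z L = g + X ^ L * (g * Z L) := by
    intro g
    have := Z_mul hL
    linear_combination g * this
  induction r with
  | zero =>
    intro N
    rw [zero_add, pow_one, pow_zero, mul_one]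
    refine (abs_le_sum hL (hrec _) N).trans ?_
    have h1 : ∀ j ∈ range (N + 1), |coeff j (W : PowerSeries ℚ)| = |W.coeff j| := by
      intro j _
      rw [Polynomial.coeff_coe]
    rw [sum_congr rfl h1]
    rcases le_total (N + 1) (W.natDegree + 1) with h | h
    · exact sum_le_sum_of_subset_of_nonneg (range_subset_range.2 h) fun _ _ _ => abs_nonneg _
    · refine le_of_eq (Eq.symm (sum_subset (range_subset_range.2 h) fun j _ hj => ?_))
      rw [mem_range] at hj
      rw [Polynomial.coeff_eq_zero_of_natDegree_lt (by omega), abs_zero]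
  | succ r ih =>
    refine ih.div (sum_nonneg fun _ _ => abs_nonneg _) hL ?_
    have := hrec ((W : PowerSeries ℚ) * Z L ^ (r + 1))
    rw [pow_succ, ← mul_assoc]
    exact this

theorem str_mul (m : ℕ) : str m * (1 - X ^ 2) = 1 - X ^ (2 * m) := by
  unfold str
  simp_rw [pow_mul]
  exact geom_sum_mul_neg _ _

/-- The coercion of polynomials to power series as a ring homomorphism. -/
noncomputable def co : Polynomial ℚ →+* PowerSeries ℚ := Polynomial.coeToPowerSeries.ringHom

theorem co_X : co Polynomial.X = (X : PowerSeries ℚ) := by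
  simp [co]

theorem co_C (r : ℚ) : co (Polynomial.C r) = PowerSeries.C r := by
  simp [co]

theorem co_apply (p : Polynomial ℚ) : co p = (p : PowerSeries ℚ) := by
  simp [co]

theorem co_poch (k : ℕ) : co (poch (-Polynomial.X) k) = poch (-X) k := by
  unfold poch
  rw [map_prod]
  refine prod_congr rfl fun i _ => ?_
  rw [map_sub, map_one, map_pow, map_neg, co_X]

theorem poch_eq (k : ℕ) : poch (-Polynomial.X : Polynomial ℚ) k =
    (1 - Polynomial.X ^ 2) ^ (k / 2) * (1 + Polynomial.X) ^ ((k + 1) / 2) * Df k := by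
  induction k with
  | zero => simp [poch, Df]
  | succ k ih =>
    rw [poch_succ, ih, ← cf_mul_df]
    have h1 : Df (k + 1) = Df k * df (k + 1) := by unfold Df; rw [prod_range_succ]
    rw [h1]
    unfold cf
    split
    · rename_i h
      have e1 : (k + 1) / 2 = k / 2 + 1 := by
        rw [Nat.even_iff] at h; omega
      have e2 : (k + 1 + 1) / 2 = (k + 1) / 2 := by
        rw [Nat.even_iff] at h; omega
      rw [e2, e1, pow_succ]
      ring
    · rename_i h
      have e1 : (k + 1) / 2 = k / 2 := by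
        rw [Nat.not_even_iff] at h; omega
      have e2 : (k + 1 + 1) / 2 = (k + 1) / 2 + 1 := by
        rw [Nat.not_even_iff] at h; omega
      rw [e2, pow_succ, e1]
      ring

theorem G_mul (k : ℕ) : G k * ((1 - X ^ 2) ^ (k / 2) * co (Df k)) = 1 := by
  have h1 := poch_mul_I k
  rw [← co_poch, poch_eq, map_mul, map_mul, map_pow, map_pow, map_sub, map_add, map_one, map_pow,
    co_X] at h1
  unfold G
  linear_combination h1

/-- The decomposition of `G k`. -/
theorem G_decomp (k : ℕ) (hk : 4 ≤ k) : ∃ (α β : ℚ) (W : Polynomial ℚ) (L : ℕ), 0 < α ∧ 0 < β ∧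
    1 ≤ L ∧ G k = (PowerSeries.C α + PowerSeries.C β * X) * Z 2 ^ (k / 2) +
      (W : PowerSeries ℚ) * Z L ^ (k / 2 - 1) := by
  obtain ⟨α, β, V, U, hα, hβ, h⟩ := frac k (by omega) (k / 2) (by omega)
  set L := 2 * k.factorial with hL
  have hL1 : 1 ≤ L := by have := k.factorial_pos; omega
  obtain ⟨j, p, hp, hkj⟩ : ∃ j p, p ≤ 1 ∧ k = 2 * j + 4 + p := ⟨k / 2 - 2, k % 2, by omega, by omega⟩
  have hdvd : Df k ∣ (1 - (Polynomial.X : Polynomial ℚ) ^ L) ^ (j + 1) := by
    rw [hkj]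
    refine Df_dvd j p L hp fun v hv => ?_
    rw [mem_Icc] at hv
    rw [hL]
    exact Nat.mul_dvd_mul_left 2 (Nat.dvd_factorial (by omega) (by omega))
  obtain ⟨D', hD'⟩ := hdvd
  have hj : k / 2 = j + 2 := by omega
  rw [hj] at h ⊢
  have hG := G_mul k
  rw [hj] at hG
  have hZ2 : (1 - X ^ 2 : PowerSeries ℚ) * Z 2 = 1 := Z_mul (by norm_num)
  have hZL : (1 - X ^ L : PowerSeries ℚ) * Z L = 1 := Z_mul hL1
  -- Z 2 = str (L/2) * Z L
  have hstr : Z 2 = str k.factorial * Z L := by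
    have h1 := str_mul k.factorial
    rw [← hL] at h1
    calc Z 2 = Z 2 * ((1 - X ^ L) * Z L) := by rw [hZL, mul_one]
      _ = Z 2 * ((str k.factorial * (1 - X ^ 2)) * Z L) := by rw [h1]
      _ = (str k.factorial * Z L) * ((1 - X ^ 2) * Z 2) := by ring
      _ = _ := by rw [hZ2, mul_one]
  have hco : co (∑ i ∈ range k.factorial, Polynomial.X ^ (2 * i)) = str k.factorial := by
    unfold str
    rw [map_sum]
    refine sum_congr rfl fun i _ => ?_
    rw [map_pow, co_X]
  refine ⟨α, β, V * (∑ i ∈ range k.factorial, Polynomial.X ^ (2 * i)) ^ (j + 1) + U * D', L,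
    hα, hβ, hL1, ?_⟩
  have e1 : j + 2 - 1 = j + 1 := by omega
  rw [e1, ← co_apply, map_add, map_mul, map_mul, map_pow, hco]
  -- the identity of `frac` in power series
  have h' := congrArg co h
  have hD'' := congrArg co hD'
  simp only [map_add, map_mul, map_pow, map_sub, map_one, co_X, co_C] at h' hD''
  have hp2 : (1 - X ^ 2 : PowerSeries ℚ) ^ (j + 2) * Z 2 ^ (j + 2) = 1 := by
    rw [← mul_pow, hZ2, one_pow]
  have hpL : (1 - X ^ L : PowerSeries ℚ) ^ (j + 1) * Z L ^ (j + 1) = 1 := by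
    rw [← mul_pow, hZL, one_pow]
  -- G * Df = Z 2 ^ (j + 2)
  have hGD : G k * co (Df k) = Z 2 ^ (j + 2) := by
    calc G k * co (Df k) = G k * co (Df k) * ((1 - X ^ 2) ^ (j + 2) * Z 2 ^ (j + 2)) := by
          rw [hp2, mul_one]
      _ = (G k * ((1 - X ^ 2) ^ (j + 2) * co (Df k))) * Z 2 ^ (j + 2) := by ring
      _ = _ := by rw [hG, one_mul]
  have hGU : G k * (1 - X ^ 2) ^ (j + 2) = co D' * Z L ^ (j + 1) := by
    calc G k * (1 - X ^ 2) ^ (j + 2) = G k * (1 - X ^ 2) ^ (j + 2) *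
          ((1 - X ^ L : PowerSeries ℚ) ^ (j + 1) * Z L ^ (j + 1)) := by rw [hpL, mul_one]
      _ = (G k * ((1 - X ^ 2) ^ (j + 2) * co (Df k))) * (co D' * Z L ^ (j + 1)) := by
          rw [hD'']; ring
      _ = _ := by rw [hG, one_mul]
  have hV : (1 - X ^ 2) * Z 2 ^ (j + 2) = str k.factorial ^ (j + 1) * Z L ^ (j + 1) := by
    calc (1 - X ^ 2) * Z 2 ^ (j + 2) = ((1 - X ^ 2) * Z 2) * Z 2 ^ (j + 1) := by ring
      _ = _ := by rw [hZ2, one_mul, hstr, mul_pow]
  calc G k = G k * ((PowerSeries.C α + PowerSeries.C β * X) * co (Df k) +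
        co V * (1 - X ^ 2) * co (Df k) + co U * (1 - X ^ 2) ^ (j + 2)) := by rw [h', mul_one]
    _ = (PowerSeries.C α + PowerSeries.C β * X) * (G k * co (Df k)) +
        co V * ((1 - X ^ 2) * (G k * co (Df k))) + co U * (G k * (1 - X ^ 2) ^ (j + 2)) := by ring
    _ = _ := by rw [hGD, hGU, hV]; ring

end Pool.Agent.SignedQ
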