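/-!
# Kernel checks of the signed `q`-product: the functions

This file imports nothing, so that the files with the checks load quickly.
Truncated power series over `ℤ` are stored as residues modulo `2^(B*M)` (Kronecker substitution
`q ↦ 2^B`).  Everything is written with `Nat.rec` and the GMP accelerated operations.
-/

set_option autoImplicit false

namespace Pool.Agent.SignedQ.KB

noncomputable section

/-- multiply by `1 + 2^sh` modulo `mask + 1` -/
def mulP (mask sh c : Nat) : Nat := Nat.land (Nat.add c (Nat.shiftLeft c sh)) mask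

/-- multiply by `1 - 2^sh` modulo `mask + 1` -/
def mulM (mask sh c : Nat) : Nat :=
  Nat.land (Nat.add c (Nat.sub (Nat.succ mask) (Nat.land (Nat.shiftLeft c sh) mask))) mask

/-- multiply by `1/(1 - 2^sh)` modulo `2^W`: the product `(1+2^sh)(1+2^(2sh))...` -/
def divM (W mask : Nat) (fuel : Nat) : Nat → Nat → Nat :=
  Nat.rec (fun _ acc => acc)
    (fun _ ih sh acc =>
      Bool.rec acc (ih (Nat.mul 2 sh) (mulP mask sh acc)) (Nat.ble (Nat.succ sh) W)) fuel

/-- divide by `1 - x^j`, `x = -q` -/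
def divF (B W mask j acc : Nat) : Nat :=
  Bool.rec (divM W mask 20 (Nat.mul B (Nat.mul 2 j)) (mulM mask (Nat.mul B j) acc))
    (divM W mask 20 (Nat.mul B j) acc) (Nat.beq (Nat.mod j 2) 0)

/-- multiply by `1 - x^b` -/
def mulF (B W mask b acc : Nat) : Nat :=
  Bool.rec acc (Bool.rec (mulP mask (Nat.mul B b) acc) (mulM mask (Nat.mul B b) acc)
    (Nat.beq (Nat.mod b 2) 0)) (Nat.ble (Nat.succ (Nat.mul B b)) W)

/-- the residue of `F_k = (1+q)^⌈k/2⌉ / ∏ (1 - x^j)` -/
def FK (B W mask k : Nat) : Nat :=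
  Nat.rec 1 (fun j acc => divF B W mask (Nat.succ j)
    (Bool.rec acc (mulP mask B acc) (Nat.beq (Nat.mod j 2) 0))) k

/-- multiply by the numerators -/
def numer (n a B W mask k c : Nat) : Nat :=
  Nat.rec c (fun j acc => mulF B W mask (Nat.mul a (Nat.add n (Nat.succ j))) acc) k

/-- the number of coefficients which have to be checked (half degree) -/
def half1 (n k a : Nat) : Nat := Nat.succ (Nat.div (Nat.add (Nat.div (Nat.succ k) 2)
  (Nat.div (Nat.add (Nat.mul 2 (Nat.mul a (Nat.mul n k)))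
    (Nat.mul (Nat.sub a 1) (Nat.mul k (Nat.succ k)))) 2)) 2)

/-- `2^W - 1` -/
def msk (W : Nat) : Nat := Nat.sub (Nat.pow 2 W) 1

/-- the step from `f_{n+1}` to `f_n` -/
def dn (k B W mask a n c : Nat) : Nat :=
  divF B W mask (Nat.mul a (Nat.add n (Nat.succ k))) (mulF B W mask (Nat.mul a (Nat.succ n)) c)

/-- the residue of `f_{N-d,k,a}` modulo `2^(B * half1 (N-d) k a)` -/
def res (k B Mx a N : Nat) (d : Nat) : Nat :=
  Nat.rec (numer N a B (Nat.mul B (half1 N k a)) (msk (Nat.mul B (half1 N k a))) k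
      (Nat.land (FK B (Nat.mul B Mx) (msk (Nat.mul B Mx)) k) (msk (Nat.mul B (half1 N k a)))))
    (fun d acc => dn k B (Nat.mul B (half1 (Nat.sub N (Nat.succ d)) k a))
      (msk (Nat.mul B (half1 (Nat.sub N (Nat.succ d)) k a))) a (Nat.sub N (Nat.succ d))
      (Nat.land acc (msk (Nat.mul B (half1 (Nat.sub N (Nat.succ d)) k a))))) d

/-- the upper `k+1` bits of all digits -/
def pat (k B M : Nat) : Nat :=
  Nat.mul (Nat.div (msk (Nat.mul B M)) (msk B)) (Nat.sub (Nat.pow 2 B)
    (Nat.pow 2 (Nat.sub (Nat.sub B k) 1)))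

/-- all `n` in `(N - cnt, N]` with `n k` even -/
def fdn (k B Mx a N : Nat) (cnt : Nat) : Bool :=
  Nat.rec true (fun d ih => Bool.rec false
    (Bool.rec (Nat.beq (Nat.land (res k B Mx a N d) (pat k B Mx)) 0) true
      (Nat.beq (Nat.mod (Nat.mul (Nat.sub N d) k) 2) 1)) ih) cnt

/-- a row: `(a, n0, cnt, B, Mx)` -/
def rowok (k : Nat) (r : Nat × Nat × Nat × Nat × Nat) : Bool :=
  Bool.rec false (Bool.rec false (Bool.rec false (Bool.rec false
      (fdn k r.2.2.2.1 r.2.2.2.2 r.1 (Nat.sub (Nat.add r.2.1 r.2.2.1) 1) r.2.2.1)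
        (Nat.ble 1 r.2.2.1))
      (Nat.ble (half1 (Nat.sub (Nat.add r.2.1 r.2.2.1) 1) k r.1) r.2.2.2.2))
    (Nat.ble r.2.2.2.2 1048576)) (Nat.ble (k + (k + 1) / 2 + 2) r.2.2.2.1)

/-- all rows of a list -/
def rowsok (k : Nat) (l : List (Nat × Nat × Nat × Nat × Nat)) : Bool :=
  List.rec true (fun r _ ih => Bool.rec false ih (rowok k r)) l

/-- how far the rows with first entry `a` cover `[0, ·)` -/
def reach (a : Nat) (l : List (Nat × Nat × Nat × Nat × Nat)) (cur : Nat) : Nat :=
  match l with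
  | [] => cur
  | r :: l => reach a l (if r.1 = a ∧ r.2.1 ≤ cur ∧ cur < r.2.1 + r.2.2.1 then r.2.1 + r.2.2.1 else cur)

/-- the rows cover all odd `a ≥ 3` and all `n` with `a (n + c) < T` -/
def covers (c T A : Nat) (l : List (Nat × Nat × Nat × Nat × Nat)) : Bool :=
  Nat.ble T ((2 * A + 3) * c) && (List.range A).all fun i => Nat.ble T ((2 * i + 3) * (reach (2 * i + 3) l 0 + c))

end

theorem rowsok_append {k : Nat} {l l' : List (Nat × Nat × Nat × Nat × Nat)}
    (h : rowsok k l = true) (h' : rowsok k l' = true) : rowsok k (l ++ l') = true := by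
  induction l with
  | nil => exact h'
  | cons q l ih =>
    have h1 : (Bool.rec false (rowsok k l) (rowok k q) : Bool) = true := h
    show (Bool.rec false (rowsok k (l ++ l')) (rowok k q) : Bool) = true
    cases hb : rowok k q with
    | false => rw [hb] at h1; exact absurd h1 (by simp)
    | true =>
      rw [hb] at h1
      exact ih h1

end Pool.Agent.SignedQ.KB
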