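import Mathlib

/-!
# Kernel check of the low coefficients of the signed `q`-product

Truncated power series over `ℤ` are stored as residues modulo `2^(B*M)` (Kronecker substitution
`q ↦ 2^B`).  Everything is written with `Nat.rec` and the GMP accelerated operations.
-/

set_option autoImplicit false

namespace Pool.Agent.SignedQ.KC

open PowerSeries Finset

noncomputable section

/-- evaluate `n` first, then pass it on -/
def force {α : Type} (n : ℕ) (f : ℕ → α) : α :=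
  Nat.rec (f 0) (fun m _ => f (Nat.succ m)) n

/-- multiply by `1 + 2^sh` modulo `mask + 1` -/
def mulP (mask sh acc : ℕ) : ℕ :=
  force acc fun c => Nat.land (Nat.add c (Nat.shiftLeft c sh)) mask

/-- multiply by `1 - 2^sh` modulo `mask + 1` -/
def mulM (mask sh acc : ℕ) : ℕ :=
  force acc fun c =>
    Nat.land (Nat.add c (Nat.sub (Nat.succ mask) (Nat.land (Nat.shiftLeft c sh) mask))) mask

/-- multiply by `1/(1 - 2^sh)` modulo `2^W`: the product `(1+2^sh)(1+2^(2sh))...` -/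
def divM (W mask : ℕ) (fuel : ℕ) : ℕ → ℕ → ℕ :=
  Nat.rec (fun _ acc => acc)
    (fun _ ih sh acc =>
      Bool.rec acc (ih (Nat.mul 2 sh) (mulP mask sh acc)) (Nat.ble (Nat.succ sh) W)) fuel

/-- divide by `1 - x^j`, `x = -q` -/
def divF (B W mask j acc : ℕ) : ℕ :=
  Bool.rec (divM W mask 20 (Nat.mul B (Nat.mul 2 j)) (mulM mask (Nat.mul B j) acc))
    (divM W mask 20 (Nat.mul B j) acc) (Nat.beq (Nat.mod j 2) 0)

/-- multiply by `1 - x^b` -/
def mulF (B W mask b acc : ℕ) : ℕ :=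
  Bool.rec acc (Bool.rec (mulP mask (Nat.mul B b) acc) (mulM mask (Nat.mul B b) acc)
    (Nat.beq (Nat.mod b 2) 0)) (Nat.ble (Nat.succ (Nat.mul B b)) W)

/-- the step from `f_{n,k}` to `f_{n,k+1}` -/
def stp (n a B W mask k acc : ℕ) : ℕ :=
  divF B W mask (Nat.succ k) (mulF B W mask (Nat.mul a (Nat.add n (Nat.succ k)))
    (Bool.rec acc (mulP mask B acc) (Nat.beq (Nat.mod k 2) 0)))

/-- chain over `k`; at each admissible `k ≥ 4` the sign bits must vanish -/
def chain (n a B W mask sgn : ℕ) (fuel : ℕ) : ℕ → ℕ → Bool :=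
  Nat.rec (fun _ _ => true)
    (fun _ ih k acc =>
      force acc fun c =>
      Bool.rec false (ih (Nat.succ k) (stp n a B W mask k c))
        (Bool.rec (Bool.rec true (Nat.beq (Nat.land c sgn) 0)
          (Nat.beq (Nat.mod (Nat.mul n k) 2) 0)) true (Nat.ble k 3))) fuel

/-- the check for one pair `(n, a)`, all `k < K`, coefficients below `M`, digits of `B` bits -/
def run (n a B M K : ℕ) : Bool :=
  chain n a B (B * M) (2 ^ (B * M) - 1) ((2 ^ (B * M) - 1) / (2 ^ B - 1) * 2 ^ (B - 1)) K 0 1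

theorem force_eq {α : Type} (n : ℕ) (f : ℕ → α) : force n f = f n := by
  cases n <;> rfl

theorem mulP_eq (W sh acc : ℕ) : mulP (2 ^ W - 1) sh acc = (acc + acc * 2 ^ sh) % 2 ^ W := by
  unfold mulP
  rw [force_eq]
  show (acc + acc <<< sh) &&& (2 ^ W - 1) = _
  rw [Nat.and_two_pow_sub_one_eq_mod, Nat.shiftLeft_eq]

theorem mulM_eq (W sh acc : ℕ) :
    mulM (2 ^ W - 1) sh acc = (acc + (2 ^ W - (acc * 2 ^ sh) % 2 ^ W)) % 2 ^ W := by
  unfold mulM
  rw [force_eq]
  show (acc + ((2 ^ W - 1) + 1 - ((acc <<< sh) &&& (2 ^ W - 1)))) &&& (2 ^ W - 1) = _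
  rw [Nat.and_two_pow_sub_one_eq_mod, Nat.and_two_pow_sub_one_eq_mod, Nat.shiftLeft_eq,
    Nat.sub_add_cancel Nat.one_le_two_pow]

/-- truncated evaluation -/
def ev (M : ℕ) (Y : ℤ) (P : ℤ⟦X⟧) : ℤ := ∑ i ∈ range M, coeff i P * Y ^ i

theorem ev_add (M : ℕ) (Y : ℤ) (P Q : ℤ⟦X⟧) : ev M Y (P + Q) = ev M Y P + ev M Y Q := by
  unfold ev
  rw [← sum_add_distrib]
  exact sum_congr rfl fun i _ => by rw [map_add]; ring

theorem ev_sub (M : ℕ) (Y : ℤ) (P Q : ℤ⟦X⟧) : ev M Y (P - Q) = ev M Y P - ev M Y Q := by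
  unfold ev
  rw [← sum_sub_distrib]
  exact sum_congr rfl fun i _ => by rw [map_sub]; ring

theorem ev_mul_X (M : ℕ) (Y : ℤ) (P : ℤ⟦X⟧) : Y ^ M ∣ ev M Y (P * X) - Y * ev M Y P := by
  cases M with
  | zero => simp
  | succ M =>
    refine ⟨-coeff M P, ?_⟩
    unfold ev
    rw [sum_range_succ', sum_range_succ _ M, coeff_zero_mul_X]
    have : ∀ i ∈ range M, coeff (i + 1) (P * X) * Y ^ (i + 1) = Y * (coeff i P * Y ^ i) := by
      intro i _
      rw [coeff_succ_mul_X]; ring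
    rw [sum_congr rfl this, ← mul_sum]
    ring

theorem ev_mul_X_pow (M : ℕ) (Y : ℤ) (P : ℤ⟦X⟧) (s : ℕ) :
    Y ^ M ∣ ev M Y (P * X ^ s) - Y ^ s * ev M Y P := by
  induction s with
  | zero => simp
  | succ s ih =>
    have h1 := ev_mul_X M Y (P * X ^ s)
    have h2 := ih.mul_left Y
    have h3 := h1.add h2
    have e : ev M Y (P * X ^ (s + 1)) - Y ^ (s + 1) * ev M Y P =
        ev M Y (P * X ^ s * X) - Y * ev M Y (P * X ^ s) +
          Y * (ev M Y (P * X ^ s) - Y ^ s * ev M Y P) := by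
      rw [pow_succ X s, ← mul_assoc]
      ring
    rw [e]
    exact h3

/-- `S` represents `P` modulo `q^M` -/
def Rep (B M : ℕ) (S : ℕ) (P : ℤ⟦X⟧) : Prop :=
  (((2 : ℤ) ^ B) ^ M) ∣ (S : ℤ) - ev M (2 ^ B) P

theorem Rep.congr {B M S : ℕ} {P Q : ℤ⟦X⟧} (h : Rep B M S P)
    (hPQ : ∀ i < M, coeff i P = coeff i Q) : Rep B M S Q := by
  unfold Rep at *
  have : ev M (2 ^ B) P = ev M (2 ^ B) Q :=
    sum_congr rfl fun i hi => by rw [hPQ i (mem_range.1 hi)]
  rwa [← this]

theorem Rep.mulP {B M S : ℕ} {P : ℤ⟦X⟧} (h : Rep B M S P) (s : ℕ) :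
    Rep B M (mulP (2 ^ (B * M) - 1) (B * s) S) (P * (1 + X ^ s)) := by
  unfold Rep at *
  rw [mulP_eq]
  have h1 := ev_mul_X_pow M (2 ^ B) P s
  have h2 : (((2 : ℤ) ^ B) ^ M) ∣ ((S + S * 2 ^ (B * s)) % 2 ^ (B * M) : ℕ) -
      ((S : ℤ) + S * (2 ^ B) ^ s) := by
    have := Int.emod_emod_of_dvd (((S + S * 2 ^ (B * s) : ℕ) : ℤ))
      (dvd_refl (((2 : ℤ) ^ (B * M))))
    have h4 : (((S + S * 2 ^ (B * s)) % 2 ^ (B * M) : ℕ) : ℤ) =
        ((S : ℤ) + S * (2 ^ B) ^ s) % (2 ^ B) ^ M := by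
      push_cast
      rw [pow_mul, pow_mul]
    rw [h4]
    exact (Int.dvd_sub_self_of_emod_eq rfl)
  have h3 : ev M (2 ^ B) (P * (1 + X ^ s)) = ev M (2 ^ B) P + ev M (2 ^ B) (P * X ^ s) := by
    rw [mul_add, mul_one, ev_add]
  rw [h3]
  have h5 := (h.mul_left (1 + (2 ^ B) ^ s)).sub h1
  have h6 := h2.add h5
  refine (Eq.mp (congrArg _ ?_) h6)
  ring

theorem Rep.mulM {B M S : ℕ} {P : ℤ⟦X⟧} (h : Rep B M S P) (s : ℕ) :
    Rep B M (mulM (2 ^ (B * M) - 1) (B * s) S) (P * (1 - X ^ s)) := by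
  unfold Rep at *
  rw [mulM_eq]
  have h1 := ev_mul_X_pow M (2 ^ B) P s
  have h2 : (((2 : ℤ) ^ B) ^ M) ∣
      ((S + (2 ^ (B * M) - (S * 2 ^ (B * s)) % 2 ^ (B * M))) % 2 ^ (B * M) : ℕ) -
      ((S : ℤ) - S * (2 ^ B) ^ s) := by
    have hlt : (S * 2 ^ (B * s)) % 2 ^ (B * M) ≤ 2 ^ (B * M) :=
      (Nat.mod_lt _ (by positivity)).le
    have h4 : (((S + (2 ^ (B * M) - (S * 2 ^ (B * s)) % 2 ^ (B * M))) % 2 ^ (B * M) : ℕ) : ℤ) =
        ((S : ℤ) + ((2 ^ B) ^ M - (S * (2 ^ B) ^ s) % (2 ^ B) ^ M)) % (2 ^ B) ^ M := by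
      push_cast [Nat.cast_sub hlt]
      rw [pow_mul, pow_mul]
    rw [h4]
    set Z : ℤ := (2 ^ B) ^ M
    have e1 : Z ∣ ((S : ℤ) + (Z - (S * (2 ^ B) ^ s) % Z)) % Z -
        ((S : ℤ) + (Z - (S * (2 ^ B) ^ s) % Z)) := Int.dvd_sub_self_of_emod_eq rfl
    have e2 : Z ∣ (S * (2 ^ B) ^ s : ℤ) % Z - (S * (2 ^ B) ^ s : ℤ) :=
      Int.dvd_sub_self_of_emod_eq rfl
    have e3 := (e1.sub e2).add (dvd_refl Z)
    refine (Eq.mp (congrArg _ ?_) e3)
    ring
  have h3 : ev M (2 ^ B) (P * (1 - X ^ s)) = ev M (2 ^ B) P - ev M (2 ^ B) (P * X ^ s) := by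
    rw [mul_sub, mul_one, ev_sub]
  rw [h3]
  have h5 := (h.mul_left (1 - (2 ^ B) ^ s)).add h1
  have h6 := h2.add h5
  refine (Eq.mp (congrArg _ ?_) h6)
  ring

theorem coeff_mul_one_sub (P : ℤ⟦X⟧) (s i : ℕ) (h : i < s) :
    coeff i (P * (1 - X ^ s)) = coeff i P := by
  rw [mul_sub, mul_one, map_sub, coeff_mul_X_pow', if_neg (by omega), sub_zero]

theorem Rep.divM {B M : ℕ} (hB : 1 ≤ B) (fuel : ℕ) : ∀ {s S : ℕ} {P P' : ℤ⟦X⟧},
    Rep B M S P → P' * (1 - X ^ s) = P → M ≤ s * 2 ^ fuel →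
    Rep B M (divM (B * M) (2 ^ (B * M) - 1) fuel (B * s) S) P' := by
  induction fuel with
  | zero =>
    intro s S P P' h hP hs
    refine h.congr fun i hi => ?_
    rw [← hP]
    exact coeff_mul_one_sub P' s i (by omega)
  | succ fuel ih =>
    intro s S P P' h hP hs
    show Rep B M (Bool.rec S (KC.divM (B * M) (2 ^ (B * M) - 1) fuel (2 * (B * s))
      (KC.mulP (2 ^ (B * M) - 1) (B * s) S)) (Nat.ble (Nat.succ (B * s)) (B * M))) P'
    cases hb : Nat.ble (Nat.succ (B * s)) (B * M) with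
    | false =>
      have hb' : ¬ (B * s + 1 ≤ B * M) := by
        intro h1
        rw [Nat.ble_eq_true_of_le h1] at hb
        exact Bool.noConfusion hb
      have : M ≤ s := by
        by_contra h2
        have h3 : s + 1 ≤ M := by omega
        have h4 := Nat.mul_le_mul_left B h3
        rw [Nat.mul_add, Nat.mul_one] at h4
        omega
      refine h.congr fun i hi => ?_
      rw [← hP]
      exact coeff_mul_one_sub P' s i (by omega)
    | true =>
      have e : 2 * (B * s) = B * (2 * s) := by ring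
      show Rep B M (KC.divM (B * M) (2 ^ (B * M) - 1) fuel (2 * (B * s))
        (KC.mulP (2 ^ (B * M) - 1) (B * s) S)) P'
      rw [e]
      refine ih (h.mulP s) ?_ ?_
      · rw [← hP, mul_assoc]
        congr 1
        rw [two_mul, pow_add]
        ring
      · rw [pow_succ] at hs
        calc M ≤ s * (2 ^ fuel * 2) := hs
          _ = 2 * s * 2 ^ fuel := by ring


/-- `1/(1 - (-q)^j)` -/
def gi (j : ℕ) : ℤ⟦X⟧ := invOfUnit (1 - (-X) ^ j) 1

theorem gi_mul {j : ℕ} (hj : 1 ≤ j) : (1 - (-X : ℤ⟦X⟧) ^ j) * gi j = 1 := by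
  refine mul_invOfUnit _ _ ?_
  rw [map_sub, map_pow, map_neg, map_one, constantCoeff_X, neg_zero, zero_pow (by omega), sub_zero,
    Units.val_one]

theorem neg_pow_even' {j : ℕ} (h : j % 2 = 0) : (-X : ℤ⟦X⟧) ^ j = X ^ j :=
  Even.neg_pow (Nat.even_iff.2 h) X

theorem neg_pow_odd' {j : ℕ} (h : j % 2 = 1) : (-X : ℤ⟦X⟧) ^ j = -X ^ j :=
  Odd.neg_pow (Nat.odd_iff.2 h) X

theorem Rep.divF {B M S j : ℕ} {P : ℤ⟦X⟧} (hB : 1 ≤ B) (hM : M ≤ 2 ^ 20) (hj : 1 ≤ j)
    (h : Rep B M S P) : Rep B M (divF B (B * M) (2 ^ (B * M) - 1) j S) (P * gi j) := by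
  have hg := gi_mul hj
  unfold KC.divF
  cases hb : Nat.beq (Nat.mod j 2) 0 with
  | true =>
    have hj2 : j % 2 = 0 := Nat.eq_of_beq_eq_true hb
    rw [neg_pow_even' hj2] at hg
    refine Rep.divM hB 20 h (P := P) ?_ ?_
    · rw [mul_assoc, mul_comm (gi j), hg, mul_one]
    · nlinarith [Nat.pos_of_ne_zero (by positivity : (2:ℕ) ^ 20 ≠ 0)]
  | false =>
    have hj2 : j % 2 = 1 := by
      have : ¬ j % 2 = 0 := Nat.ne_of_beq_eq_false hb
      omega
    rw [neg_pow_odd' hj2, sub_neg_eq_add] at hg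
    refine Rep.divM hB 20 (h.mulM j) ?_ ?_
    · have : (1 - X ^ (2 * j) : ℤ⟦X⟧) = (1 + X ^ j) * (1 - X ^ j) := by
        rw [two_mul, pow_add]; ring
      rw [Nat.mul_eq, this]
      calc P * gi j * ((1 + X ^ j) * (1 - X ^ j)) = P * ((1 + X ^ j) * gi j) * (1 - X ^ j) := by
            ring
        _ = _ := by rw [hg, mul_one]
    · rw [Nat.mul_eq]
      nlinarith [Nat.pos_of_ne_zero (by positivity : (2:ℕ) ^ 20 ≠ 0)]

theorem Rep.mulF {B M S b : ℕ} {P : ℤ⟦X⟧} (hB : 1 ≤ B) (h : Rep B M S P) :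
    Rep B M (mulF B (B * M) (2 ^ (B * M) - 1) b S) (P * (1 - (-X) ^ b)) := by
  unfold KC.mulF
  cases hb : Nat.ble (Nat.succ (Nat.mul B b)) (B * M) with
  | false =>
    have hb' : ¬ (B * b + 1 ≤ B * M) := by
      intro h1
      rw [Nat.mul_eq, Nat.ble_eq_true_of_le h1] at hb
      exact Bool.noConfusion hb
    have hbM : M ≤ b := by
      by_contra h2
      have h3 : b + 1 ≤ M := by omega
      have h4 := Nat.mul_le_mul_left B h3
      rw [Nat.mul_add, Nat.mul_one] at h4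
      omega
    refine h.congr fun i hi => ?_
    rcases Nat.mod_two_eq_zero_or_one b with h2 | h2
    · rw [neg_pow_even' h2]
      exact (coeff_mul_one_sub P b i (by omega)).symm
    · rw [neg_pow_odd' h2, sub_neg_eq_add, mul_add, mul_one, map_add, coeff_mul_X_pow',
        if_neg (by omega), add_zero]
  | true =>
    cases hc : Nat.beq (Nat.mod b 2) 0 with
    | true =>
      have hj2 : b % 2 = 0 := Nat.eq_of_beq_eq_true hc
      rw [neg_pow_even' hj2]
      exact h.mulM b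
    | false =>
      have hj2 : b % 2 = 1 := by
        have : ¬ b % 2 = 0 := Nat.ne_of_beq_eq_false hc
        omega
      rw [neg_pow_odd' hj2, sub_neg_eq_add]
      exact h.mulP b

/-- the series `f_{n,k,a}` over `ℤ` -/
def fs (n a : ℕ) : ℕ → ℤ⟦X⟧
  | 0 => 1
  | k + 1 => (if k % 2 = 0 then fs n a k * (1 + X) else fs n a k) *
      (1 - (-X) ^ (a * (n + (k + 1)))) * gi (k + 1)

theorem Rep.stp {B M S n a k : ℕ} (hB : 1 ≤ B) (hM : M ≤ 2 ^ 20) (h : Rep B M S (fs n a k)) :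
    Rep B M (stp n a B (B * M) (2 ^ (B * M) - 1) k S) (fs n a (k + 1)) := by
  unfold KC.stp
  have h1 : Rep B M (Bool.rec S (KC.mulP (2 ^ (B * M) - 1) B S) (Nat.beq (Nat.mod k 2) 0))
      (if k % 2 = 0 then fs n a k * (1 + X) else fs n a k) := by
    cases hc : Nat.beq (Nat.mod k 2) 0 with
    | true =>
      have hk : k % 2 = 0 := Nat.eq_of_beq_eq_true hc
      rw [if_pos hk]
      have := h.mulP 1
      rw [mul_one, pow_one] at this
      exact this
    | false =>
      have hk : ¬ k % 2 = 0 := Nat.ne_of_beq_eq_false hc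
      rw [if_neg hk]
      exact h
  exact (h1.mulF hB (b := a * (n + (k + 1)))).divF hB hM (Nat.succ_pos k)

/-- what the chain proves -/
theorem chain_spec {B M n a sgn : ℕ} (hB : 1 ≤ B) (hM : M ≤ 2 ^ 20) (fuel : ℕ) :
    ∀ {k S : ℕ}, Rep B M S (fs n a k) →
      chain n a B (B * M) (2 ^ (B * M) - 1) sgn fuel k S = true →
      ∀ k', k ≤ k' → k' < k + fuel → 4 ≤ k' → (n * k') % 2 = 0 →
        ∃ S', Rep B M S' (fs n a k') ∧ Nat.land S' sgn = 0 := by
  induction fuel with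
  | zero =>
    intro k S _ _ k' h1 h2
    omega
  | succ fuel ih =>
    intro k S h hc k' h1 h2 h4 he
    have hc' : force S (fun c => Bool.rec false
        (chain n a B (B * M) (2 ^ (B * M) - 1) sgn fuel (Nat.succ k)
          (KC.stp n a B (B * M) (2 ^ (B * M) - 1) k c))
        (Bool.rec (Bool.rec true (Nat.beq (Nat.land c sgn) 0)
          (Nat.beq (Nat.mod (Nat.mul n k) 2) 0)) true (Nat.ble k 3))) = true := hc
    rw [force_eq] at hc'
    cases hb : (Bool.rec (Bool.rec true (Nat.beq (Nat.land S sgn) 0)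
          (Nat.beq (Nat.mod (Nat.mul n k) 2) 0)) true (Nat.ble k 3) : Bool) with
    | false =>
      rw [hb] at hc'
      exact absurd hc' (by simp)
    | true =>
      rw [hb] at hc'
      rcases Nat.eq_or_lt_of_le h1 with rfl | h1'
      · refine ⟨S, h, ?_⟩
        have h3 : Nat.ble k 3 = false := by
          cases h5 : Nat.ble k 3 with
          | false => rfl
          | true =>
            have := Nat.le_of_ble_eq_true h5
            omega
        have h6 : Nat.beq (Nat.mod (Nat.mul n k) 2) 0 = true := by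
          show Nat.beq ((n * k) % 2) 0 = true
          rw [he]; rfl
        rw [h3, h6] at hb
        exact Nat.eq_of_beq_eq_true hb
      · exact ih (h.stp hB hM) hc' k' h1' (by omega) h4 he

theorem rep_one (B M : ℕ) : Rep B M 1 1 := by
  unfold Rep ev
  cases M with
  | zero => simp
  | succ M =>
    rw [sum_range_succ']
    have : ∀ i ∈ range M, coeff (i + 1) (1 : ℤ⟦X⟧) * (2 ^ B) ^ (i + 1) = 0 := by
      intro i _
      rw [coeff_one, if_neg (by omega), zero_mul]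
    rw [sum_eq_zero this]
    simp

/-- balanced digits -/
theorem digits_nonneg (Y : ℕ) (hY : 1 ≤ Y) (M : ℕ) : ∀ (S : ℕ) (c : ℕ → ℤ),
    ((Y : ℤ) ^ M) ∣ (S : ℤ) - ∑ i ∈ range M, c i * (Y : ℤ) ^ i →
    (∀ i < M, 2 * |c i| < Y) → (∀ i < M, 2 * (S / Y ^ i % Y) < Y) → ∀ i < M, 0 ≤ c i := by
  induction M with
  | zero => intro S c _ _ _ i hi; omega
  | succ M ih =>
    intro S c h h1 h2
    have hsum : ∑ i ∈ range (M + 1), c i * (Y : ℤ) ^ i =
        c 0 + Y * ∑ i ∈ range M, c (i + 1) * (Y : ℤ) ^ i := by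
      rw [sum_range_succ', mul_sum, pow_zero, mul_one, add_comm]
      congr 1
      exact sum_congr rfl fun i _ => by ring
    rw [hsum] at h
    have hd0 := h2 0 (by omega)
    rw [pow_zero, Nat.div_one] at hd0
    have hc0 := h1 0 (by omega)
    have hS : (S : ℤ) = Y * ((S / Y : ℕ) : ℤ) + ((S % Y : ℕ) : ℤ) := by
      have := Nat.div_add_mod S Y
      exact_mod_cast this.symm
    have hdvd : (Y : ℤ) ∣ ((S % Y : ℕ) : ℤ) - c 0 := by
      have h3 : (Y : ℤ) ∣ (S : ℤ) - (c 0 + Y * ∑ i ∈ range M, c (i + 1) * (Y : ℤ) ^ i) :=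
        (dvd_pow_self _ (by omega)).trans h
      rw [hS] at h3
      have h4 : (Y : ℤ) ∣ (Y : ℤ) * (((S / Y : ℕ) : ℤ) - ∑ i ∈ range M, c (i + 1) * (Y : ℤ) ^ i) :=
        dvd_mul_right _ _
      have h5 := h3.sub h4
      refine (Eq.mp (congrArg _ ?_) h5)
      ring
    have heq : c 0 = ((S % Y : ℕ) : ℤ) := by
      have h3 : |((S % Y : ℕ) : ℤ) - c 0| < Y := by
        have e1 : |((S % Y : ℕ) : ℤ)| = ((S % Y : ℕ) : ℤ) := abs_of_nonneg (by positivity)
        have e2 := abs_sub ((S % Y : ℕ) : ℤ) (c 0)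
        have e3 : 2 * ((S % Y : ℕ) : ℤ) < Y := by exact_mod_cast hd0
        omega
      have := Int.eq_zero_of_abs_lt_dvd hdvd h3
      omega
    intro i hi
    cases i with
    | zero => rw [heq]; positivity
    | succ i =>
      refine ih (S / Y) (fun i => c (i + 1)) ?_ (fun i hi => h1 (i + 1) (by omega)) ?_ i (by omega)
      · have hYpos : (Y : ℤ) ≠ 0 := by positivity
        have h3 : (Y : ℤ) ^ M * Y ∣
            (((S / Y : ℕ) : ℤ) - ∑ i ∈ range M, c (i + 1) * (Y : ℤ) ^ i) * Y := by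
          rw [← pow_succ]
          refine (Eq.mp (congrArg _ ?_) h)
          rw [hS, heq]
          ring
        exact Int.dvd_of_mul_dvd_mul_right hYpos h3
      · intro i hi
        have := h2 (i + 1) (by omega)
        rw [Nat.div_div_eq_div_mul, ← pow_succ']
        exact this


theorem geom_div {m : ℕ} (hm : 2 ≤ m) (M i : ℕ) (hi : i < M) :
    ∃ t, ((m ^ M - 1) / (m - 1)) / m ^ i = 1 + m * t := by
  have h1 : (m ^ M - 1) / (m - 1) = ∑ k ∈ range M, m ^ k := (Nat.geomSum_eq hm M).symm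
  have h2 : ∑ k ∈ range M, m ^ k = (∑ k ∈ range i, m ^ k) + m ^ i * ∑ k ∈ range (M - i), m ^ k := by
    have : M = i + (M - i) := by omega
    conv_lhs => rw [this]
    rw [sum_range_add, mul_sum]
    congr 1
    exact sum_congr rfl fun k _ => by rw [pow_add]
  have h3 : ∑ k ∈ range i, m ^ k < m ^ i := Nat.geomSum_lt hm (fun k hk => mem_range.1 hk)
  obtain ⟨r, hr⟩ : ∃ r, M - i = r + 1 := ⟨M - i - 1, by omega⟩
  refine ⟨∑ k ∈ range r, m ^ k, ?_⟩
  rw [h1, h2, Nat.add_mul_div_left _ _ (by positivity), Nat.div_eq_of_lt h3, zero_add, hr,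
    sum_range_succ', mul_sum, pow_zero, add_comm]
  congr 1
  exact sum_congr rfl fun k _ => by rw [pow_succ']

theorem digit_of_sign {B M S : ℕ} (hB : 1 ≤ B)
    (h : Nat.land S ((2 ^ (B * M) - 1) / (2 ^ B - 1) * 2 ^ (B - 1)) = 0) :
    ∀ i < M, 2 * (S / (2 ^ B) ^ i % 2 ^ B) < 2 ^ B := by
  intro i hi
  have h2 : 2 ≤ 2 ^ B := by
    calc 2 = 2 ^ 1 := rfl
      _ ≤ 2 ^ B := Nat.pow_le_pow_right (by norm_num) hB
  have hs : (S &&& ((2 ^ (B * M) - 1) / (2 ^ B - 1) * 2 ^ (B - 1))).testBit (B * i + (B - 1)) =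
      false := by
    rw [show (S &&& ((2 ^ (B * M) - 1) / (2 ^ B - 1) * 2 ^ (B - 1))) = 0 from h]
    exact Nat.zero_testBit _
  rw [Nat.testBit_land] at hs
  have hg : ((2 ^ (B * M) - 1) / (2 ^ B - 1) * 2 ^ (B - 1)).testBit (B * i + (B - 1)) = true := by
    rw [Nat.testBit_eq_decide_div_mod_eq, pow_add, Nat.mul_comm (2 ^ (B * i)),
      ← Nat.div_div_eq_div_mul, Nat.mul_div_cancel _ (by positivity), pow_mul, pow_mul]
    obtain ⟨t, ht⟩ := geom_div h2 M i hi
    rw [ht]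
    have : (1 + 2 ^ B * t) % 2 = 1 := by
      obtain ⟨b, rfl⟩ : ∃ b, B = b + 1 := ⟨B - 1, by omega⟩
      rw [pow_succ]
      have : 1 + 2 ^ b * 2 * t = 1 + 2 * (2 ^ b * t) := by ring
      omega
    simp [this]
  rw [hg, Bool.and_true] at hs
  set d := S / (2 ^ B) ^ i % 2 ^ B with hd
  have hdt : d.testBit (B - 1) = false := by
    rw [hd, Nat.testBit_mod_two_pow, ← pow_mul, Nat.testBit_div_two_pow, Nat.add_comm (B - 1), hs,
      Bool.and_false]
  by_contra hcon
  have hlt : d < 2 ^ B := Nat.mod_lt _ (by positivity)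
  obtain ⟨b, rfl⟩ : ∃ b, B = b + 1 := ⟨B - 1, by omega⟩
  rw [Nat.add_sub_cancel] at hdt
  have hge : 2 ^ b ≤ d := by
    rw [pow_succ] at hcon; omega
  have h3 : d / 2 ^ b = 1 := by
    rw [pow_succ] at hlt
    exact Nat.div_eq_of_lt_le (by omega) (by omega)
  rw [Nat.testBit_eq_decide_div_mod_eq, h3] at hdt
  simp at hdt

/-- truncated `ℓ¹` norm -/
def nm (M : ℕ) (P : ℤ⟦X⟧) : ℤ := ∑ i ∈ range M, |coeff i P|

theorem nm_nonneg (M : ℕ) (P : ℤ⟦X⟧) : 0 ≤ nm M P := sum_nonneg fun _ _ => abs_nonneg _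

theorem nm_mono {M M' : ℕ} (h : M ≤ M') (P : ℤ⟦X⟧) : nm M P ≤ nm M' P :=
  sum_le_sum_of_subset_of_nonneg (range_mono h) fun _ _ _ => abs_nonneg _

theorem coeff_le_nm {M i : ℕ} (h : i < M) (P : ℤ⟦X⟧) : |coeff i P| ≤ nm M P :=
  single_le_sum (f := fun i => |coeff i P|) (fun _ _ => abs_nonneg _) (mem_range.2 h)

theorem nm_X_pow (M s : ℕ) (P : ℤ⟦X⟧) : nm M (P * X ^ s) = nm (M - s) P := by
  unfold nm
  rcases le_or_gt s M with h | h
  · obtain ⟨r, rfl⟩ : ∃ r, M = s + r := ⟨M - s, by omega⟩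
    rw [sum_range_add, Nat.add_sub_cancel_left, sum_eq_zero, zero_add]
    · exact sum_congr rfl fun i _ => by
        rw [coeff_mul_X_pow', if_pos (by omega), Nat.add_sub_cancel_left]
    · intro i hi
      rw [coeff_mul_X_pow', if_neg (by have := mem_range.1 hi; omega), abs_zero]
  · rw [Nat.sub_eq_zero_of_le h.le, sum_range_zero]
    refine sum_eq_zero fun i hi => ?_
    rw [coeff_mul_X_pow', if_neg (by have := mem_range.1 hi; omega), abs_zero]

theorem nm_add_le (M : ℕ) (P Q : ℤ⟦X⟧) : nm M (P + Q) ≤ nm M P + nm M Q := by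
  unfold nm
  rw [← sum_add_distrib]
  exact sum_le_sum fun i _ => by rw [map_add]; exact abs_add_le _ _

theorem nm_neg (M : ℕ) (P : ℤ⟦X⟧) : nm M (-P) = nm M P := by
  unfold nm
  exact sum_congr rfl fun i _ => by rw [map_neg, abs_neg]

theorem nm_factor (M b : ℕ) (P : ℤ⟦X⟧) :
    nm M (P * (1 - (-X) ^ b)) ≤ nm M P * (if b < M then 2 else 1) := by
  have h1 : nm M (P * (1 - (-X) ^ b)) ≤ nm M P + nm (M - b) P := by
    rw [mul_sub, mul_one, sub_eq_add_neg]
    refine (nm_add_le _ _ _).trans ?_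
    rw [nm_neg]
    rcases Nat.mod_two_eq_zero_or_one b with h2 | h2
    · rw [neg_pow_even' h2, nm_X_pow]
    · rw [neg_pow_odd' h2, mul_neg, nm_neg, nm_X_pow]
  split
  · have := nm_mono (Nat.sub_le M b) P
    linarith
  · have : nm (M - b) P = 0 := by
      rw [Nat.sub_eq_zero_of_le (by omega)]; rfl
    linarith

theorem nm_one_add (M : ℕ) (P : ℤ⟦X⟧) : nm M (P * (1 + X)) ≤ nm M P * 2 := by
  have h1 : nm M (P * (1 + X)) ≤ nm M P + nm (M - 1) P := by
    rw [mul_add, mul_one]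
    refine (nm_add_le _ _ _).trans ?_
    have := nm_X_pow M 1 P
    rw [pow_one] at this
    rw [this]
  have := nm_mono (Nat.sub_le M 1) P
  linarith

theorem nm_gi {j : ℕ} (hj : 1 ≤ j) (P : ℤ⟦X⟧) : ∀ M : ℕ,
    nm M (P * gi j) ≤ nm M P * (((M + (j - 1)) / j : ℕ) : ℤ) := by
  intro M
  induction M using Nat.strong_induction_on with
  | _ M ih =>
    rcases Nat.eq_zero_or_pos M with rfl | hM
    · simp [nm]
    · have hg := gi_mul hj
      have e : P * gi j = P + (-X) ^ j * (P * gi j) := by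
        have : P = (1 - (-X) ^ j) * gi j * P := by rw [hg, one_mul]
        calc P * gi j = (1 - (-X) ^ j) * gi j * P + (-X) ^ j * (P * gi j) := by ring
          _ = _ := by rw [← this]
      have h1 : nm M (P * gi j) ≤ nm M P + nm (M - j) (P * gi j) := by
        conv_lhs => rw [e]
        refine (nm_add_le _ _ _).trans ?_
        rcases Nat.mod_two_eq_zero_or_one j with h2 | h2
        · rw [neg_pow_even' h2, mul_comm (X ^ j), nm_X_pow]
        · rw [neg_pow_odd' h2, neg_mul, nm_neg, mul_comm (X ^ j), nm_X_pow]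
      have h2 := ih (M - j) (by omega)
      have h3 : nm (M - j) P ≤ nm M P := nm_mono (Nat.sub_le _ _) P
      have h4 : ((M - j + (j - 1)) / j : ℕ) + 1 ≤ (M + (j - 1)) / j := by
        rcases le_or_gt j M with h5 | h5
        · have : M + (j - 1) = (M - j + (j - 1)) + j := by omega
          rw [this, Nat.add_div_right _ (by omega)]
        · rw [Nat.sub_eq_zero_of_le h5.le, zero_add, Nat.div_eq_of_lt (by omega)]
          exact (Nat.one_le_div_iff (by omega)).2 (by omega)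
      have h5 : (((M - j + (j - 1)) / j : ℕ) : ℤ) + 1 ≤ (((M + (j - 1)) / j : ℕ) : ℤ) := by
        exact_mod_cast h4
      have h6 := nm_nonneg M P
      have h7 : (0 : ℤ) ≤ (((M - j + (j - 1)) / j : ℕ) : ℤ) := by positivity
      nlinarith

/-- a bound of the truncated `ℓ¹` norm of `f_{n,k,a}`, `a ≥ 3` -/
def bdd (M : ℕ) (k : ℕ) : ℕ :=
  Nat.rec 1 (fun k ih => ih * ((if k % 2 = 0 then 2 else 1) * (if 3 * (k + 1) < M then 2 else 1) *
    ((M + k) / (k + 1)))) k

theorem bdd_succ (M k : ℕ) : bdd M (k + 1) = bdd M k *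
    ((if k % 2 = 0 then 2 else 1) * (if 3 * (k + 1) < M then 2 else 1) * ((M + k) / (k + 1))) := rfl

theorem bdd_mono {M : ℕ} (hM : 1 ≤ M) {k K : ℕ} (h : k ≤ K) : bdd M k ≤ bdd M K := by
  induction K, h using Nat.le_induction with
  | base => exact le_rfl
  | succ K _ ih =>
    rw [bdd_succ]
    have h1 : 1 ≤ (M + K) / (K + 1) := (Nat.one_le_div_iff (by omega)).2 (by omega)
    have h2 : 1 ≤ (if K % 2 = 0 then 2 else 1) := by split <;> omega
    have h3 : 1 ≤ (if 3 * (K + 1) < M then 2 else 1) := by split <;> omega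
    have h4 := Nat.mul_le_mul (Nat.mul_le_mul h2 h3) h1
    calc bdd M k ≤ bdd M K := ih
      _ = bdd M K * (1 * 1 * 1) := by ring
      _ ≤ _ := Nat.mul_le_mul_left _ h4

theorem nm_one (M : ℕ) : nm M 1 ≤ 1 := by
  unfold nm
  cases M with
  | zero => simp
  | succ M =>
    rw [sum_range_succ', sum_eq_zero]
    · simp
    · intro i _
      rw [coeff_one, if_neg (by omega), abs_zero]

theorem nm_fs {n a M : ℕ} (ha : 3 ≤ a) (k : ℕ) : nm M (fs n a k) ≤ bdd M k := by
  induction k with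
  | zero => exact_mod_cast nm_one M
  | succ k ih =>
    have h1 : nm M (if k % 2 = 0 then fs n a k * (1 + X) else fs n a k) ≤
        (bdd M k : ℤ) * (if k % 2 = 0 then 2 else 1) := by
      split
      · have := nm_one_add M (fs n a k)
        linarith
      · linarith
    have h2 := nm_factor M (a * (n + (k + 1)))
      (if k % 2 = 0 then fs n a k * (1 + X) else fs n a k)
    have h3 := nm_gi (Nat.succ_pos k) ((if k % 2 = 0 then fs n a k * (1 + X) else fs n a k) *
      (1 - (-X) ^ (a * (n + (k + 1))))) M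
    have h4 : (if a * (n + (k + 1)) < M then (2 : ℤ) else 1) ≤ (if 3 * (k + 1) < M then 2 else 1) := by
      have : 3 * (k + 1) ≤ a * (n + (k + 1)) := Nat.mul_le_mul ha (by omega)
      split_ifs <;> omega
    have h5 : nm M ((if k % 2 = 0 then fs n a k * (1 + X) else fs n a k) *
      (1 - (-X) ^ (a * (n + (k + 1))))) ≤
        (bdd M k : ℤ) * (if k % 2 = 0 then 2 else 1) * (if 3 * (k + 1) < M then 2 else 1) := by
      refine h2.trans ?_
      have h6 : (0 : ℤ) ≤ (if a * (n + (k + 1)) < M then (2 : ℤ) else 1) := by split <;> norm_num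
      have h7 : (0 : ℤ) ≤ (bdd M k : ℤ) * (if k % 2 = 0 then 2 else 1) := by
        split <;> positivity
      exact mul_le_mul h1 h4 h6 h7
    refine h3.trans ?_
    rw [bdd_succ]
    push_cast
    have h8 : (0 : ℤ) ≤ (((M + (k + 1 - 1)) / (k + 1) : ℕ) : ℤ) := by positivity
    have h9 := mul_le_mul_of_nonneg_right h5 h8
    refine h9.trans (le_of_eq ?_)
    rw [Nat.add_sub_cancel]
    push_cast
    ring

/-- **Correctness of the kernel check.** -/
theorem run_correct {n a B M K : ℕ} (ha : 3 ≤ a) (hB : 1 ≤ B) (hM : M ≤ 2 ^ 20) (hM1 : 1 ≤ M)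
    (hbd : 2 * bdd M K < 2 ^ B) (h : run n a B M K = true) :
    ∀ k < K, 4 ≤ k → Even (n * k) → ∀ i < M, 0 ≤ coeff i (fs n a k) := by
  intro k hk h4 he i hi
  obtain ⟨S, hS, hS0⟩ := chain_spec hB hM K (k := 0) (S := 1) (rep_one B M) h k (Nat.zero_le _)
    (by omega) h4 (Nat.even_iff.1 he)
  refine digits_nonneg (2 ^ B) Nat.one_le_two_pow M S (fun i => coeff i (fs n a k)) ?_ ?_
    (digit_of_sign hB hS0) i hi
  · unfold Rep ev at hS
    push_cast
    exact hS
  · intro i hi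
    have h1 := coeff_le_nm hi (fs n a k)
    have h2 := nm_fs (n := n) (M := M) ha k
    have h3 : (bdd M k : ℤ) ≤ bdd M K := by exact_mod_cast bdd_mono hM1 hk.le
    have h4 : (2 : ℤ) * bdd M K < ((2 ^ B : ℕ) : ℤ) := by exact_mod_cast hbd
    show 2 * |coeff i (fs n a k)| < _
    linarith


theorem coeff_gi_congr {M k : ℕ} (hk : M ≤ k + 1) (P : ℤ⟦X⟧) {i : ℕ} (hi : i < M) :
    coeff i (P * gi (k + 1)) = coeff i P := by
  have hg := gi_mul (Nat.succ_pos k)
  have e : P * gi (k + 1) = P + (-X) ^ (k + 1) * (P * gi (k + 1)) := by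
    have : P = (1 - (-X) ^ (k + 1)) * gi (k + 1) * P := by rw [hg, one_mul]
    calc P * gi (k + 1) = (1 - (-X) ^ (k + 1)) * gi (k + 1) * P +
          (-X) ^ (k + 1) * (P * gi (k + 1)) := by ring
      _ = _ := by rw [← this]
  rw [e, map_add]
  have : coeff i ((-X : ℤ⟦X⟧) ^ (k + 1) * (P * gi (k + 1))) = 0 := by
    rw [neg_pow, mul_comm ((-1) ^ (k + 1)), mul_assoc, mul_comm, coeff_mul_X_pow',
      if_neg (by omega)]
  rw [this, add_zero]

theorem coeff_factor_congr {M b : ℕ} (hb : M ≤ b) (P : ℤ⟦X⟧) {i : ℕ} (hi : i < M) :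
    coeff i (P * (1 - (-X) ^ b)) = coeff i P := by
  rcases Nat.mod_two_eq_zero_or_one b with h2 | h2
  · rw [neg_pow_even' h2]
    exact coeff_mul_one_sub P b i (by omega)
  · rw [neg_pow_odd' h2, sub_neg_eq_add, mul_add, mul_one, map_add, coeff_mul_X_pow',
      if_neg (by omega), add_zero]

theorem coeff_fs_succ {n a M k : ℕ} (ha : 1 ≤ a) (hk : M ≤ k + 1) {i : ℕ} (hi : i < M) :
    coeff i (fs n a (k + 1)) =
      coeff i (if k % 2 = 0 then fs n a k * (1 + X) else fs n a k) := by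
  show coeff i ((if k % 2 = 0 then fs n a k * (1 + X) else fs n a k) *
      (1 - (-X) ^ (a * (n + (k + 1)))) * gi (k + 1)) = _
  rw [coeff_gi_congr hk _ hi, coeff_factor_congr _ _ hi]
  calc M ≤ k + 1 := hk
    _ ≤ n + (k + 1) := Nat.le_add_left _ _
    _ ≤ a * (n + (k + 1)) := Nat.le_mul_of_pos_left _ ha

/-- all `k ≥ 4` follow from `k < M + 2` -/
theorem all_k {n a M K : ℕ} (ha : 1 ≤ a) (hM : 4 ≤ M) (hK : M + 2 ≤ K)
    (h : ∀ k < K, 4 ≤ k → Even (n * k) → ∀ i < M, 0 ≤ coeff i (fs n a k)) :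
    ∀ k, 4 ≤ k → Even (n * k) → ∀ i < M, 0 ≤ coeff i (fs n a k) := by
  intro k
  induction k using Nat.strong_induction_on with
  | _ k ih =>
    intro h4 he i hi
    rcases lt_or_ge k K with hk | hk
    · exact h k hk h4 he i hi
    · obtain ⟨k', rfl⟩ : ∃ k', k = k' + 2 := ⟨k - 2, by omega⟩
      have he' : Even (n * k') := by
        rw [mul_add] at he
        exact (Nat.even_add.1 he).2 (even_two.mul_left n)
      have hpos : ∀ i < M, 0 ≤ coeff i (fs n a k') := ih k' (by omega) (by omega) he'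
      have hone : ∀ P : ℤ⟦X⟧, ∀ i, coeff i (P * (1 + X)) =
          coeff i P + (if i = 0 then 0 else coeff (i - 1) P) := by
        intro P i
        rw [mul_add, mul_one, map_add]
        cases i with
        | zero => rw [coeff_zero_mul_X, if_pos rfl]
        | succ i => rw [coeff_succ_mul_X, if_neg (by omega), Nat.add_sub_cancel]
      rw [coeff_fs_succ ha (by omega) hi]
      have hfac : ∀ i < M, coeff i (fs n a (k' + 1)) =
          coeff i (if k' % 2 = 0 then fs n a k' * (1 + X) else fs n a k') :=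
        fun i hi => coeff_fs_succ ha (by omega) hi
      have hone' : ∀ i < M, 0 ≤ coeff i (fs n a k' * (1 + X)) := by
        intro i hi
        rw [hone]
        have h1 := hpos i hi
        split
        · linarith
        · have := hpos (i - 1) (by omega)
          linarith
      rcases Nat.mod_two_eq_zero_or_one k' with h2 | h2
      · rw [if_neg (by omega), hfac i hi, if_pos h2]
        exact hone' i hi
      · rw [if_pos (by omega), hone]
        have h3 : ∀ i < M, coeff i (fs n a (k' + 1)) = coeff i (fs n a k') := by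
          intro i hi
          rw [hfac i hi, if_neg (by omega)]
        rw [h3 i hi]
        have h1 := hpos i hi
        split
        · linarith
        · rw [h3 (i - 1) (by omega)]
          have := hpos (i - 1) (by omega)
          linarith

/-- **The edge theorem for one pair `(n, a)`.** -/
theorem edge {n a B M : ℕ} (ha : 3 ≤ a) (hB : 1 ≤ B) (hM : M ≤ 2 ^ 20) (hM1 : 4 ≤ M)
    (hbd : 2 * bdd M (M + 2) < 2 ^ B) (h : run n a B M (M + 2) = true) :
    ∀ k, 4 ≤ k → Even (n * k) → ∀ i < M, 0 ≤ coeff i (fs n a k) :=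
  all_k (by omega) hM1 le_rfl (run_correct ha hB hM (by omega) hbd h)

/-- closed form -/
theorem fs_closed (n a k : ℕ) :
    fs n a k * ∏ v ∈ range k, (1 - (-X : ℤ⟦X⟧) ^ (v + 1)) =
      (1 + X) ^ ((k + 1) / 2) * ∏ v ∈ range k, (1 - (-X) ^ (a * (n + v + 1))) := by
  induction k with
  | zero => simp [fs]
  | succ k ih =>
    rw [prod_range_succ, prod_range_succ]
    have hg : (1 - (-X : ℤ⟦X⟧) ^ (k + 1)) * gi (k + 1) = 1 := gi_mul (Nat.succ_pos k)
    show (if k % 2 = 0 then fs n a k * (1 + X) else fs n a k) *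
      (1 - (-X) ^ (a * (n + (k + 1)))) * gi (k + 1) * _ = _
    have e : n + (k + 1) = n + k + 1 := by ring
    rw [e]
    rcases Nat.mod_two_eq_zero_or_one k with h2 | h2
    · rw [if_pos h2]
      have h3 : (k + 1 + 1) / 2 = (k + 1) / 2 + 1 := by omega
      rw [h3, pow_succ]
      linear_combination (1 + X) * (1 - (-X) ^ (a * (n + k + 1))) *
        ((1 - (-X) ^ (k + 1)) * gi (k + 1)) * ih +
        (1 + X) * (1 - (-X) ^ (a * (n + k + 1))) * ((1 + X) ^ ((k + 1) / 2) *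
          ∏ v ∈ range k, (1 - (-X) ^ (a * (n + v + 1)))) * hg
    · rw [if_neg (by omega)]
      have h3 : (k + 1 + 1) / 2 = (k + 1) / 2 := by omega
      rw [h3]
      linear_combination (1 - (-X) ^ (a * (n + k + 1))) *
        ((1 - (-X) ^ (k + 1)) * gi (k + 1)) * ih +
        (1 - (-X) ^ (a * (n + k + 1))) * ((1 + X) ^ ((k + 1) / 2) *
          ∏ v ∈ range k, (1 - (-X) ^ (a * (n + v + 1)))) * hg

end

end Pool.Agent.SignedQ.KC
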