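import Pool.Agent.Lib.MP_cf17a0_co.KC

/-!
# Kernel check of the low coefficients, second form

The factor `1 + q` is used only at the steps `k < 2 s`; the missing factors are nonnegative.
The digits then stay short, and a weighted norm bounds them.
-/

set_option autoImplicit false

namespace Pool.Agent.SignedQ.KC

open PowerSeries Finset

noncomputable section

/-- the step from `k` to `k + 1`; the factor `1 + q` only for `k < s2` -/
def stp2 (n a s2 B W mask k acc : ℕ) : ℕ :=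
  divF B W mask (Nat.succ k) (mulF B W mask (Nat.mul a (Nat.add n (Nat.succ k)))
    (Bool.rec acc (Bool.rec acc (mulP mask B acc) (Nat.ble (Nat.succ k) s2))
      (Nat.beq (Nat.mod k 2) 0)))

/-- chain over `k`; at each admissible `k ≥ 4` the sign bits must vanish -/
def chain2 (n a s2 B W mask sgn : ℕ) (fuel : ℕ) : ℕ → ℕ → Bool :=
  Nat.rec (fun _ _ => true)
    (fun _ ih k acc =>
      force acc fun c =>
      Bool.rec false (ih (Nat.succ k) (stp2 n a s2 B W mask k c))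
        (Bool.rec (Bool.rec true (Nat.beq (Nat.land c sgn) 0)
          (Nat.beq (Nat.mod (Nat.mul n k) 2) 0)) true (Nat.ble k 3))) fuel

/-- the check for one pair `(n, a)`, all `k < K`, coefficients below `M`, digits of `B` bits -/
def run2 (n a s2 B M K : ℕ) : Bool :=
  chain2 n a s2 B (B * M) (2 ^ (B * M) - 1)
    ((2 ^ (B * M) - 1) / (2 ^ B - 1) * 2 ^ (B - 1)) K 0 1

/-- the series `f_{n,k,a}` without the factors `1 + q` of the steps `k ≥ s2` -/
def gs (n a s2 : ℕ) : ℕ → ℤ⟦X⟧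
  | 0 => 1
  | k + 1 => (if k % 2 = 0 ∧ k < s2 then gs n a s2 k * (1 + X) else gs n a s2 k) *
      (1 - (-X) ^ (a * (n + (k + 1)))) * gi (k + 1)

theorem Rep.stp2 {B M S n a s2 k : ℕ} (hB : 1 ≤ B) (hM : M ≤ 2 ^ 20)
    (h : Rep B M S (gs n a s2 k)) :
    Rep B M (stp2 n a s2 B (B * M) (2 ^ (B * M) - 1) k S) (gs n a s2 (k + 1)) := by
  unfold KC.stp2
  have h1 : Rep B M (Bool.rec S (Bool.rec S (KC.mulP (2 ^ (B * M) - 1) B S)
      (Nat.ble (Nat.succ k) s2)) (Nat.beq (Nat.mod k 2) 0))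
      (if k % 2 = 0 ∧ k < s2 then gs n a s2 k * (1 + X) else gs n a s2 k) := by
    cases hc : Nat.beq (Nat.mod k 2) 0 with
    | true =>
      have hk : k % 2 = 0 := Nat.eq_of_beq_eq_true hc
      cases hd : Nat.ble (Nat.succ k) s2 with
      | true =>
        have hk2 : k < s2 := Nat.le_of_ble_eq_true hd
        rw [if_pos ⟨hk, hk2⟩]
        have := h.mulP 1
        rw [mul_one, pow_one] at this
        exact this
      | false =>
        have hk2 : ¬ k < s2 := Nat.not_le_of_not_ble_eq_true (by rw [hd]; simp)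
        rw [if_neg (fun h => hk2 h.2)]
        exact h
    | false =>
      have hk : ¬ k % 2 = 0 := Nat.ne_of_beq_eq_false hc
      rw [if_neg (fun h => hk h.1)]
      exact h
  exact (h1.mulF hB (b := a * (n + (k + 1)))).divF hB hM (Nat.succ_pos k)

/-- what the chain proves -/
theorem chain2_spec {B M n a s2 sgn : ℕ} (hB : 1 ≤ B) (hM : M ≤ 2 ^ 20) (fuel : ℕ) :
    ∀ {k S : ℕ}, Rep B M S (gs n a s2 k) →
      chain2 n a s2 B (B * M) (2 ^ (B * M) - 1) sgn fuel k S = true →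
      ∀ k', k ≤ k' → k' < k + fuel → 4 ≤ k' → (n * k') % 2 = 0 →
        ∃ S', Rep B M S' (gs n a s2 k') ∧ Nat.land S' sgn = 0 := by
  induction fuel with
  | zero =>
    intro k S _ _ k' h1 h2
    omega
  | succ fuel ih =>
    intro k S h hc k' h1 h2 h4 he
    have hc' : force S (fun c => Bool.rec false
        (chain2 n a s2 B (B * M) (2 ^ (B * M) - 1) sgn fuel (Nat.succ k)
          (KC.stp2 n a s2 B (B * M) (2 ^ (B * M) - 1) k c))
        (Bool.rec (Bool.rec true (Nat.beq (Nat.land c sgn) 0)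
          (Nat.beq (Nat.mod (Nat.mul n k) 2) 0)) true (Nat.ble k 3))) = true := hc
    rw [force_eq] at hc'
    cases hb : (Bool.rec (Bool.rec true (Nat.beq (Nat.land S sgn) 0)
          (Nat.beq (Nat.mod (Nat.mul n k) 2) 0)) true (Nat.ble k 3) : Bool) with
    | false =>
      rw [hb] at hc'
      exact absurd hc' (by simp)
    | true =>
      rw [hb] at hc'
      rcases Nat.eq_or_lt_of_le h1 with rfl | h1'
      · refine ⟨S, h, ?_⟩
        have h3 : Nat.ble k 3 = false := by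
          cases h5 : Nat.ble k 3 with
          | false => rfl
          | true =>
            have := Nat.le_of_ble_eq_true h5
            omega
        have h6 : Nat.beq (Nat.mod (Nat.mul n k) 2) 0 = true := by
          show Nat.beq ((n * k) % 2) 0 = true
          rw [he]; rfl
        rw [h3, h6] at hb
        exact Nat.eq_of_beq_eq_true hb
      · exact ih (h.stp2 hB hM) hc' k' h1' (by omega) h4 he

/-! ### The weighted norm -/

/-- truncated weighted norm -/
def wn (M : ℕ) (r : ℝ) (P : ℤ⟦X⟧) : ℝ := ∑ i ∈ range M, |((coeff i P : ℤ) : ℝ)| * r ^ i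

theorem wn_nonneg (M : ℕ) {r : ℝ} (hr : 0 ≤ r) (P : ℤ⟦X⟧) : 0 ≤ wn M r P :=
  sum_nonneg fun _ _ => by positivity

theorem wn_mono {M M' : ℕ} (h : M ≤ M') {r : ℝ} (hr : 0 ≤ r) (P : ℤ⟦X⟧) :
    wn M r P ≤ wn M' r P :=
  sum_le_sum_of_subset_of_nonneg (range_mono h) fun _ _ _ => by positivity

theorem coeff_le_wn {M i : ℕ} (h : i < M) {r : ℝ} (hr : 0 ≤ r) (P : ℤ⟦X⟧) :
    |((coeff i P : ℤ) : ℝ)| * r ^ i ≤ wn M r P :=
  single_le_sum (f := fun i => |((coeff i P : ℤ) : ℝ)| * r ^ i)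
    (fun _ _ => by positivity) (mem_range.2 h)

theorem wn_X_pow (M s : ℕ) {r : ℝ} (hr : 0 ≤ r) (P : ℤ⟦X⟧) :
    wn M r (P * X ^ s) ≤ r ^ s * wn M r P := by
  have h0 : wn M r (P * X ^ s) = r ^ s * wn (M - s) r P := by
    unfold wn
    rcases le_or_gt s M with h | h
    · obtain ⟨t, rfl⟩ : ∃ t, M = s + t := ⟨M - s, by omega⟩
      rw [sum_range_add, Nat.add_sub_cancel_left, sum_eq_zero, zero_add, mul_sum]
      · exact sum_congr rfl fun i _ => by
          rw [coeff_mul_X_pow', if_pos (by omega), Nat.add_sub_cancel_left, pow_add]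
          ring
      · intro i hi
        rw [coeff_mul_X_pow', if_neg (by have := mem_range.1 hi; omega), Int.cast_zero, abs_zero,
          zero_mul]
    · rw [Nat.sub_eq_zero_of_le h.le, sum_range_zero, mul_zero]
      refine sum_eq_zero fun i hi => ?_
      rw [coeff_mul_X_pow', if_neg (by have := mem_range.1 hi; omega), Int.cast_zero, abs_zero,
        zero_mul]
  rw [h0]
  exact mul_le_mul_of_nonneg_left (wn_mono (Nat.sub_le M s) hr P) (by positivity)

theorem wn_add_le (M : ℕ) {r : ℝ} (hr : 0 ≤ r) (P Q : ℤ⟦X⟧) :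
    wn M r (P + Q) ≤ wn M r P + wn M r Q := by
  unfold wn
  rw [← sum_add_distrib]
  refine sum_le_sum fun i _ => ?_
  rw [map_add, Int.cast_add, ← add_mul]
  exact mul_le_mul_of_nonneg_right (abs_add_le _ _) (by positivity)

theorem wn_neg (M : ℕ) (r : ℝ) (P : ℤ⟦X⟧) : wn M r (-P) = wn M r P := by
  unfold wn
  exact sum_congr rfl fun i _ => by rw [map_neg, Int.cast_neg, abs_neg]

theorem wn_signed (M b : ℕ) {r : ℝ} (hr : 0 ≤ r) (P : ℤ⟦X⟧) :
    wn M r (P * (-X) ^ b) ≤ r ^ b * wn M r P := by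
  rcases Nat.mod_two_eq_zero_or_one b with h2 | h2
  · rw [neg_pow_even' h2]; exact wn_X_pow M b hr P
  · rw [neg_pow_odd' h2, mul_neg, wn_neg]; exact wn_X_pow M b hr P

theorem wn_factor (M b : ℕ) {r : ℝ} (hr : 0 ≤ r) (P : ℤ⟦X⟧) :
    wn M r (P * (1 - (-X) ^ b)) ≤ wn M r P * (1 + r ^ b) := by
  rw [mul_sub, mul_one, sub_eq_add_neg]
  refine (wn_add_le _ hr _ _).trans ?_
  rw [wn_neg]
  have := wn_signed M b hr P
  linarith

theorem wn_one_add (M : ℕ) {r : ℝ} (hr : 0 ≤ r) (hr1 : r ≤ 1) (P : ℤ⟦X⟧) :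
    wn M r (P * (1 + X)) ≤ wn M r P * 2 := by
  have h := wn_factor M 1 hr P
  rw [pow_one, sub_neg_eq_add, pow_one] at h
  have := wn_nonneg M hr P
  nlinarith

theorem wn_gi {j : ℕ} (hj : 1 ≤ j) (M : ℕ) {r : ℝ} (hr : 0 ≤ r) (hr1 : r < 1) (P : ℤ⟦X⟧) :
    wn M r (P * gi j) ≤ wn M r P * (1 - r ^ j)⁻¹ := by
  have hg := gi_mul hj
  have e : P * gi j = P + (P * gi j) * (-X) ^ j := by
    have : P = (1 - (-X) ^ j) * gi j * P := by rw [hg, one_mul]
    calc P * gi j = (1 - (-X) ^ j) * gi j * P + (P * gi j) * (-X) ^ j := by ring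
      _ = _ := by rw [← this]
  have h1 : wn M r (P * gi j) ≤ wn M r P + r ^ j * wn M r (P * gi j) := by
    conv_lhs => rw [e]
    exact (wn_add_le _ hr _ _).trans (add_le_add le_rfl (wn_signed M j hr _))
  have h2 : r ^ j < 1 := pow_lt_one₀ hr hr1 (by omega)
  rw [← div_eq_mul_inv, le_div_iff₀ (by linarith)]
  linarith

theorem wn_one (M : ℕ) (r : ℝ) : wn M r 1 ≤ 1 := by
  unfold wn
  cases M with
  | zero => simp
  | succ M =>
    rw [sum_range_succ', sum_eq_zero]
    · simp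
    · intro i _
      rw [coeff_one, if_neg (by omega), Int.cast_zero, abs_zero, zero_mul]

theorem wn_gs {n a s M : ℕ} (ha : 3 ≤ a) {r : ℝ} (hr : 0 ≤ r) (hr1 : r < 1) (k : ℕ) :
    wn M r (gs n a (2 * s) k) ≤ 2 ^ (min s ((k + 1) / 2)) *
      ∏ j ∈ range k, ((1 + r ^ (3 * (j + 1))) * (1 - r ^ (j + 1))⁻¹) := by
  induction k with
  | zero =>
    show wn M r 1 ≤ _
    simpa using wn_one M r
  | succ k ih =>
    set Pi := ∏ j ∈ range k, ((1 + r ^ (3 * (j + 1))) * (1 - r ^ (j + 1))⁻¹) with hPi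
    have hinv : ∀ j : ℕ, 0 ≤ (1 - r ^ (j + 1))⁻¹ := fun j =>
      inv_nonneg.2 (by have := pow_le_one₀ (n := j + 1) hr hr1.le; linarith)
    have hPi0 : 0 ≤ Pi := prod_nonneg fun j _ => mul_nonneg (by positivity) (hinv j)
    have h1 : wn M r (if k % 2 = 0 ∧ k < 2 * s then gs n a (2 * s) k * (1 + X)
        else gs n a (2 * s) k) ≤ 2 ^ (min s ((k + 1 + 1) / 2)) * Pi := by
      split
      · rename_i hk
        have h2 := wn_one_add M hr hr1.le (gs n a (2 * s) k)
        have h3 : min s ((k + 1 + 1) / 2) = min s ((k + 1) / 2) + 1 := by omega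
        rw [h3, pow_succ]
        nlinarith
      · refine ih.trans (mul_le_mul_of_nonneg_right ?_ hPi0)
        exact pow_le_pow_right₀ (by norm_num) (by omega)
    have h2 := wn_factor M (a * (n + (k + 1))) hr
      (if k % 2 = 0 ∧ k < 2 * s then gs n a (2 * s) k * (1 + X) else gs n a (2 * s) k)
    have h3 := wn_gi (Nat.succ_pos k) M hr hr1 ((if k % 2 = 0 ∧ k < 2 * s then
      gs n a (2 * s) k * (1 + X) else gs n a (2 * s) k) * (1 - (-X) ^ (a * (n + (k + 1)))))
    have h4 : r ^ (a * (n + (k + 1))) ≤ r ^ (3 * (k + 1)) :=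
      pow_le_pow_of_le_one hr hr1.le (Nat.mul_le_mul ha (by omega))
    have h5 : wn M r ((if k % 2 = 0 ∧ k < 2 * s then gs n a (2 * s) k * (1 + X)
        else gs n a (2 * s) k) * (1 - (-X) ^ (a * (n + (k + 1))))) ≤
        2 ^ (min s ((k + 1 + 1) / 2)) * Pi * (1 + r ^ (3 * (k + 1))) := by
      refine h2.trans ?_
      refine mul_le_mul h1 (by linarith) (by positivity) (by positivity)
    refine h3.trans ?_
    refine (mul_le_mul_of_nonneg_right h5 (hinv k)).trans (le_of_eq ?_)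
    rw [prod_range_succ]
    ring

theorem pow_div_le {u : ℝ} (hu : 0 < u) {l : ℕ} (hl : 1 ≤ l) :
    (u / (u + 1)) ^ l / (1 - (u / (u + 1)) ^ l) ≤ u / l := by
  have hu1 : 0 < u + 1 := by linarith
  have hr0 : 0 < u / (u + 1) := by positivity
  have hr1 : u / (u + 1) < 1 := by rw [div_lt_one hu1]; linarith
  have hp : 0 < (u / (u + 1)) ^ l := by positivity
  have hp1 : (u / (u + 1)) ^ l < 1 := pow_lt_one₀ hr0.le hr1 (by omega)
  have hb : 1 + (l : ℝ) * (1 / u) ≤ (1 + 1 / u) ^ l :=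
    one_add_mul_le_pow (by have : 0 < 1 / u := by positivity
                           linarith) l
  have he : (u / (u + 1)) ^ l * (1 + 1 / u) ^ l = 1 := by
    rw [← mul_pow]
    have : u / (u + 1) * (1 + 1 / u) = 1 := by field_simp
    rw [this, one_pow]
  have hl0 : (0 : ℝ) < l := by exact_mod_cast hl
  rw [div_le_div_iff₀ (by linarith) hl0]
  have h1 : (u / (u + 1)) ^ l * (1 + (l : ℝ) * (1 / u)) ≤ 1 :=
    (mul_le_mul_of_nonneg_left hb hp.le).trans he.le
  have h2 : (u / (u + 1)) ^ l * l * (1 / u) ≤ 1 - (u / (u + 1)) ^ l := by nlinarith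
  have h3 : (u / (u + 1)) ^ l * l = ((u / (u + 1)) ^ l * l * (1 / u)) * u := by
    field_simp
  rw [h3, mul_comm u]
  exact mul_le_mul_of_nonneg_right h2 hu.le

theorem geom_le {x : ℝ} (hx : 0 ≤ x) (hx1 : x < 1) (k : ℕ) :
    ∑ j ∈ range k, x ^ (j + 1) ≤ x / (1 - x) := by
  have h1 : ∑ j ∈ range k, x ^ (j + 1) = x * ∑ j ∈ range k, x ^ j := by
    rw [mul_sum]; exact sum_congr rfl fun j _ => by ring
  rw [h1, div_eq_mul_inv]
  refine mul_le_mul_of_nonneg_left ?_ hx
  have h2 := (summable_geometric_of_lt_one hx hx1).sum_le_tsum (range k)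
    (fun i _ => by positivity)
  rwa [tsum_geometric_of_lt_one hx hx1] at h2

theorem prod_num_le {u : ℝ} (hu : 0 < u) (k : ℕ) :
    ∏ j ∈ range k, (1 + (u / (u + 1)) ^ (3 * (j + 1))) ≤ Real.exp (u / 3) := by
  have hu1 : 0 < u + 1 := by linarith
  have hr0 : 0 < u / (u + 1) := by positivity
  have hr1 : u / (u + 1) < 1 := by rw [div_lt_one hu1]; linarith
  calc ∏ j ∈ range k, (1 + (u / (u + 1)) ^ (3 * (j + 1)))
      ≤ ∏ j ∈ range k, Real.exp ((u / (u + 1)) ^ (3 * (j + 1))) :=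
        prod_le_prod (fun _ _ => by positivity) fun j _ => by
          have := Real.add_one_le_exp ((u / (u + 1)) ^ (3 * (j + 1)))
          linarith
    _ = Real.exp (∑ j ∈ range k, ((u / (u + 1)) ^ 3) ^ (j + 1)) := by
        rw [Real.exp_sum]
        exact prod_congr rfl fun j _ => by rw [pow_mul]
    _ ≤ Real.exp (u / 3) := by
        refine Real.exp_le_exp.2 ?_
        have h1 := geom_le (x := (u / (u + 1)) ^ 3) (by positivity)
          (pow_lt_one₀ hr0.le hr1 (by norm_num)) k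
        have h2 := pow_div_le hu (l := 3) (by norm_num)
        push_cast at h2
        exact h1.trans h2

theorem prod_den_le {u : ℝ} (hu : 0 < u) (k : ℕ) :
    ∏ j ∈ range k, (1 - (u / (u + 1)) ^ (j + 1))⁻¹ ≤ Real.exp (1.645 * u) := by
  have hu1 : 0 < u + 1 := by linarith
  set r := u / (u + 1) with hr
  have hr0 : 0 < r := by positivity
  have hr1 : r < 1 := by rw [hr, div_lt_one hu1]; linarith
  have hlt : ∀ j : ℕ, r ^ (j + 1) < 1 := fun j => pow_lt_one₀ hr0.le hr1 (by omega)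
  have h1 : ∀ j : ℕ, (1 - r ^ (j + 1))⁻¹ = Real.exp (-Real.log (1 - r ^ (j + 1))) := by
    intro j
    rw [Real.exp_neg, Real.exp_log (by have := hlt j; linarith)]
  rw [prod_congr rfl fun j _ => h1 j, ← Real.exp_sum]
  refine Real.exp_le_exp.2 ?_
  have h2 : ∀ j : ℕ, HasSum (fun l : ℕ => (r ^ (j + 1)) ^ (l + 1) / ((l : ℝ) + 1))
      (-Real.log (1 - r ^ (j + 1))) := fun j =>
    Real.hasSum_pow_div_log_of_abs_lt_one (by
      rw [abs_of_nonneg (by positivity)]; exact hlt j)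
  have h3 : HasSum (fun l : ℕ => ∑ j ∈ range k, (r ^ (j + 1)) ^ (l + 1) / ((l : ℝ) + 1))
      (∑ j ∈ range k, -Real.log (1 - r ^ (j + 1))) := hasSum_sum fun j _ => h2 j
  have h4 : HasSum (fun l : ℕ => u * (1 / ((l : ℝ) + 1) ^ 2)) (u * (Real.pi ^ 2 / 6)) := by
    refine HasSum.mul_left u ?_
    have := (hasSum_nat_add_iff' (f := fun n : ℕ => 1 / (n : ℝ) ^ 2) 1).2 hasSum_zeta_two
    simpa using this
  have h5 : ∑ j ∈ range k, -Real.log (1 - r ^ (j + 1)) ≤ u * (Real.pi ^ 2 / 6) := by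
    refine hasSum_le (fun l => ?_) h3 h4
    have hl : (0 : ℝ) < (l : ℝ) + 1 := by positivity
    rw [← sum_div]
    have h6 : ∑ j ∈ range k, (r ^ (j + 1)) ^ (l + 1) = ∑ j ∈ range k, (r ^ (l + 1)) ^ (j + 1) :=
      sum_congr rfl fun j _ => by rw [← pow_mul, ← pow_mul, mul_comm]
    have h7 := geom_le (x := r ^ (l + 1)) (by positivity) (hlt l) k
    have h8 := pow_div_le hu (l := l + 1) (by omega)
    rw [← hr] at h8
    push_cast at h8
    rw [h6, div_le_iff₀ hl]
    refine (h7.trans h8).trans (le_of_eq ?_)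
    field_simp
  refine h5.trans ?_
  have hpi : Real.pi ^ 2 ≤ 9.87 := by
    have := Real.pi_lt_d4
    have := Real.pi_pos
    nlinarith
  nlinarith

/-- the coefficients of `gs` are smaller than `2^(B-1)` -/
theorem coeff_gs_lt {n a s B M k u : ℕ} (ha : 3 ≤ a) (hu : 1 ≤ u) (hs : s + 1 < B)
    (hbd : 19790 * u ^ 2 + 10000 * M ≤ 6931 * (B - 1 - s) * u) {i : ℕ} (hi : i < M) :
    2 * |coeff i (gs n a (2 * s) k)| < ((2 ^ B : ℕ) : ℤ) := by
  have hu0 : (0 : ℝ) < u := by exact_mod_cast hu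
  have hu1 : (0 : ℝ) < (u : ℝ) + 1 := by linarith
  set r : ℝ := (u : ℝ) / (u + 1) with hr
  have hr0 : 0 < r := by positivity
  have hr1 : r < 1 := by rw [hr, div_lt_one hu1]; linarith
  have h1 := coeff_le_wn (M := M) hi hr0.le (gs n a (2 * s) k)
  have h2 := wn_gs (n := n) (s := s) (M := M) ha hr0.le hr1 k
  have h3 : ∏ j ∈ range k, ((1 + r ^ (3 * (j + 1))) * (1 - r ^ (j + 1))⁻¹) ≤
      Real.exp (u / 3) * Real.exp (1.645 * u) := by
    rw [prod_mul_distrib]
    refine mul_le_mul (prod_num_le hu0 k) (prod_den_le hu0 k) ?_ (Real.exp_pos _).le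
    exact prod_nonneg fun j _ => inv_nonneg.2 (by
      have := pow_le_one₀ (n := j + 1) hr0.le hr1.le; linarith)
  have h4 : (2 : ℝ) ^ (min s ((k + 1) / 2)) ≤ 2 ^ s :=
    pow_le_pow_right₀ (by norm_num) (min_le_left _ _)
  have h5 : |((coeff i (gs n a (2 * s) k) : ℤ) : ℝ)| * r ^ i ≤
      2 ^ s * (Real.exp (u / 3) * Real.exp (1.645 * u)) :=
    (h1.trans h2).trans (mul_le_mul h4 h3
      (prod_nonneg fun j _ => mul_nonneg (by positivity) (inv_nonneg.2 (by
        have := pow_le_one₀ (n := j + 1) hr0.le hr1.le; linarith))) (by positivity))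
  have h6 : 1 ≤ r ^ i * Real.exp (M / u) := by
    have e1 : r ^ i * (1 + 1 / (u : ℝ)) ^ i = 1 := by
      rw [← mul_pow]
      have : r * (1 + 1 / (u : ℝ)) = 1 := by rw [hr]; field_simp
      rw [this, one_pow]
    have e2 : (1 + 1 / (u : ℝ)) ^ i ≤ Real.exp (M / u) := by
      calc (1 + 1 / (u : ℝ)) ^ i ≤ Real.exp (1 / u) ^ i := by
            refine pow_le_pow_left₀ (by positivity) ?_ i
            have := Real.add_one_le_exp (1 / (u : ℝ)); linarith
        _ = Real.exp (i / u) := by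
            rw [← Real.exp_nat_mul]; congr 1; ring
        _ ≤ Real.exp (M / u) := by
            refine Real.exp_le_exp.2 ?_
            have : (i : ℝ) ≤ M := by exact_mod_cast hi.le
            gcongr
    calc (1 : ℝ) = r ^ i * (1 + 1 / (u : ℝ)) ^ i := e1.symm
      _ ≤ _ := mul_le_mul_of_nonneg_left e2 (by positivity)
  have h7 : |((coeff i (gs n a (2 * s) k) : ℤ) : ℝ)| ≤
      2 ^ s * (Real.exp (u / 3) * Real.exp (1.645 * u)) * Real.exp (M / u) := by
    have h8 := abs_nonneg (((coeff i (gs n a (2 * s) k) : ℤ) : ℝ))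
    calc |((coeff i (gs n a (2 * s) k) : ℤ) : ℝ)|
        ≤ |((coeff i (gs n a (2 * s) k) : ℤ) : ℝ)| * (r ^ i * Real.exp (M / u)) :=
          le_mul_of_one_le_right h8 h6
      _ = (|((coeff i (gs n a (2 * s) k) : ℤ) : ℝ)| * r ^ i) * Real.exp (M / u) := by ring
      _ ≤ _ := mul_le_mul_of_nonneg_right h5 (Real.exp_pos _).le
  obtain ⟨c, rfl⟩ : ∃ c, B = s + 1 + c := ⟨B - (s + 1), by omega⟩
  have hc : 1 ≤ c := by omega
  have hc' : s + 1 + c - 1 - s = c := by omega
  rw [hc'] at hbd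
  have hbd' : (19790 : ℝ) * u ^ 2 + 10000 * M ≤ 6931 * c * u := by exact_mod_cast hbd
  have hx : (u : ℝ) / 3 + 1.645 * u + M / u ≤ 0.6931 * c := by
    have : (M : ℝ) / u ≤ 0.6931 * c - 1.979 * u := by
      rw [div_le_iff₀ hu0]; nlinarith
    linarith
  have hln : (0.6931 : ℝ) < Real.log 2 := by
    have := Real.log_two_gt_d9; linarith
  have hc0 : (0 : ℝ) < c := by exact_mod_cast hc
  have h9 : Real.exp ((u : ℝ) / 3 + 1.645 * u + M / u) < 2 ^ c := by
    have : (2 : ℝ) ^ c = Real.exp (c * Real.log 2) := by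
      rw [Real.exp_nat_mul, Real.exp_log (by norm_num)]
    rw [this]
    refine Real.exp_lt_exp.2 (hx.trans_lt ?_)
    nlinarith
  have h10 : 2 * |((coeff i (gs n a (2 * s) k) : ℤ) : ℝ)| < 2 ^ (s + 1 + c) := by
    have e3 : 2 ^ s * (Real.exp ((u : ℝ) / 3) * Real.exp (1.645 * u)) * Real.exp (M / u) =
        2 ^ s * Real.exp ((u : ℝ) / 3 + 1.645 * u + M / u) := by
      rw [Real.exp_add, Real.exp_add]; ring
    rw [e3] at h7
    have e4 : (2 : ℝ) ^ (s + 1 + c) = 2 * (2 ^ s * 2 ^ c) := by ring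
    rw [e4]
    have : (2 : ℝ) ^ s * Real.exp ((u : ℝ) / 3 + 1.645 * u + M / u) < 2 ^ s * 2 ^ c :=
      mul_lt_mul_of_pos_left h9 (by positivity)
    linarith
  have h11 : ((2 * |coeff i (gs n a (2 * s) k)| : ℤ) : ℝ) < (((2 ^ (s + 1 + c) : ℕ) : ℤ) : ℝ) := by
    push_cast
    exact h10
  exact_mod_cast h11

/-- **Correctness of the kernel check.** -/
theorem run2_correct {n a s B M K : ℕ} (u : ℕ) (ha : 3 ≤ a) (hM : M ≤ 2 ^ 20)
    (hu : 1 ≤ u) (hs : s + 1 < B)
    (hbd : 19790 * u ^ 2 + 10000 * M ≤ 6931 * (B - 1 - s) * u)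
    (h : run2 n a (2 * s) B M K = true) :
    ∀ k < K, 4 ≤ k → Even (n * k) → ∀ i < M, 0 ≤ coeff i (gs n a (2 * s) k) := by
  intro k hk h4 he i hi
  have hB : 1 ≤ B := by omega
  obtain ⟨S, hS, hS0⟩ := chain2_spec hB hM K (k := 0) (S := 1) (rep_one B M) h k (Nat.zero_le _)
    (by omega) h4 (Nat.even_iff.1 he)
  refine digits_nonneg (2 ^ B) Nat.one_le_two_pow M S (fun i => coeff i (gs n a (2 * s) k)) ?_ ?_
    (digit_of_sign hB hS0) i hi
  · unfold Rep ev at hS
    push_cast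
    exact hS
  · intro i hi
    exact coeff_gs_lt ha hu hs hbd hi

/-- the missing factors -/
theorem fs_eq_gs (n a s2 k : ℕ) : ∃ e, fs n a k = gs n a s2 k * (1 + X) ^ e := by
  induction k with
  | zero => exact ⟨0, by simp [fs, gs]⟩
  | succ k ih =>
    obtain ⟨e, he⟩ := ih
    by_cases h1 : k % 2 = 0
    · by_cases h2 : k < s2
      · refine ⟨e, ?_⟩
        show (if k % 2 = 0 then fs n a k * (1 + X) else fs n a k) *
          (1 - (-X) ^ (a * (n + (k + 1)))) * gi (k + 1) =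
          (if k % 2 = 0 ∧ k < s2 then gs n a s2 k * (1 + X) else gs n a s2 k) *
          (1 - (-X) ^ (a * (n + (k + 1)))) * gi (k + 1) * (1 + X) ^ e
        rw [if_pos h1, if_pos ⟨h1, h2⟩, he]
        ring
      · refine ⟨e + 1, ?_⟩
        show (if k % 2 = 0 then fs n a k * (1 + X) else fs n a k) *
          (1 - (-X) ^ (a * (n + (k + 1)))) * gi (k + 1) =
          (if k % 2 = 0 ∧ k < s2 then gs n a s2 k * (1 + X) else gs n a s2 k) *
          (1 - (-X) ^ (a * (n + (k + 1)))) * gi (k + 1) * (1 + X) ^ (e + 1)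
        rw [if_pos h1, if_neg (fun h => h2 h.2), he]
        ring
    · refine ⟨e, ?_⟩
      show (if k % 2 = 0 then fs n a k * (1 + X) else fs n a k) *
        (1 - (-X) ^ (a * (n + (k + 1)))) * gi (k + 1) =
        (if k % 2 = 0 ∧ k < s2 then gs n a s2 k * (1 + X) else gs n a s2 k) *
        (1 - (-X) ^ (a * (n + (k + 1)))) * gi (k + 1) * (1 + X) ^ e
      rw [if_neg h1, if_neg (fun h => h1 h.1), he]
      ring

theorem nonneg_mul_one_add_pow {M : ℕ} (e : ℕ) : ∀ (P : ℤ⟦X⟧), (∀ i < M, 0 ≤ coeff i P) →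
    ∀ i < M, 0 ≤ coeff i (P * (1 + X) ^ e) := by
  induction e with
  | zero => intro P h; simpa using h
  | succ e ih =>
    intro P h i hi
    rw [pow_succ', ← mul_assoc]
    refine ih (P * (1 + X)) (fun i hi => ?_) i hi
    rw [mul_add, mul_one, map_add]
    cases i with
    | zero => rw [coeff_zero_mul_X]; have := h 0 hi; linarith
    | succ i =>
      rw [coeff_succ_mul_X]
      have h1 := h (i + 1) hi
      have h2 := h i (by omega)
      linarith

theorem coeff_gs_succ {n a s2 M k : ℕ} (ha : 1 ≤ a) (hk : M ≤ k + 1) (hs : s2 ≤ k) {i : ℕ}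
    (hi : i < M) : coeff i (gs n a s2 (k + 1)) = coeff i (gs n a s2 k) := by
  show coeff i ((if k % 2 = 0 ∧ k < s2 then gs n a s2 k * (1 + X) else gs n a s2 k) *
      (1 - (-X) ^ (a * (n + (k + 1)))) * gi (k + 1)) = _
  rw [if_neg (by omega), coeff_gi_congr hk _ hi, coeff_factor_congr _ _ hi]
  calc M ≤ k + 1 := hk
    _ ≤ n + (k + 1) := Nat.le_add_left _ _
    _ ≤ a * (n + (k + 1)) := Nat.le_mul_of_pos_left _ ha

theorem coeff_gs_stable {n a s2 M k : ℕ} (ha : 1 ≤ a) (hk : M ≤ k + 1) (hs : s2 ≤ k) {i : ℕ}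
    (hi : i < M) (d : ℕ) : coeff i (gs n a s2 (k + d)) = coeff i (gs n a s2 k) := by
  induction d with
  | zero => rfl
  | succ d ih =>
    rw [← add_assoc, coeff_gs_succ ha (by omega) (by omega) hi, ih]

/-- **The edge theorem for one pair `(n, a)`.** -/
theorem edge2 {n a s B M : ℕ} (u : ℕ) (ha : 3 ≤ a) (hM : M ≤ 2 ^ 20) (hM1 : 4 ≤ M)
    (hsM : 2 * s ≤ M) (hu : 1 ≤ u) (hs : s + 1 < B)
    (hbd : 19790 * u ^ 2 + 10000 * M ≤ 6931 * (B - 1 - s) * u)
    (h : run2 n a (2 * s) B M (M + 2) = true) :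
    ∀ k, 4 ≤ k → Even (n * k) → ∀ i < M, 0 ≤ coeff i (fs n a k) := by
  intro k h4 he
  have hg : ∀ i < M, 0 ≤ coeff i (gs n a (2 * s) k) := by
    have h0 := run2_correct u ha hM hu hs hbd h
    intro i hi
    rcases lt_or_ge k (M + 2) with hk | hk
    · exact h0 k hk h4 he i hi
    · -- an even index among `M`, `M + 1`
      obtain ⟨k1, hk1, hk1M, hk1e⟩ : ∃ k1, M ≤ k1 ∧ k1 < M + 2 ∧ k1 % 2 = 0 := by
        rcases Nat.mod_two_eq_zero_or_one M with h2 | h2
        · exact ⟨M, le_rfl, by omega, h2⟩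
        · exact ⟨M + 1, by omega, by omega, by omega⟩
      have h1 := h0 k1 hk1M (by omega) ((Nat.even_iff.2 hk1e).mul_left n) i hi
      obtain ⟨d, rfl⟩ : ∃ d, k = k1 + d := ⟨k - k1, by omega⟩
      rw [coeff_gs_stable (by omega) (by omega) (by omega) hi]
      exact h1
  obtain ⟨e, he'⟩ := fs_eq_gs n a (2 * s) k
  rw [he']
  exact nonneg_mul_one_add_pow e _ hg

end

end Pool.Agent.SignedQ.KC
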