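import Pool.Agent.Lib.MP_cf17a0_co.Final
import Pool.Agent.Lib.MP_cf17a0_co.KC

/-! # The low coefficients of the signed `q`-product from the kernel check -/

set_option autoImplicit false

namespace Pool.Agent.SignedQ.KC

open PowerSeries Finset

/-- the map to `ℚ` -/
theorem map_fs (n a k : ℕ) :
    PowerSeries.map (Int.castRingHom ℚ) (fs n a k) =
      G k * ∏ v ∈ range k, (1 - (-X : ℚ⟦X⟧) ^ (a * (n + v + 1))) := by
  have h := congrArg (PowerSeries.map (Int.castRingHom ℚ)) (fs_closed n a k)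
  simp only [map_mul, map_prod, map_sub, map_one, map_pow, map_neg, map_add, map_X] at h
  have hp : ∏ v ∈ range k, (1 - (-X : ℚ⟦X⟧) ^ (v + 1)) = poch (-X) k := rfl
  rw [hp] at h
  calc PowerSeries.map (Int.castRingHom ℚ) (fs n a k)
      = PowerSeries.map (Int.castRingHom ℚ) (fs n a k) * (poch (-X) k * I k) := by
        rw [poch_mul_I, mul_one]
    _ = (PowerSeries.map (Int.castRingHom ℚ) (fs n a k) * poch (-X) k) * I k := by ring
    _ = _ := by rw [h]; unfold G; ring

/-- the coefficients of the polynomial -/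
theorem coeff_poly {n k a : ℕ} {f : Polynomial ℚ}
    (hf : f * poch (-Polynomial.X : Polynomial ℚ) k = num n k a) (i : ℕ) :
    f.coeff i = ((coeff i (fs n a k) : ℤ) : ℚ) := by
  rw [← Polynomial.coeff_coe, f_series hf, ← map_fs, coeff_map]
  rfl

/-- below `a (n + 1)` the coefficients are nonnegative -/
theorem coeff_low {n a k i : ℕ} (ha : 1 ≤ a) (hi : i < a * (n + 1)) : 0 ≤ coeff i (fs n a k) := by
  have h : ((coeff i (fs n a k) : ℤ) : ℚ) = coeff i (G k) := by
    have h1 : ((coeff i (fs n a k) : ℤ) : ℚ) =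
        coeff i (PowerSeries.map (Int.castRingHom ℚ) (fs n a k)) := by
      rw [coeff_map]; rfl
    rw [h1, map_fs]
    refine coeff_small i (fun v => a * (n + v + 1)) (fun v => ?_) (G k) k
    refine hi.trans_le (Nat.mul_le_mul_left a (by omega))
  have h2 := NN_G k i
  rw [← h] at h2
  exact_mod_cast h2

/-- **The edge theorem.** -/
theorem edge_all {B M : ℕ} (hB : 1 ≤ B) (hM : M ≤ 2 ^ 20) (hM1 : 4 ≤ M)
    (hbd : 2 * bdd M (M + 2) < 2 ^ B)
    (h : ∀ n a, Odd a → 3 ≤ a → a * (n + 1) < M → run n a B M (M + 2) = true)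
    {n a k : ℕ} (ha : Odd a) (ha3 : 3 ≤ a) (hk : 4 ≤ k) (he : Even (n * k)) :
    ∀ i < M, 0 ≤ coeff i (fs n a k) := by
  intro i hi
  rcases lt_or_ge i (a * (n + 1)) with h1 | h1
  · exact coeff_low (by omega) h1
  · exact edge ha3 hB hM hM1 hbd (h n a ha ha3 (by omega)) k hk he i hi

end Pool.Agent.SignedQ.KC
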