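import Pool.Agent.Lib.MP_cf17a0_co.Final
import Pool.Agent.Lib.MP_cf17a0_co.KCEdge

/-!
# Full-degree kernel checks of the signed `q`-product

One `k`, many pairs `(n, a)`; digits with a self-verifying bound.
-/

set_option autoImplicit false

namespace Pool.Agent.SignedQ.KD

open PowerSeries Finset
open Pool.Agent.SignedQ.KC (gi gi_mul fs nm)

noncomputable section

/-- multiply by `1 + 2^sh` modulo `mask + 1` -/
def mulP (mask sh c : ℕ) : ℕ := Nat.land (Nat.add c (Nat.shiftLeft c sh)) mask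

/-- multiply by `1 - 2^sh` modulo `mask + 1` -/
def mulM (mask sh c : ℕ) : ℕ :=
  Nat.land (Nat.add c (Nat.sub (Nat.succ mask) (Nat.land (Nat.shiftLeft c sh) mask))) mask

/-- multiply by `1/(1 - 2^sh)` modulo `2^W` -/
def divM (W mask : ℕ) (fuel : ℕ) : ℕ → ℕ → ℕ :=
  Nat.rec (fun _ acc => acc)
    (fun _ ih sh acc =>
      Bool.rec acc (ih (Nat.mul 2 sh) (mulP mask sh acc)) (Nat.ble (Nat.succ sh) W)) fuel

/-- divide by `1 - x^j`, `x = -q` -/
def divF (B W mask j acc : ℕ) : ℕ :=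
  Bool.rec (divM W mask 20 (Nat.mul B (Nat.mul 2 j)) (mulM mask (Nat.mul B j) acc))
    (divM W mask 20 (Nat.mul B j) acc) (Nat.beq (Nat.mod j 2) 0)

/-- multiply by `1 - x^b` -/
def mulF (B W mask b acc : ℕ) : ℕ :=
  Bool.rec acc (Bool.rec (mulP mask (Nat.mul B b) acc) (mulM mask (Nat.mul B b) acc)
    (Nat.beq (Nat.mod b 2) 0)) (Nat.ble (Nat.succ (Nat.mul B b)) W)

/-- the residue of `F_k = (1+q)^⌈k/2⌉ / ∏ (1 - x^j)` -/
def FK (B W mask k : ℕ) : ℕ :=
  Nat.rec 1 (fun j acc => divF B W mask (Nat.succ j)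
    (Bool.rec acc (mulP mask B acc) (Nat.beq (Nat.mod j 2) 0))) k

/-- multiply by the numerators -/
def numer (n a B W mask k c : ℕ) : ℕ :=
  Nat.rec c (fun j acc => mulF B W mask (Nat.mul a (Nat.add n (Nat.succ j))) acc) k

/-- the number of coefficients which have to be checked (half degree) -/
def half1 (n k a : ℕ) : ℕ := Nat.succ (Nat.div (Nat.add (Nat.div (Nat.succ k) 2)
  (Nat.div (Nat.add (Nat.mul 2 (Nat.mul a (Nat.mul n k)))
    (Nat.mul (Nat.sub a 1) (Nat.mul k (Nat.succ k)))) 2)) 2)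

/-- one pair: all digits must be below `2^(B-k-1)` -/
def fd1 (k B Mx n a M : ℕ) : Bool :=
  Nat.beq (Nat.land (numer n a B (B * M) (2 ^ (B * M) - 1) k
    (Nat.land (FK B (B * Mx) (2 ^ (B * Mx) - 1) k) (2 ^ (B * M) - 1)))
      ((2 ^ (B * M) - 1) / (2 ^ B - 1) * (2 ^ B - 2 ^ (B - k - 1)))) 0

/-- all pairs `(n, a)` of a list -/
def fdl (k B Mx : ℕ) (l : List (ℕ × ℕ)) : Bool :=
  List.rec true (fun p _ ih => Bool.rec false ih (Bool.rec false
    (fd1 k B Mx p.1 p.2 (half1 p.1 k p.2)) (Nat.ble (half1 p.1 k p.2) Mx))) l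

theorem mulP_eq (mask sh c : ℕ) : mulP mask sh c = KC.mulP mask sh c :=
  (KC.force_eq c _).symm

theorem mulM_eq (mask sh c : ℕ) : mulM mask sh c = KC.mulM mask sh c :=
  (KC.force_eq c _).symm

theorem divM_eq (W mask fuel : ℕ) : ∀ sh acc, divM W mask fuel sh acc = KC.divM W mask fuel sh acc := by
  induction fuel with
  | zero => intro sh acc; rfl
  | succ fuel ih =>
    intro sh acc
    show (Bool.rec acc (divM W mask fuel (Nat.mul 2 sh) (mulP mask sh acc))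
      (Nat.ble (Nat.succ sh) W) : ℕ) = Bool.rec acc (KC.divM W mask fuel (Nat.mul 2 sh)
        (KC.mulP mask sh acc)) (Nat.ble (Nat.succ sh) W)
    rw [ih, mulP_eq]

theorem divF_eq (B W mask j acc : ℕ) : divF B W mask j acc = KC.divF B W mask j acc := by
  unfold divF KC.divF
  rw [divM_eq, divM_eq, mulM_eq]

theorem mulF_eq (B W mask b acc : ℕ) : mulF B W mask b acc = KC.mulF B W mask b acc := by
  unfold mulF KC.mulF
  rw [mulP_eq, mulM_eq]

/-- `F_k` -/
def Fs (k : ℕ) : ℤ⟦X⟧ :=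
  Nat.rec 1 (fun j P => (if j % 2 = 0 then P * (1 + X) else P) * gi (j + 1)) k

theorem Fs_succ (k : ℕ) : Fs (k + 1) = (if k % 2 = 0 then Fs k * (1 + X) else Fs k) * gi (k + 1) :=
  rfl

theorem rep_FK {B M : ℕ} (hB : 1 ≤ B) (hM : M ≤ 2 ^ 20) (k : ℕ) :
    KC.Rep B M (FK B (B * M) (2 ^ (B * M) - 1) k) (Fs k) := by
  induction k with
  | zero => exact KC.rep_one B M
  | succ k ih =>
    show KC.Rep B M (divF B (B * M) (2 ^ (B * M) - 1) (k + 1)
      (Bool.rec (FK B (B * M) (2 ^ (B * M) - 1) k)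
        (mulP (2 ^ (B * M) - 1) B (FK B (B * M) (2 ^ (B * M) - 1) k)) (Nat.beq (Nat.mod k 2) 0)))
      (Fs (k + 1))
    rw [divF_eq, Fs_succ]
    refine KC.Rep.divF hB hM (Nat.succ_pos k) ?_
    cases hc : Nat.beq (Nat.mod k 2) 0 with
    | true =>
      have hk : k % 2 = 0 := Nat.eq_of_beq_eq_true hc
      rw [if_pos hk]
      have := ih.mulP 1
      rw [mul_one, pow_one, ← mulP_eq] at this
      exact this
    | false =>
      have hk : ¬ k % 2 = 0 := Nat.ne_of_beq_eq_false hc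
      rw [if_neg hk]
      exact ih

theorem rep_trunc {B M Mx S : ℕ} {P : ℤ⟦X⟧} (hM : M ≤ Mx) (h : KC.Rep B Mx S P) :
    KC.Rep B M (Nat.land S (2 ^ (B * M) - 1)) P := by
  have h1 : Nat.land S (2 ^ (B * M) - 1) = S % 2 ^ (B * M) := by
    show S &&& (2 ^ (B * M) - 1) = _
    rw [Nat.and_two_pow_sub_one_eq_mod]
  unfold KC.Rep at *
  rw [h1]
  have h2 : (((2 : ℤ) ^ B) ^ M) ∣ ((S % 2 ^ (B * M) : ℕ) : ℤ) - (S : ℤ) := by
    push_cast
    rw [pow_mul]
    exact Int.dvd_sub_self_of_emod_eq rfl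
  have h3 : (((2 : ℤ) ^ B) ^ M) ∣ (S : ℤ) - KC.ev Mx (2 ^ B) P := (pow_dvd_pow _ hM).trans h
  have h4 : (((2 : ℤ) ^ B) ^ M) ∣ KC.ev Mx (2 ^ B) P - KC.ev M (2 ^ B) P := by
    obtain ⟨d, rfl⟩ : ∃ d, Mx = M + d := ⟨Mx - M, by omega⟩
    unfold KC.ev
    rw [sum_range_add, add_sub_cancel_left]
    refine dvd_sum fun i _ => ?_
    rw [pow_add]
    exact dvd_mul_of_dvd_right (dvd_mul_right _ _) _
  have h5 := (h2.add h3).add h4
  refine (Eq.mp (congrArg _ ?_) h5)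
  ring

/-- the product of the numerators -/
def Nu (n a k : ℕ) : ℤ⟦X⟧ := ∏ v ∈ range k, (1 - (-X) ^ (a * (n + (v + 1))))

theorem rep_numer {B M n a S : ℕ} {P : ℤ⟦X⟧} (hB : 1 ≤ B) (h : KC.Rep B M S P) (k : ℕ) :
    KC.Rep B M (numer n a B (B * M) (2 ^ (B * M) - 1) k S) (P * Nu n a k) := by
  induction k with
  | zero =>
    show KC.Rep B M S (P * Nu n a 0)
    unfold Nu
    rw [range_zero, prod_empty, mul_one]
    exact h
  | succ k ih =>
    show KC.Rep B M (mulF B (B * M) (2 ^ (B * M) - 1) (a * (n + (k + 1)))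
      (numer n a B (B * M) (2 ^ (B * M) - 1) k S)) (P * Nu n a (k + 1))
    rw [mulF_eq]
    have := ih.mulF hB (b := a * (n + (k + 1)))
    have e : P * Nu n a (k + 1) = P * Nu n a k * (1 - (-X) ^ (a * (n + (k + 1)))) := by
      unfold Nu
      rw [prod_range_succ, mul_assoc]
    rw [e]
    exact this

theorem fs_eq (n a k : ℕ) : fs n a k = Fs k * Nu n a k := by
  induction k with
  | zero => simp [fs, Fs, Nu]
  | succ k ih =>
    have e : Nu n a (k + 1) = Nu n a k * (1 - (-X) ^ (a * (n + (k + 1)))) := by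
      unfold Nu
      rw [prod_range_succ]
    show (if k % 2 = 0 then fs n a k * (1 + X) else fs n a k) *
      (1 - (-X) ^ (a * (n + (k + 1)))) * gi (k + 1) = _
    rw [Fs_succ, e, ih]
    split <;> ring


/-- digits of a masked number -/
theorem digit_land {B M S D : ℕ} (hD : D < 2 ^ B) (hB : 1 ≤ B)
    (h : Nat.land S ((2 ^ (B * M) - 1) / (2 ^ B - 1) * D) = 0) :
    ∀ i < M, (S / (2 ^ B) ^ i % 2 ^ B) &&& D = 0 := by
  intro i hi
  have h2 : 2 ≤ 2 ^ B := by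
    calc 2 = 2 ^ 1 := rfl
      _ ≤ 2 ^ B := Nat.pow_le_pow_right (by norm_num) hB
  have hm : ((2 ^ (B * M) - 1) / (2 ^ B - 1) * D) / (2 ^ B) ^ i % 2 ^ B = D := by
    have h1 : (2 ^ (B * M) - 1) / (2 ^ B - 1) = ∑ k ∈ range M, (2 ^ B) ^ k := by
      rw [pow_mul]
      exact (Nat.geomSum_eq h2 M).symm
    have h3 : ∑ k ∈ range M, (2 ^ B) ^ k =
        (∑ k ∈ range i, (2 ^ B) ^ k) + (2 ^ B) ^ i * ∑ k ∈ range (M - i), (2 ^ B) ^ k := by
      have : M = i + (M - i) := by omega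
      conv_lhs => rw [this]
      rw [sum_range_add, mul_sum]
      congr 1
      exact sum_congr rfl fun k _ => by rw [pow_add]
    have h4 : (∑ k ∈ range i, (2 ^ B) ^ k) * D < (2 ^ B) ^ i := by
      have e1 : (∑ k ∈ range i, (2 ^ B) ^ k) * (2 ^ B - 1) = (2 ^ B) ^ i - 1 := by
        rw [Nat.geomSum_eq h2]
        exact Nat.div_mul_cancel (by simpa using Nat.sub_dvd_pow_sub_pow (2 ^ B) 1 i)
      have e2 : D ≤ 2 ^ B - 1 := by omega
      have e3 := Nat.mul_le_mul_left (∑ k ∈ range i, (2 ^ B) ^ k) e2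
      have e4 : 1 ≤ (2 ^ B) ^ i := Nat.one_le_pow _ _ (by positivity)
      omega
    obtain ⟨r, hr⟩ : ∃ r, M - i = r + 1 := ⟨M - i - 1, by omega⟩
    rw [h1, h3, add_mul, mul_assoc, Nat.add_mul_div_left _ _ (by positivity),
      Nat.div_eq_of_lt h4, zero_add, hr, sum_range_succ', pow_zero, add_mul, one_mul]
    have h5 : ∑ k ∈ range r, (2 ^ B) ^ (k + 1) = 2 ^ B * ∑ k ∈ range r, (2 ^ B) ^ k := by
      rw [mul_sum]
      exact sum_congr rfl fun k _ => by rw [pow_succ']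
    rw [h5, mul_assoc, Nat.mul_add_mod, Nat.mod_eq_of_lt hD]
  have h6 : (S &&& ((2 ^ (B * M) - 1) / (2 ^ B - 1) * D)) / 2 ^ (B * i) % 2 ^ B = 0 := by
    rw [show (S &&& ((2 ^ (B * M) - 1) / (2 ^ B - 1) * D)) = 0 from h]
    simp
  rw [Nat.and_div_two_pow, Nat.and_mod_two_pow, pow_mul, hm] at h6
  exact h6

theorem lt_of_land {d B b : ℕ} (hb : b ≤ B) (hd : d < 2 ^ B) (h : d &&& (2 ^ B - 2 ^ b) = 0) :
    d < 2 ^ b := by
  have e : 2 ^ B - 2 ^ b = (2 ^ (B - b) - 1) * 2 ^ b := by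
    rw [Nat.sub_mul, one_mul, ← pow_add, Nat.sub_add_cancel hb]
  rw [e] at h
  have h1 : (d &&& ((2 ^ (B - b) - 1) * 2 ^ b)) / 2 ^ b = 0 := by rw [h]; simp
  rw [Nat.and_div_two_pow, Nat.mul_div_cancel _ (by positivity),
    Nat.and_two_pow_sub_one_eq_mod, Nat.mod_eq_of_lt] at h1
  · have := (Nat.div_eq_zero_iff (a := d) (b := 2 ^ b)).1 h1
    rcases this with h2 | h2
    · exact absurd h2 (by positivity)
    · exact h2
  · rw [Nat.div_lt_iff_lt_mul (by positivity), ← pow_add, Nat.sub_add_cancel hb]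
    exact hd

/-- the digit series -/
def dg (B M S : ℕ) : ℤ⟦X⟧ := mk fun i => if i < M then ((S / (2 ^ B) ^ i % 2 ^ B : ℕ) : ℤ) else 0

theorem sum_digits (Y M : ℕ) : ∀ S : ℕ, ∑ i ∈ range M, (S / Y ^ i % Y) * Y ^ i = S % Y ^ M := by
  induction M with
  | zero => intro S; simp [Nat.mod_one]
  | succ M ih =>
    intro S
    rw [sum_range_succ, ih, Nat.pow_succ, Nat.mod_mul]
    ring

theorem rep_dg (B M S : ℕ) : KC.Rep B M S (dg B M S) := by
  unfold KC.Rep KC.ev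
  have h : ∑ i ∈ range M, coeff i (dg B M S) * ((2 : ℤ) ^ B) ^ i =
      ((S % (2 ^ B) ^ M : ℕ) : ℤ) := by
    rw [← sum_digits]
    push_cast
    refine sum_congr rfl fun i hi => ?_
    unfold dg
    rw [coeff_mk, if_pos (mem_range.1 hi)]
    push_cast
    rfl
  rw [h]
  push_cast
  exact ⟨(S : ℤ) / (2 ^ B) ^ M, by rw [Int.emod_def]; ring⟩

theorem zero_factor {B M : ℕ} {P : ℤ⟦X⟧} (h : ((2 : ℤ) ^ B) ^ M ∣ KC.ev M (2 ^ B) P) (b : ℕ) :
    ((2 : ℤ) ^ B) ^ M ∣ KC.ev M (2 ^ B) (P * (1 - (-X) ^ b)) := by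
  have h1 := KC.ev_mul_X_pow M (2 ^ B) P b
  rcases Nat.mod_two_eq_zero_or_one b with h2 | h2
  · rw [KC.neg_pow_even' h2, mul_sub, mul_one, KC.ev_sub]
    have h3 := (h.sub h1).sub (h.mul_left ((2 ^ B) ^ b))
    refine (Eq.mp (congrArg _ ?_) h3)
    ring
  · rw [KC.neg_pow_odd' h2, sub_neg_eq_add, mul_add, mul_one, KC.ev_add]
    have h3 := (h.add h1).add (h.mul_left ((2 ^ B) ^ b))
    refine (Eq.mp (congrArg _ ?_) h3)
    ring

theorem zero_of_small (Y : ℕ) (hY : 1 ≤ Y) (M : ℕ) : ∀ (c : ℕ → ℤ),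
    ((Y : ℤ) ^ M) ∣ ∑ i ∈ range M, c i * (Y : ℤ) ^ i →
    (∀ i < M, |c i| < Y) → ∀ i < M, c i = 0 := by
  induction M with
  | zero => intro c _ _ i hi; omega
  | succ M ih =>
    intro c h h1
    have hsum : ∑ i ∈ range (M + 1), c i * (Y : ℤ) ^ i =
        c 0 + Y * ∑ i ∈ range M, c (i + 1) * (Y : ℤ) ^ i := by
      rw [sum_range_succ', mul_sum, pow_zero, mul_one, add_comm]
      congr 1
      exact sum_congr rfl fun i _ => by ring
    rw [hsum] at h
    have hdvd : (Y : ℤ) ∣ c 0 := by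
      have h3 : (Y : ℤ) ∣ c 0 + Y * ∑ i ∈ range M, c (i + 1) * (Y : ℤ) ^ i :=
        (dvd_pow_self _ (by omega)).trans h
      exact (dvd_add_left (dvd_mul_right _ _)).1 h3
    have h0 : c 0 = 0 := Int.eq_zero_of_abs_lt_dvd hdvd (h1 0 (by omega))
    intro i hi
    cases i with
    | zero => exact h0
    | succ i =>
      refine ih (fun i => c (i + 1)) ?_ (fun i hi => h1 (i + 1) (by omega)) i (by omega)
      have hYpos : (Y : ℤ) ≠ 0 := by positivity
      rw [h0, zero_add, pow_succ, mul_comm _ (Y : ℤ)] at h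
      exact Int.dvd_of_mul_dvd_mul_left hYpos h

/-- the denominator -/
def Dn (k : ℕ) : ℤ⟦X⟧ := ∏ v ∈ range k, (1 - (-X) ^ (v + 1))

theorem Dn_succ (k : ℕ) : Dn (k + 1) = Dn k * (1 - (-X) ^ (k + 1)) := by
  unfold Dn; rw [prod_range_succ]

theorem Dn_inv (k : ℕ) : ∃ J : ℤ⟦X⟧, Dn k * J = 1 := by
  induction k with
  | zero => exact ⟨1, by simp [Dn]⟩
  | succ k ih =>
    obtain ⟨J, hJ⟩ := ih
    refine ⟨J * gi (k + 1), ?_⟩
    have hg : (1 - (-X : ℤ⟦X⟧) ^ (k + 1)) * gi (k + 1) = 1 := gi_mul (Nat.succ_pos k)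
    rw [Dn_succ]
    calc Dn k * (1 - (-X) ^ (k + 1)) * (J * gi (k + 1)) =
          (Dn k * J) * ((1 - (-X) ^ (k + 1)) * gi (k + 1)) := by ring
      _ = 1 := by rw [hJ, hg, one_mul]

theorem nm_Dn (M k : ℕ) : nm M (Dn k) ≤ 2 ^ k := by
  induction k with
  | zero => unfold Dn; rw [range_zero, prod_empty]; exact KC.nm_one M
  | succ k ih =>
    rw [Dn_succ]
    have h1 := KC.nm_factor M (k + 1) (Dn k)
    have h2 : (if k + 1 < M then (2 : ℤ) else 1) ≤ 2 := by split <;> norm_num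
    have h3 := KC.nm_nonneg M (Dn k)
    have h4 : (0 : ℤ) ≤ (if k + 1 < M then (2 : ℤ) else 1) := by split <;> norm_num
    calc _ ≤ nm M (Dn k) * 2 := h1.trans (mul_le_mul_of_nonneg_left h2 h3)
      _ ≤ 2 ^ k * 2 := by linarith
      _ = 2 ^ (k + 1) := by rw [pow_succ]

theorem nm_Nu (M n a k : ℕ) (P : ℤ⟦X⟧) : nm M (P * Nu n a k) ≤ nm M P * 2 ^ k := by
  induction k with
  | zero => unfold Nu; rw [range_zero, prod_empty, mul_one, pow_zero, mul_one]
  | succ k ih =>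
    have e : P * Nu n a (k + 1) = P * Nu n a k * (1 - (-X) ^ (a * (n + (k + 1)))) := by
      unfold Nu
      rw [prod_range_succ, mul_assoc]
    rw [e]
    have h1 := KC.nm_factor M (a * (n + (k + 1))) (P * Nu n a k)
    have h2 : (if a * (n + (k + 1)) < M then (2 : ℤ) else 1) ≤ 2 := by split <;> norm_num
    have h3 := KC.nm_nonneg M (P * Nu n a k)
    calc _ ≤ nm M (P * Nu n a k) * 2 := h1.trans (mul_le_mul_of_nonneg_left h2 h3)
      _ ≤ nm M P * 2 ^ k * 2 := by linarith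
      _ = nm M P * 2 ^ (k + 1) := by rw [pow_succ]; ring

theorem nm_one_add_pow (M c : ℕ) : nm M ((1 + X : ℤ⟦X⟧) ^ c) ≤ 2 ^ c := by
  induction c with
  | zero => rw [pow_zero, pow_zero]; exact KC.nm_one M
  | succ c ih =>
    rw [pow_succ]
    have := KC.nm_one_add M ((1 + X : ℤ⟦X⟧) ^ c)
    calc _ ≤ nm M ((1 + X) ^ c) * 2 := this
      _ ≤ 2 ^ c * 2 := by linarith
      _ = 2 ^ (c + 1) := by rw [pow_succ]

theorem coeff_mul_bound {M i : ℕ} (hi : i < M) (P Q : ℤ⟦X⟧) (C : ℤ) (hC : 0 ≤ C)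
    (hP : ∀ j < M, |coeff j P| ≤ C) : |coeff i (P * Q)| ≤ C * nm M Q := by
  rw [coeff_mul]
  have h1 : |∑ p ∈ antidiagonal i, coeff p.1 P * coeff p.2 Q| ≤
      ∑ p ∈ antidiagonal i, C * |coeff p.2 Q| := by
    refine (abs_sum_le_sum_abs _ _).trans (sum_le_sum fun p hp => ?_)
    rw [abs_mul]
    have := mem_antidiagonal.1 hp
    exact mul_le_mul_of_nonneg_right (hP p.1 (by omega)) (abs_nonneg _)
  refine h1.trans ?_
  rw [← mul_sum]
  refine mul_le_mul_of_nonneg_left ?_ hC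
  rw [Finset.Nat.sum_antidiagonal_eq_sum_range_succ_mk]
  simp only
  have h2 : ∑ k ∈ range (i + 1), |coeff (i - k) Q| = ∑ k ∈ range (i + 1), |coeff k Q| := by
    have := sum_range_reflect (fun k => |coeff k Q|) (i + 1)
    rw [← this]
    exact sum_congr rfl fun k _ => by simp
  rw [Nat.succ_eq_add_one, h2]
  exact KC.nm_mono (by omega) Q

/-- **self-verifying digits** -/
theorem selfv {B M k n a S : ℕ} (hB : k + (k + 1) / 2 + 2 ≤ B)
    (hS : KC.Rep B M S (fs n a k))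
    (hd : ∀ i < M, S / (2 ^ B) ^ i % 2 ^ B < 2 ^ (B - k - 1)) :
    ∀ i < M, 0 ≤ coeff i (fs n a k) := by
  set f := fs n a k with hf
  set g := dg B M S with hg
  have hfD : f * Dn k = (1 + X) ^ ((k + 1) / 2) * Nu n a k := by
    have h1 := KC.fs_closed n a k
    have h2 : ∏ v ∈ range k, (1 - (-X : ℤ⟦X⟧) ^ (a * (n + v + 1))) = Nu n a k :=
      prod_congr rfl fun v _ => by rw [add_assoc]
    rw [h2] at h1
    exact h1
  have he : ((2 : ℤ) ^ B) ^ M ∣ KC.ev M (2 ^ B) (g - f) := by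
    have h1 := hS.sub (rep_dg B M S)
    rw [KC.ev_sub]
    refine (Eq.mp (congrArg _ ?_) h1)
    ring
  have hh : ((2 : ℤ) ^ B) ^ M ∣ KC.ev M (2 ^ B) ((g - f) * Dn k) := by
    have : ∀ k', ((2 : ℤ) ^ B) ^ M ∣ KC.ev M (2 ^ B) ((g - f) * Dn k') := by
      intro k'
      induction k' with
      | zero => unfold Dn; rw [range_zero, prod_empty, mul_one]; exact he
      | succ k' ih =>
        rw [Dn_succ, ← mul_assoc]
        exact zero_factor ih (k' + 1)
    exact this k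
  have hpow : (2 : ℤ) ^ k * 2 ^ (B - k - 1) = 2 ^ (B - 1) := by
    rw [← pow_add]; congr 1; omega
  have hBpow : (2 : ℤ) ^ B = 2 ^ (B - 1) * 2 := by
    rw [← pow_succ]; congr 1; omega
  have hsmall : ∀ i < M, |coeff i ((g - f) * Dn k)| < ((2 ^ B : ℕ) : ℤ) := by
    intro i hi
    have h1 : (g - f) * Dn k = g * Dn k - (1 + X) ^ ((k + 1) / 2) * Nu n a k := by
      rw [sub_mul, hfD]
    rw [h1, map_sub]
    have h2 : |coeff i (g * Dn k)| ≤ 2 ^ (B - k - 1) * nm M (Dn k) := by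
      refine coeff_mul_bound hi g (Dn k) _ (by positivity) fun j hj => ?_
      rw [hg]
      unfold dg
      rw [coeff_mk, if_pos hj, abs_of_nonneg (by positivity)]
      have := (hd j hj).le
      exact_mod_cast this
    have h3 : (2 : ℤ) ^ (B - k - 1) * nm M (Dn k) ≤ 2 ^ (B - 1) := by
      rw [← hpow, mul_comm]
      exact mul_le_mul_of_nonneg_right (nm_Dn M k) (by positivity)
    have h4 : |coeff i ((1 + X : ℤ⟦X⟧) ^ ((k + 1) / 2) * Nu n a k)| ≤ 2 ^ ((k + 1) / 2 + k) := by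
      refine (KC.coeff_le_nm hi _).trans ((nm_Nu M n a k _).trans ?_)
      rw [pow_add]
      exact mul_le_mul_of_nonneg_right (nm_one_add_pow M _) (by positivity)
    have h5 : (2 : ℤ) ^ ((k + 1) / 2 + k) < 2 ^ (B - 1) :=
      pow_lt_pow_right₀ (by norm_num) (by omega)
    have h6 := abs_sub (coeff i (g * Dn k)) (coeff i ((1 + X : ℤ⟦X⟧) ^ ((k + 1) / 2) * Nu n a k))
    push_cast
    rw [hBpow]
    linarith
  have hz : ∀ i < M, coeff i ((g - f) * Dn k) = 0 := by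
    refine zero_of_small (2 ^ B) Nat.one_le_two_pow M (fun i => coeff i ((g - f) * Dn k)) ?_ hsmall
    unfold KC.ev at hh
    push_cast
    exact hh
  obtain ⟨J, hJ⟩ := Dn_inv k
  intro i hi
  have h1 : coeff i (g - f) = 0 := by
    have : g - f = (g - f) * Dn k * J := by rw [mul_assoc, hJ, mul_one]
    rw [this, coeff_mul]
    refine sum_eq_zero fun p hp => ?_
    have := mem_antidiagonal.1 hp
    rw [hz p.1 (by omega), zero_mul]
  rw [map_sub] at h1
  have h2 : coeff i f = coeff i g := by linarith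
  rw [h2, hg]
  unfold dg
  rw [coeff_mk, if_pos hi]
  positivity

/-- **one pair** -/
theorem fd1_correct {B M Mx k n a : ℕ} (hB : k + (k + 1) / 2 + 2 ≤ B) (hMx : Mx ≤ 2 ^ 20)
    (hM : M ≤ Mx) (h : fd1 k B Mx n a M = true) : ∀ i < M, 0 ≤ coeff i (fs n a k) := by
  have h0 := Nat.eq_of_beq_eq_true h
  have hS : KC.Rep B M (numer n a B (B * M) (2 ^ (B * M) - 1) k
    (Nat.land (FK B (B * Mx) (2 ^ (B * Mx) - 1) k) (2 ^ (B * M) - 1))) (fs n a k) := by
    rw [fs_eq]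
    exact rep_numer (by omega) (rep_trunc hM (rep_FK (by omega) hMx k)) k
  refine selfv hB hS fun i hi => ?_
  have h1 := digit_land (D := 2 ^ B - 2 ^ (B - k - 1)) (Nat.sub_lt (by positivity) (by positivity))
    (by omega) h0 i hi
  exact lt_of_land (by omega) (Nat.mod_lt _ (by positivity)) h1


theorem half1_bound {n k a : ℕ} (ha : 1 ≤ a) {f : Polynomial ℚ}
    (hf : f * poch (-Polynomial.X : Polynomial ℚ) k = num n k a) {N : ℕ}
    (hN : 2 * N ≤ f.natDegree) : N < half1 n k a := by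
  have h1 := natDegree_f ha hf
  have hg : ∀ k : ℕ, 2 * ∑ v ∈ range k, (v + 1) = k * (k + 1) := by
    intro k
    induction k with
    | zero => simp
    | succ k ih => rw [sum_range_succ, mul_add, ih]; ring
  have hs : ∀ k : ℕ, ∑ v ∈ range k, a * (n + v + 1) = a * (n * k) + a * ∑ v ∈ range k, (v + 1) := by
    intro k
    induction k with
    | zero => simp
    | succ k ih => rw [sum_range_succ, ih, sum_range_succ]; ring
  rw [hs k] at h1
  have hgk := hg k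
  obtain ⟨b, rfl⟩ : ∃ b, a = b + 1 := ⟨a - 1, by omega⟩
  unfold half1
  show N < ((k + 1) / 2 + (2 * ((b + 1) * (n * k)) + (b + 1 - 1) * (k * (k + 1))) / 2) / 2 + 1
  rw [Nat.add_sub_cancel, ← hgk]
  have h2 : 2 * ((b + 1) * (n * k)) + b * (2 * ∑ v ∈ range k, (v + 1)) =
      2 * ((b + 1) * (n * k) + b * ∑ v ∈ range k, (v + 1)) := by ring
  rw [h2, Nat.mul_div_cancel_left _ (by norm_num)]
  have h3 : (b + 1) * ∑ v ∈ range k, (v + 1) =
      b * ∑ v ∈ range k, (v + 1) + ∑ v ∈ range k, (v + 1) := by ring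
  rw [h3] at h1
  omega

theorem fdl_mem {k B Mx : ℕ} : ∀ {l : List (ℕ × ℕ)}, fdl k B Mx l = true → ∀ p ∈ l,
    fd1 k B Mx p.1 p.2 (half1 p.1 k p.2) = true ∧ half1 p.1 k p.2 ≤ Mx := by
  intro l
  induction l with
  | nil => intro _ p hp; simp at hp
  | cons q l ih =>
    intro h p hp
    have h' : (Bool.rec false (fdl k B Mx l) (Bool.rec false
      (fd1 k B Mx q.1 q.2 (half1 q.1 k q.2)) (Nat.ble (half1 q.1 k q.2) Mx)) : Bool) = true := h
    cases hb : Nat.ble (half1 q.1 k q.2) Mx with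
    | false => rw [hb] at h'; exact absurd h' (by simp)
    | true =>
      rw [hb] at h'
      cases hc : fd1 k B Mx q.1 q.2 (half1 q.1 k q.2) with
      | false =>
        rw [hc] at h'; exact absurd h' (by simp)
      | true =>
        rw [hc] at h'
        rcases List.mem_cons.1 hp with rfl | hp
        · exact ⟨hc, Nat.le_of_ble_eq_true hb⟩
        · exact ih h' p hp

/-- **Full-degree check.** -/
theorem fd_poly {B Mx k : ℕ} (hB : k + (k + 1) / 2 + 2 ≤ B) (hMx : Mx ≤ 2 ^ 20)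
    {l : List (ℕ × ℕ)} (h : fdl k B Mx l = true) {n a : ℕ} (hp : (n, a) ∈ l)
    (hnk : Even (n * k)) (ha : Odd a) {f : Polynomial ℚ}
    (hf : f * poch (-Polynomial.X : Polynomial ℚ) k = num n k a) : ∀ i, 0 ≤ f.coeff i := by
  obtain ⟨h1, h2⟩ := fdl_mem h (n, a) hp
  refine half hnk ha hf fun N hN => ?_
  rw [KC.coeff_poly hf N]
  exact_mod_cast fd1_correct hB hMx h2 h1 N (half1_bound ha.pos hf hN)

end

end Pool.Agent.SignedQ.KD
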