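import Pool.Agent.Lib.MP_cf17a0_co.KD

/-!
# Rows of full-degree kernel checks, and their covering property
-/

set_option autoImplicit false

namespace Pool.Agent.SignedQ.KD

noncomputable section

/-- all `n ∈ [n0, n0+cnt)` with `n k` even -/
def fdr (k B Mx a n0 cnt : ℕ) : Bool :=
  Nat.rec true (fun i ih => Bool.rec false ih
    (Bool.rec (Bool.rec false (fd1 k B Mx (Nat.add n0 i) a (half1 (Nat.add n0 i) k a))
        (Nat.ble (half1 (Nat.add n0 i) k a) Mx)) true
      (Nat.beq (Nat.mod (Nat.mul (Nat.add n0 i) k) 2) 1))) cnt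

/-- a row: `(a, n0, cnt, B, Mx)` -/
def rowok (k : ℕ) (r : ℕ × ℕ × ℕ × ℕ × ℕ) : Bool :=
  Bool.rec false (Bool.rec false (fdr k r.2.2.2.1 r.2.2.2.2 r.1 r.2.1 r.2.2.1)
    (Nat.ble r.2.2.2.2 1048576)) (Nat.ble (k + (k + 1) / 2 + 2) r.2.2.2.1)

/-- all rows of a list -/
def rowsok (k : ℕ) (l : List (ℕ × ℕ × ℕ × ℕ × ℕ)) : Bool :=
  List.rec true (fun r _ ih => Bool.rec false ih (rowok k r)) l

theorem fdr_mem {k B Mx a n0 : ℕ} : ∀ {cnt : ℕ}, fdr k B Mx a n0 cnt = true → ∀ n, n0 ≤ n →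
    n < n0 + cnt → Even (n * k) →
      fd1 k B Mx n a (half1 n k a) = true ∧ half1 n k a ≤ Mx := by
  intro cnt
  induction cnt with
  | zero => intro _ n h1 h2; omega
  | succ i ih =>
    intro h n h1 h2 he
    have h' : (Bool.rec false (fdr k B Mx a n0 i)
      (Bool.rec (Bool.rec false (fd1 k B Mx (Nat.add n0 i) a (half1 (Nat.add n0 i) k a))
        (Nat.ble (half1 (Nat.add n0 i) k a) Mx)) true
      (Nat.beq (Nat.mod (Nat.mul (Nat.add n0 i) k) 2) 1)) : Bool) = true := h
    cases hb : (Bool.rec (Bool.rec false (fd1 k B Mx (Nat.add n0 i) a (half1 (Nat.add n0 i) k a))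
        (Nat.ble (half1 (Nat.add n0 i) k a) Mx)) true
      (Nat.beq (Nat.mod (Nat.mul (Nat.add n0 i) k) 2) 1) : Bool) with
    | false => rw [hb] at h'; exact absurd h' (by simp)
    | true =>
      rw [hb] at h'
      rcases Nat.lt_or_ge n (n0 + i) with h3 | h3
      · exact ih h' n h1 h3 he
      · obtain rfl : n = n0 + i := by omega
        have hc : Nat.beq (Nat.mod (Nat.mul (Nat.add n0 i) k) 2) 1 = false := by
          show Nat.beq (((n0 + i) * k) % 2) 1 = false
          rw [Nat.even_iff.1 he]; rfl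
        rw [hc] at hb
        have hb' : (Bool.rec false (fd1 k B Mx (Nat.add n0 i) a (half1 (Nat.add n0 i) k a))
          (Nat.ble (half1 (Nat.add n0 i) k a) Mx) : Bool) = true := hb
        cases hd : Nat.ble (half1 (Nat.add n0 i) k a) Mx with
        | false => rw [hd] at hb'; exact absurd hb' (by simp)
        | true =>
          rw [hd] at hb'
          exact ⟨hb', Nat.le_of_ble_eq_true hd⟩

theorem rowok_mem {k a n0 cnt B Mx : ℕ} (h : rowok k (a, n0, cnt, B, Mx) = true) :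
    k + (k + 1) / 2 + 2 ≤ B ∧ Mx ≤ 2 ^ 20 ∧ fdr k B Mx a n0 cnt = true := by
  have h' : (Bool.rec false (Bool.rec false (fdr k B Mx a n0 cnt)
    (Nat.ble Mx 1048576)) (Nat.ble (k + (k + 1) / 2 + 2) B) : Bool) = true := h
  cases hb : Nat.ble (k + (k + 1) / 2 + 2) B with
  | false => rw [hb] at h'; exact absurd h' (by simp)
  | true =>
    rw [hb] at h'
    have h'' : (Bool.rec false (fdr k B Mx a n0 cnt) (Nat.ble Mx 1048576) : Bool) = true := h'
    cases hc : Nat.ble Mx 1048576 with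
    | false => rw [hc] at h''; exact absurd h'' (by simp)
    | true =>
      rw [hc] at h''
      exact ⟨Nat.le_of_ble_eq_true hb, Nat.le_of_ble_eq_true hc, h''⟩

theorem rowsok_mem {k : ℕ} : ∀ {l : List (ℕ × ℕ × ℕ × ℕ × ℕ)}, rowsok k l = true →
    ∀ r ∈ l, rowok k r = true := by
  intro l
  induction l with
  | nil => intro _ r hr; simp at hr
  | cons q l ih =>
    intro h r hr
    have h' : (Bool.rec false (rowsok k l) (rowok k q) : Bool) = true := h
    cases hb : rowok k q with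
    | false => rw [hb] at h'; exact absurd h' (by simp)
    | true =>
      rw [hb] at h'
      rcases List.mem_cons.1 hr with rfl | hr
      · exact hb
      · exact ih h' r hr

theorem rowsok_append {k : ℕ} {l l' : List (ℕ × ℕ × ℕ × ℕ × ℕ)} (h : rowsok k l = true)
    (h' : rowsok k l' = true) : rowsok k (l ++ l') = true := by
  induction l with
  | nil => exact h'
  | cons q l ih =>
    have h1 : (Bool.rec false (rowsok k l) (rowok k q) : Bool) = true := h
    show (Bool.rec false (rowsok k (l ++ l')) (rowok k q) : Bool) = true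
    cases hb : rowok k q with
    | false => rw [hb] at h1; exact absurd h1 (by simp)
    | true =>
      rw [hb] at h1
      exact ih h1

/-- how far the rows with first entry `a` cover `[0, ·)` -/
def reach (a : ℕ) (l : List (ℕ × ℕ × ℕ × ℕ × ℕ)) (cur : ℕ) : ℕ :=
  match l with
  | [] => cur
  | r :: l => reach a l (if r.1 = a ∧ r.2.1 ≤ cur ∧ cur < r.2.1 + r.2.2.1 then r.2.1 + r.2.2.1 else cur)

theorem reach_mem {a : ℕ} : ∀ {l : List (ℕ × ℕ × ℕ × ℕ × ℕ)} {cur : ℕ} {n : ℕ}, cur ≤ n →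
    n < reach a l cur → ∃ r ∈ l, r.1 = a ∧ r.2.1 ≤ n ∧ n < r.2.1 + r.2.2.1 := by
  intro l
  induction l with
  | nil => intro cur n h1 h2; unfold reach at h2; omega
  | cons r l ih =>
    intro cur n h1 h2
    unfold reach at h2
    split at h2
    · rename_i hc
      rcases Nat.lt_or_ge n (r.2.1 + r.2.2.1) with h3 | h3
      · exact ⟨r, List.mem_cons_self, hc.1, by omega, h3⟩
      · obtain ⟨r', hr', h4⟩ := ih h3 h2
        exact ⟨r', List.mem_cons_of_mem _ hr', h4⟩
    · obtain ⟨r', hr', h4⟩ := ih h1 h2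
      exact ⟨r', List.mem_cons_of_mem _ hr', h4⟩

/-- the rows cover all odd `a ≥ 3` and all `n` with `a (n + c) < T` -/
def covers (c T A : ℕ) (l : List (ℕ × ℕ × ℕ × ℕ × ℕ)) : Bool :=
  Nat.ble T ((2 * A + 3) * c) && (List.range A).all fun i => Nat.ble T ((2 * i + 3) * (reach (2 * i + 3) l 0 + c))

/-- positivity of all coefficients for `(n, k, a)` -/
def Pos (n k a : ℕ) : Prop := ∀ f : Polynomial ℚ,
  f * poch (-Polynomial.X : Polynomial ℚ) k = num n k a → ∀ i, 0 ≤ f.coeff i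

/-- **Main tool**: rows that are checked and cover a region. -/
theorem pos_of_rows {k c T A : ℕ} {l : List (ℕ × ℕ × ℕ × ℕ × ℕ)} (h : rowsok k l = true)
    (hc : covers c T A l = true) {n a : ℕ} (hnk : Even (n * k)) (ha : Odd a) (ha3 : 3 ≤ a)
    (hT : a * (n + c) < T) : Pos n k a := by
  intro f hf
  unfold covers at hc
  rw [Bool.and_eq_true] at hc
  obtain ⟨hc1, hc2⟩ := hc
  have hc1' : T ≤ (2 * A + 3) * c := Nat.le_of_ble_eq_true hc1
  obtain ⟨b, rfl⟩ := ha
  obtain ⟨i, rfl⟩ : ∃ i, b = i + 1 := ⟨b - 1, by omega⟩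
  have hiA : i < A := by
    by_contra hcon
    have h1 : 2 * A + 3 ≤ 2 * (i + 1) + 1 := by omega
    have h2 : (2 * A + 3) * c ≤ (2 * (i + 1) + 1) * (n + c) := Nat.mul_le_mul h1 (by omega)
    omega
  have h3 := (List.all_eq_true.1 hc2) i (List.mem_range.2 hiA)
  have h4 : T ≤ (2 * i + 3) * (reach (2 * i + 3) l 0 + c) := Nat.le_of_ble_eq_true h3
  have h5 : n < reach (2 * i + 3) l 0 := by
    by_contra hcon
    have h6 : (2 * i + 3) * (reach (2 * i + 3) l 0 + c) ≤ (2 * (i + 1) + 1) * (n + c) :=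
      Nat.mul_le_mul (by omega) (by omega)
    omega
  obtain ⟨r, hr, h6, h7, h8⟩ := reach_mem (Nat.zero_le _) h5
  obtain ⟨a', n0, cnt, B, Mx⟩ := r
  have h6' : a' = 2 * i + 3 := h6
  obtain ⟨hB, hMx, hfd⟩ := rowok_mem (rowsok_mem h _ hr)
  obtain ⟨h9, h10⟩ := fdr_mem hfd n h7 h8 hnk
  subst h6'
  have e : 2 * (i + 1) + 1 = 2 * i + 3 := by ring
  rw [e] at hf
  have hodd : Odd (2 * i + 3) := ⟨i + 1, by ring⟩
  refine half hnk hodd hf fun N hN => ?_
  rw [KC.coeff_poly hf N]
  exact_mod_cast fd1_correct hB hMx h10 h9 N (half1_bound (by omega) hf hN)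

end

end Pool.Agent.SignedQ.KD
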