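/-!
# Kernel checks of the signed `q`-product, second engine: the functions

This file imports nothing, so that the files with the checks load quickly.
Truncated power series over `ℤ` are stored as residues modulo `2^(B*M)` (Kronecker substitution
`q ↦ 2^B`).  Everything is written with `Nat.rec` and the GMP accelerated operations.
-/

set_option autoImplicit false

namespace Pool.Agent.SignedQ.KE

noncomputable section

/-- `2^W - 1` -/
def msk (W : Nat) : Nat := Nat.sub (Nat.pow 2 W) 1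

/-- multiply by `1 + 2^sh` modulo `2^W` -/
def mulP (W sh c : Nat) : Nat := Nat.land (Nat.add c (Nat.shiftLeft c sh)) (msk W)

/-- multiply by `1 - 2^sh` modulo `2^W` -/
def mulM (W sh c : Nat) : Nat :=
  Nat.land (Nat.add c (Nat.sub (Nat.pow 2 W) (Nat.land (Nat.shiftLeft c sh) (msk W)))) (msk W)

/-- multiply by `1/(1 - 2^sh)` modulo `2^W`: the product `(1+2^sh)(1+2^(2sh))...` -/
def divM (W : Nat) (fuel : Nat) : Nat → Nat → Nat :=
  Nat.rec (fun _ acc => acc)
    (fun _ ih sh acc =>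
      Bool.rec acc (ih (Nat.mul 2 sh) (mulP W sh acc)) (Nat.ble (Nat.succ sh) W)) fuel

/-- divide by `1 - x^j`, `x = -q` -/
def divF (B W j acc : Nat) : Nat :=
  Bool.rec (divM W 20 (Nat.mul B (Nat.mul 2 j)) (mulM W (Nat.mul B j) acc))
    (divM W 20 (Nat.mul B j) acc) (Nat.beq (Nat.mod j 2) 0)

/-- multiply by `1 - x^b` -/
def mulF (B W b acc : Nat) : Nat :=
  Bool.rec acc (Bool.rec (mulP W (Nat.mul B b) acc) (mulM W (Nat.mul B b) acc)
    (Nat.beq (Nat.mod b 2) 0)) (Nat.ble (Nat.succ (Nat.mul B b)) W)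

/-- `∏ (Y^j ± 1)`, `j ≤ k`, the sign being that of `1 - (-Y)^j` up to a global sign -/
def PP (B k : Nat) : Nat :=
  Nat.rec 1 (fun j p => Bool.rec
    (Nat.sub (Nat.shiftLeft p (Nat.mul B (Nat.succ j))) p)
    (Nat.add (Nat.shiftLeft p (Nat.mul B (Nat.succ j))) p)
    (Nat.beq (Nat.mod j 2) 0)) k

/-- the residue of `∏ (1 - x^j)` -/
def DD (B W k : Nat) : Nat :=
  Bool.rec (Nat.land (Nat.sub (Nat.pow 2 W) (Nat.land (PP B k) (msk W))) (msk W))
    (Nat.land (PP B k) (msk W)) (Nat.beq (Nat.mod (Nat.div k 2) 2) 0)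

/-- Newton inversion modulo `2^w` of `D = 1` modulo `2^B` -/
def inv (B D : Nat) (fuel : Nat) : Nat → Nat :=
  Nat.rec (fun _ => 1)
    (fun _ ih w => Bool.rec
      (Nat.land (Nat.mul (ih (Nat.div (Nat.succ w) 2)) (Nat.sub (Nat.add (Nat.pow 2 w) 2)
        (Nat.land (Nat.mul (Nat.land D (msk w)) (ih (Nat.div (Nat.succ w) 2))) (msk w)))) (msk w))
      1 (Nat.ble w B)) fuel

/-- the residue of `F_k = (1+q)^⌈k/2⌉ / ∏ (1 - x^j)` -/
def VV (B W k : Nat) : Nat :=
  Nat.land (Nat.mul (inv B (DD B W k) 30 W)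
    (Nat.pow (Nat.succ (Nat.pow 2 B)) (Nat.div (Nat.succ k) 2))) (msk W)

/-- the product check of `VV` -/
def vchk (B W k : Nat) : Bool :=
  Nat.beq (Nat.land (Nat.mul (DD B W k) (VV B W k)) (msk W))
    (Nat.land (Nat.pow (Nat.succ (Nat.pow 2 B)) (Nat.div (Nat.succ k) 2)) (msk W))

/-- multiply by the numerators -/
def numer (n a B W k c : Nat) : Nat :=
  Nat.rec c (fun j acc => mulF B W (Nat.mul a (Nat.add n (Nat.succ j))) acc) k

/-- the number of coefficients which have to be checked (half degree) -/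
def half1 (n k a : Nat) : Nat := Nat.succ (Nat.div (Nat.add (Nat.div (Nat.succ k) 2)
  (Nat.div (Nat.add (Nat.mul 2 (Nat.mul a (Nat.mul n k)))
    (Nat.mul (Nat.sub a 1) (Nat.mul k (Nat.succ k)))) 2)) 2)

/-- the upper `B - u` bits of all digits -/
def pat (B M u : Nat) : Nat :=
  Nat.mul (Nat.div (msk (Nat.mul B M)) (msk B)) (Nat.sub (Nat.pow 2 B) (Nat.pow 2 u))

/-- the residue of `f_{N,k,a}` computed directly -/
def dir (k B Mx a N : Nat) : Nat :=
  numer N a B (Nat.mul B (half1 N k a)) k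
    (Nat.land (VV B (Nat.mul B Mx) k) (msk (Nat.mul B (half1 N k a))))

/-- the factor `Y^b ± 1`, `b = a (n + j + 1)`, for `j < k`, and `1` for `j ≥ k` -/
def leaf (n a B k j : Nat) : Nat :=
  Bool.rec 1 (Bool.rec (Nat.succ (Nat.pow 2 (Nat.mul B (Nat.mul a (Nat.add n (Nat.succ j))))))
    (Nat.sub (Nat.pow 2 (Nat.mul B (Nat.mul a (Nat.add n (Nat.succ j))))) 1)
    (Nat.beq (Nat.mod (Nat.mul a (Nat.add n (Nat.succ j))) 2) 0)) (Nat.ble (Nat.succ j) k)

/-- the product of `2^t` leaves -/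
def ptree (W n a B k : Nat) (t : Nat) : Nat → Nat :=
  Nat.rec (fun lo => leaf n a B k lo)
    (fun t ih lo => Nat.land (Nat.mul (ih lo) (ih (Nat.add lo (Nat.pow 2 t)))) (msk W)) t

/-- the number of minus signs -/
def nsg (n a k : Nat) : Nat :=
  Nat.rec 0 (fun j s => Bool.rec s (Nat.succ s)
    (Nat.beq (Nat.mod (Nat.mul a (Nat.add n (Nat.succ j))) 2) 0)) k

/-- `F_k` times the product of the numerators, up to sign -/
def dirS (k B W Mx a N : Nat) : Nat :=
  Nat.land (Nat.mul (Nat.land (VV B (Nat.mul B Mx) k) (msk W))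
    (ptree W N a B k (Nat.succ (Nat.log2 k)) 0)) (msk W)

/-- the residue of `f_{N,k,a}` computed with a product tree -/
def dirT (k B Mx a N : Nat) : Nat :=
  Bool.rec (Nat.land (Nat.sub (Nat.pow 2 (Nat.mul B (half1 N k a)))
      (dirS k B (Nat.mul B (half1 N k a)) Mx a N)) (msk (Nat.mul B (half1 N k a))))
    (dirS k B (Nat.mul B (half1 N k a)) Mx a N) (Nat.beq (Nat.mod (nsg N a k) 2) 0)

/-- the step from `f_{n+1}` to `f_n` -/
def dn (k B W a n c : Nat) : Nat :=
  divF B W (Nat.mul a (Nat.add n (Nat.succ k))) (mulF B W (Nat.mul a (Nat.succ n)) c)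

/-- the residue of `f_{N-d,k,a}` modulo `2^(B * half1 (N-d) k a)` -/
def res (k B Mx a N : Nat) (d : Nat) : Nat :=
  Nat.rec (dirT k B Mx a N)
    (fun d acc => dn k B (Nat.mul B (half1 (Nat.sub N (Nat.succ d)) k a)) a (Nat.sub N (Nat.succ d))
      (Nat.land acc (msk (Nat.mul B (half1 (Nat.sub N (Nat.succ d)) k a))))) d

/-- chain mode: all `n` in `(N - cnt, N]` with `n k` even -/
def fdn (k B Mx u a N : Nat) (cnt : Nat) : Bool :=
  Nat.rec true (fun d ih => Bool.rec false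
    (Bool.rec (Nat.beq (Nat.land (res k B Mx a N d) (pat B Mx u)) 0) true
      (Nat.beq (Nat.mod (Nat.mul (Nat.sub N d) k) 2) 1)) ih) cnt

/-- direct mode -/
def fdd (k B Mx u a N : Nat) (cnt : Nat) : Bool :=
  Nat.rec true (fun d ih => Bool.rec false
    (Bool.rec (Nat.beq (Nat.land (dir k B Mx a (Nat.sub N d)) (pat B Mx u)) 0) true
      (Nat.beq (Nat.mod (Nat.mul (Nat.sub N d) k) 2) 1)) ih) cnt

/-- the first `n` with `T ≤ a (n + c)` -/
def nlo (T a c : Nat) : Nat := Nat.sub (Nat.div (Nat.add T (Nat.sub a 1)) a) c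

/-- one `a`: all `n` with `T1 ≤ a (n + c) < T2` -/
def rowchk (k c B Mx u md T1 T2 a : Nat) : Bool :=
  Bool.rec (Bool.rec false
      (Bool.rec (fdd k B Mx u a (Nat.sub (nlo T2 a c) 1) (Nat.sub (nlo T2 a c) (nlo T1 a c)))
        (fdn k B Mx u a (Nat.sub (nlo T2 a c) 1) (Nat.sub (nlo T2 a c) (nlo T1 a c)))
        (Nat.beq md 1))
      (Nat.ble (half1 (Nat.sub (nlo T2 a c) 1) k a) Mx))
    true (Nat.ble (nlo T2 a c) (nlo T1 a c))

/-- a block: all `a = 2 (i0 + i) + 3`, `i < ci` -/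
def blk (k c B Mx u md T1 T2 i0 ci : Nat) : Bool :=
  Nat.rec true (fun i ih => Bool.rec false
    (rowchk k c B Mx u md T1 T2 (Nat.add (Nat.mul 2 (Nat.add i0 i)) 3)) ih) ci

/-- all blocks `(md, T1, T2, i0, ci)` of a list -/
def blks (k c B Mx u : Nat) (l : List (Nat × Nat × Nat × Nat × Nat)) : Bool :=
  List.rec true (fun r _ ih => Bool.rec false ih
    (blk k c B Mx u r.1 r.2.1 r.2.2.1 r.2.2.2.1 r.2.2.2.2)) l

/-- all coefficients of `∏ (1 - x^j)` of index `< M` are at most `2^m` in absolute value -/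
def dck (k m M : Nat) : Bool :=
  Nat.beq (Nat.land (Nat.add (Nat.land (PP (Nat.add k 3) k) (msk (Nat.mul (Nat.add k 3) M)))
      (Nat.mul (Nat.div (msk (Nat.mul (Nat.add k 3) M)) (msk (Nat.add k 3))) (Nat.pow 2 m)))
    (pat (Nat.add k 3) M (Nat.succ m))) 0

/-- a bound `2^e` for the `ℓ¹` norm of `∏ (1 - x^j)`: either `k ≤ e`, or by `dck` -/
def echk (k e m M : Nat) : Bool :=
  Bool.rec (Bool.rec false (Bool.rec false (dck k m M) (Nat.ble m k))
    (Nat.ble (Nat.mul M (Nat.pow 2 m)) (Nat.pow 2 e))) true (Nat.ble k e)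

/-- one sheet: digits of `B` bits, of which the upper `e + 1` bits must vanish -/
def sheet (k c B Mx e m : Nat) (l : List (Nat × Nat × Nat × Nat × Nat)) : Bool :=
  Bool.rec false (Bool.rec false (Bool.rec false (Bool.rec false (Bool.rec false
    (blks k c B Mx (Nat.sub B (Nat.succ e)) l) (vchk B (Nat.mul B Mx) k)) (echk k e m Mx))
    (Nat.ble Mx 1048576)) (Nat.ble (Nat.add e 2) B)) (Nat.ble (k + (k + 1) / 2 + 2) B)

/-- the state of the covering check: `[0, t)` is covered, and `[t, t')` for the first `i` values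
of `a` -/
def cov (c : Nat) : List (Nat × Nat × Nat × Nat × Nat) → Nat → Nat → Nat → Nat
  | [], t, _, _ => t
  | r :: l, t, t', i =>
    if r.2.1 = t ∧ r.2.2.2.1 = i ∧ (r.2.2.1 = t' ∨ i = 0) then
      (if r.2.2.1 ≤ (2 * (i + r.2.2.2.2) + 3) * c then cov c l r.2.2.1 0 0
        else cov c l t r.2.2.1 (i + r.2.2.2.2))
    else 0

end

end Pool.Agent.SignedQ.KE
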