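import Pool.Agent.Lib.MP_cf17a0_co.KE

/-!
# The second engine for numbers of more than `2^24` bits

The same functions as in `KE`, with `1 <<< W` in place of `2 ^ W` (the kernel does not evaluate
powers of two with more than `2^24` bits).
-/

set_option autoImplicit false

namespace Pool.Agent.SignedQ.KL

open Pool.Agent.SignedQ.KE (PP half1 leaf nsg nlo)

noncomputable section

/-- `2^W` -/
def p2 (W : Nat) : Nat := Nat.shiftLeft 1 W

/-- `2^W - 1` -/
def msk (W : Nat) : Nat := Nat.sub (p2 W) 1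

/-- multiply by `1 + 2^sh` modulo `2^W` -/
def mulP (W sh c : Nat) : Nat := Nat.land (Nat.add c (Nat.shiftLeft c sh)) (msk W)

/-- multiply by `1 - 2^sh` modulo `2^W` -/
def mulM (W sh c : Nat) : Nat :=
  Nat.land (Nat.add c (Nat.sub (p2 W) (Nat.land (Nat.shiftLeft c sh) (msk W)))) (msk W)

/-- multiply by `1/(1 - 2^sh)` modulo `2^W`: the product `(1+2^sh)(1+2^(2sh))...` -/
def divM (W : Nat) (fuel : Nat) : Nat → Nat → Nat :=
  Nat.rec (fun _ acc => acc)
    (fun _ ih sh acc =>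
      Bool.rec acc (ih (Nat.mul 2 sh) (mulP W sh acc)) (Nat.ble (Nat.succ sh) W)) fuel

/-- divide by `1 - x^j`, `x = -q` -/
def divF (B W j acc : Nat) : Nat :=
  Bool.rec (divM W 20 (Nat.mul B (Nat.mul 2 j)) (mulM W (Nat.mul B j) acc))
    (divM W 20 (Nat.mul B j) acc) (Nat.beq (Nat.mod j 2) 0)

/-- multiply by `1 - x^b` -/
def mulF (B W b acc : Nat) : Nat :=
  Bool.rec acc (Bool.rec (mulP W (Nat.mul B b) acc) (mulM W (Nat.mul B b) acc)
    (Nat.beq (Nat.mod b 2) 0)) (Nat.ble (Nat.succ (Nat.mul B b)) W)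

/-- the residue of `∏ (1 - x^j)` -/
def DD (B W k : Nat) : Nat :=
  Bool.rec (Nat.land (Nat.sub (p2 W) (Nat.land (PP B k) (msk W))) (msk W))
    (Nat.land (PP B k) (msk W)) (Nat.beq (Nat.mod (Nat.div k 2) 2) 0)

/-- Newton inversion modulo `2^w` of `D = 1` modulo `2^B` -/
def inv (B D : Nat) (fuel : Nat) : Nat → Nat :=
  Nat.rec (fun _ => 1)
    (fun _ ih w => Bool.rec
      (Nat.land (Nat.mul (ih (Nat.div (Nat.succ w) 2)) (Nat.sub (Nat.add (p2 w) 2)
        (Nat.land (Nat.mul (Nat.land D (msk w)) (ih (Nat.div (Nat.succ w) 2))) (msk w)))) (msk w))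
      1 (Nat.ble w B)) fuel

/-- the residue of `F_k = (1+q)^⌈k/2⌉ / ∏ (1 - x^j)` -/
def VV (B W k : Nat) : Nat :=
  Nat.land (Nat.mul (inv B (DD B W k) 30 W)
    (Nat.pow (Nat.succ (Nat.pow 2 B)) (Nat.div (Nat.succ k) 2))) (msk W)

/-- the product check of `VV` -/
def vchk (B W k : Nat) : Bool :=
  Nat.beq (Nat.land (Nat.mul (DD B W k) (VV B W k)) (msk W))
    (Nat.land (Nat.pow (Nat.succ (Nat.pow 2 B)) (Nat.div (Nat.succ k) 2)) (msk W))

/-- multiply by the numerators -/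
def numer (n a B W k c : Nat) : Nat :=
  Nat.rec c (fun j acc => mulF B W (Nat.mul a (Nat.add n (Nat.succ j))) acc) k

/-- the upper `B - u` bits of all digits -/
def pat (B M u : Nat) : Nat :=
  Nat.mul (Nat.div (msk (Nat.mul B M)) (msk B)) (Nat.sub (Nat.pow 2 B) (Nat.pow 2 u))

/-- the residue of `f_{N,k,a}` computed directly -/
def dir (k B Mx a N : Nat) : Nat :=
  numer N a B (Nat.mul B (half1 N k a)) k
    (Nat.land (VV B (Nat.mul B Mx) k) (msk (Nat.mul B (half1 N k a))))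

/-- the product of `2^t` leaves -/
def ptree (W n a B k : Nat) (t : Nat) : Nat → Nat :=
  Nat.rec (fun lo => leaf n a B k lo)
    (fun t ih lo => Nat.land (Nat.mul (ih lo) (ih (Nat.add lo (Nat.pow 2 t)))) (msk W)) t

/-- `F_k` times the product of the numerators, up to sign -/
def dirS (k B W Mx a N : Nat) : Nat :=
  Nat.land (Nat.mul (Nat.land (VV B (Nat.mul B Mx) k) (msk W))
    (ptree W N a B k (Nat.succ (Nat.log2 k)) 0)) (msk W)

/-- the residue of `f_{N,k,a}` computed with a product tree -/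
def dirT (k B Mx a N : Nat) : Nat :=
  Bool.rec (Nat.land (Nat.sub (p2 (Nat.mul B (half1 N k a)))
      (dirS k B (Nat.mul B (half1 N k a)) Mx a N)) (msk (Nat.mul B (half1 N k a))))
    (dirS k B (Nat.mul B (half1 N k a)) Mx a N) (Nat.beq (Nat.mod (nsg N a k) 2) 0)

/-- the step from `f_{n+1}` to `f_n` -/
def dn (k B W a n c : Nat) : Nat :=
  divF B W (Nat.mul a (Nat.add n (Nat.succ k))) (mulF B W (Nat.mul a (Nat.succ n)) c)

/-- the residue of `f_{N-d,k,a}` modulo `2^(B * half1 (N-d) k a)` -/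
def res (k B Mx a N : Nat) (d : Nat) : Nat :=
  Nat.rec (dirT k B Mx a N)
    (fun d acc => dn k B (Nat.mul B (half1 (Nat.sub N (Nat.succ d)) k a)) a (Nat.sub N (Nat.succ d))
      (Nat.land acc (msk (Nat.mul B (half1 (Nat.sub N (Nat.succ d)) k a))))) d

/-- chain mode: all `n` in `(N - cnt, N]` with `n k` even -/
def fdn (k B Mx u a N : Nat) (cnt : Nat) : Bool :=
  Nat.rec true (fun d ih => Bool.rec false
    (Bool.rec (Nat.beq (Nat.land (res k B Mx a N d) (pat B Mx u)) 0) true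
      (Nat.beq (Nat.mod (Nat.mul (Nat.sub N d) k) 2) 1)) ih) cnt

/-- direct mode -/
def fdd (k B Mx u a N : Nat) (cnt : Nat) : Bool :=
  Nat.rec true (fun d ih => Bool.rec false
    (Bool.rec (Nat.beq (Nat.land (dir k B Mx a (Nat.sub N d)) (pat B Mx u)) 0) true
      (Nat.beq (Nat.mod (Nat.mul (Nat.sub N d) k) 2) 1)) ih) cnt

/-- one `a`: all `n` with `T1 ≤ a (n + c) < T2` -/
def rowchk (k c B Mx u md T1 T2 a : Nat) : Bool :=
  Bool.rec (Bool.rec false
      (Bool.rec (fdd k B Mx u a (Nat.sub (nlo T2 a c) 1) (Nat.sub (nlo T2 a c) (nlo T1 a c)))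
        (fdn k B Mx u a (Nat.sub (nlo T2 a c) 1) (Nat.sub (nlo T2 a c) (nlo T1 a c)))
        (Nat.beq md 1))
      (Nat.ble (half1 (Nat.sub (nlo T2 a c) 1) k a) Mx))
    true (Nat.ble (nlo T2 a c) (nlo T1 a c))

/-- a block: all `a = 2 (i0 + i) + 3`, `i < ci` -/
def blk (k c B Mx u md T1 T2 i0 ci : Nat) : Bool :=
  Nat.rec true (fun i ih => Bool.rec false
    (rowchk k c B Mx u md T1 T2 (Nat.add (Nat.mul 2 (Nat.add i0 i)) 3)) ih) ci

/-- all blocks `(md, T1, T2, i0, ci)` of a list -/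
def blks (k c B Mx u : Nat) (l : List (Nat × Nat × Nat × Nat × Nat)) : Bool :=
  List.rec true (fun r _ ih => Bool.rec false ih
    (blk k c B Mx u r.1 r.2.1 r.2.2.1 r.2.2.2.1 r.2.2.2.2)) l

/-- all coefficients of `∏ (1 - x^j)` of index `< M` are at most `2^m` in absolute value -/
def dck (k m M : Nat) : Bool :=
  Nat.beq (Nat.land (Nat.add (Nat.land (PP (Nat.add k 3) k) (msk (Nat.mul (Nat.add k 3) M)))
      (Nat.mul (Nat.div (msk (Nat.mul (Nat.add k 3) M)) (msk (Nat.add k 3))) (Nat.pow 2 m)))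
    (pat (Nat.add k 3) M (Nat.succ m))) 0

/-- a bound `2^e` for the `ℓ¹` norm of `∏ (1 - x^j)`: either `k ≤ e`, or by `dck` -/
def echk (k e m M : Nat) : Bool :=
  Bool.rec (Bool.rec false (Bool.rec false (dck k m M) (Nat.ble m k))
    (Nat.ble (Nat.mul M (Nat.pow 2 m)) (Nat.pow 2 e))) true (Nat.ble k e)

/-- one sheet: digits of `B` bits, of which the upper `e + 1` bits must vanish -/
def sheet (k c B Mx e m : Nat) (l : List (Nat × Nat × Nat × Nat × Nat)) : Bool :=
  Bool.rec false (Bool.rec false (Bool.rec false (Bool.rec false (Bool.rec false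
    (blks k c B Mx (Nat.sub B (Nat.succ e)) l) (vchk B (Nat.mul B Mx) k)) (echk k e m Mx))
    (Nat.ble Mx 1048576)) (Nat.ble (Nat.add e 2) B)) (Nat.ble (k + (k + 1) / 2 + 2) B)

end

theorem p2_eq (W : Nat) : p2 W = Nat.pow 2 W := by
  show 1 <<< W = 2 ^ W
  rw [Nat.shiftLeft_eq, Nat.one_mul]

theorem msk_eq : msk = KE.msk := by
  funext W
  unfold msk KE.msk
  rw [p2_eq]

theorem mulP_eq : mulP = KE.mulP := by
  funext W sh c
  unfold mulP KE.mulP
  rw [msk_eq]

theorem mulM_eq : mulM = KE.mulM := by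
  funext W sh c
  unfold mulM KE.mulM
  rw [msk_eq, p2_eq]

theorem divM_eq : divM = KE.divM := by
  unfold divM KE.divM
  rw [mulP_eq]

theorem divF_eq : divF = KE.divF := by
  unfold divF KE.divF
  rw [mulM_eq, divM_eq]

theorem mulF_eq : mulF = KE.mulF := by
  unfold mulF KE.mulF
  rw [mulM_eq, mulP_eq]

theorem DD_eq : DD = KE.DD := by
  funext B W k
  unfold DD KE.DD
  rw [msk_eq, p2_eq]

theorem p2_eq' : p2 = fun W => Nat.pow 2 W := funext p2_eq

theorem inv_eq : inv = KE.inv := by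
  unfold inv KE.inv
  rw [msk_eq, p2_eq']

theorem VV_eq : VV = KE.VV := by
  unfold VV KE.VV
  rw [inv_eq, DD_eq, msk_eq]

theorem vchk_eq : vchk = KE.vchk := by
  unfold vchk KE.vchk
  rw [VV_eq, DD_eq, msk_eq]

theorem numer_eq : numer = KE.numer := by
  unfold numer KE.numer
  rw [mulF_eq]

theorem pat_eq : pat = KE.pat := by
  unfold pat KE.pat
  rw [msk_eq]

theorem dir_eq : dir = KE.dir := by
  unfold dir KE.dir
  rw [numer_eq, VV_eq, msk_eq]

theorem ptree_eq : ptree = KE.ptree := by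
  unfold ptree KE.ptree
  rw [msk_eq]

theorem dirS_eq : dirS = KE.dirS := by
  unfold dirS KE.dirS
  rw [ptree_eq, VV_eq, msk_eq]

theorem dirT_eq : dirT = KE.dirT := by
  unfold dirT KE.dirT
  rw [dirS_eq, msk_eq, p2_eq']

theorem dn_eq : dn = KE.dn := by
  unfold dn KE.dn
  rw [divF_eq, mulF_eq]

theorem res_eq : res = KE.res := by
  unfold res KE.res
  rw [dirT_eq, dn_eq, msk_eq]

theorem fdn_eq : fdn = KE.fdn := by
  unfold fdn KE.fdn
  rw [res_eq, pat_eq]

theorem fdd_eq : fdd = KE.fdd := by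
  unfold fdd KE.fdd
  rw [dir_eq, pat_eq]

theorem rowchk_eq : rowchk = KE.rowchk := by
  unfold rowchk KE.rowchk
  rw [fdd_eq, fdn_eq]

theorem blk_eq : blk = KE.blk := by
  unfold blk KE.blk
  rw [rowchk_eq]

theorem blks_eq : blks = KE.blks := by
  unfold blks KE.blks
  rw [blk_eq]

theorem dck_eq : dck = KE.dck := by
  unfold dck KE.dck
  rw [pat_eq, msk_eq]

theorem echk_eq : echk = KE.echk := by
  unfold echk KE.echk
  rw [dck_eq]

theorem sheet_eq : sheet = KE.sheet := by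
  unfold sheet KE.sheet
  rw [blks_eq, vchk_eq, echk_eq]

/-- a sheet checked with these functions is a sheet -/
theorem sheet_ok {k c B Mx e m : Nat} {l : List (Nat × Nat × Nat × Nat × Nat)}
    (h : sheet k c B Mx e m l = true) : KE.sheet k c B Mx e m l = true := by
  rw [← sheet_eq]
  exact h

end Pool.Agent.SignedQ.KL
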