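/-!
# Kernel functions of the truncated checks

No imports: everything is written with `Nat.rec`, `Bool.rec` and the operations on natural numbers
that the kernel evaluates with GMP.  A series `P` is stored top down: the integer part of
`Y^M P(1/Y)`, `Y = 2^B`.
-/

set_option autoImplicit false

namespace Pool.Agent.SignedQ.KC

noncomputable section

/-- multiply by `1 + q^b`, `sh = B b` -/
def upP (sh acc : Nat) : Nat := Nat.add acc (Nat.shiftRight acc sh)

/-- multiply by `1 - q^b`, `sh = B b` -/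
def upM (sh acc : Nat) : Nat := Nat.sub acc (Nat.shiftRight acc sh)

/-- divide by `1 - q^j`, `sh = B j` -/
def dvE (sh acc : Nat) : Nat := Nat.add acc (Nat.div acc (Nat.sub (Nat.shiftLeft 1 sh) 1))

/-- divide by `1 + q^j`, `sh = B j` -/
def dvO (sh acc : Nat) : Nat := Nat.sub acc (Nat.div acc (Nat.succ (Nat.shiftLeft 1 sh)))

/-- divide by `1 - q^j` by the product `(1 + q^j)(1 + q^(2j))...` -/
def dbl (W : Nat) (fuel : Nat) : Nat → Nat → Nat :=
  Nat.rec (fun _ acc => acc)
    (fun _ ih sh acc =>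
      Bool.rec acc (ih (Nat.mul 2 sh) (upP sh acc)) (Nat.ble (Nat.succ sh) W)) fuel

/-- divide by `1 - x^j`, `x = -q` -/
def dvF (B W J j acc : Nat) : Nat :=
  Bool.rec
    (Bool.rec (dbl W 20 (Nat.mul B (Nat.mul 2 j)) (upM (Nat.mul B j) acc))
      (dbl W 20 (Nat.mul B j) acc) (Nat.beq (Nat.mod j 2) 0))
    (Bool.rec (dvO (Nat.mul B j) acc) (dvE (Nat.mul B j) acc) (Nat.beq (Nat.mod j 2) 0))
    (Nat.ble j J)

/-- multiply by `1 - x^b` -/
def upF (B W b acc : Nat) : Nat :=
  Bool.rec acc (Bool.rec (upP (Nat.mul B b) acc) (upM (Nat.mul B b) acc)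
    (Nat.beq (Nat.mod b 2) 0)) (Nat.ble (Nat.succ (Nat.mul B b)) W)

/-- the step from `k` to `k + 1`; the factor `1 + q` only for `k < s2` -/
def stp3 (n a s2 B W J k acc : Nat) : Nat :=
  dvF B W J (Nat.succ k) (upF B W (Nat.mul a (Nat.add n (Nat.succ k)))
    (Bool.rec acc (Bool.rec acc (upP B acc) (Nat.ble (Nat.succ k) s2))
      (Nat.beq (Nat.mod k 2) 0)))

/-- chain over `k` with a check at every `k` -/
def chain3 (n a s2 B W J : Nat) (chk : Nat → Nat → Bool) (fuel : Nat) : Nat → Nat → Bool :=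
  Nat.rec (fun k acc => chk k acc)
    (fun _ ih k acc =>
      Bool.rec false (ih (Nat.succ k) (stp3 n a s2 B W J k acc)) (chk k acc)) fuel

/-- sign mask for the digits `0..M` -/
def sgm (B M : Nat) : Nat :=
  Nat.mul (Nat.div (Nat.sub (Nat.pow 2 (Nat.mul B (Nat.succ M))) 1) (Nat.sub (Nat.pow 2 B) 1))
    (Nat.pow 2 (Nat.sub B 1))

/-- the start value -/
def st0 (B M : Nat) : Nat := Nat.add (Nat.pow 2 (Nat.mul B M)) (Nat.pow 2 40)

/-- all signs nonnegative -/
def okS (sg S : Nat) : Bool := Nat.beq (Nat.land S sg) 0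

/-- the majorant `P' = P + Λ q (1+q)/(1-q²)²` -/
def spp (B M Lam S : Nat) : Nat :=
  Nat.add S (dvE (Nat.mul B 2) (dvE (Nat.mul B 2)
    (upP (Nat.mul B 1) (Nat.shiftLeft Lam (Nat.mul B (Nat.sub M 1))))))

/-- `S - 2 g` has no negative digit -/
def subOk (sg S g : Nat) : Bool :=
  Bool.rec false (okS sg (Nat.sub S g)) (Nat.ble g S)

/-- certificate without tail -/
def certN (B M sg Lam b S : Nat) : Bool :=
  Bool.rec false
    (Bool.rec false
      (subOk sg S (Nat.mul 2 (Nat.shiftRight (dvE (Nat.mul B 6) (spp B M Lam S)) (Nat.mul B b))))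
      (okS sg (upM (Nat.mul B 2) (spp B M Lam S))))
    (okS sg S)

/-- certificate with tail -/
def certT (B M sg Lam k0 b S : Nat) : Bool :=
  Bool.rec false
    (Bool.rec false
      (subOk sg S (Nat.mul 2 (Nat.add
        (Nat.shiftRight (dvE (Nat.mul B 2) (spp B M Lam S)) (Nat.mul B (Nat.succ k0)))
        (Nat.shiftRight (dvE (Nat.mul B 6) (spp B M Lam S)) (Nat.mul B b)))))
      (okS sg (upM (Nat.mul B 2) (spp B M Lam S))))
    (okS sg S)

/-- sign test at the admissible `k ≥ 4` -/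
def chkS (n sg k acc : Nat) : Bool :=
  Bool.rec (Bool.rec true (okS sg acc) (Nat.beq (Nat.mod (Nat.mul n k) 2) 0)) true (Nat.ble k 3)

/-- sign test, and the tail certificate at `k0` -/
def chkT (n B M sg Lam k0 k acc : Nat) : Bool :=
  Bool.rec (chkS n sg k acc) (certT B M sg Lam k0 (Nat.add (Nat.mul 3 k0) 2) acc) (Nat.beq k k0)

/-- the checks of the base series -/
def chkB (B M sg Lam k0 b0 : Nat) (thr : Nat → Nat) (k acc : Nat) : Bool :=
  Bool.rec (Bool.rec (certN B M sg Lam (thr k) acc) (Bool.rec (okS sg acc) true (Nat.ble k 3))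
    (Nat.ble k 24)) (certT B M sg Lam k0 b0 acc) (Nat.beq k k0)

/-- sign tests for one pair, `k ≤ K` -/
def runS (n a s2 B M J K : Nat) : Bool :=
  chain3 n a s2 B (Nat.mul B (Nat.succ M)) J (chkS n (sgm B M)) K 0 (st0 B M)

/-- all `k` for one pair -/
def runT (n a s2 B M J Lam k0 : Nat) : Bool :=
  chain3 n a s2 B (Nat.mul B (Nat.succ M)) J (chkT n B M (sgm B M) Lam k0) k0 0 (st0 B M)

/-- the base series -/
def runB (s2 B M J Lam k0 b0 : Nat) (thr : Nat → Nat) : Bool :=
  chain3 M 3 s2 B (Nat.mul B (Nat.succ M)) J (chkB B M (sgm B M) Lam k0 b0 thr) k0 0 (st0 B M)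

/-- conjunction over `n0 ≤ n < n0 + cnt` -/
def many (f : Nat → Bool) (cnt : Nat) : Nat → Bool :=
  Nat.rec (fun _ => true) (fun _ ih n => Bool.rec false (ih (Nat.succ n)) (f n)) cnt

/-- thresholds of the base certificate -/
def thr (k : Nat) : Nat :=
  Bool.rec (Bool.rec (Bool.rec (Bool.rec 700 600 (Nat.ble 26 k)) 416 (Nat.ble 41 k)) 316
    (Nat.ble 61 k)) 262 (Nat.ble 91 k)

/-- the check of the pair `(n, a)`, `m < 2048` -/
def okp (a n : Nat) : Bool :=
  Bool.rec (Bool.rec (Bool.rec (Bool.rec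
    (runT n a 28 216 2048 60 20000 380)
    (runS n a 28 216 2048 60 90) (Nat.ble 262 (Nat.mul a (Nat.succ n))))
    (runS n a 28 216 2048 60 60) (Nat.ble 316 (Nat.mul a (Nat.succ n))))
    (runS n a 28 216 2048 60 40) (Nat.ble 416 (Nat.mul a (Nat.succ n))))
    true (Nat.ble 600 (Nat.mul a (Nat.succ n)))

/-- all `n` for `a = 2 i + 3` -/
def oka (i : Nat) : Bool :=
  many (okp (Nat.add (Nat.mul 2 i) 3)) (Nat.div 600 (Nat.add (Nat.mul 2 i) 3)) 0

end

end Pool.Agent.SignedQ.KC
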