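import Pool.Agent.Lib.MP_cf17a0_co.KDR
import Pool.Agent.Lib.MP_cf17a0_co.KB

/-!
# Correctness of the kernel checks of `KB`
-/

set_option autoImplicit false

namespace Pool.Agent.SignedQ.KB

open PowerSeries Finset
open Pool.Agent.SignedQ.KC (gi gi_mul fs Rep)
open Pool.Agent.SignedQ.KD (Nu Fs fs_eq Pos)

theorem dn_eq (k B W mask a n c : ℕ) : dn k B W mask a n c =
    KD.divF B W mask (a * (n + (k + 1))) (KD.mulF B W mask (a * (n + 1)) c) := rfl

theorem Nu_dn (n a k : ℕ) : Nu (n + 1) a k * (1 - (-X) ^ (a * (n + 1))) =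
    Nu n a k * (1 - (-X) ^ (a * (n + (k + 1)))) := by
  have h1 : Nu n a (k + 1) = Nu n a k * (1 - (-X) ^ (a * (n + (k + 1)))) := by
    unfold KD.Nu
    rw [prod_range_succ]
  have h2 : Nu n a (k + 1) = Nu (n + 1) a k * (1 - (-X) ^ (a * (n + 1))) := by
    unfold KD.Nu
    rw [prod_range_succ']
    congr 1
    refine prod_congr rfl fun v _ => ?_
    rw [show n + (v + 1 + 1) = n + 1 + (v + 1) by ring]
  rw [← h1, ← h2]

theorem fs_dn {n a k : ℕ} (ha : 1 ≤ a) :
    fs (n + 1) a k * (1 - (-X) ^ (a * (n + 1))) * gi (a * (n + (k + 1))) = fs n a k := by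
  have hg := gi_mul (j := a * (n + (k + 1))) (Nat.mul_pos ha (by omega))
  rw [fs_eq, fs_eq, mul_assoc (Fs k), Nu_dn, ← mul_assoc, mul_assoc _ _ (gi _), hg, mul_one]

theorem rep_dn {B M n a k S : ℕ} (hB : 1 ≤ B) (hM : M ≤ 2 ^ 20) (ha : 1 ≤ a)
    (h : Rep B M S (fs (n + 1) a k)) :
    Rep B M (dn k B (B * M) (2 ^ (B * M) - 1) a n S) (fs n a k) := by
  rw [dn_eq, KD.divF_eq, KD.mulF_eq]
  have h1 := (h.mulF hB (b := a * (n + 1))).divF hB hM (j := a * (n + (k + 1)))
    (Nat.mul_pos ha (by omega))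
  rw [fs_dn ha] at h1
  exact h1

theorem half1_mono {n n' k a : ℕ} (h : n ≤ n') : half1 n k a ≤ half1 n' k a := by
  show Nat.succ _ ≤ Nat.succ _
  refine Nat.succ_le_succ (Nat.div_le_div_right (Nat.add_le_add_left (Nat.div_le_div_right
    (Nat.add_le_add_right ?_ _)) _))
  exact Nat.mul_le_mul_left _ (Nat.mul_le_mul_left _ (Nat.mul_le_mul_right _ h))

theorem rep_res {k B Mx a N : ℕ} (hB : 1 ≤ B) (hMx : Mx ≤ 2 ^ 20) (ha : 1 ≤ a)
    (hN : half1 N k a ≤ Mx) (d : ℕ) (hd : d ≤ N) :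
    Rep B (half1 (N - d) k a) (res k B Mx a N d) (fs (N - d) a k) := by
  induction d with
  | zero =>
    show Rep B (half1 N k a) (KD.numer N a B (B * half1 N k a) (2 ^ (B * half1 N k a) - 1) k
      (Nat.land (KD.FK B (B * Mx) (2 ^ (B * Mx) - 1) k) (2 ^ (B * half1 N k a) - 1))) (fs N a k)
    rw [fs_eq]
    exact KD.rep_numer hB (KD.rep_trunc hN (KD.rep_FK hB hMx k)) k
  | succ d ih =>
    have ih := ih (by omega)
    have e : N - d = N - (d + 1) + 1 := by omega
    have hle : half1 (N - (d + 1)) k a ≤ half1 (N - d) k a := half1_mono (by omega)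
    have hle' : half1 (N - (d + 1)) k a ≤ 2 ^ 20 :=
      (half1_mono (Nat.sub_le _ _)).trans (hN.trans hMx)
    have h1 := KD.rep_trunc hle ih
    have h2 : Rep B (half1 (N - (d + 1)) k a)
        (Nat.land (res k B Mx a N d) (2 ^ (B * half1 (N - (d + 1)) k a) - 1))
        (fs (N - (d + 1) + 1) a k) := by
      rw [← e]
      exact h1
    exact rep_dn hB hle' ha h2

/-- one pair of a row -/
theorem fdn_mem {k B Mx a N : ℕ} (hB : k + (k + 1) / 2 + 2 ≤ B) (hMx : Mx ≤ 2 ^ 20) (ha : 1 ≤ a)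
    (hN : half1 N k a ≤ Mx) : ∀ {cnt : ℕ}, fdn k B Mx a N cnt = true → ∀ d, d < cnt → d ≤ N →
    Even ((N - d) * k) → ∀ i < half1 (N - d) k a, 0 ≤ coeff i (fs (N - d) a k) := by
  intro cnt
  induction cnt with
  | zero => intro _ d h; omega
  | succ c ih =>
    intro h d hd hdN he
    have h' : (Bool.rec false
      (Bool.rec (Nat.beq (Nat.land (res k B Mx a N c) (pat k B Mx)) 0) true
        (Nat.beq (Nat.mod (Nat.mul (Nat.sub N c) k) 2) 1)) (fdn k B Mx a N c) : Bool) = true := h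
    cases hb : fdn k B Mx a N c with
    | false => rw [hb] at h'; exact absurd h' (by simp)
    | true =>
      rcases Nat.lt_or_ge d c with h3 | h3
      · exact ih hb d h3 hdN he
      · obtain rfl : d = c := by omega
        rw [hb] at h'
        have hc : Nat.beq (Nat.mod (Nat.mul (Nat.sub N d) k) 2) 1 = false := by
          show Nat.beq (((N - d) * k) % 2) 1 = false
          rw [Nat.even_iff.1 he]; rfl
        rw [hc] at h'
        have h4 : Nat.land (res k B Mx a N d) (pat k B Mx) = 0 := Nat.eq_of_beq_eq_true h'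
        have hle : half1 (N - d) k a ≤ Mx := (half1_mono (Nat.sub_le _ _)).trans hN
        refine KD.selfv hB (rep_res (by omega) hMx ha hN d hdN) fun i hi => ?_
        have h1 := KD.digit_land (D := 2 ^ B - 2 ^ (B - k - 1)) (M := Mx)
          (Nat.sub_lt (by positivity) (by positivity)) (by omega) h4 i (by omega)
        exact KD.lt_of_land (by omega) (Nat.mod_lt _ (by positivity)) h1

theorem rowok_mem {k a n0 cnt B Mx : ℕ} (h : rowok k (a, n0, cnt, B, Mx) = true) :
    k + (k + 1) / 2 + 2 ≤ B ∧ Mx ≤ 2 ^ 20 ∧ half1 (n0 + cnt - 1) k a ≤ Mx ∧ 1 ≤ cnt ∧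
      fdn k B Mx a (n0 + cnt - 1) cnt = true := by
  have h' : (Bool.rec false (Bool.rec false (Bool.rec false (Bool.rec false
      (fdn k B Mx a (n0 + cnt - 1) cnt) (Nat.ble 1 cnt)) (Nat.ble (half1 (n0 + cnt - 1) k a) Mx))
    (Nat.ble Mx 1048576)) (Nat.ble (k + (k + 1) / 2 + 2) B) : Bool) = true := h
  cases h1 : Nat.ble (k + (k + 1) / 2 + 2) B with
  | false => rw [h1] at h'; exact absurd h' (by simp)
  | true =>
    rw [h1] at h'
    cases h2 : Nat.ble Mx 1048576 with
    | false => rw [h2] at h'; exact absurd h' (by simp)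
    | true =>
      rw [h2] at h'
      cases h3 : Nat.ble (half1 (n0 + cnt - 1) k a) Mx with
      | false => rw [h3] at h'; exact absurd h' (by simp)
      | true =>
        rw [h3] at h'
        cases h4 : Nat.ble 1 cnt with
        | false => rw [h4] at h'; exact absurd h' (by simp)
        | true =>
          rw [h4] at h'
          exact ⟨Nat.le_of_ble_eq_true h1, Nat.le_of_ble_eq_true h2, Nat.le_of_ble_eq_true h3,
            Nat.le_of_ble_eq_true h4, h'⟩

theorem rowsok_mem {k : ℕ} : ∀ {l : List (ℕ × ℕ × ℕ × ℕ × ℕ)}, rowsok k l = true →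
    ∀ r ∈ l, rowok k r = true := by
  intro l
  induction l with
  | nil => intro _ r hr; simp at hr
  | cons q l ih =>
    intro h r hr
    have h' : (Bool.rec false (rowsok k l) (rowok k q) : Bool) = true := h
    cases hb : rowok k q with
    | false => rw [hb] at h'; exact absurd h' (by simp)
    | true =>
      rw [hb] at h'
      rcases List.mem_cons.1 hr with rfl | hr
      · exact hb
      · exact ih h' r hr

theorem reach_mem {a : ℕ} : ∀ {l : List (ℕ × ℕ × ℕ × ℕ × ℕ)} {cur : ℕ} {n : ℕ}, cur ≤ n →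
    n < reach a l cur → ∃ r ∈ l, r.1 = a ∧ r.2.1 ≤ n ∧ n < r.2.1 + r.2.2.1 := by
  intro l
  induction l with
  | nil => intro cur n h1 h2; unfold reach at h2; omega
  | cons r l ih =>
    intro cur n h1 h2
    unfold reach at h2
    split at h2
    · rename_i hc
      rcases Nat.lt_or_ge n (r.2.1 + r.2.2.1) with h3 | h3
      · exact ⟨r, List.mem_cons_self, hc.1, by omega, h3⟩
      · obtain ⟨r', hr', h4⟩ := ih h3 h2
        exact ⟨r', List.mem_cons_of_mem _ hr', h4⟩
    · obtain ⟨r', hr', h4⟩ := ih h1 h2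
      exact ⟨r', List.mem_cons_of_mem _ hr', h4⟩

/-- **Main tool**: rows that are checked and cover a region. -/
theorem pos_of_rows {k c T A : ℕ} {l : List (ℕ × ℕ × ℕ × ℕ × ℕ)} (h : rowsok k l = true)
    (hc : covers c T A l = true) {n a : ℕ} (hnk : Even (n * k)) (ha : Odd a) (ha3 : 3 ≤ a)
    (hT : a * (n + c) < T) : Pos n k a := by
  intro f hf
  unfold covers at hc
  rw [Bool.and_eq_true] at hc
  obtain ⟨hc1, hc2⟩ := hc
  have hc1' : T ≤ (2 * A + 3) * c := Nat.le_of_ble_eq_true hc1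
  obtain ⟨b, rfl⟩ := ha
  obtain ⟨i, rfl⟩ : ∃ i, b = i + 1 := ⟨b - 1, by omega⟩
  have hiA : i < A := by
    by_contra hcon
    have h1 : 2 * A + 3 ≤ 2 * (i + 1) + 1 := by omega
    have h2 : (2 * A + 3) * c ≤ (2 * (i + 1) + 1) * (n + c) := Nat.mul_le_mul h1 (by omega)
    omega
  have h3 := (List.all_eq_true.1 hc2) i (List.mem_range.2 hiA)
  have h4 : T ≤ (2 * i + 3) * (reach (2 * i + 3) l 0 + c) := Nat.le_of_ble_eq_true h3
  have h5 : n < reach (2 * i + 3) l 0 := by
    by_contra hcon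
    have h6 : (2 * i + 3) * (reach (2 * i + 3) l 0 + c) ≤ (2 * (i + 1) + 1) * (n + c) :=
      Nat.mul_le_mul (by omega) (by omega)
    omega
  obtain ⟨r, hr, h6, h7, h8⟩ := reach_mem (Nat.zero_le _) h5
  obtain ⟨a', n0, cnt, B, Mx⟩ := r
  have h6' : a' = 2 * i + 3 := h6
  obtain ⟨hB, hMx, hN, hcnt, hfd⟩ := rowok_mem (rowsok_mem h _ hr)
  subst h6'
  have h7' : n0 ≤ n := h7
  have h8' : n < n0 + cnt := h8
  have e : 2 * (i + 1) + 1 = 2 * i + 3 := by ring
  rw [e] at hf
  have hodd : Odd (2 * i + 3) := ⟨i + 1, by ring⟩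
  have en : n0 + cnt - 1 - (n0 + cnt - 1 - n) = n := by omega
  have h9 := fdn_mem hB hMx (by omega) hN hfd (n0 + cnt - 1 - n) (by omega) (by omega)
    (by rw [en]; exact hnk)
  rw [en] at h9
  refine half hnk hodd hf fun M hM => ?_
  rw [KC.coeff_poly hf M]
  exact_mod_cast h9 M (KD.half1_bound (by omega) hf hM)

end Pool.Agent.SignedQ.KB
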