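import Pool.Agent.Lib.MP_cf17a0_co.KC2
import Pool.Agent.Lib.MP_cf17a0_co.KM

/-!
# Kernel check of the low coefficients, top down form

The series `P` is stored as the integer part of `Y^M P(1/Y)`, `Y = 2^B`.  Multiplication by
`1 ± q^b` is one shift and one addition, division by `1 ∓ q^j` is one division and one addition.
-/

set_option autoImplicit false

namespace Pool.Agent.SignedQ.KC

open PowerSeries Finset

noncomputable section

/-! ### The value and the error -/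

/-- top down value of the truncated series -/
def tv (B M : ℕ) (P : ℤ⟦X⟧) : ℤ := ∑ i ∈ range (M + 1), coeff i P * (2 ^ B) ^ (M - i)

/-- bounded coefficients -/
def Bd (M : ℕ) (C : ℤ) (P : ℤ⟦X⟧) : Prop := ∀ i ≤ M, |coeff i P| ≤ C

/-- `S` represents `P` with error at most `e` in the last digit -/
def App (B M S : ℕ) (P : ℤ⟦X⟧) (e : ℤ) : Prop := |(S : ℤ) - tv B M P| ≤ e

theorem tv_add (B M : ℕ) (P Q : ℤ⟦X⟧) : tv B M (P + Q) = tv B M P + tv B M Q := by
  unfold tv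
  rw [← sum_add_distrib]
  exact sum_congr rfl fun i _ => by rw [map_add]; ring

theorem tv_sub (B M : ℕ) (P Q : ℤ⟦X⟧) : tv B M (P - Q) = tv B M P - tv B M Q := by
  unfold tv
  rw [← sum_sub_distrib]
  exact sum_congr rfl fun i _ => by rw [map_sub]; ring

theorem tv_neg (B M : ℕ) (P : ℤ⟦X⟧) : tv B M (-P) = -tv B M P := by
  unfold tv
  rw [← sum_neg_distrib]
  exact sum_congr rfl fun i _ => by rw [map_neg]; ring

theorem tv_congr {B M : ℕ} {P Q : ℤ⟦X⟧} (h : ∀ i ≤ M, coeff i P = coeff i Q) :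
    tv B M P = tv B M Q :=
  sum_congr rfl fun i hi => by rw [h i (by have := mem_range.1 hi; omega)]

theorem App.congr {B M S : ℕ} {P Q : ℤ⟦X⟧} {e : ℤ} (h : App B M S P e)
    (hPQ : ∀ i ≤ M, coeff i P = coeff i Q) : App B M S Q e := by
  unfold App at *
  rwa [← tv_congr hPQ]

theorem App.mono {B M S : ℕ} {P : ℤ⟦X⟧} {e e' : ℤ} (h : App B M S P e) (he : e ≤ e') :
    App B M S P e' := le_trans h he

theorem Bd.congr {M : ℕ} {C : ℤ} {P Q : ℤ⟦X⟧} (h : Bd M C P)
    (hPQ : ∀ i ≤ M, coeff i P = coeff i Q) : Bd M C Q := fun i hi => by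
  rw [← hPQ i hi]; exact h i hi

/-- a short block of digits is smaller than half a unit -/
theorem block_le {Y C : ℤ} (hY : 2 ≤ Y) (hC : 4 * C ≤ Y) (c : ℕ → ℤ) (n : ℕ)
    (hc : ∀ i < n, |c i| ≤ C) : 2 * |∑ i ∈ range n, c i * Y ^ (n - 1 - i)| ≤ Y ^ n := by
  have hC0 : ∀ i < n, 0 ≤ C := fun i hi => (abs_nonneg _).trans (hc i hi)
  rcases Nat.eq_zero_or_pos n with rfl | hn
  · simp
  · have hC0 := hC0 0 hn
    have h1 : |∑ i ∈ range n, c i * Y ^ (n - 1 - i)| ≤ C * ∑ i ∈ range n, Y ^ (n - 1 - i) := by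
      refine (abs_sum_le_sum_abs _ _).trans ?_
      rw [mul_sum]
      refine sum_le_sum fun i hi => ?_
      rw [abs_mul, abs_of_nonneg (by positivity : (0 : ℤ) ≤ Y ^ (n - 1 - i))]
      exact mul_le_mul_of_nonneg_right (hc i (mem_range.1 hi)) (by positivity)
    have h2 : ∑ i ∈ range n, Y ^ (n - 1 - i) = ∑ i ∈ range n, Y ^ i :=
      sum_range_reflect (fun i => Y ^ i) n
    have h3 : (∑ i ∈ range n, Y ^ i) * (Y - 1) = Y ^ n - 1 := geom_sum_mul Y n
    rw [h2] at h1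
    set G := ∑ i ∈ range n, Y ^ i with hG
    have hG0 : 0 ≤ G := sum_nonneg fun i _ => by positivity
    have h4 : 4 * C * G ≤ Y * G := mul_le_mul_of_nonneg_right hC hG0
    have h5 : Y * G ≤ 2 * ((Y - 1) * G) := by nlinarith
    nlinarith

theorem tv_shift {B M b : ℕ} {C : ℤ} {P : ℤ⟦X⟧} (hB : 1 ≤ B) (hC : 4 * C ≤ 2 ^ B)
    (hP : Bd M C P) :
    2 * |tv B M P - (2 ^ B) ^ b * tv B M (P * X ^ b)| ≤ ((2 : ℤ) ^ B) ^ b := by
  set Y : ℤ := 2 ^ B with hY
  have hY2 : 2 ≤ Y := by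
    calc (2 : ℤ) = 2 ^ 1 := by norm_num
      _ ≤ 2 ^ B := pow_le_pow_right₀ (by norm_num) hB
  rcases le_or_gt b M with hb | hb
  · obtain ⟨t, rfl⟩ : ∃ t, M = b + t := ⟨M - b, by omega⟩
    have h1 : tv B (b + t) (P * X ^ b) = ∑ i ∈ range (t + 1), coeff i P * Y ^ (t - i) := by
      unfold tv
      rw [show b + t + 1 = b + (t + 1) by ring, sum_range_add, sum_eq_zero, zero_add]
      · refine sum_congr rfl fun i hi => ?_
        rw [coeff_mul_X_pow', if_pos (by omega), Nat.add_sub_cancel_left, Nat.add_sub_add_left]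
      · intro i hi
        rw [coeff_mul_X_pow', if_neg (by have := mem_range.1 hi; omega), zero_mul]
    have h2 : tv B (b + t) P = (∑ i ∈ range (t + 1), coeff i P * Y ^ (b + t - i)) +
        ∑ l ∈ range b, coeff (t + 1 + l) P * Y ^ (b - 1 - l) := by
      unfold tv
      rw [show b + t + 1 = t + 1 + b by ring, sum_range_add]
      congr 1
      refine sum_congr rfl fun l hl => ?_
      congr 2
      have := mem_range.1 hl
      omega
    have h3 : Y ^ b * ∑ i ∈ range (t + 1), coeff i P * Y ^ (t - i) =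
        ∑ i ∈ range (t + 1), coeff i P * Y ^ (b + t - i) := by
      rw [mul_sum]
      refine sum_congr rfl fun i hi => ?_
      have : b + t - i = b + (t - i) := by have := mem_range.1 hi; omega
      rw [this, pow_add]
      ring
    rw [h1, h2, h3, add_sub_cancel_left]
    refine block_le hY2 hC (fun l => coeff (t + 1 + l) P) b fun l hl => hP _ (by omega)
  · have h1 : tv B M (P * X ^ b) = 0 := by
      unfold tv
      refine sum_eq_zero fun i hi => ?_
      rw [coeff_mul_X_pow', if_neg (by have := mem_range.1 hi; omega), zero_mul]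
    rw [h1, mul_zero, sub_zero]
    have h2 := block_le hY2 hC (fun i => coeff i P) (M + 1) fun i hi => hP i (by omega)
    have h3 : Y ^ (M + 1) ≤ Y ^ b := pow_le_pow_right₀ (by linarith) (by omega)
    exact h2.trans h3

/-- the shift with floor -/
theorem App.shift {B M S b : ℕ} {C e : ℤ} {P : ℤ⟦X⟧} (hB : 1 ≤ B) (hb : 1 ≤ b)
    (hC : 4 * C ≤ 2 ^ B) (hP : Bd M C P) (h : App B M S P e) (he : 4 * e ≤ 2 ^ B) :
    App B M (Nat.shiftRight S (B * b)) (P * X ^ b) 1 := by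
  have h1 := tv_shift (b := b) hB hC hP
  unfold App at h ⊢
  have hS : (Nat.shiftRight S (B * b)) = S / (2 ^ B) ^ b := by
    show S >>> (B * b) = _
    rw [Nat.shiftRight_eq_div_pow, pow_mul]
  rw [hS]
  set T := tv B M P
  set T' := tv B M (P * X ^ b)
  set Q := S / (2 ^ B) ^ b with hQ
  have hYb : (2 : ℤ) ^ B ≤ (2 ^ B) ^ b := by
    calc (2 : ℤ) ^ B = (2 ^ B) ^ 1 := (pow_one _).symm
      _ ≤ (2 ^ B) ^ b := pow_le_pow_right₀ (one_le_pow₀ (by norm_num)) hb
  have hpos : 0 < (2 ^ B) ^ b := by positivity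
  have hq1 : (2 ^ B) ^ b * Q ≤ S := Nat.mul_div_le _ _
  have hq2 : S < (2 ^ B) ^ b * (Q + 1) := by
    have := Nat.lt_mul_div_succ S hpos
    exact this
  have hq1' : ((2 : ℤ) ^ B) ^ b * Q ≤ S := by exact_mod_cast hq1
  have hq2' : (S : ℤ) < (2 ^ B) ^ b * (Q + 1) := by exact_mod_cast hq2
  set Yb : ℤ := (2 ^ B) ^ b
  have hYpos : 0 < Yb := by positivity
  have h3 : |(S : ℤ) - Yb * T'| ≤ |(S : ℤ) - T| + |T - Yb * T'| := by
    have := abs_add_le ((S : ℤ) - T) (T - Yb * T')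
    rwa [sub_add_sub_cancel] at this
  have h4 : 4 * |(S : ℤ) - Yb * T'| ≤ 3 * Yb := by linarith
  have h5 := neg_abs_le ((S : ℤ) - Yb * T')
  have h6 := le_abs_self ((S : ℤ) - Yb * T')
  rw [abs_le]
  constructor
  · by_contra hc
    have hc' : (Q : ℤ) + 1 - T' ≤ -1 := by omega
    have := mul_le_mul_of_nonneg_left hc' hYpos.le
    nlinarith
  · by_contra hc
    have hc' : 2 ≤ (Q : ℤ) - T' := by omega
    have := mul_le_mul_of_nonneg_left hc' hYpos.le
    nlinarith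

theorem App.upP {B M S b : ℕ} {C e : ℤ} {P : ℤ⟦X⟧} (hB : 1 ≤ B) (hb : 1 ≤ b)
    (hC : 4 * C ≤ 2 ^ B) (hP : Bd M C P) (h : App B M S P e) (he : 4 * e ≤ 2 ^ B) :
    App B M (upP (B * b) S) (P * (1 + X ^ b)) (e + 1) := by
  have h1 := h.shift hB hb hC hP he
  unfold App at *
  rw [mul_add, mul_one, tv_add]
  have e1 : ((KC.upP (B * b) S : ℕ) : ℤ) = S + (Nat.shiftRight S (B * b) : ℕ) := by
    show ((S + Nat.shiftRight S (B * b) : ℕ) : ℤ) = _
    push_cast; rfl
  rw [e1]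
  have := abs_add_le ((S : ℤ) - tv B M P) (((Nat.shiftRight S (B * b) : ℕ) : ℤ) - tv B M (P * X ^ b))
  calc |(S : ℤ) + (Nat.shiftRight S (B * b) : ℕ) - (tv B M P + tv B M (P * X ^ b))|
      = |((S : ℤ) - tv B M P) + (((Nat.shiftRight S (B * b) : ℕ) : ℤ) - tv B M (P * X ^ b))| := by
        congr 1; ring
    _ ≤ e + 1 := by linarith

theorem App.upM {B M S b : ℕ} {C e : ℤ} {P : ℤ⟦X⟧} (hB : 1 ≤ B) (hb : 1 ≤ b)
    (hC : 4 * C ≤ 2 ^ B) (hP : Bd M C P) (h : App B M S P e) (he : 4 * e ≤ 2 ^ B) :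
    App B M (upM (B * b) S) (P * (1 - X ^ b)) (e + 1) := by
  have h1 := h.shift hB hb hC hP he
  unfold App at *
  rw [mul_sub, mul_one, tv_sub]
  have hle : Nat.shiftRight S (B * b) ≤ S := by
    show S >>> (B * b) ≤ S
    rw [Nat.shiftRight_eq_div_pow]
    exact Nat.div_le_self _ _
  have e1 : ((KC.upM (B * b) S : ℕ) : ℤ) = S - (Nat.shiftRight S (B * b) : ℕ) := by
    show ((S - Nat.shiftRight S (B * b) : ℕ) : ℤ) = _
    rw [Nat.cast_sub hle]
  rw [e1]
  have := abs_add_le ((S : ℤ) - tv B M P) (tv B M (P * X ^ b) - ((Nat.shiftRight S (B * b) : ℕ) : ℤ))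
  rw [abs_sub_comm (tv B M (P * X ^ b))] at this
  calc |(S : ℤ) - (Nat.shiftRight S (B * b) : ℕ) - (tv B M P - tv B M (P * X ^ b))|
      = |((S : ℤ) - tv B M P) + (tv B M (P * X ^ b) - ((Nat.shiftRight S (B * b) : ℕ) : ℤ))| := by
        congr 1; ring
    _ ≤ e + 1 := by linarith

theorem App.dvE {B M S j : ℕ} {C e : ℤ} {P P' : ℤ⟦X⟧} (hB : 3 ≤ B) (hj : 1 ≤ j)
    (hC : 4 * C ≤ 2 ^ B) (hP : P' * (1 - X ^ j) = P) (hP' : Bd M C P') (h : App B M S P e)
    (he : 4 * e ≤ 2 ^ B) : App B M (dvE (B * j) S) P' (e + 1) := by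
  have h1 := tv_shift (b := j) (by omega) hC hP'
  have h2 : tv B M P = tv B M P' - tv B M (P' * X ^ j) := by
    rw [← hP, mul_sub, mul_one, tv_sub]
  unfold App at *
  have hYj : (2 : ℤ) ^ B ≤ (2 ^ B) ^ j := by
    calc (2 : ℤ) ^ B = (2 ^ B) ^ 1 := (pow_one _).symm
      _ ≤ (2 ^ B) ^ j := pow_le_pow_right₀ (one_le_pow₀ (by norm_num)) hj
  have hY8 : (8 : ℤ) ≤ 2 ^ B := by
    calc (8 : ℤ) = 2 ^ 3 := by norm_num
      _ ≤ 2 ^ B := pow_le_pow_right₀ (by norm_num) hB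
  have hN : 1 ≤ (2 ^ B) ^ j := Nat.one_le_pow _ _ (by positivity)
  have e1 : ((KC.dvE (B * j) S : ℕ) : ℤ) = S + ((S / ((2 ^ B) ^ j - 1) : ℕ) : ℤ) := by
    show ((S + S / ((1 <<< (B * j)) - 1) : ℕ) : ℤ) = _
    rw [Nat.one_shiftLeft, pow_mul]
    push_cast; rfl
  have e2 := Nat.div_add_mod S ((2 ^ B) ^ j - 1)
  have hN8 : 8 ≤ (2 ^ B) ^ j := by
    have : (8 : ℤ) ≤ (((2 ^ B) ^ j : ℕ) : ℤ) := by push_cast; linarith
    exact_mod_cast this
  have e3 : S % ((2 ^ B) ^ j - 1) < (2 ^ B) ^ j - 1 := Nat.mod_lt _ (by omega)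
  set q := S / ((2 ^ B) ^ j - 1) with hq
  set ρ := S % ((2 ^ B) ^ j - 1) with hρ
  have e2' : (((2 : ℤ) ^ B) ^ j - 1) * q + ρ = S := by
    have := congrArg (fun x : ℕ => (x : ℤ)) e2
    push_cast [Nat.cast_sub hN] at this
    exact this
  have e3' : (ρ : ℤ) < (2 ^ B) ^ j - 1 := by
    have : ((ρ : ℕ) : ℤ) < (((2 ^ B) ^ j - 1 : ℕ) : ℤ) := by exact_mod_cast e3
    rwa [Nat.cast_sub hN, Nat.cast_pow, Nat.cast_pow, Nat.cast_ofNat, Nat.cast_one] at this
  have e4 : (0 : ℤ) ≤ ρ := Int.natCast_nonneg _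
  rw [e1]
  set Yj : ℤ := (2 ^ B) ^ j
  set T := tv B M P
  set T' := tv B M P'
  set T'' := tv B M (P' * X ^ j)
  have h3 := abs_le.1 h
  have h4 : |T' - Yj * T''| * 2 ≤ Yj := by linarith
  have h5 := neg_abs_le (T' - Yj * T'')
  have h6 := le_abs_self (T' - Yj * T'')
  have key : (Yj - 1) * ((S : ℤ) + q - T') = Yj * (S - T) - ρ + (T' - Yj * T'') := by
    have hT'' : T'' = T' - T := by linarith
    rw [hT'']
    linear_combination e2'
  have hYj8 : 8 ≤ Yj := by linarith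
  have he0 : 0 ≤ e := (abs_nonneg _).trans h
  have h7 : Yj * (S - T) ≤ Yj * e := mul_le_mul_of_nonneg_left h3.2 (by linarith)
  have h8 : Yj * (-e) ≤ Yj * (S - T) := mul_le_mul_of_nonneg_left h3.1 (by linarith)
  rw [abs_le]
  constructor
  · by_contra hc
    have hc' : (S : ℤ) + q - T' ≤ -(e + 2) := by omega
    have := mul_le_mul_of_nonneg_left hc' (show (0 : ℤ) ≤ Yj - 1 by linarith)
    nlinarith
  · by_contra hc
    have hc' : e + 2 ≤ (S : ℤ) + q - T' := by omega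
    have := mul_le_mul_of_nonneg_left hc' (show (0 : ℤ) ≤ Yj - 1 by linarith)
    nlinarith

theorem dvO_eq (sh S : ℕ) : dvO sh S = S - S / ((1 <<< sh) + 1) := by
  unfold dvO
  rw [Nat.sub_eq, Nat.succ_eq_add_one]
  rfl

theorem App.dvO {B M S j : ℕ} {C e : ℤ} {P P' : ℤ⟦X⟧} (hB : 3 ≤ B) (hj : 1 ≤ j)
    (hC : 4 * C ≤ 2 ^ B) (hP : P' * (1 + X ^ j) = P) (hP' : Bd M C P') (h : App B M S P e)
    (he : 4 * e ≤ 2 ^ B) : App B M (dvO (B * j) S) P' (e + 1) := by
  have h1 := tv_shift (b := j) (by omega) hC hP'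
  have h2 : tv B M P = tv B M P' + tv B M (P' * X ^ j) := by
    rw [← hP, mul_add, mul_one, tv_add]
  unfold App at *
  have hYj : (2 : ℤ) ^ B ≤ (2 ^ B) ^ j := by
    calc (2 : ℤ) ^ B = (2 ^ B) ^ 1 := (pow_one _).symm
      _ ≤ (2 ^ B) ^ j := pow_le_pow_right₀ (one_le_pow₀ (by norm_num)) hj
  have hY8 : (8 : ℤ) ≤ 2 ^ B := by
    calc (8 : ℤ) = 2 ^ 3 := by norm_num
      _ ≤ 2 ^ B := pow_le_pow_right₀ (by norm_num) hB
  have e0 : S / ((2 ^ B) ^ j + 1) ≤ S := Nat.div_le_self _ _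
  have e1 : ((KC.dvO (B * j) S : ℕ) : ℤ) = S - ((S / ((2 ^ B) ^ j + 1) : ℕ) : ℤ) := by
    rw [dvO_eq, Nat.one_shiftLeft, pow_mul, Nat.cast_sub e0]
  have e2 := Nat.div_add_mod S ((2 ^ B) ^ j + 1)
  have e3 : S % ((2 ^ B) ^ j + 1) < (2 ^ B) ^ j + 1 := Nat.mod_lt _ (by omega)
  set q := S / ((2 ^ B) ^ j + 1) with hq
  set ρ := S % ((2 ^ B) ^ j + 1) with hρ
  have e2' : (((2 : ℤ) ^ B) ^ j + 1) * q + ρ = S := by exact_mod_cast e2
  have e3' : (ρ : ℤ) < (2 ^ B) ^ j + 1 := by exact_mod_cast e3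
  have e4 : (0 : ℤ) ≤ ρ := Int.natCast_nonneg _
  rw [e1]
  set Yj : ℤ := (2 ^ B) ^ j
  set T := tv B M P
  set T' := tv B M P'
  set T'' := tv B M (P' * X ^ j)
  have h3 := abs_le.1 h
  have h4 : |T' - Yj * T''| * 2 ≤ Yj := by linarith
  have h5 := neg_abs_le (T' - Yj * T'')
  have h6 := le_abs_self (T' - Yj * T'')
  have key : (Yj + 1) * ((S : ℤ) - q - T') = Yj * (S - T) + ρ - (T' - Yj * T'') := by
    have hT'' : T'' = T - T' := by linarith
    rw [hT'']
    linear_combination (-1 : ℤ) * e2'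
  have hYj8 : 8 ≤ Yj := by linarith
  have he0 : 0 ≤ e := (abs_nonneg _).trans h
  have h7 : Yj * (S - T) ≤ Yj * e := mul_le_mul_of_nonneg_left h3.2 (by linarith)
  have h8 : Yj * (-e) ≤ Yj * (S - T) := mul_le_mul_of_nonneg_left h3.1 (by linarith)
  rw [abs_le]
  constructor
  · by_contra hc
    have hc' : (S : ℤ) - q - T' ≤ -(e + 2) := by omega
    have := mul_le_mul_of_nonneg_left hc' (show (0 : ℤ) ≤ Yj + 1 by linarith)
    nlinarith
  · by_contra hc
    have hc' : e + 2 ≤ (S : ℤ) - q - T' := by omega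
    have := mul_le_mul_of_nonneg_left hc' (show (0 : ℤ) ≤ Yj + 1 by linarith)
    nlinarith

theorem dbl_succ (W fuel sh acc : ℕ) : dbl W (fuel + 1) sh acc =
    Bool.rec acc (dbl W fuel (Nat.mul 2 sh) (upP sh acc)) (Nat.ble (Nat.succ sh) W) := rfl

/-- the doubling loop: from `P' (1 - X^s)` to `P'` -/
theorem App.dbl {B M : ℕ} {C : ℤ} {P' : ℤ⟦X⟧} (hB : 1 ≤ B) (hC : 8 * C ≤ 2 ^ B)
    (hP' : Bd M C P') (fuel : ℕ) : ∀ {s S : ℕ} {e : ℤ}, 1 ≤ s →
    App B M S (P' * (1 - X ^ s)) e → 4 * (e + fuel) ≤ 2 ^ B → M + 1 ≤ s * 2 ^ fuel →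
    App B M (dbl (B * (M + 1)) fuel (B * s) S) P' (e + fuel) := by
  have hbd : ∀ s, Bd M (2 * C) (P' * (1 - X ^ s)) := by
    intro s i hi
    rw [mul_sub, mul_one, map_sub, coeff_mul_X_pow']
    have h1 := hP' i hi
    have h0 := (abs_nonneg _).trans h1
    split
    · have h2 := hP' (i - s) (by omega)
      exact (abs_sub _ _).trans (by linarith)
    · rw [sub_zero]; linarith
  induction fuel with
  | zero =>
    intro s S e hs h he hM
    refine (h.congr fun i hi => ?_).mono (by simp)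
    exact coeff_mul_one_sub P' s i (by omega)
  | succ fuel ih =>
    intro s S e hs h he hM
    rw [dbl_succ]
    push_cast at he ⊢
    cases hb : Nat.ble (Nat.succ (B * s)) (B * (M + 1)) with
    | false =>
      have hb' : ¬ (B * s + 1 ≤ B * (M + 1)) := by
        intro h1
        rw [Nat.ble_eq_true_of_le h1] at hb
        exact Bool.noConfusion hb
      have : M + 1 ≤ s := by
        by_contra h2
        have h3 : s + 1 ≤ M + 1 := by omega
        have h4 := Nat.mul_le_mul_left B h3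
        rw [Nat.mul_add, Nat.mul_one] at h4
        omega
      refine (h.congr fun i hi => ?_).mono (by linarith [Int.natCast_nonneg fuel])
      exact coeff_mul_one_sub P' s i (by omega)
    | true =>
      have e1 : 2 * (B * s) = B * (2 * s) := by ring
      simp only
      rw [show Nat.mul 2 (B * s) = B * (2 * s) from e1]
      have h1 := h.upP hB hs (by linarith) (hbd s) (by linarith [Int.natCast_nonneg fuel])
      have h2 : P' * (1 - X ^ s) * (1 + X ^ s) = P' * (1 - X ^ (2 * s)) := by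
        rw [mul_assoc]
        congr 1
        rw [two_mul, pow_add]
        ring
      rw [h2] at h1
      have := ih (s := 2 * s) (by omega) h1 (by linarith) (by
        rw [pow_succ] at hM
        calc M + 1 ≤ s * (2 ^ fuel * 2) := hM
          _ = 2 * s * 2 ^ fuel := by ring)
      refine this.mono (by linarith)

theorem App.upF {B M S b : ℕ} {C e : ℤ} {P : ℤ⟦X⟧} (hB : 1 ≤ B) (hb : 1 ≤ b)
    (hC : 4 * C ≤ 2 ^ B) (hP : Bd M C P) (h : App B M S P e) (he : 4 * e ≤ 2 ^ B) :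
    App B M (upF B (B * (M + 1)) b S) (P * (1 - (-X) ^ b)) (e + 1) := by
  unfold KC.upF
  cases hd : Nat.ble (Nat.succ (Nat.mul B b)) (B * (M + 1)) with
  | false =>
    have hb' : ¬ (B * b + 1 ≤ B * (M + 1)) := by
      intro h1
      have := Nat.ble_eq_true_of_le h1
      rw [show Nat.ble (Nat.succ (Nat.mul B b)) (B * (M + 1)) =
        Nat.ble (B * b + 1) (B * (M + 1)) from rfl, this] at hd
      exact Bool.noConfusion hd
    have hM : M + 1 ≤ b := by
      by_contra h2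
      have h3 : b + 1 ≤ M + 1 := by omega
      have h4 := Nat.mul_le_mul_left B h3
      rw [Nat.mul_add, Nat.mul_one] at h4
      omega
    refine (h.congr fun i hi => ?_).mono (by linarith)
    exact (coeff_factor_congr (M := M + 1) hM P (by omega)).symm
  | true =>
    cases hc : Nat.beq (Nat.mod b 2) 0 with
    | true =>
      have hj2 : b % 2 = 0 := Nat.eq_of_beq_eq_true hc
      rw [neg_pow_even' hj2]
      exact h.upM hB hb hC hP he
    | false =>
      have hj2 : b % 2 = 1 := by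
        have : ¬ b % 2 = 0 := Nat.ne_of_beq_eq_false hc
        omega
      rw [neg_pow_odd' hj2, sub_neg_eq_add]
      exact h.upP hB hb hC hP he

theorem App.dvF {B M S J j : ℕ} {C e : ℤ} {P P' : ℤ⟦X⟧} (hB : 3 ≤ B) (hj : 1 ≤ j)
    (hM : M + 1 ≤ 2 ^ 20) (hC : 8 * C ≤ 2 ^ B) (hP : P' * (1 - (-X) ^ j) = P) (hPb : Bd M C P)
    (hP' : Bd M C P') (h : App B M S P e) (he : 4 * (e + 21) ≤ 2 ^ B) :
    App B M (dvF B (B * (M + 1)) J j S) P' (e + 21) := by
  have he0 : 0 ≤ e := (abs_nonneg _).trans h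
  have hC0 : 0 ≤ C := (abs_nonneg _).trans (hP' 0 (by omega))
  unfold KC.dvF
  cases hJ : Nat.ble j J with
  | true =>
    cases hc : Nat.beq (Nat.mod j 2) 0 with
    | true =>
      have hj2 : j % 2 = 0 := Nat.eq_of_beq_eq_true hc
      rw [neg_pow_even' hj2] at hP
      exact (h.dvE hB hj (by linarith) hP hP' (by linarith)).mono (by linarith)
    | false =>
      have hj2 : j % 2 = 1 := by
        have : ¬ j % 2 = 0 := Nat.ne_of_beq_eq_false hc
        omega
      rw [neg_pow_odd' hj2, sub_neg_eq_add] at hP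
      exact (h.dvO hB hj (by linarith) hP hP' (by linarith)).mono (by linarith)
  | false =>
    cases hc : Nat.beq (Nat.mod j 2) 0 with
    | true =>
      have hj2 : j % 2 = 0 := Nat.eq_of_beq_eq_true hc
      rw [neg_pow_even' hj2] at hP
      rw [← hP] at h
      have := App.dbl (B := B) (by omega) hC hP' 20 hj h (by push_cast; linarith) (by
        calc M + 1 ≤ 1 * 2 ^ 20 := by omega
          _ ≤ j * 2 ^ 20 := Nat.mul_le_mul_right _ hj)
      refine this.mono ?_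
      push_cast; linarith
    | false =>
      have hj2 : j % 2 = 1 := by
        have : ¬ j % 2 = 0 := Nat.ne_of_beq_eq_false hc
        omega
      rw [neg_pow_odd' hj2, sub_neg_eq_add] at hP
      have h1 := h.upM (by omega) hj (by linarith) hPb (by linarith)
      have h2 : P * (1 - X ^ j) = P' * (1 - X ^ (2 * j)) := by
        rw [← hP, mul_assoc]
        congr 1
        rw [two_mul, pow_add]
        ring
      rw [h2] at h1
      have := App.dbl (B := B) (by omega) hC hP' 20 (s := 2 * j) (by omega) h1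
        (by push_cast; linarith) (by
        calc M + 1 ≤ 1 * 2 ^ 20 := by omega
          _ ≤ 2 * j * 2 ^ 20 := Nat.mul_le_mul_right _ (by omega))
      refine this.mono ?_
      push_cast; linarith

/-! ### Bounds of the coefficients during the chain -/

/-- numeric parameters: `2^(B₁-1)` bounds everything -/
def Par (M s B₁ u : ℕ) : Prop :=
  1 ≤ u ∧ s + 1 < B₁ ∧ 19790 * u ^ 2 + 10000 * (M + 1) ≤ 6931 * (B₁ - 1 - s) * u

/-- the weighted norm gives the bound of the coefficients -/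
theorem bd_of_wn {M s B₁ u : ℕ} (h : Par M s B₁ u) {P : ℤ⟦X⟧}
    (hP : wn (M + 1) ((u : ℝ) / (u + 1)) P ≤
      2 ^ s * (Real.exp (u / 3) * Real.exp (1.645 * u))) : Bd M (2 ^ (B₁ - 1)) P := by
  obtain ⟨hu, hs, hbd⟩ := h
  intro i hi
  have hu0 : (0 : ℝ) < u := by exact_mod_cast hu
  have hu1 : (0 : ℝ) < (u : ℝ) + 1 := by linarith
  set r : ℝ := (u : ℝ) / (u + 1) with hr
  have hr0 : 0 < r := by positivity
  have h1 := coeff_le_wn (M := M + 1) (i := i) (by omega) hr0.le P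
  have h5 : |((coeff i P : ℤ) : ℝ)| * r ^ i ≤
      2 ^ s * (Real.exp (u / 3) * Real.exp (1.645 * u)) := h1.trans hP
  have h6 : 1 ≤ r ^ i * Real.exp ((M + 1 : ℕ) / u) := by
    have e1 : r ^ i * (1 + 1 / (u : ℝ)) ^ i = 1 := by
      rw [← mul_pow]
      have : r * (1 + 1 / (u : ℝ)) = 1 := by rw [hr]; field_simp
      rw [this, one_pow]
    have e2 : (1 + 1 / (u : ℝ)) ^ i ≤ Real.exp ((M + 1 : ℕ) / u) := by
      calc (1 + 1 / (u : ℝ)) ^ i ≤ Real.exp (1 / u) ^ i := by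
            refine pow_le_pow_left₀ (by positivity) ?_ i
            have := Real.add_one_le_exp (1 / (u : ℝ)); linarith
        _ = Real.exp (i / u) := by
            rw [← Real.exp_nat_mul]; congr 1; ring
        _ ≤ Real.exp ((M + 1 : ℕ) / u) := by
            refine Real.exp_le_exp.2 ?_
            have : (i : ℝ) ≤ (M + 1 : ℕ) := by exact_mod_cast (by omega : i ≤ M + 1)
            gcongr
    calc (1 : ℝ) = r ^ i * (1 + 1 / (u : ℝ)) ^ i := e1.symm
      _ ≤ _ := mul_le_mul_of_nonneg_left e2 (by positivity)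
  have h7 : |((coeff i P : ℤ) : ℝ)| ≤
      2 ^ s * (Real.exp (u / 3) * Real.exp (1.645 * u)) * Real.exp ((M + 1 : ℕ) / u) := by
    have h8 := abs_nonneg (((coeff i P : ℤ) : ℝ))
    calc |((coeff i P : ℤ) : ℝ)|
        ≤ |((coeff i P : ℤ) : ℝ)| * (r ^ i * Real.exp ((M + 1 : ℕ) / u)) :=
          le_mul_of_one_le_right h8 h6
      _ = (|((coeff i P : ℤ) : ℝ)| * r ^ i) * Real.exp ((M + 1 : ℕ) / u) := by ring
      _ ≤ _ := mul_le_mul_of_nonneg_right h5 (Real.exp_pos _).le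
  obtain ⟨c, rfl⟩ : ∃ c, B₁ = s + 1 + c := ⟨B₁ - (s + 1), by omega⟩
  have hc : 1 ≤ c := by omega
  have hc' : s + 1 + c - 1 - s = c := by omega
  rw [hc'] at hbd
  have hbd' : (19790 : ℝ) * u ^ 2 + 10000 * ((M + 1 : ℕ) : ℝ) ≤ 6931 * c * u := by
    exact_mod_cast hbd
  have hx : (u : ℝ) / 3 + 1.645 * u + (M + 1 : ℕ) / u ≤ 0.6931 * c := by
    have : ((M + 1 : ℕ) : ℝ) / u ≤ 0.6931 * c - 1.979 * u := by
      rw [div_le_iff₀ hu0]; nlinarith
    linarith
  have hln : (0.6931 : ℝ) < Real.log 2 := by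
    have := Real.log_two_gt_d9; linarith
  have hc0 : (0 : ℝ) < c := by exact_mod_cast hc
  have h9 : Real.exp ((u : ℝ) / 3 + 1.645 * u + (M + 1 : ℕ) / u) < 2 ^ c := by
    have : (2 : ℝ) ^ c = Real.exp (c * Real.log 2) := by
      rw [Real.exp_nat_mul, Real.exp_log (by norm_num)]
    rw [this]
    refine Real.exp_lt_exp.2 (hx.trans_lt ?_)
    nlinarith
  have e3 : 2 ^ s * (Real.exp ((u : ℝ) / 3) * Real.exp (1.645 * u)) *
      Real.exp ((M + 1 : ℕ) / u) =
      2 ^ s * Real.exp ((u : ℝ) / 3 + 1.645 * u + (M + 1 : ℕ) / u) := by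
    rw [Real.exp_add, Real.exp_add]; ring
  rw [e3] at h7
  have h10 : |((coeff i P : ℤ) : ℝ)| ≤ 2 ^ (s + 1 + c - 1) := by
    have e4 : (2 : ℝ) ^ (s + 1 + c - 1) = 2 ^ s * 2 ^ c := by
      rw [show s + 1 + c - 1 = s + c by omega, pow_add]
    rw [e4]
    exact h7.trans (mul_le_mul_of_nonneg_left h9.le (by positivity))
  have h11 : ((|coeff i P| : ℤ) : ℝ) ≤ (((2 : ℤ) ^ (s + 1 + c - 1) : ℤ) : ℝ) := by
    push_cast
    exact h10
  exact_mod_cast h11

/-- the series after the factor `1 + q` -/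
def gs1 (n a s2 k : ℕ) : ℤ⟦X⟧ :=
  if k % 2 = 0 ∧ k < s2 then gs n a s2 k * (1 + X) else gs n a s2 k

/-- the series after the numerator -/
def gs2 (n a s2 k : ℕ) : ℤ⟦X⟧ := gs1 n a s2 k * (1 - (-X) ^ (a * (n + (k + 1))))

theorem gs_succ (n a s2 k : ℕ) : gs n a s2 (k + 1) = gs2 n a s2 k * gi (k + 1) := rfl

theorem bd_gs {n a s M B₁ u : ℕ} (ha : 3 ≤ a) (hp : Par M s B₁ u) (k : ℕ) :
    Bd M (2 ^ (B₁ - 1)) (gs n a (2 * s) k) ∧ Bd M (2 ^ (B₁ - 1)) (gs1 n a (2 * s) k) ∧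
      Bd M (2 ^ (B₁ - 1)) (gs2 n a (2 * s) k) := by
  have hu0 : (0 : ℝ) < u := by exact_mod_cast hp.1
  have hu1 : (0 : ℝ) < (u : ℝ) + 1 := by linarith
  have hr0 : 0 < (u : ℝ) / (u + 1) := by positivity
  have hr1 : (u : ℝ) / (u + 1) < 1 := by rw [div_lt_one hu1]; linarith
  set r : ℝ := (u : ℝ) / (u + 1) with hr
  have hinv : ∀ j : ℕ, 0 ≤ (1 - r ^ (j + 1))⁻¹ := fun j =>
    inv_nonneg.2 (by have := pow_le_one₀ (n := j + 1) hr0.le hr1.le; linarith)
  have hinv1 : ∀ j : ℕ, 1 ≤ (1 - r ^ (j + 1))⁻¹ := fun j => by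
    have h1 := pow_lt_one₀ (n := j + 1) hr0.le hr1 (by omega)
    have h2 : 0 < r ^ (j + 1) := by positivity
    rw [one_le_inv₀ (by linarith)]
    linarith
  have h3 : ∀ k, ∏ j ∈ range k, ((1 + r ^ (3 * (j + 1))) * (1 - r ^ (j + 1))⁻¹) ≤
      Real.exp (u / 3) * Real.exp (1.645 * u) := by
    intro k
    rw [prod_mul_distrib]
    refine mul_le_mul (prod_num_le hu0 k) (prod_den_le hu0 k) ?_ (Real.exp_pos _).le
    exact prod_nonneg fun j _ => hinv j
  have hPi0 : ∀ k, 0 ≤ ∏ j ∈ range k, ((1 + r ^ (3 * (j + 1))) * (1 - r ^ (j + 1))⁻¹) :=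
    fun k => prod_nonneg fun j _ => mul_nonneg (by positivity) (hinv j)
  have h4 : ∀ l, (2 : ℝ) ^ (min s l) ≤ 2 ^ s := fun l =>
    pow_le_pow_right₀ (by norm_num) (min_le_left _ _)
  have hk := wn_gs (n := n) (s := s) (M := M + 1) ha hr0.le hr1 k
  have hA : wn (M + 1) r (gs1 n a (2 * s) k) ≤ 2 ^ (min s ((k + 1 + 1) / 2)) *
      ∏ j ∈ range k, ((1 + r ^ (3 * (j + 1))) * (1 - r ^ (j + 1))⁻¹) := by
    unfold gs1
    split
    · rename_i hk2
      have h2 := wn_one_add (M + 1) hr0.le hr1.le (gs n a (2 * s) k)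
      have h3 : min s ((k + 1 + 1) / 2) = min s ((k + 1) / 2) + 1 := by omega
      rw [h3, pow_succ]
      nlinarith [hPi0 k]
    · refine hk.trans (mul_le_mul_of_nonneg_right ?_ (hPi0 k))
      exact pow_le_pow_right₀ (by norm_num) (by omega)
  refine ⟨bd_of_wn hp (hk.trans ?_), bd_of_wn hp (hA.trans ?_), bd_of_wn hp ?_⟩
  · exact mul_le_mul (h4 _) (h3 k) (hPi0 k) (by positivity)
  · exact mul_le_mul (h4 _) (h3 k) (hPi0 k) (by positivity)
  · have h2 := wn_factor (M + 1) (a * (n + (k + 1))) hr0.le (gs1 n a (2 * s) k)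
    have h5 : r ^ (a * (n + (k + 1))) ≤ r ^ (3 * (k + 1)) :=
      pow_le_pow_of_le_one hr0.le hr1.le (Nat.mul_le_mul ha (by omega))
    refine (h2.trans (mul_le_mul hA (by linarith : 1 + r ^ (a * (n + (k + 1))) ≤
      1 + r ^ (3 * (k + 1))) (by positivity) (mul_nonneg (by positivity) (hPi0 k)))).trans ?_
    have h6 : (∏ j ∈ range k, ((1 + r ^ (3 * (j + 1))) * (1 - r ^ (j + 1))⁻¹)) *
        (1 + r ^ (3 * (k + 1))) ≤
        ∏ j ∈ range (k + 1), ((1 + r ^ (3 * (j + 1))) * (1 - r ^ (j + 1))⁻¹) := by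
      rw [prod_range_succ]
      refine mul_le_mul_of_nonneg_left ?_ (hPi0 k)
      exact le_mul_of_one_le_right (by positivity) (hinv1 k)
    rw [mul_assoc]
    exact mul_le_mul (h4 _) (h6.trans (h3 (k + 1))) (mul_nonneg (hPi0 k) (by positivity))
      (by positivity)

theorem App.stp {B M S n a s J k B₁ u : ℕ} {e : ℤ} (hB : 3 ≤ B) (hM : M + 1 ≤ 2 ^ 20)
    (ha : 3 ≤ a) (hp : Par M s B₁ u) (hBB : 8 * (2 : ℤ) ^ (B₁ - 1) ≤ 2 ^ B)
    (h : App B M S (gs n a (2 * s) k) e) (he : 4 * (e + 23) ≤ 2 ^ B) :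
    App B M (stp3 n a (2 * s) B (B * (M + 1)) J k S) (gs n a (2 * s) (k + 1)) (e + 23) := by
  have he0 : 0 ≤ e := (abs_nonneg _).trans h
  obtain ⟨b0, b1, b2⟩ := bd_gs (n := n) (a := a) ha hp k
  obtain ⟨b3, -, -⟩ := bd_gs (n := n) (a := a) ha hp (k + 1)
  have hpos : (0 : ℤ) < 2 ^ (B₁ - 1) := by positivity
  unfold KC.stp3
  have h1 : App B M (Bool.rec S (Bool.rec S (KC.upP B S)
      (Nat.ble (Nat.succ k) (2 * s))) (Nat.beq (Nat.mod k 2) 0)) (gs1 n a (2 * s) k) (e + 1) := by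
    unfold gs1
    cases hc : Nat.beq (Nat.mod k 2) 0 with
    | true =>
      have hk : k % 2 = 0 := Nat.eq_of_beq_eq_true hc
      cases hd : Nat.ble (Nat.succ k) (2 * s) with
      | true =>
        have hk2 : k < 2 * s := Nat.le_of_ble_eq_true hd
        rw [if_pos ⟨hk, hk2⟩]
        have := h.upP (b := 1) (by omega) le_rfl (by linarith) b0 (by linarith)
        rw [mul_one, pow_one] at this
        exact this
      | false =>
        have hk2 : ¬ k < 2 * s := Nat.not_le_of_not_ble_eq_true (by rw [hd]; simp)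
        rw [if_neg (fun h => hk2 h.2)]
        exact h.mono (by linarith)
    | false =>
      have hk : ¬ k % 2 = 0 := Nat.ne_of_beq_eq_false hc
      rw [if_neg (fun h => hk h.1)]
      exact h.mono (by linarith)
  have h2 := h1.upF (B := B) (by omega) (b := a * (n + (k + 1)))
    (Nat.mul_pos (by omega) (by omega)) (by linarith) b1 (by linarith)
  have hg : gs n a (2 * s) (k + 1) * (1 - (-X) ^ (k + 1)) = gs2 n a (2 * s) k := by
    rw [gs_succ, mul_assoc, mul_comm (gi (k + 1)), gi_mul (Nat.succ_pos k), mul_one]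
  have h3 := App.dvF (J := J) hB (Nat.succ_pos k) hM hBB hg b2 b3 h2 (by linarith)
  exact h3.mono (by linarith)

theorem tv_one (B M : ℕ) : tv B M 1 = (2 ^ B) ^ M := by
  unfold tv
  rw [sum_range_succ', sum_eq_zero, zero_add]
  · simp
  · intro i _
    rw [coeff_one, if_neg (by omega), zero_mul]

/-- the start value: `1`, with a positive last digit -/
theorem app_one (B M : ℕ) : App B M (st0 B M) 1 (2 ^ 40) := by
  have h0 : ((st0 B M : ℕ) : ℤ) = (2 ^ B) ^ M + 2 ^ 40 := by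
    show ((2 ^ (B * M) + 2 ^ 40 : ℕ) : ℤ) = _
    push_cast
    rw [pow_mul]
  unfold App
  rw [tv_one, h0, add_sub_cancel_left]
  exact le_of_eq (abs_of_nonneg (by positivity))

/-- what the chain proves -/
theorem chain3_spec {B M n a s J B₁ u : ℕ} (hB : 3 ≤ B) (hM : M + 1 ≤ 2 ^ 20)
    (ha : 3 ≤ a) (hp : Par M s B₁ u) (hBB : 8 * (2 : ℤ) ^ (B₁ - 1) ≤ 2 ^ B)
    (chk : ℕ → ℕ → Bool) (fuel : ℕ) :
    ∀ {k S : ℕ} {e : ℤ}, App B M S (gs n a (2 * s) k) e → 4 * (e + 23 * fuel) ≤ 2 ^ B →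
      chain3 n a (2 * s) B (B * (M + 1)) J chk fuel k S = true →
      ∀ k', k ≤ k' → k' ≤ k + fuel →
        ∃ S', App B M S' (gs n a (2 * s) k') (e + 23 * fuel) ∧ chk k' S' = true := by
  induction fuel with
  | zero =>
    intro k S e h he hc k' h1 h2
    obtain rfl : k' = k := by omega
    exact ⟨S, h.mono (by simp), hc⟩
  | succ fuel ih =>
    intro k S e h he hc k' h1 h2
    have he0 : 0 ≤ e := (abs_nonneg _).trans h
    have hc' : Bool.rec false
        (chain3 n a (2 * s) B (B * (M + 1)) J chk fuel (Nat.succ k)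
          (KC.stp3 n a (2 * s) B (B * (M + 1)) J k S)) (chk k S) = true := hc
    push_cast at he ⊢
    have hf : (0 : ℤ) ≤ fuel := Int.natCast_nonneg _
    cases hb : chk k S with
    | false =>
      rw [hb] at hc'
      exact absurd hc' (by simp)
    | true =>
      rw [hb] at hc'
      rcases Nat.eq_or_lt_of_le h1 with rfl | h1'
      · exact ⟨S, h.mono (by linarith), hb⟩
      · have h3 := h.stp (J := J) hB hM ha hp hBB (by linarith)
        obtain ⟨S', h4, h5⟩ := ih h3 (by linarith) hc' k' h1' (by omega)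
        exact ⟨S', h4.mono (by linarith), h5⟩

/-! ### Reading the signs -/

theorem sgm_eq (B M : ℕ) : sgm B M = (2 ^ (B * (M + 1)) - 1) / (2 ^ B - 1) * 2 ^ (B - 1) := rfl

theorem nonneg_of_signs {B M S : ℕ} {C e : ℤ} {P : ℤ⟦X⟧} (hB : 1 ≤ B) (hC : 4 * C < 2 ^ B)
    (hP : Bd M C P) (h : App B M S P e) (he : 4 * e ≤ 2 ^ B)
    (hs : Nat.land S (sgm B M) = 0) : ∀ i < M, 0 ≤ coeff i P := by
  rw [sgm_eq] at hs
  have hd := digit_of_sign (M := M + 1) hB hs
  set c : ℕ → ℤ := fun i => if i = 0 then coeff M P + (S - tv B M P) else coeff (M - i) P with hc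
  have hsum : (S : ℤ) = ∑ i ∈ range (M + 1), c i * ((2 ^ B : ℕ) : ℤ) ^ i := by
    have h1 : tv B M P = ∑ i ∈ range (M + 1), coeff (M - i) P * ((2 : ℤ) ^ B) ^ i := by
      unfold tv
      rw [← sum_range_reflect]
      refine sum_congr rfl fun i hi => ?_
      have := mem_range.1 hi
      congr 3 <;> omega
    have h2 : ∑ i ∈ range (M + 1), c i * ((2 ^ B : ℕ) : ℤ) ^ i =
        (∑ i ∈ range (M + 1), coeff (M - i) P * ((2 : ℤ) ^ B) ^ i) + (S - tv B M P) := by
      rw [sum_range_succ', sum_range_succ']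
      simp only [hc]
      push_cast
      simp
      ring
    rw [h2, ← h1]
    ring
  have hres := digits_nonneg (2 ^ B) Nat.one_le_two_pow (M + 1) S c
    ⟨0, by rw [mul_zero]; linarith⟩ ?_ hd
  · intro i hi
    have h3 := hres (M - i) (by omega)
    simp only [hc] at h3
    rw [if_neg (by omega), show M - (M - i) = i by omega] at h3
    exact h3
  · intro i hi
    simp only [hc]
    push_cast
    split
    · have h4 := hP M le_rfl
      have h5 := abs_add_le (coeff M P) ((S : ℤ) - tv B M P)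
      unfold App at h
      linarith
    · have h4 := hP (M - i) (by omega)
      have h0 := (abs_nonneg _).trans h4
      linarith

end

end Pool.Agent.SignedQ.KC
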