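import Pool.Agent.Lib.MP_cf17a0_co.KT

/-!
# Tail in `k` and large `a (n + 1)`

`gs n a s2 k` from a certificate for one series.
-/

set_option autoImplicit false

namespace Pool.Agent.SignedQ.KC

open PowerSeries Finset

noncomputable section

/-- the denominators alone -/
def bs (s2 : ℕ) : ℕ → ℤ⟦X⟧
  | 0 => 1
  | k + 1 => (if k % 2 = 0 ∧ k < s2 then bs s2 k * (1 + X) else bs s2 k) * gi (k + 1)

/-- numerators `m0 < m ≤ m0 + t` -/
def nu (n a m0 t : ℕ) : ℤ⟦X⟧ := ∏ j ∈ range t, (1 - (-X) ^ (a * (n + (m0 + j + 1))))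

/-- denominators `k0 < m ≤ k0 + d` -/
def de (k0 d : ℕ) : ℤ⟦X⟧ := ∏ j ∈ range d, gi (k0 + j + 1)

theorem gs_eq_bs (n a s2 k : ℕ) : gs n a s2 k = bs s2 k * nu n a 0 k := by
  induction k with
  | zero => simp [gs, bs, nu]
  | succ k ih =>
    show (if k % 2 = 0 ∧ k < s2 then gs n a s2 k * (1 + X) else gs n a s2 k) *
      (1 - (-X) ^ (a * (n + (k + 1)))) * gi (k + 1) = (if k % 2 = 0 ∧ k < s2 then
      bs s2 k * (1 + X) else bs s2 k) * gi (k + 1) * nu n a 0 (k + 1)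
    have h1 : nu n a 0 (k + 1) = nu n a 0 k * (1 - (-X) ^ (a * (n + (k + 1)))) := by
      unfold nu
      rw [prod_range_succ, zero_add]
    rw [h1, ih]
    split <;> ring

theorem gs_tail (n a s2 k0 : ℕ) (hs : s2 ≤ k0) (d : ℕ) :
    gs n a s2 (k0 + d) = gs n a s2 k0 * (de k0 d * nu n a k0 d) := by
  induction d with
  | zero => simp [de, nu]
  | succ d ih =>
    show (if (k0 + d) % 2 = 0 ∧ k0 + d < s2 then gs n a s2 (k0 + d) * (1 + X) else
      gs n a s2 (k0 + d)) * (1 - (-X) ^ (a * (n + (k0 + d + 1)))) * gi (k0 + d + 1) = _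
    rw [if_neg (by omega), ih]
    unfold nu de
    rw [prod_range_succ, prod_range_succ]
    ring

theorem bs_tail (s2 k0 : ℕ) (hs : s2 ≤ k0) (d : ℕ) :
    bs s2 (k0 + d) = bs s2 k0 * de k0 d := by
  induction d with
  | zero => simp [de]
  | succ d ih =>
    show (if (k0 + d) % 2 = 0 ∧ k0 + d < s2 then bs s2 (k0 + d) * (1 + X) else
      bs s2 (k0 + d)) * gi (k0 + d + 1) = _
    rw [if_neg (by omega), ih]
    unfold de
    rw [prod_range_succ]
    ring

/-- a sum over one parity class -/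
theorem sum_parity (c : ℕ) (hc : c < 2) (f : ℕ → ℤ⟦X⟧) (d : ℕ) :
    ∑ j ∈ (range d).filter (fun j => j % 2 = c), f j =
      ∑ i ∈ range ((d + 1 - c) / 2), f (c + 2 * i) := by
  induction d with
  | zero =>
    have : (0 + 1 - c) / 2 = 0 := by omega
    rw [this]; simp
  | succ d ih =>
    rw [range_add_one, filter_insert]
    by_cases h : d % 2 = c
    · rw [if_pos h, sum_insert (by simp), ih]
      have h1 : (d + 1 + 1 - c) / 2 = (d + 1 - c) / 2 + 1 := by omega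
      rw [h1, sum_range_succ, add_comm]
      congr 2
      omega
    · rw [if_neg h, ih]
      have h1 : (d + 1 + 1 - c) / 2 = (d + 1 - c) / 2 := by omega
      rw [h1]

theorem gi_odd {m : ℕ} (hm : m % 2 = 1) : gi m = (1 - X ^ m) * gi (2 * m) := by
  have h1 := gi_mul (j := m) (by omega)
  have h2 := gi_mul (j := 2 * m) (by omega)
  rw [neg_pow_odd' hm, sub_neg_eq_add] at h1
  rw [neg_pow_even' (by omega), two_mul, pow_add, ← two_mul] at h2
  -- gi m = gi m * ((1 - X^m)(1 + X^m) gi(2m))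
  calc gi m = gi m * ((1 - X ^ m * X ^ m) * gi (2 * m)) := by rw [h2, mul_one]
    _ = ((1 + X ^ m) * gi m) * ((1 - X ^ m) * gi (2 * m)) := by ring
    _ = _ := by rw [h1, one_mul]

/-- the denominators: a nonnegative series times the factors of the odd indices -/
theorem de_eq (M k0 d : ℕ) (hk : k0 % 2 = 0) : ∃ A : ℤ⟦X⟧, NN M A ∧
    de k0 d = A * ∏ j ∈ (range d).filter (fun j => j % 2 = 0), (1 - X ^ (k0 + j + 1)) := by
  induction d with
  | zero => exact ⟨1, NN_one M, by simp [de]⟩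
  | succ d ih =>
    obtain ⟨A, hA, h⟩ := ih
    have h0 : de k0 (d + 1) = de k0 d * gi (k0 + d + 1) := by unfold de; rw [prod_range_succ]
    rw [range_add_one, filter_insert, h0, h]
    by_cases h1 : d % 2 = 0
    · rw [if_pos h1, prod_insert (by simp), gi_odd (m := k0 + d + 1) (by omega)]
      exact ⟨A * gi (2 * (k0 + d + 1)), hA.mul (NN_gi (by omega) (by omega)), by ring⟩
    · rw [if_neg h1]
      exact ⟨A * gi (k0 + d + 1), hA.mul (NN_gi (by omega) (by omega)), by ring⟩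

/-- the numerators: a nonnegative series times the factors of the even exponents -/
theorem nu_eq (M n a m0 t : ℕ) (ha : a % 2 = 1) : ∃ A : ℤ⟦X⟧, NN M A ∧
    nu n a m0 t = A * ∏ j ∈ (range t).filter (fun j => j % 2 = (n + m0 + 1) % 2),
      (1 - X ^ (a * (n + (m0 + j + 1)))) := by
  induction t with
  | zero => exact ⟨1, NN_one M, by simp [nu]⟩
  | succ t ih =>
    obtain ⟨A, hA, h⟩ := ih
    have h0 : nu n a m0 (t + 1) = nu n a m0 t * (1 - (-X) ^ (a * (n + (m0 + t + 1)))) := by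
      unfold nu; rw [prod_range_succ]
    have hpar : (a * (n + (m0 + t + 1))) % 2 = (n + m0 + t + 1) % 2 := by
      rw [Nat.mul_mod, ha, one_mul, Nat.mod_mod]
      congr 1
      ring
    rw [range_add_one, filter_insert, h0, h]
    by_cases h1 : t % 2 = (n + m0 + 1) % 2
    · rw [if_pos h1, prod_insert (by simp), neg_pow_even' (by rw [hpar]; omega)]
      exact ⟨A, hA, by ring⟩
    · rw [if_neg h1, neg_pow_odd' (by rw [hpar]; omega), sub_neg_eq_add]
      exact ⟨A * (1 + X ^ (a * (n + (m0 + t + 1)))), hA.mul ((NN_one M).add (NN_X_pow M _)),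
        by ring⟩

/-- **The certificate.** -/
theorem NN_cert {M k0 d n a m0 t b : ℕ} {P P' τ : ℤ⟦X⟧} (hk : k0 % 2 = 0) (ha : a % 2 = 1)
    (ha3 : 3 ≤ a) (hP : NN M P) (hPP : NN M (P' - P)) (hP2 : NN M (P' * (1 - X ^ 2)))
    (hτ : NN M (P' * (τ - ∑ j ∈ (range d).filter (fun j => j % 2 = 0), X ^ (k0 + j + 1))))
    (hb2 : b % 2 = 0) (hb : b ≤ a * (n + m0 + 1))
    (h : NN M (P - 2 * (P' * (τ + X ^ b * gi 6)))) : NN M (P * (de k0 d * nu n a m0 t)) := by
  classical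
  obtain ⟨A, hA, hd⟩ := de_eq M k0 d hk
  obtain ⟨A', hA', hn⟩ := nu_eq M n a m0 t ha
  set c := (n + m0 + 1) % 2 with hc
  have hP'0 : NN M P' := by
    refine (hPP.add hP).congr fun i _ => ?_
    congr 1
    ring
  -- the second progression
  have h2 : NN M (P' * (X ^ b * gi 6 - ∑ j ∈ (range t).filter (fun j => j % 2 = c),
      X ^ (a * (n + (m0 + j + 1))))) := by
    rw [sum_parity c (by omega)]
    refine NN_prog (by norm_num) (by norm_num) hP'0 hP2 _
      (fun i => a * (n + (m0 + (c + 2 * i) + 1))) (fun i _ => ?_) (fun i _ => ?_)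
    · calc b + 6 * i ≤ a * (n + m0 + 1) + 2 * i * a := by nlinarith
        _ ≤ a * (n + (m0 + (c + 2 * i) + 1)) := by nlinarith
    · rw [Nat.mul_mod, ha, one_mul, Nat.mod_mod]
      omega
  -- all exponents at once
  set S : Finset (ℕ ⊕ ℕ) := ((range d).filter (fun j => j % 2 = 0)).disjSum
    ((range t).filter (fun j => j % 2 = c)) with hS
  set e : ℕ ⊕ ℕ → ℕ := Sum.elim (fun j => k0 + j + 1) (fun j => a * (n + (m0 + j + 1))) with he
  have hsum : ∑ i ∈ S, (X : ℤ⟦X⟧) ^ e i =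
      (∑ j ∈ (range d).filter (fun j => j % 2 = 0), X ^ (k0 + j + 1)) +
      ∑ j ∈ (range t).filter (fun j => j % 2 = c), X ^ (a * (n + (m0 + j + 1))) := by
    rw [hS, sum_disjSum]
    rfl
  have hprod : ∏ i ∈ S, (1 - (X : ℤ⟦X⟧) ^ e i) =
      (∏ j ∈ (range d).filter (fun j => j % 2 = 0), (1 - X ^ (k0 + j + 1))) *
      ∏ j ∈ (range t).filter (fun j => j % 2 = c), (1 - X ^ (a * (n + (m0 + j + 1)))) := by
    rw [hS, prod_disjSum]
    rfl
  have hg : NN M (∑ i ∈ S, (X : ℤ⟦X⟧) ^ e i) := NN.sum _ _ fun i _ => NN_X_pow M _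
  have h3 : NN M (P * (1 - 2 * ∑ i ∈ S, (X : ℤ⟦X⟧) ^ e i)) := by
    have h4 := (h.add ((hτ.add h2).add (hτ.add h2))).add ((hPP.mul hg).add (hPP.mul hg))
    refine h4.congr fun i _ => ?_
    congr 1
    rw [hsum]
    ring
  have h5 := NN_many S e hP h3
  rw [hprod] at h5
  refine ((hA.mul hA').mul h5).congr fun i _ => ?_
  congr 1
  rw [hd, hn]
  ring

/-- all `k ≥ k0` for one pair -/
theorem NN_tail {M k0 n a s2 Λ : ℕ} (hk : k0 % 2 = 0) (hs : s2 ≤ k0) (ha : a % 2 = 1)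
    (ha3 : 3 ≤ a) {P' : ℤ⟦X⟧} (hP : NN M (gs n a s2 k0)) (hPP : NN M (P' - gs n a s2 k0))
    (hP2 : NN M (P' * (1 - X ^ 2))) (_ : Λ = Λ)
    (h : NN M (gs n a s2 k0 - 2 * (P' * (X ^ (k0 + 1) * gi 2 + X ^ (3 * k0 + 2) * gi 6))))
    (d : ℕ) : NN M (gs n a s2 (k0 + d)) := by
  rw [gs_tail n a s2 k0 hs]
  have hP'0 : NN M P' := by
    refine (hPP.add hP).congr fun i _ => ?_
    congr 1
    ring
  refine NN_cert hk ha ha3 hP hPP hP2 ?_ (by omega) ?_ h
  · rw [sum_parity 0 (by norm_num)]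
    exact NN_prog (by norm_num) (by norm_num) hP'0 hP2 _ (fun i => k0 + (0 + 2 * i) + 1)
      (fun i _ => by omega) (fun i _ => by omega)
  · calc 3 * k0 + 2 ≤ 3 * (n + k0 + 1) := by omega
      _ ≤ a * (n + k0 + 1) := Nat.mul_le_mul_right _ ha3

/-- all pairs with `a (n + 1) ≥ b`, one `k` -/
theorem NN_large {M n a s2 b k : ℕ} (ha : a % 2 = 1) (ha3 : 3 ≤ a) {P P' : ℤ⟦X⟧}
    (hPb : ∀ i < M, coeff i P = coeff i (bs s2 k))
    (hP : NN M P) (hPP : NN M (P' - P))
    (hP2 : NN M (P' * (1 - X ^ 2))) (hb2 : b % 2 = 0) (hb : b ≤ a * (n + 1))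
    (h : NN M (P - 2 * (P' * (X ^ b * gi 6)))) : NN M (gs n a s2 k) := by
  have h1 := NN_cert (M := M) (k0 := 0) (d := 0) (n := n) (a := a) (m0 := 0) (t := k) (b := b)
    (P := P) (P' := P') (τ := 0) rfl ha ha3 hP hPP hP2 (by simpa using NN_zero M) hb2
    (by simpa using hb) (by rw [zero_add]; exact h)
  rw [gs_eq_bs]
  have h2 : de 0 0 = 1 := by simp [de]
  rw [h2, one_mul] at h1
  refine h1.congr fun i hi => ?_
  rw [coeff_mul, coeff_mul]
  refine sum_congr rfl fun x hx => ?_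
  have := mem_antidiagonal.1 hx
  rw [hPb _ (by omega)]

/-- all pairs with `a (n + 1) ≥ b`, all `k ≥ k0` -/
theorem NN_large_tail {M n a s2 b k0 : ℕ} (hk : k0 % 2 = 0) (hs : s2 ≤ k0) (ha : a % 2 = 1)
    (ha3 : 3 ≤ a) {P P' : ℤ⟦X⟧} (hPb : ∀ i < M, coeff i P = coeff i (bs s2 k0))
    (hP : NN M P) (hPP : NN M (P' - P))
    (hP2 : NN M (P' * (1 - X ^ 2))) (hb2 : b % 2 = 0) (hb : b ≤ a * (n + 1))
    (h : NN M (P - 2 * (P' * (X ^ (k0 + 1) * gi 2 + X ^ b * gi 6)))) (d : ℕ) :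
    NN M (gs n a s2 (k0 + d)) := by
  have hP'0 : NN M P' := by
    refine (hPP.add hP).congr fun i _ => ?_
    congr 1
    ring
  have h1 := NN_cert (M := M) (k0 := k0) (d := d) (n := n) (a := a) (m0 := 0) (t := k0 + d)
    (b := b) (P := P) (P' := P') (τ := X ^ (k0 + 1) * gi 2) hk ha ha3 hP hPP hP2 (by
      rw [sum_parity 0 (by norm_num)]
      exact NN_prog (by norm_num) (by norm_num) hP'0 hP2 _ (fun i => k0 + (0 + 2 * i) + 1)
        (fun i _ => by omega) (fun i _ => by omega)) hb2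
    (by simpa using hb) h
  rw [gs_eq_bs, bs_tail s2 k0 hs]
  refine h1.congr fun i hi => ?_
  rw [mul_assoc, coeff_mul, coeff_mul]
  refine sum_congr rfl fun x hx => ?_
  have := mem_antidiagonal.1 hx
  rw [hPb _ (by omega)]

end

end Pool.Agent.SignedQ.KC
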