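import Pool.Agent.Lib.MP_cf17a0_co.KR
import Pool.Agent.Lib.MP_cf17a0_co.KT2

/-!
# The certificates in the kernel
-/

set_option autoImplicit false

namespace Pool.Agent.SignedQ.KC

open PowerSeries Finset

noncomputable section

theorem boolrec_true {x y : Bool} (h : (Bool.rec false y x : Bool) = true) :
    x = true ∧ y = true := by
  cases x with
  | false => exact absurd h (by simp)
  | true => exact ⟨rfl, h⟩

/-- the majorant as a series -/
def pp (Lam : ℕ) (P : ℤ⟦X⟧) : ℤ⟦X⟧ := P + ((Lam : ℤ⟦X⟧) * X * (1 + X ^ 1) * gi 2) * gi 2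

theorem Bd.mono {M : ℕ} {C C' : ℤ} {P : ℤ⟦X⟧} (h : Bd M C P) (hC : C ≤ C') : Bd M C' P :=
  fun i hi => (h i hi).trans hC

theorem Bd.add {M : ℕ} {C C' : ℤ} {P Q : ℤ⟦X⟧} (h : Bd M C P) (h' : Bd M C' Q) :
    Bd M (C + C') (P + Q) := fun i hi => by
  rw [map_add]; exact (abs_add_le _ _).trans (add_le_add (h i hi) (h' i hi))

theorem Bd.sub {M : ℕ} {C C' : ℤ} {P Q : ℤ⟦X⟧} (h : Bd M C P) (h' : Bd M C' Q) :
    Bd M (C + C') (P - Q) := fun i hi => by
  rw [map_sub]; exact (abs_sub _ _).trans (add_le_add (h i hi) (h' i hi))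

theorem Bd.mulX {M : ℕ} {C : ℤ} {P : ℤ⟦X⟧} (h : Bd M C P) (b : ℕ) : Bd M C (P * X ^ b) :=
  fun i hi => by
    have h0 := (abs_nonneg _).trans (h i hi)
    rw [coeff_mul_X_pow']
    split
    · exact h _ (by omega)
    · rw [abs_zero]; exact h0

theorem Bd.gi {M j : ℕ} {C : ℤ} {P : ℤ⟦X⟧} (hj : 1 ≤ j) (hje : j % 2 = 0) (h : Bd M C P) :
    Bd M ((M + 1) * C) (P * gi j) := by
  have hg := gi_mul hj
  rw [neg_pow_even' hje] at hg
  have e : P * KC.gi j = P + (P * KC.gi j) * X ^ j := by linear_combination P * hg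
  have h1 : ∀ i ≤ M, |coeff i (P * KC.gi j)| ≤ (i + 1) * C := by
    intro i
    induction i using Nat.strong_induction_on with
    | _ i ih =>
      intro hi
      have h0 := (abs_nonneg _).trans (h i hi)
      rw [e, map_add, coeff_mul_X_pow']
      split
      · rename_i hji
        have h2 := ih (i - j) (by omega) (by omega)
        have h3 : (((i - j : ℕ) : ℤ) + 1) * C ≤ i * C := by
          refine mul_le_mul_of_nonneg_right ?_ h0
          have : i - j + 1 ≤ i := by omega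
          exact_mod_cast this
        refine (abs_add_le _ _).trans ?_
        have := h i hi
        linarith
      · rw [add_zero]
        have := h i hi
        have h4 : (0 : ℤ) ≤ i * C := by positivity
        linarith
  intro i hi
  have h0 := (abs_nonneg _).trans (h i hi)
  refine (h1 i hi).trans (mul_le_mul_of_nonneg_right ?_ h0)
  have : (i : ℤ) ≤ M := by exact_mod_cast hi
  linarith

theorem coeff_natCast_mul (L : ℕ) (P : ℤ⟦X⟧) (i : ℕ) :
    coeff i ((L : ℤ⟦X⟧) * P) = L * coeff i P := by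
  have : (L : ℤ⟦X⟧) = PowerSeries.C (L : ℤ) := by simp
  rw [this, coeff_C_mul]

theorem bd_LX (M L : ℕ) : Bd M L ((L : ℤ⟦X⟧) * X) := by
  intro i _
  rw [coeff_natCast_mul, coeff_X]
  split <;> simp

theorem app_LX {B M : ℕ} (L : ℕ) (hM : 1 ≤ M) :
    App B M (Nat.shiftLeft L (B * (M - 1))) ((L : ℤ⟦X⟧) * X) 0 := by
  unfold App
  have h1 : tv B M ((L : ℤ⟦X⟧) * X) = L * (2 ^ B) ^ (M - 1) := by
    unfold tv
    rw [sum_eq_single 1]
    · rw [coeff_natCast_mul, coeff_one_X, mul_one]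
    · intro i _ hi
      rw [coeff_natCast_mul, coeff_X, if_neg hi, mul_zero, zero_mul]
    · intro h
      exact absurd (mem_range.2 (by omega)) h
  have h2 : Nat.shiftLeft L (B * (M - 1)) = L * (2 ^ B) ^ (M - 1) := by
    show L <<< (B * (M - 1)) = _
    rw [Nat.shiftLeft_eq, pow_mul]
  rw [h1, h2]
  push_cast
  simp

/-- the numeric condition for the certificates; `D = 2^(B₁-1)` -/
def Cnd (B M Lam : ℕ) (D : ℤ) : Prop :=
  8 * (D + 4 * ((M + 1) * (D + (M + 1) * ((M + 1) * Lam)))) < 2 ^ B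

section

variable {B M S Lam : ℕ} {D e : ℤ} {P : ℤ⟦X⟧}

theorem Cnd.facts (h : Cnd B M Lam D) (hD : 0 ≤ D) :
    0 ≤ D + (M + 1) * ((M + 1) * Lam) ∧ D ≤ D + (M + 1) * ((M + 1) * (Lam : ℤ)) ∧
    8 * ((M + 1) * (D + (M + 1) * ((M + 1) * (Lam : ℤ)))) < 2 ^ B ∧
    8 * ((M + 1) * ((M + 1) * (Lam : ℤ))) < 2 ^ B ∧ 8 * (D + (M + 1) * ((M + 1) * (Lam : ℤ))) < 2 ^ B ∧
    8 * D < 2 ^ B ∧ 8 * ((M + 1) * (Lam : ℤ)) < 2 ^ B := by
  unfold Cnd at h
  have hM : (0 : ℤ) ≤ M := Int.natCast_nonneg _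
  have hL : (0 : ℤ) ≤ Lam := Int.natCast_nonneg _
  have h1 : (0 : ℤ) ≤ (M + 1) * Lam := by positivity
  have h2 : (0 : ℤ) ≤ (M + 1) * ((M + 1) * Lam) := by positivity
  set A : ℤ := (M + 1) * ((M + 1) * Lam) with hA
  have h3 : (0 : ℤ) ≤ D + A := by linarith
  have h4 : D + A ≤ (M + 1) * (D + A) := le_mul_of_one_le_left h3 (by linarith)
  have h5 : (M + 1) * (Lam : ℤ) ≤ A := le_mul_of_one_le_left h1 (by linarith)
  refine ⟨h3, by linarith, by linarith, by linarith, by linarith, by linarith, by linarith⟩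

theorem app_spp (hB : 3 ≤ B) (hM : 1 ≤ M) (hD : 0 ≤ D) (hc : Cnd B M (2 * Lam) D)
    (hP : Bd M D P) (h : App B M S P e) :
    App B M (spp B M Lam S) (pp Lam P) (e + 3) ∧
      Bd M (D + (M + 1) * ((M + 1) * ((2 * Lam : ℕ) : ℤ))) (pp Lam P) := by
  obtain ⟨f1, f2, f3, f4, f5, f6, f7⟩ := hc.facts hD
  have hY : (8 : ℤ) ≤ 2 ^ B := by
    calc (8 : ℤ) = 2 ^ 3 := by norm_num
      _ ≤ 2 ^ B := pow_le_pow_right₀ (by norm_num) hB
  have hL : (0 : ℤ) ≤ Lam := Int.natCast_nonneg _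
  have hMM : (0 : ℤ) ≤ M := Int.natCast_nonneg _
  have b00 := bd_LX M Lam
  have b0 : Bd M ((2 * Lam : ℕ) : ℤ) ((Lam : ℤ⟦X⟧) * X * (1 + X ^ 1)) := by
    rw [mul_add, mul_one]
    exact (b00.add (b00.mulX 1)).mono (by push_cast; linarith)
  have b1 := b0.gi (j := 2) (by norm_num) (by norm_num)
  have b2 := b1.gi (j := 2) (by norm_num) (by norm_num)
  have hg := gi_mul (j := 2) (by norm_num)
  rw [neg_pow_even' (by norm_num)] at hg
  have f8 : 4 * (Lam : ℤ) ≤ 2 ^ B := by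
    push_cast at f7
    nlinarith
  have a00 := (app_LX (B := B) Lam hM)
  have a0 := a00.upP (b := 1) (by omega) (by norm_num) f8 b00 (by linarith)
  have a1 := a0.dvE (j := 2) hB (by norm_num) (by linarith)
    (P' := (Lam : ℤ⟦X⟧) * X * (1 + X ^ 1) * gi 2)
    (by linear_combination ((Lam : ℤ⟦X⟧) * X * (1 + X ^ 1)) * hg) b1
    (by linarith)
  have a2 := a1.dvE (j := 2) hB (by norm_num) (by linarith)
    (P' := (Lam : ℤ⟦X⟧) * X * (1 + X ^ 1) * gi 2 * gi 2)
    (by linear_combination ((Lam : ℤ⟦X⟧) * X * (1 + X ^ 1) * gi 2) * hg) b2 (by linarith)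
  refine ⟨?_, hP.add b2⟩
  unfold App at h a2 ⊢
  unfold pp
  rw [tv_add]
  have e1 : ((spp B M Lam S : ℕ) : ℤ) = S +
      ((dvE (B * 2) (dvE (B * 2) (upP (B * 1) (Nat.shiftLeft Lam (B * (M - 1))))) : ℕ) : ℤ) := by
    show ((S + dvE (B * 2) (dvE (B * 2) (upP (B * 1) (Nat.shiftLeft Lam (B * (M - 1))))) : ℕ) : ℤ)
      = _
    push_cast; rfl
  rw [e1]
  have := abs_add_le ((S : ℤ) - tv B M P)
    (((dvE (B * 2) (dvE (B * 2) (upP (B * 1) (Nat.shiftLeft Lam (B * (M - 1))))) : ℕ) : ℤ) -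
      tv B M ((Lam : ℤ⟦X⟧) * X * (1 + X ^ 1) * gi 2 * gi 2))
  calc _ = |((S : ℤ) - tv B M P) +
      (((dvE (B * 2) (dvE (B * 2) (upP (B * 1) (Nat.shiftLeft Lam (B * (M - 1))))) : ℕ) : ℤ) -
      tv B M ((Lam : ℤ⟦X⟧) * X * (1 + X ^ 1) * gi 2 * gi 2))| := by congr 1; ring
    _ ≤ e + 3 := by linarith

theorem okS_spec {S' : ℕ} {C : ℤ} {Q : ℤ⟦X⟧} (hB : 1 ≤ B) (hC : 4 * C < 2 ^ B) (hQ : Bd M C Q)
    (h : App B M S' Q e) (he : 4 * e ≤ 2 ^ B) (hs : okS (sgm B M) S' = true) : NN M Q :=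
  nonneg_of_signs hB hC hQ h he (Nat.eq_of_beq_eq_true hs)

theorem app_sub2 {G : ℕ} {Q : ℤ⟦X⟧} {e' : ℤ} (h : App B M S P e) (hG : App B M G Q e')
    (hle : Nat.ble (Nat.mul 2 G) S = true) :
    App B M (Nat.sub S (Nat.mul 2 G)) (P - 2 * Q) (e + 2 * e') := by
  have hle' : 2 * G ≤ S := Nat.le_of_ble_eq_true hle
  unfold App at *
  have e1 : ((Nat.sub S (Nat.mul 2 G) : ℕ) : ℤ) = S - 2 * G := by
    show ((S - 2 * G : ℕ) : ℤ) = _
    rw [Nat.cast_sub hle']; push_cast; rfl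
  have e2 : tv B M (P - 2 * Q) = tv B M P - 2 * tv B M Q := by
    rw [two_mul, tv_sub, tv_add]; ring
  rw [e1, e2]
  have := abs_add_le ((S : ℤ) - tv B M P) (2 * (tv B M Q - G))
  rw [abs_mul, abs_sub_comm (tv B M Q), abs_of_nonneg (by norm_num : (0 : ℤ) ≤ 2)] at this
  calc _ = |((S : ℤ) - tv B M P) + 2 * (tv B M Q - G)| := by congr 1; ring
    _ ≤ e + 2 * e' := by linarith

theorem pp_sub (M Lam : ℕ) (P : ℤ⟦X⟧) : NN M (pp Lam P - P) := by
  have hg : NN M (gi 2) := NN_gi (by norm_num) (by norm_num)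
  have h1 : NN M ((Lam : ℤ⟦X⟧) * X) := fun i _ => by
    rw [coeff_natCast_mul, coeff_X]
    split <;> simp
  have h2 : NN M (1 + X ^ 1 : ℤ⟦X⟧) := (NN_one M).add (NN_X_pow M 1)
  refine (((h1.mul h2).mul hg).mul hg).congr fun i _ => ?_
  congr 1
  unfold pp
  ring

theorem certN_spec {b : ℕ} (hB : 3 ≤ B) (hM : 1 ≤ M) (hD : 0 ≤ D) (hb : 1 ≤ b)
    (hc : Cnd B M (2 * Lam) D)
    (hP : Bd M D P) (h : App B M S P e) (he : 4 * (e + 10) ≤ 2 ^ B)
    (hs : certN B M (sgm B M) Lam b S = true) :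
    NN M P ∧ NN M (pp Lam P * (1 - X ^ 2)) ∧ NN M (P - 2 * (pp Lam P * (X ^ b * gi 6))) := by
  obtain ⟨f1, f2, f3, f4, f5, f6, f7⟩ := hc.facts hD
  have he0 : 0 ≤ e := (abs_nonneg _).trans h
  obtain ⟨a1, b1⟩ := app_spp hB hM hD hc hP h
  unfold certN at hs
  obtain ⟨h1, h2⟩ := boolrec_true hs
  obtain ⟨h3, h4⟩ := boolrec_true h2
  unfold subOk at h4
  obtain ⟨h5, h6⟩ := boolrec_true h4
  have hg6 := gi_mul (j := 6) (by norm_num)
  rw [neg_pow_even' (by norm_num)] at hg6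
  refine ⟨okS_spec (by omega) (by linarith) hP h (by linarith) h1, ?_, ?_⟩
  · have a2 := a1.upM (b := 2) (by omega) (by norm_num) (by linarith) b1 (by linarith)
    refine okS_spec (C := 2 * (D + (M + 1) * ((M + 1) * ((2 * Lam : ℕ) : ℤ)))) (by omega) (by linarith) ?_ a2
      (by linarith) h3
    have h7 := b1.sub (b1.mulX 2)
    rw [show pp Lam P * (1 - X ^ 2) = pp Lam P - pp Lam P * X ^ 2 by ring]
    exact h7.mono (by linarith)
  · have b6 := b1.gi (j := 6) (by norm_num) (by norm_num)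
    have a6 := a1.dvE (j := 6) hB (by norm_num) (by linarith) (P' := pp Lam P * gi 6)
      (by linear_combination (pp Lam P) * hg6) b6 (by linarith)
    have a7 := a6.shift (b := b) (by omega) hb (by linarith) b6 (by linarith)
    have a8 := app_sub2 h a7 h5
    have hb8 : Bd M (D + 2 * ((M + 1) * (D + (M + 1) * ((M + 1) * ((2 * Lam : ℕ) : ℤ)))))
        (P - 2 * (pp Lam P * gi 6 * X ^ b)) := by
      have h8 := (hP.sub (b6.mulX b)).sub (b6.mulX b)
      rw [show P - 2 * (pp Lam P * gi 6 * X ^ b) = P - pp Lam P * gi 6 * X ^ b -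
        pp Lam P * gi 6 * X ^ b by ring]
      exact h8.mono (by linarith)
    have := okS_spec (by omega) (by unfold Cnd at hc; linarith) hb8 a8 (by linarith) h6
    rw [show P - 2 * (pp Lam P * (X ^ b * gi 6)) = P - 2 * (pp Lam P * gi 6 * X ^ b) by ring]
    exact this

theorem certT_spec {b k0 : ℕ} (hB : 3 ≤ B) (hM : 1 ≤ M) (hD : 0 ≤ D) (hb : 1 ≤ b)
    (hc : Cnd B M (2 * Lam) D)
    (hP : Bd M D P) (h : App B M S P e) (he : 4 * (e + 10) ≤ 2 ^ B)
    (hs : certT B M (sgm B M) Lam k0 b S = true) :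
    NN M P ∧ NN M (pp Lam P * (1 - X ^ 2)) ∧
      NN M (P - 2 * (pp Lam P * (X ^ (k0 + 1) * gi 2 + X ^ b * gi 6))) := by
  obtain ⟨f1, f2, f3, f4, f5, f6, f7⟩ := hc.facts hD
  have he0 : 0 ≤ e := (abs_nonneg _).trans h
  obtain ⟨a1, b1⟩ := app_spp hB hM hD hc hP h
  unfold certT at hs
  obtain ⟨h1, h2⟩ := boolrec_true hs
  obtain ⟨h3, h4⟩ := boolrec_true h2
  unfold subOk at h4
  obtain ⟨h5, h6⟩ := boolrec_true h4
  have hg6 := gi_mul (j := 6) (by norm_num)
  rw [neg_pow_even' (by norm_num)] at hg6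
  have hg2 := gi_mul (j := 2) (by norm_num)
  rw [neg_pow_even' (by norm_num)] at hg2
  refine ⟨okS_spec (by omega) (by linarith) hP h (by linarith) h1, ?_, ?_⟩
  · have a2 := a1.upM (b := 2) (by omega) (by norm_num) (by linarith) b1 (by linarith)
    refine okS_spec (C := 2 * (D + (M + 1) * ((M + 1) * ((2 * Lam : ℕ) : ℤ)))) (by omega) (by linarith) ?_ a2
      (by linarith) h3
    have h7 := b1.sub (b1.mulX 2)
    rw [show pp Lam P * (1 - X ^ 2) = pp Lam P - pp Lam P * X ^ 2 by ring]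
    exact h7.mono (by linarith)
  · have b6 := b1.gi (j := 6) (by norm_num) (by norm_num)
    have a6 := a1.dvE (j := 6) hB (by norm_num) (by linarith) (P' := pp Lam P * gi 6)
      (by linear_combination (pp Lam P) * hg6) b6 (by linarith)
    have a7 := a6.shift (b := b) (by omega) hb (by linarith) b6 (by linarith)
    have b2 := b1.gi (j := 2) (by norm_num) (by norm_num)
    have a3 := a1.dvE (j := 2) hB (by norm_num) (by linarith) (P' := pp Lam P * gi 2)
      (by linear_combination (pp Lam P) * hg2) b2 (by linarith)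
    have a4 := a3.shift (b := k0 + 1) (by omega) (by omega) (by linarith) b2 (by linarith)
    have a5 : App B M (Nat.add
        (Nat.shiftRight (dvE (Nat.mul B 2) (spp B M Lam S)) (Nat.mul B (Nat.succ k0)))
        (Nat.shiftRight (dvE (Nat.mul B 6) (spp B M Lam S)) (Nat.mul B b)))
        (pp Lam P * gi 2 * X ^ (k0 + 1) + pp Lam P * gi 6 * X ^ b) 2 := by
      unfold App at a4 a7 ⊢
      rw [tv_add]
      have e1 : ((Nat.add
        (Nat.shiftRight (dvE (Nat.mul B 2) (spp B M Lam S)) (Nat.mul B (Nat.succ k0)))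
        (Nat.shiftRight (dvE (Nat.mul B 6) (spp B M Lam S)) (Nat.mul B b)) : ℕ) : ℤ) =
        ((Nat.shiftRight (dvE (B * 2) (spp B M Lam S)) (B * (k0 + 1)) : ℕ) : ℤ) +
        ((Nat.shiftRight (dvE (B * 6) (spp B M Lam S)) (B * b) : ℕ) : ℤ) :=
        Nat.cast_add _ _
      rw [e1]
      have := abs_add_le
        (((Nat.shiftRight (dvE (B * 2) (spp B M Lam S)) (B * (k0 + 1)) : ℕ) : ℤ) -
          tv B M (pp Lam P * gi 2 * X ^ (k0 + 1)))
        (((Nat.shiftRight (dvE (B * 6) (spp B M Lam S)) (B * b) : ℕ) : ℤ) -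
          tv B M (pp Lam P * gi 6 * X ^ b))
      rw [show ((Nat.shiftRight (dvE (B * 2) (spp B M Lam S)) (B * (k0 + 1)) : ℕ) : ℤ) +
        ((Nat.shiftRight (dvE (B * 6) (spp B M Lam S)) (B * b) : ℕ) : ℤ) -
        (tv B M (pp Lam P * gi 2 * X ^ (k0 + 1)) + tv B M (pp Lam P * gi 6 * X ^ b)) =
        (((Nat.shiftRight (dvE (B * 2) (spp B M Lam S)) (B * (k0 + 1)) : ℕ) : ℤ) -
          tv B M (pp Lam P * gi 2 * X ^ (k0 + 1))) +
        (((Nat.shiftRight (dvE (B * 6) (spp B M Lam S)) (B * b) : ℕ) : ℤ) -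
          tv B M (pp Lam P * gi 6 * X ^ b)) by ring]
      linarith
    have a8 := app_sub2 h a5 h5
    have hb8 : Bd M (D + 4 * ((M + 1) * (D + (M + 1) * ((M + 1) * ((2 * Lam : ℕ) : ℤ)))))
        (P - 2 * (pp Lam P * gi 2 * X ^ (k0 + 1) + pp Lam P * gi 6 * X ^ b)) := by
      have h8 := (((hP.sub (b6.mulX b)).sub (b6.mulX b)).sub (b2.mulX (k0 + 1))).sub
        (b2.mulX (k0 + 1))
      rw [show P - 2 * (pp Lam P * gi 2 * X ^ (k0 + 1) + pp Lam P * gi 6 * X ^ b) =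
        P - pp Lam P * gi 6 * X ^ b - pp Lam P * gi 6 * X ^ b - pp Lam P * gi 2 * X ^ (k0 + 1) -
        pp Lam P * gi 2 * X ^ (k0 + 1) by ring]
      exact h8.mono (by linarith)
    have := okS_spec (by omega) (by unfold Cnd at hc; linarith) hb8 a8 (by linarith) h6
    rw [show P - 2 * (pp Lam P * (X ^ (k0 + 1) * gi 2 + X ^ b * gi 6)) =
      P - 2 * (pp Lam P * gi 2 * X ^ (k0 + 1) + pp Lam P * gi 6 * X ^ b) by ring]
    exact this

end

/-! ### The checks of the chains -/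

theorem chkS_spec {n sg k acc : ℕ} (h : chkS n sg k acc = true) (h4 : 4 ≤ k)
    (he : Even (n * k)) : okS sg acc = true := by
  unfold chkS at h
  have h3 : Nat.ble k 3 = false := by
    cases h5 : Nat.ble k 3 with
    | false => rfl
    | true =>
      have := Nat.le_of_ble_eq_true h5
      omega
  have h6 : Nat.beq (Nat.mod (Nat.mul n k) 2) 0 = true := by
    show Nat.beq ((n * k) % 2) 0 = true
    rw [Nat.even_iff.1 he]; rfl
  rw [h3, h6] at h
  exact h

/-- the parameters of all chains -/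
def Prm (s B M Lam B₁ u : ℕ) : Prop :=
  3 ≤ B ∧ 1 ≤ M ∧ M + 1 ≤ 2 ^ 20 ∧ Par M s B₁ u ∧ Cnd B M (2 * Lam) (2 ^ (B₁ - 1)) ∧
    4 * (2 ^ 40 + 23 * (M + 10) + 10) ≤ 2 ^ B

section

variable {s B M Lam B₁ u : ℕ}

theorem Prm.BB (h : Prm s B M Lam B₁ u) : 8 * (2 : ℤ) ^ (B₁ - 1) < 2 ^ B := by
  obtain ⟨-, -, -, -, h5, -⟩ := h
  exact (h5.facts (by positivity)).2.2.2.2.2.1

theorem runS_spec {n a J K : ℕ} (h : Prm s B M Lam B₁ u) (ha : 3 ≤ a) (hK : K ≤ M + 10)
    (hr : runS n a (2 * s) B M J K = true) :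
    ∀ k ≤ K, 4 ≤ k → Even (n * k) → NN M (gs n a (2 * s) k) := by
  have hBB := h.BB
  obtain ⟨h1, h2, h3, h4, h5, h6⟩ := h
  intro k hk h4k he
  have h6' : (4 : ℤ) * (2 ^ 40 + 23 * (M + 10) + 10) ≤ 2 ^ B := by exact_mod_cast h6
  have hK' : (K : ℤ) ≤ M + 10 := by exact_mod_cast hK
  obtain ⟨S, hS, hc⟩ := chain3_spec (J := J) h1 h3 ha h4 hBB.le (chkS n (sgm B M)) K
    (k := 0) (S := st0 B M) (e := 2 ^ 40) (app_one B M) (by linarith) hr k (Nat.zero_le _)
    (by omega)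
  exact okS_spec (by omega) (by linarith) (bd_gs ha h4 k).1 hS (by linarith)
    (chkS_spec hc h4k he)

theorem runT_spec {n a J k0 : ℕ} (h : Prm s B M Lam B₁ u) (ha : 3 ≤ a) (hao : a % 2 = 1)
    (hk : k0 % 2 = 0) (hs : 2 * s ≤ k0) (hK : k0 ≤ M + 10)
    (hr : runT n a (2 * s) B M J Lam k0 = true) :
    ∀ k, 4 ≤ k → Even (n * k) → NN M (gs n a (2 * s) k) := by
  have hBB := h.BB
  obtain ⟨h1, h2, h3, h4, h5, h6⟩ := h
  have h6' : (4 : ℤ) * (2 ^ 40 + 23 * (M + 10) + 10) ≤ 2 ^ B := by exact_mod_cast h6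
  have hK' : (k0 : ℤ) ≤ M + 10 := by exact_mod_cast hK
  have hsp := chain3_spec (J := J) h1 h3 ha h4 hBB.le (chkT n B M (sgm B M) Lam k0) k0
    (k := 0) (S := st0 B M) (e := 2 ^ 40) (app_one B M) (by linarith) hr
  intro k h4k he
  rcases lt_or_ge k k0 with hk1 | hk1
  · obtain ⟨S, hS, hc⟩ := hsp k (Nat.zero_le _) (by omega)
    unfold chkT at hc
    have : Nat.beq k k0 = false := by
      cases h7 : Nat.beq k k0 with
      | false => rfl
      | true =>
        have := Nat.eq_of_beq_eq_true h7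
        omega
    rw [this] at hc
    exact okS_spec (by omega) (by linarith) (bd_gs ha h4 k).1 hS (by linarith)
      (chkS_spec hc h4k he)
  · obtain ⟨S, hS, hc⟩ := hsp k0 (Nat.zero_le _) (by omega)
    unfold chkT at hc
    have : Nat.beq k0 k0 = true := Nat.beq_refl k0
    rw [this] at hc
    obtain ⟨c1, c2, c3⟩ := certT_spec (b := 3 * k0 + 2) h1 h2 (by positivity) (by omega) h5
      (bd_gs ha h4 k0).1 hS (by linarith) hc
    obtain ⟨d, rfl⟩ : ∃ d, k = k0 + d := ⟨k - k0, by omega⟩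
    exact NN_tail (Λ := 0) hk hs hao ha c1 (pp_sub M Lam _) c2 rfl c3 d

theorem coeff_gs_base (M s2 k : ℕ) : ∀ i < M, coeff i (gs M 3 s2 k) = coeff i (bs s2 k) := by
  intro i hi
  rw [gs_eq_bs]
  suffices h : ∀ t, coeff i (bs s2 k * nu M 3 0 t) = coeff i (bs s2 k) from h k
  intro t
  induction t with
  | zero => simp [nu]
  | succ t ih =>
    have h1 : nu M 3 0 (t + 1) = nu M 3 0 t * (1 - (-X) ^ (3 * (M + (0 + t + 1)))) := by
      unfold nu
      rw [prod_range_succ]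
    rw [h1, ← mul_assoc, coeff_factor_congr (M := M) (by omega) _ hi, ih]

theorem coeff_gs_big (M n a s2 k : ℕ) (ha : 1 ≤ a) (hb : M ≤ a * (n + 1)) :
    ∀ i < M, coeff i (gs n a s2 k) = coeff i (bs s2 k) := by
  intro i hi
  rw [gs_eq_bs]
  suffices h : ∀ t, coeff i (bs s2 k * nu n a 0 t) = coeff i (bs s2 k) from h k
  intro t
  induction t with
  | zero => simp [nu]
  | succ t ih =>
    have h1 : nu n a 0 (t + 1) = nu n a 0 t * (1 - (-X) ^ (a * (n + (0 + t + 1)))) := by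
      unfold nu
      rw [prod_range_succ]
    have h2 : M ≤ a * (n + (0 + t + 1)) := hb.trans (Nat.mul_le_mul_left a (by omega))
    rw [h1, ← mul_assoc, coeff_factor_congr (M := M) h2 _ hi, ih]

/-- what the base chain gives -/
theorem runB_spec {J k0 b0 : ℕ} {thr : ℕ → ℕ} (h : Prm s B M Lam B₁ u)
    (hk : k0 % 2 = 0) (hs : 2 * s ≤ k0) (hK : k0 ≤ M + 10) (h24 : 24 < k0) (hb0 : 1 ≤ b0)
    (hb0e : b0 % 2 = 0) (ht : ∀ k, 1 ≤ thr k ∧ thr k % 2 = 0)
    (hr : runB (2 * s) B M J Lam k0 b0 thr = true) :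
    (∀ k, 4 ≤ k → k ≤ 24 → NN M (bs (2 * s) k)) ∧
    (∀ n a k, 3 ≤ a → a % 2 = 1 → 25 ≤ k → k < k0 → thr k ≤ a * (n + 1) →
      NN M (gs n a (2 * s) k)) ∧
    (∀ n a k, 3 ≤ a → a % 2 = 1 → k0 ≤ k → b0 ≤ a * (n + 1) → NN M (gs n a (2 * s) k)) := by
  have hBB := h.BB
  obtain ⟨h1, h2, h3, h4, h5, h6⟩ := h
  have h6' : (4 : ℤ) * (2 ^ 40 + 23 * (M + 10) + 10) ≤ 2 ^ B := by exact_mod_cast h6
  have hK' : (k0 : ℤ) ≤ M + 10 := by exact_mod_cast hK
  have hsp := chain3_spec (J := J) (n := M) (a := 3) h1 h3 le_rfl h4 hBB.le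
    (chkB B M (sgm B M) Lam k0 b0 thr) k0 (k := 0) (S := st0 B M) (e := 2 ^ 40) (app_one B M)
    (by linarith) hr
  refine ⟨?_, ?_, ?_⟩
  · intro k hk4 hk24
    obtain ⟨S, hS, hc⟩ := hsp k (Nat.zero_le _) (by omega)
    unfold chkB at hc
    have e1 : Nat.beq k k0 = false := by
      cases h7 : Nat.beq k k0 with
      | false => rfl
      | true =>
        have := Nat.eq_of_beq_eq_true h7
        omega
    have e2 : Nat.ble k 24 = true := Nat.ble_eq_true_of_le hk24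
    have e3 : Nat.ble k 3 = false := by
      cases h5 : Nat.ble k 3 with
      | false => rfl
      | true =>
        have := Nat.le_of_ble_eq_true h5
        omega
    rw [e1, e2, e3] at hc
    have h8 := okS_spec (M := M) (by omega) (by linarith) (bd_gs (n := M) le_rfl h4 k).1 hS
      (by linarith) hc
    exact h8.congr (coeff_gs_base M (2 * s) k)
  · intro n a k ha hao hk25 hkk hbk
    obtain ⟨S, hS, hc⟩ := hsp k (Nat.zero_le _) (by omega)
    unfold chkB at hc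
    have e1 : Nat.beq k k0 = false := by
      cases h7 : Nat.beq k k0 with
      | false => rfl
      | true =>
        have := Nat.eq_of_beq_eq_true h7
        omega
    have e2 : Nat.ble k 24 = false := by
      cases h5 : Nat.ble k 24 with
      | false => rfl
      | true =>
        have := Nat.le_of_ble_eq_true h5
        omega
    rw [e1, e2] at hc
    obtain ⟨c1, c2, c3⟩ := certN_spec (b := thr k) h1 h2 (by positivity) (ht k).1 h5
      (bd_gs (n := M) le_rfl h4 k).1 hS (by linarith) hc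
    exact NN_large hao ha (coeff_gs_base M (2 * s) k) c1 (pp_sub M Lam _) c2 (ht k).2 hbk c3
  · intro n a k ha hao hkk hbk
    obtain ⟨S, hS, hc⟩ := hsp k0 (Nat.zero_le _) (by omega)
    unfold chkB at hc
    rw [Nat.beq_refl k0] at hc
    obtain ⟨c1, c2, c3⟩ := certT_spec (b := b0) h1 h2 (by positivity) hb0 h5
      (bd_gs (n := M) le_rfl h4 k0).1 hS (by linarith) hc
    obtain ⟨d, rfl⟩ : ∃ d, k = k0 + d := ⟨k - k0, by omega⟩
    exact NN_large_tail hk hs hao ha (coeff_gs_base M (2 * s) k0) c1 (pp_sub M Lam _) c2 hb0e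
      hbk c3 d

/-! ### Loops -/

theorem many_spec {f : ℕ → Bool} (cnt : ℕ) : ∀ {n0 : ℕ}, many f cnt n0 = true →
    ∀ n, n0 ≤ n → n < n0 + cnt → f n = true := by
  induction cnt with
  | zero => intro n0 _ n h1 h2; omega
  | succ cnt ih =>
    intro n0 h n h1 h2
    have h' : (Bool.rec false (many f cnt (Nat.succ n0)) (f n0) : Bool) = true := h
    obtain ⟨h3, h4⟩ := boolrec_true h'
    rcases Nat.eq_or_lt_of_le h1 with rfl | h5
    · exact h3
    · exact ih h4 n h5 (by omega)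

end

end

end Pool.Agent.SignedQ.KC
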