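import Pool.Agent.Lib.MP_cf17a0_co.KC2

/-!
# Many factors at once

If `P ≥ 0` and `P (1 - 2 g) ≥ 0` modulo `q^M`, `g = Σ_{e ∈ E} q^e`, then
`P ∏_{e ∈ E} (1 - q^e) ≥ 0` modulo `q^M`.
-/

set_option autoImplicit false

namespace Pool.Agent.SignedQ.KC

open PowerSeries Finset

noncomputable section

/-- the coefficients below `M` are nonnegative -/
def NN (M : ℕ) (P : ℤ⟦X⟧) : Prop := ∀ i < M, 0 ≤ coeff i P

theorem NN.add {M : ℕ} {P Q : ℤ⟦X⟧} (hP : NN M P) (hQ : NN M Q) : NN M (P + Q) := by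
  intro i hi
  rw [map_add]
  exact add_nonneg (hP i hi) (hQ i hi)

theorem NN.mul {M : ℕ} {P Q : ℤ⟦X⟧} (hP : NN M P) (hQ : NN M Q) : NN M (P * Q) := by
  intro i hi
  rw [coeff_mul]
  refine sum_nonneg fun x hx => ?_
  have h := mem_antidiagonal.1 hx
  exact mul_nonneg (hP _ (by omega)) (hQ _ (by omega))

theorem NN.congr {M : ℕ} {P Q : ℤ⟦X⟧} (hP : NN M P) (h : ∀ i < M, coeff i P = coeff i Q) :
    NN M Q := fun i hi => by rw [← h i hi]; exact hP i hi

theorem NN_zero (M : ℕ) : NN M 0 := fun i _ => by simp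

theorem NN_one (M : ℕ) : NN M 1 := fun i _ => by
  rw [coeff_one]; split <;> norm_num

theorem NN_X_pow (M e : ℕ) : NN M (X ^ e : ℤ⟦X⟧) := fun i _ => by
  rw [coeff_X_pow]; split <;> norm_num

theorem NN.sum {M : ℕ} {ι : Type*} (s : Finset ι) (f : ι → ℤ⟦X⟧) (h : ∀ i ∈ s, NN M (f i)) :
    NN M (∑ i ∈ s, f i) := by
  classical
  induction s using Finset.induction_on with
  | empty => simpa using NN_zero M
  | insert a s ha ih =>
    rw [sum_insert ha]
    exact (h a (mem_insert_self a s)).add (ih fun i hi => h i (mem_insert_of_mem hi))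

theorem NN.prod {M : ℕ} {ι : Type*} (s : Finset ι) (f : ι → ℤ⟦X⟧) (h : ∀ i ∈ s, NN M (f i)) :
    NN M (∏ i ∈ s, f i) := by
  classical
  induction s using Finset.induction_on with
  | empty => simpa using NN_one M
  | insert a s ha ih =>
    rw [prod_insert ha]
    exact (h a (mem_insert_self a s)).mul (ih fun i hi => h i (mem_insert_of_mem hi))

/-- many factors at once -/
theorem NN_many {M : ℕ} {ι : Type*} (s : Finset ι) (e : ι → ℕ) {P : ℤ⟦X⟧} (hP : NN M P)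
    (h : NN M (P * (1 - 2 * ∑ i ∈ s, X ^ e i))) : NN M (P * ∏ i ∈ s, (1 - X ^ e i)) := by
  classical
  have key : NN M ((∏ i ∈ s, (1 + X ^ e i : ℤ⟦X⟧)) + (∏ i ∈ s, (1 - X ^ e i)) - 2) ∧
      NN M ((∏ i ∈ s, (1 + X ^ e i : ℤ⟦X⟧)) - ∏ i ∈ s, (1 - X ^ e i)) ∧
      NN M (1 - (1 - ∑ i ∈ s, X ^ e i) * ∏ i ∈ s, (1 + X ^ e i : ℤ⟦X⟧)) ∧
      NN M (∏ i ∈ s, (1 + X ^ e i : ℤ⟦X⟧)) ∧ NN M (∑ i ∈ s, X ^ e i : ℤ⟦X⟧) := by
    clear h
    induction s using Finset.induction_on with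
    | empty =>
      simp only [prod_empty, sum_empty, sub_self, sub_zero, mul_one]
      refine ⟨?_, NN_zero M, NN_zero M, NN_one M, NN_zero M⟩
      have : (1 : ℤ⟦X⟧) + 1 - 2 = 0 := by norm_num
      rw [this]
      exact NN_zero M
    | insert a s ha ih =>
      obtain ⟨h1, h2, h3, h4, h5⟩ := ih
      simp only [prod_insert ha, sum_insert ha]
      set U : ℤ⟦X⟧ := ∏ i ∈ s, (1 + X ^ e i) with hU
      set R : ℤ⟦X⟧ := ∏ i ∈ s, (1 - X ^ e i) with hR
      set g : ℤ⟦X⟧ := ∑ i ∈ s, X ^ e i with hg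
      have hx := NN_X_pow M (e a)
      have hUR : NN M (U + R) := by
        have h6 := h1.add ((NN_one M).add (NN_one M))
        refine h6.congr fun i _ => ?_
        congr 1
        ring
      refine ⟨?_, ?_, ?_, ?_, ?_⟩
      · refine (h1.add (hx.mul h2)).congr fun i _ => ?_
        congr 1
        ring
      · refine (h2.add (hx.mul hUR)).congr fun i _ => ?_
        congr 1
        ring
      · refine (h3.add ((hx.mul (h5.add hx)).mul h4)).congr fun i _ => ?_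
        congr 1
        ring
      · exact ((NN_one M).add hx).mul h4
      · exact hx.add h5
  obtain ⟨h1, -, h3, h4, -⟩ := key
  set U : ℤ⟦X⟧ := ∏ i ∈ s, (1 + X ^ e i) with hU
  set R : ℤ⟦X⟧ := ∏ i ∈ s, (1 - X ^ e i) with hR
  set g : ℤ⟦X⟧ := ∑ i ∈ s, X ^ e i with hg
  have h6 := ((h.mul h4).add ((hP.mul h3).add (hP.mul h3))).add (hP.mul h1)
  refine h6.congr fun i _ => ?_
  congr 1
  ring

/-- shift by an even amount -/
theorem NN_shift {M b b' : ℕ} {P : ℤ⟦X⟧} (hP : NN M (P * (1 - X ^ 2))) (hb : b ≤ b')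
    (hp : b % 2 = b' % 2) : NN M (P * (X ^ b - X ^ b')) := by
  obtain ⟨t, rfl⟩ : ∃ t, b' = b + 2 * t := ⟨(b' - b) / 2, by omega⟩
  have h1 : NN M ((P * (1 - X ^ 2)) * (X ^ b * ∑ i ∈ range t, (X ^ 2) ^ i)) := by
    refine hP.mul ((NN_X_pow M b).mul (NN.sum _ _ fun i _ => ?_))
    rw [← pow_mul]
    exact NN_X_pow M _
  refine h1.congr fun i _ => ?_
  congr 1
  have h2 : (∑ i ∈ range t, ((X : ℤ⟦X⟧) ^ 2) ^ i) * (1 - X ^ 2) = 1 - X ^ (2 * t) := by
    have := geom_sum_mul ((X : ℤ⟦X⟧) ^ 2) t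
    rw [← pow_mul] at this
    linear_combination -this
  rw [pow_add]
  linear_combination (P * X ^ b) * h2

/-- `1/(1 - q^d)` as a nonnegative series, `d` even -/
theorem NN_gi {M d : ℕ} (hd : 1 ≤ d) (he : d % 2 = 0) : NN M (gi d) := by
  have hg := gi_mul hd
  rw [neg_pow_even' he] at hg
  have e : gi d = 1 + X ^ d * gi d := by linear_combination hg
  intro i
  induction i using Nat.strong_induction_on with
  | _ i ih =>
    intro hi
    rw [e, map_add, mul_comm, coeff_mul_X_pow']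
    have h1 : (0 : ℤ) ≤ coeff i (1 : ℤ⟦X⟧) := NN_one M i hi
    split
    · exact add_nonneg h1 (ih _ (by omega) (by omega))
    · linarith

/-- an arithmetic progression of exponents is dominated by `q^b/(1 - q^d)` -/
theorem NN_prog {M b d : ℕ} {P : ℤ⟦X⟧} (hd : 1 ≤ d) (hde : d % 2 = 0)
    (hP0 : NN M P) (hP : NN M (P * (1 - X ^ 2)))
    (t : ℕ) (e : ℕ → ℕ) (he : ∀ i < t, b + d * i ≤ e i) (hp : ∀ i < t, e i % 2 = b % 2) :
    NN M (P * (X ^ b * gi d - ∑ i ∈ range t, X ^ e i)) := by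
  have hg := gi_mul hd
  rw [neg_pow_even' hde] at hg
  have h1 : NN M (∑ i ∈ range t, P * (X ^ (b + d * i) - X ^ e i)) := by
    refine NN.sum _ _ fun i hi => ?_
    have hi := mem_range.1 hi
    refine NN_shift hP (he i hi) ?_
    rw [hp i hi]
    obtain ⟨d', rfl⟩ : ∃ d', d = 2 * d' := ⟨d / 2, by omega⟩
    rw [mul_assoc]; omega
  have h2 : NN M (P * (X ^ (b + d * t) * gi d)) :=
    hP0.mul ((NN_X_pow M _).mul (NN_gi hd hde))
  refine (h1.add h2).congr fun i _ => ?_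
  congr 1
  have h3 : (∑ i ∈ range t, ((X : ℤ⟦X⟧) ^ d) ^ i) * (1 - X ^ d) = 1 - X ^ (d * t) := by
    have := geom_sum_mul ((X : ℤ⟦X⟧) ^ d) t
    rw [← pow_mul] at this
    linear_combination -this
  have h4 : (∑ i ∈ range t, ((X : ℤ⟦X⟧) ^ d) ^ i) = (1 - X ^ (d * t)) * gi d := by
    rw [← h3, mul_assoc, hg, mul_one]
  have h5 : ∑ i ∈ range t, P * (X ^ (b + d * i) - X ^ e i) =
      P * (X ^ b * ∑ i ∈ range t, ((X : ℤ⟦X⟧) ^ d) ^ i) - P * ∑ i ∈ range t, X ^ e i := by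
    rw [← mul_sub, mul_sum, ← sum_sub_distrib, mul_sum]
    refine sum_congr rfl fun i _ => ?_
    rw [pow_add, pow_mul]
  rw [h5, h4, pow_add]
  ring

end

end Pool.Agent.SignedQ.KC
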