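import Pool.Agent.Lib.MP_cf17a0_co.QB

/-!
# The domino recursion (O'Hara, Zeilberger) for Gaussian binomials

`F x M L a k` is the generating function of the sequences `c_1, …, c_L` of natural numbers with
`c_0 = a`, `c_L = 0`, all sums `c_i + c_{i+1} ≤ M` and `∑_{i ≥ 1} c_i = k`, with weight
`x ^ ∑ (i - 1) c_i`.
-/

set_option autoImplicit false

namespace Pool.Agent.SignedQ.Koh

open Finset

variable {R : Type*} [CommRing R]

/-- the Gaussian binomial coefficient `[n + k choose k]_x` -/
def G (x : R) (n k : ℕ) : R := qb x (n + k) k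

theorem G_zero_right (x : R) (n : ℕ) : G x n 0 = 1 := qb_zero_right x _

theorem G_zero_left (x : R) (k : ℕ) : G x 0 k = 1 := by
  unfold G
  rw [zero_add, qb_self]

theorem G_succ (x : R) (n k : ℕ) :
    G x (n + 1) (k + 1) = G x (n + 1) k + x ^ (k + 1) * G x n (k + 1) := by
  unfold G
  rw [show n + 1 + (k + 1) = (n + 1 + k) + 1 by ring, qb_succ,
    show n + (k + 1) = n + 1 + k by ring]

/-- sequences, see above -/
def F (x : R) (M : ℕ) : ℕ → ℕ → ℕ → R
  | 0, a, k => if a = 0 ∧ k = 0 then 1 else 0
  | (L + 1), a, k => ∑ b ∈ range (k + 1), if a + b ≤ M then x ^ (k - b) * F x M L b (k - b) else 0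

/-- sequences with a weaker condition at the first place -/
def T (x : R) (N : ℕ) : ℕ → ℕ → ℕ → R
  | 0, a, k => if a = 0 ∧ k = 0 then 1 else 0
  | (L + 1), a, k =>
    ∑ b ∈ range (k + 1), if a + b ≤ N + 1 then x ^ (k - b) * F x N L b (k - b) else 0

/-- the difference -/
def E (x : R) (N : ℕ) : ℕ → ℕ → ℕ → R
  | 0, _, _ => 0
  | (L + 1), a, k => if a ≤ N + 1 ∧ N + 1 - a ≤ k then
      x ^ (k - (N + 1 - a)) * F x N L (N + 1 - a) (k - (N + 1 - a)) else 0

theorem F_vanish (x : R) (M : ℕ) : ∀ L a k : ℕ, L * M < a + 2 * k → F x M L a k = 0 := by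
  intro L
  induction L with
  | zero =>
    intro a k h
    rw [F, if_neg]
    rintro ⟨rfl, rfl⟩
    simp at h
  | succ L ih =>
    intro a k h
    rw [F]
    refine sum_eq_zero fun b hb => ?_
    rw [mem_range] at hb
    split_ifs with h1
    · rw [ih b (k - b) (by
        rw [Nat.succ_mul] at h
        omega), mul_zero]
    · rfl

theorem T_eq (x : R) (N L a k : ℕ) : T x N L a k = F x N L a k + E x N L a k := by
  cases L with
  | zero => simp [T, F, E]
  | succ L =>
    rw [T, F, E]
    have h1 : ∀ b ∈ range (k + 1), (if a + b ≤ N + 1 then x ^ (k - b) * F x N L b (k - b) else 0) =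
        (if a + b ≤ N then x ^ (k - b) * F x N L b (k - b) else 0) +
        (if a + b = N + 1 then x ^ (k - b) * F x N L b (k - b) else 0) := by
      intro b _
      rcases lt_trichotomy (a + b) (N + 1) with h | h | h
      · rw [if_pos h.le, if_pos (by omega), if_neg (by omega), add_zero]
      · rw [if_pos h.le, if_neg (by omega), if_pos h, zero_add]
      · rw [if_neg (by omega), if_neg (by omega), if_neg (by omega), zero_add]
    rw [sum_congr rfl h1, sum_add_distrib]
    congr 1
    split_ifs with h2
    · rw [sum_eq_single (N + 1 - a)]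
      · rw [if_pos (by omega)]
      · intro b _ hb
        rw [if_neg (by omega)]
      · intro hb
        rw [mem_range] at hb
        omega
    · refine sum_eq_zero fun b hb => ?_
      rw [mem_range] at hb
      rw [if_neg]
      intro h3
      apply h2
      omega

/-- telescoping of the Pascal recursion -/
theorem G_tele (x : R) (P m : ℕ) : ∀ t : ℕ, G x (P + t) (m + 1) =
    x ^ (t * (m + 1)) * G x P (m + 1) + ∑ s ∈ range t, x ^ (s * (m + 1)) * G x (P + t - s) m := by
  intro t
  induction t with
  | zero => simp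
  | succ t ih =>
    rw [show P + (t + 1) = (P + t) + 1 by ring, G_succ, ih, sum_range_succ']
    have h1 : ∀ s ∈ range t, x ^ ((s + 1) * (m + 1)) * G x (P + t + 1 - (s + 1)) m =
        x ^ (m + 1) * (x ^ (s * (m + 1)) * G x (P + t - s) m) := by
      intro s _
      rw [show P + t + 1 - (s + 1) = P + t - s by omega, show (s + 1) * (m + 1) =
        (m + 1) + s * (m + 1) by ring, pow_add]
      ring
    rw [sum_congr rfl h1, ← mul_sum, Nat.sub_zero, Nat.zero_mul, pow_zero, one_mul,
      show (t + 1) * (m + 1) = (m + 1) + t * (m + 1) by ring, pow_add]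
    ring

end Pool.Agent.SignedQ.Koh
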