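import Pool.Agent.Lib.MP_cf17a0_co.KohA

/-!
# The domino recursion, proof
-/

set_option autoImplicit false

namespace Pool.Agent.SignedQ.Koh

open Finset

variable {R : Type*} [CommRing R]

theorem key (x : R) (N L3 m k a c : ℕ) (hc : c ≤ k) (hac : a + c ≤ N + 1) :
    F x N L3 c (k - c) * (x ^ (a * (m + 1)) *
      G x ((2 * (m + 1) + L3 + 1) * (N + 1) - a - 2 * ((N + 1) * (m + 1) + k)) (m + 1)) =
    F x N L3 c (k - c) * (x ^ ((N + 1 - c) * (m + 1)) *
      G x ((2 * (m + 1) + L3) * (N + 1) - c - 2 * ((N + 1) * (m + 1) + k - c)) (m + 1) +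
      ∑ b ∈ range (N + 1), if a ≤ b ∧ b + c ≤ N then x ^ (b * (m + 1)) *
        G x ((2 * (m + 1) + L3 + 1) * (N + 1) - b - 2 * ((N + 1) * (m + 1) + k)) m else 0) := by
  by_cases hF : L3 * N < c + 2 * (k - c)
  · rw [F_vanish x N L3 c (k - c) hF, zero_mul, zero_mul]
  have e1 : (2 * (m + 1) + L3) * (N + 1) = 2 * ((N + 1) * (m + 1)) + L3 * N + L3 := by ring
  have e2 : (2 * (m + 1) + L3 + 1) * (N + 1) =
      2 * ((N + 1) * (m + 1)) + L3 * N + L3 + (N + 1) := by ring
  rw [e1, e2]
  set X := (N + 1) * (m + 1) with hX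
  set Y := L3 * N with hY
  set P := Y + L3 + c - 2 * k with hP
  set t := N + 1 - c - a with ht
  have e3 : 2 * X + Y + L3 - c - 2 * (X + k - c) = P := by omega
  have e4 : 2 * X + Y + L3 + (N + 1) - a - 2 * (X + k) = P + t := by omega
  rw [e3, e4, ← sum_filter]
  have e5 : (range (N + 1)).filter (fun b => a ≤ b ∧ b + c ≤ N) = Ico a (N + 1 - c) := by
    ext b
    simp only [mem_filter, mem_range, mem_Ico]
    omega
  rw [e5, sum_Ico_eq_sum_range]
  have e6 : ∀ s ∈ range (N + 1 - c - a), x ^ ((a + s) * (m + 1)) *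
      G x (2 * X + Y + L3 + (N + 1) - (a + s) - 2 * (X + k)) m =
      x ^ (a * (m + 1)) * (x ^ (s * (m + 1)) * G x (P + t - s) m) := by
    intro s hs
    rw [mem_range] at hs
    rw [show 2 * X + Y + L3 + (N + 1) - (a + s) - 2 * (X + k) = P + t - s by omega,
      Nat.add_mul, pow_add]
    ring
  rw [sum_congr rfl e6, ← mul_sum, G_tele x P m t]
  have e7 : (N + 1 - c) * (m + 1) = a * (m + 1) + t * (m + 1) := by
    rw [← Nat.add_mul]
    congr 1
    omega
  rw [e7, pow_add]
  ring

/-- the summand of the recursion, with a general last factor -/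
def W (x : R) (N : ℕ) (H : ℕ → ℕ → ℕ → R) (L a k m : ℕ) : R :=
  if 2 * m ≤ L ∧ (N + 1) * m ≤ k then
    x ^ ((N + 1) * (m * (m - 1)) + a * m + 2 * m * (k - (N + 1) * m)) *
      G x (L * (N + 1) - a - 2 * k) m * H (L - 2 * m) a (k - (N + 1) * m) else 0

theorem W_add (x : R) (N : ℕ) (L a k m : ℕ) :
    W x N (T x N) L a k m = W x N (F x N) L a k m + W x N (E x N) L a k m := by
  unfold W
  split_ifs
  · rw [T_eq, mul_add]
  · rw [add_zero]

theorem W_zero (x : R) (N L a k : ℕ) : W x N (T x N) (L + 1) a k 0 =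
    ∑ b ∈ range (k + 1), if a + b ≤ N + 1 then x ^ (k - b) * W x N (F x N) L b (k - b) 0 else 0 := by
  simp [W, G_zero_right, T]

theorem W_succ_A (x : R) (N L3 m k a : ℕ) :
    ∑ b ∈ range ((N + 1) * (m + 1) + k + 1), (if a + b ≤ N + 1 then
      x ^ ((N + 1) * (m + 1) + k - b) * W x N (F x N) (2 * (m + 1) + L3) b
        ((N + 1) * (m + 1) + k - b) (m + 1) else 0) =
    ∑ c ∈ range (k + 1), if a + c ≤ N + 1 then
      x ^ ((N + 1) * ((m + 1) * m) + 2 * (m + 1) * k) * x ^ (k - c) * (F x N L3 c (k - c) *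
      (x ^ ((N + 1 - c) * (m + 1)) *
      G x ((2 * (m + 1) + L3) * (N + 1) - c - 2 * ((N + 1) * (m + 1) + k - c)) (m + 1))) else 0 := by
  set X := (N + 1) * (m + 1) with hX
  have hsub : range (k + 1) ⊆ range (X + k + 1) := range_subset_range.2 (by omega)
  rw [← sum_subset hsub]
  · refine sum_congr rfl fun c hc => ?_
    rw [mem_range] at hc
    split_ifs with h
    · unfold W
      rw [if_pos (by constructor <;> omega), ← hX,
        show X + k - c - X = k - c by omega, show 2 * (m + 1) + L3 - 2 * (m + 1) = L3 by omega,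
        show m + 1 - 1 = m by omega]
      have e1 : x ^ (X + k - c) * x ^ ((N + 1) * ((m + 1) * m) + c * (m + 1) +
          2 * (m + 1) * (k - c)) = x ^ ((N + 1) * ((m + 1) * m) + 2 * (m + 1) * k) *
          x ^ (k - c) * x ^ ((N + 1 - c) * (m + 1)) := by
        rw [← pow_add, ← pow_add, ← pow_add]
        congr 1
        obtain ⟨d, rfl⟩ := Nat.exists_eq_add_of_le (show c ≤ k by omega)
        obtain ⟨n', hn'⟩ := Nat.exists_eq_add_of_le (show c ≤ N + 1 by omega)
        rw [hX, hn', show c + n' - c = n' by omega, show c + d - c = d by omega,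
          show (c + n') * (m + 1) + (c + d) - c = (c + n') * (m + 1) + d by omega]
        ring
      linear_combination (G x ((2 * (m + 1) + L3) * (N + 1) - c - 2 * (X + k - c)) (m + 1) *
        F x N L3 c (k - c)) * e1
    · rfl
  · intro b hb hb'
    rw [mem_range] at hb hb'
    split_ifs
    · unfold W
      rw [if_neg, mul_zero]
      rintro ⟨-, h2⟩
      omega
    · rfl

theorem W_succ_A' (x : R) (N m k a : ℕ) :
    ∑ b ∈ range (k + 1), (if a + b ≤ N + 1 then
      x ^ (k - b) * W x N (F x N) (2 * m + 1) b (k - b) (m + 1) else 0) = 0 := by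
  refine sum_eq_zero fun b _ => ?_
  split_ifs
  · unfold W
    rw [if_neg (by omega), mul_zero]
  · rfl

theorem W_succ_B (x : R) (N L2 m k a : ℕ) :
    ∑ b ∈ range ((N + 1) * (m + 1) + k + 1), (if a + b ≤ N + 1 then
      x ^ ((N + 1) * (m + 1) + k - b) * W x N (E x N) (2 * m + 1 + L2) b
        ((N + 1) * (m + 1) + k - b) m else 0) =
    ∑ b ∈ range (N + 1), if a ≤ b then
      x ^ ((N + 1) * ((m + 1) * m) + 2 * (m + 1) * k) * (x ^ (b * (m + 1)) *
      G x ((2 * (m + 1) + L2) * (N + 1) - b - 2 * ((N + 1) * (m + 1) + k)) m *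
        F x N L2 b k) else 0 := by
  set X := (N + 1) * (m + 1) with hX
  have hX1 : X = (N + 1) * m + (N + 1) := by rw [hX]; ring
  have hF0 : F x N L2 (N + 1) k = 0 := by
    cases L2 with
    | zero => rw [F, if_neg (by omega)]
    | succ L2 =>
      rw [F]
      refine sum_eq_zero fun b _ => ?_
      rw [if_neg (by omega)]
  have h1 : ∑ b ∈ range (N + 1), (if a ≤ b then
      x ^ ((N + 1) * ((m + 1) * m) + 2 * (m + 1) * k) * (x ^ (b * (m + 1)) *
      G x ((2 * (m + 1) + L2) * (N + 1) - b - 2 * (X + k)) m *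
        F x N L2 b k) else 0) = ∑ b ∈ range (N + 1 + 1), (if a ≤ b then
      x ^ ((N + 1) * ((m + 1) * m) + 2 * (m + 1) * k) * (x ^ (b * (m + 1)) *
      G x ((2 * (m + 1) + L2) * (N + 1) - b - 2 * (X + k)) m *
        F x N L2 b k) else 0) := by
    rw [sum_range_succ _ (N + 1), hF0]
    simp
  rw [h1, ← sum_range_reflect _ (N + 1 + 1)]
  have hsub : range (N + 1 + 1) ⊆ range (X + k + 1) := range_subset_range.2 (by
    rw [hX1]
    omega)
  rw [← sum_subset hsub]
  · refine sum_congr rfl fun b hb => ?_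
    rw [mem_range] at hb
    obtain ⟨b', hb'⟩ : ∃ b', N + 1 = b + b' := Nat.exists_eq_add_of_le (by omega)
    rw [show N + 1 + 1 - 1 - b = b' by omega]
    by_cases h : a ≤ b'
    · rw [if_pos (by omega), if_pos h]
      have hk : X + k - b = (N + 1) * m + k + b' := by omega
      unfold W
      rw [hk, if_pos (by constructor <;> omega),
        show (N + 1) * m + k + b' - (N + 1) * m = k + b' by omega,
        show 2 * m + 1 + L2 - 2 * m = L2 + 1 by omega, E,
        show N + 1 - b = b' by omega, if_pos (by omega), show k + b' - b' = k by omega]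
      have hG : (2 * m + 1 + L2) * (N + 1) - b - 2 * ((N + 1) * m + k + b') =
          (2 * (m + 1) + L2) * (N + 1) - b' - 2 * (X + k) := by
        have e3 : (2 * (m + 1) + L2) * (N + 1) = (2 * m + 1 + L2) * (N + 1) + (N + 1) := by ring
        rw [e3]
        omega
      rw [hG]
      have e1 : x ^ ((N + 1) * m + k + b') * x ^ ((N + 1) * (m * (m - 1)) + b * m +
          2 * m * (k + b')) * x ^ k = x ^ ((N + 1) * ((m + 1) * m) + 2 * (m + 1) * k) *
          x ^ (b' * (m + 1)) := by
        rw [← pow_add, ← pow_add, ← pow_add]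
        congr 1
        rw [hb']
        cases m with
        | zero => ring
        | succ m =>
          rw [show m + 1 - 1 = m by omega]
          ring
      linear_combination (G x ((2 * (m + 1) + L2) * (N + 1) - b' - 2 * (X + k)) m *
        F x N L2 b' k) * e1
    · rw [if_neg (by omega), if_neg h]
  · intro b hb hb'
    rw [mem_range] at hb hb'
    rw [if_neg (by omega)]

theorem W_succ (x : R) (N L a k m : ℕ) : W x N (T x N) (L + 1) a k (m + 1) =
    (∑ b ∈ range (k + 1), if a + b ≤ N + 1 then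
      x ^ (k - b) * W x N (F x N) L b (k - b) (m + 1) else 0) +
    (∑ b ∈ range (k + 1), if a + b ≤ N + 1 then
      x ^ (k - b) * W x N (E x N) L b (k - b) m else 0) := by
  by_cases hk : (N + 1) * (m + 1) ≤ k
  swap
  · have hX1 : (N + 1) * (m + 1) = (N + 1) * m + (N + 1) := by ring
    rw [hX1] at hk
    have h1 : W x N (T x N) (L + 1) a k (m + 1) = 0 := by
      unfold W
      rw [if_neg (by rw [hX1]; omega)]
    have h2 : ∀ b, W x N (F x N) L b (k - b) (m + 1) = 0 := by
      intro b
      unfold W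
      rw [if_neg (by rw [hX1]; omega)]
    have h3 : ∀ b ∈ range (k + 1), (if a + b ≤ N + 1 then
        x ^ (k - b) * W x N (E x N) L b (k - b) m else 0) = 0 := by
      intro b hb
      rw [mem_range] at hb
      have h4 : W x N (E x N) L b (k - b) m = 0 := by
        unfold W
        split_ifs with h
        · cases hL : L - 2 * m with
          | zero => rw [E, mul_zero]
          | succ L' =>
            rw [E, if_neg (by omega), mul_zero]
        · rfl
      rw [h4, mul_zero, ite_self]
    rw [h1, sum_eq_zero h3]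
    simp [h2]
  obtain ⟨k', rfl⟩ := Nat.exists_eq_add_of_le hk
  by_cases hL : 2 * (m + 1) ≤ L + 1
  swap
  · have h1 : W x N (T x N) (L + 1) a ((N + 1) * (m + 1) + k') (m + 1) = 0 := by
      unfold W
      rw [if_neg (by omega)]
    have h2 : ∀ b k, W x N (F x N) L b k (m + 1) = 0 := by
      intro b k
      unfold W
      rw [if_neg (by omega)]
    have h3 : ∀ b k, W x N (E x N) L b k m = 0 := by
      intro b k
      unfold W
      split_ifs with h
      · rw [show L - 2 * m = 0 by omega, E, mul_zero]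
      · rfl
    rw [h1]
    simp [h2, h3]
  obtain ⟨L2, rfl⟩ : ∃ L2, L = 2 * m + 1 + L2 := ⟨L - (2 * m + 1), by omega⟩
  rw [W_succ_B]
  have hW : W x N (T x N) (2 * m + 1 + L2 + 1) a ((N + 1) * (m + 1) + k') (m + 1) =
      x ^ ((N + 1) * ((m + 1) * m) + a * (m + 1) + 2 * (m + 1) * k') *
      G x ((2 * (m + 1) + L2) * (N + 1) - a - 2 * ((N + 1) * (m + 1) + k')) (m + 1) *
        T x N L2 a k' := by
    unfold W
    rw [if_pos (by omega), show m + 1 - 1 = m by omega,
      show (N + 1) * (m + 1) + k' - (N + 1) * (m + 1) = k' by omega,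
      show 2 * m + 1 + L2 + 1 = 2 * (m + 1) + L2 by ring,
      show 2 * (m + 1) + L2 - 2 * (m + 1) = L2 by omega]
  rw [hW]
  cases L2 with
  | zero =>
    rw [add_zero, add_zero, W_succ_A', zero_add, T]
    simp only [F]
    by_cases h0 : a = 0 ∧ k' = 0
    · obtain ⟨rfl, rfl⟩ := h0
      rw [sum_eq_single 0]
      · have : 2 * (m + 1) * (N + 1) - 0 - 2 * ((N + 1) * (m + 1) + 0) = 0 := by
          have : 2 * (m + 1) * (N + 1) = 2 * ((N + 1) * (m + 1)) := by ring
          omega
        rw [this, G_zero_left, G_zero_left]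
        simp
      · intro b _ hb
        rw [if_neg (show ¬ (b = 0 ∧ (0 : ℕ) = 0) by omega)]
        simp
      · intro h
        simp at h
    · rw [if_neg h0, mul_zero]
      symm
      refine sum_eq_zero fun b _ => ?_
      split_ifs with h1 h2
      · exfalso
        apply h0
        omega
      · rw [mul_zero, mul_zero]
      · rfl
  | succ L3 =>
    have hA := W_succ_A x N L3 m k' a
    rw [show 2 * (m + 1) + L3 = 2 * m + 1 + (L3 + 1) by ring] at hA
    rw [hA, T]
    simp only [F]
    -- exchange sums in the last term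
    have hB : ∑ b ∈ range (N + 1), (if a ≤ b then
        x ^ ((N + 1) * ((m + 1) * m) + 2 * (m + 1) * k') * (x ^ (b * (m + 1)) *
        G x ((2 * (m + 1) + (L3 + 1)) * (N + 1) - b - 2 * ((N + 1) * (m + 1) + k')) m *
        ∑ c ∈ range (k' + 1), if b + c ≤ N then x ^ (k' - c) * F x N L3 c (k' - c) else 0) else 0) =
        ∑ c ∈ range (k' + 1), x ^ ((N + 1) * ((m + 1) * m) + 2 * (m + 1) * k') * x ^ (k' - c) *
        (F x N L3 c (k' - c) * ∑ b ∈ range (N + 1), if a ≤ b ∧ b + c ≤ N then x ^ (b * (m + 1)) *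
        G x ((2 * (m + 1) + L3 + 1) * (N + 1) - b - 2 * ((N + 1) * (m + 1) + k')) m else 0) := by
      have h1 : ∀ b ∈ range (N + 1), (if a ≤ b then
        x ^ ((N + 1) * ((m + 1) * m) + 2 * (m + 1) * k') * (x ^ (b * (m + 1)) *
        G x ((2 * (m + 1) + (L3 + 1)) * (N + 1) - b - 2 * ((N + 1) * (m + 1) + k')) m *
        ∑ c ∈ range (k' + 1), if b + c ≤ N then x ^ (k' - c) * F x N L3 c (k' - c) else 0)
          else 0) =
        ∑ c ∈ range (k' + 1), if a ≤ b ∧ b + c ≤ N then
          x ^ ((N + 1) * ((m + 1) * m) + 2 * (m + 1) * k') * x ^ (k' - c) *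
        (F x N L3 c (k' - c) * (x ^ (b * (m + 1)) *
        G x ((2 * (m + 1) + L3 + 1) * (N + 1) - b - 2 * ((N + 1) * (m + 1) + k')) m)) else 0 := by
        intro b _
        rw [show 2 * (m + 1) + (L3 + 1) = 2 * (m + 1) + L3 + 1 by ring]
        by_cases hab : a ≤ b
        · rw [if_pos hab, mul_sum, mul_sum]
          refine sum_congr rfl fun c _ => ?_
          by_cases hbc : b + c ≤ N
          · rw [if_pos hbc, if_pos ⟨hab, hbc⟩]
            ring
          · rw [if_neg hbc, if_neg (fun h => hbc h.2), mul_zero, mul_zero]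
        · rw [if_neg hab]
          symm
          refine sum_eq_zero fun c _ => ?_
          rw [if_neg (fun h => hab h.1)]
      rw [sum_congr rfl h1, sum_comm]
      refine sum_congr rfl fun c _ => ?_
      rw [mul_sum, mul_sum]
      refine sum_congr rfl fun b _ => ?_
      split_ifs
      · rfl
      · rw [mul_zero, mul_zero]
    rw [hB, ← sum_add_distrib, mul_sum]
    refine sum_congr rfl fun c hc => ?_
    rw [mem_range] at hc
    by_cases hac : a + c ≤ N + 1
    · rw [if_pos hac, if_pos hac]
      have hk := key x N L3 m k' a c (by omega) hac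
      have e1 : x ^ ((N + 1) * ((m + 1) * m) + a * (m + 1) + 2 * (m + 1) * k') =
          x ^ ((N + 1) * ((m + 1) * m) + 2 * (m + 1) * k') * x ^ (a * (m + 1)) := by
        rw [← pow_add]
        congr 1
        ring
      rw [e1, show 2 * (m + 1) + (L3 + 1) = 2 * (m + 1) + L3 + 1 by ring]
      have e2 : 2 * m + 1 + (L3 + 1) = 2 * (m + 1) + L3 := by ring
      rw [e2]
      linear_combination (x ^ ((N + 1) * ((m + 1) * m) + 2 * (m + 1) * k') * x ^ (k' - c)) * hk
    · rw [if_neg hac, if_neg hac, mul_zero, zero_add]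
      symm
      rw [sum_eq_zero, mul_zero, mul_zero]
      intro b _
      rw [if_neg]
      omega

/-- The domino recursion. -/
theorem domino (x : R) (N : ℕ) : ∀ L a k : ℕ,
    F x (N + 1) L a k = ∑ m ∈ range (L + 1), W x N (T x N) L a k m := by
  intro L
  induction L with
  | zero =>
    intro a k
    simp [W, F, T, G_zero_right]
  | succ L ih =>
    intro a k
    rw [F, sum_range_succ' _ (L + 1), W_zero, sum_congr rfl fun m _ => W_succ x N L a k m,
      sum_add_distrib]
    have h1 : ∀ b ∈ range (k + 1), (if a + b ≤ N + 1 then x ^ (k - b) * F x (N + 1) L b (k - b)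
        else 0) = (∑ m ∈ range (L + 1), if a + b ≤ N + 1 then
          x ^ (k - b) * W x N (F x N) L b (k - b) (m + 1) else 0) +
        (∑ m ∈ range (L + 1), if a + b ≤ N + 1 then
          x ^ (k - b) * W x N (E x N) L b (k - b) m else 0) +
        if a + b ≤ N + 1 then x ^ (k - b) * W x N (F x N) L b (k - b) 0 else 0 := by
      intro b _
      by_cases h : a + b ≤ N + 1
      · simp only [if_pos h]
        rw [ih b (k - b), sum_congr rfl fun m _ => W_add x N L b (k - b) m, sum_add_distrib,
          ← mul_sum, ← mul_sum]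
        have h2 : ∑ m ∈ range (L + 1), W x N (F x N) L b (k - b) m =
            ∑ m ∈ range (L + 1), W x N (F x N) L b (k - b) (m + 1) +
            W x N (F x N) L b (k - b) 0 := by
          rw [← sum_range_succ', sum_range_succ _ (L + 1)]
          have h3 : W x N (F x N) L b (k - b) (L + 1) = 0 := by
            unfold W
            rw [if_neg (by omega)]
          rw [h3, add_zero]
        rw [h2]
        ring
      · simp [if_neg h]
    rw [sum_congr rfl h1, sum_add_distrib, sum_add_distrib, sum_comm,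
      sum_comm (s := range (k + 1)) (t := range (L + 1))
        (f := fun b m => if a + b ≤ N + 1 then x ^ (k - b) * W x N (E x N) L b (k - b) m else 0)]

end Pool.Agent.SignedQ.Koh
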