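import Pool.Agent.Lib.MP_cf17a0_co.KohB
import Pool.Agent.Lib.MP_cf17a0_co.Final

/-!
# The theorem of Stanton and Zeilberger

`(1 + q)^⌈k/2⌉ [n + k choose k]_{-q}` has nonnegative coefficients if `n k` is even.
-/

set_option autoImplicit false

namespace Pool.Agent.SignedQ.Koh

open Finset

section

variable {R : Type*} [CommRing R]

theorem F_too_large (x : R) (M L a k : ℕ) (h : M < a) : F x M L a k = 0 := by
  cases L with
  | zero =>
    rw [F, if_neg]
    omega
  | succ L =>
    rw [F]
    refine sum_eq_zero fun b _ => ?_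
    rw [if_neg]
    omega

theorem T_zero (x : R) (N L k : ℕ) : T x N L 0 k = F x N L 0 k := by
  rw [T_eq]
  cases L with
  | zero => rw [E, add_zero]
  | succ L =>
    rw [E, Nat.sub_zero, F_too_large x N L (N + 1) _ (by omega), mul_zero, ite_self, add_zero]

theorem F_level_zero (x : R) : ∀ L k : ℕ, F x 0 L 0 k = if k = 0 then 1 else 0 := by
  intro L
  induction L with
  | zero => intro k; simp [F]
  | succ L ih =>
    intro k
    rw [F, sum_eq_single 0]
    · rw [if_pos (by omega), Nat.sub_zero, ih]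
      by_cases hk : k = 0
      · subst hk
        simp
      · simp [hk]
    · intro b _ hb
      rw [if_neg (by omega)]
    · intro h
      exact absurd (mem_range.2 (Nat.succ_pos k)) h

theorem G_sum (x : R) (n : ℕ) : ∀ k : ℕ,
    G x (n + 1) k = ∑ b ∈ range (k + 1), x ^ b * G x n b := by
  intro k
  induction k with
  | zero => simp [G_zero_right]
  | succ k ih => rw [sum_range_succ, ← ih, G_succ]

theorem G_sum' (x : R) (n k : ℕ) :
    G x (n + 1) k = ∑ b ∈ range (k + 1), x ^ (k - b) * G x n (k - b) := by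
  rw [G_sum, ← sum_range_reflect]
  refine sum_congr rfl fun b _ => ?_
  rw [show k + 1 - 1 - b = k - b by omega]

theorem F_one (x : R) (M a k : ℕ) (h : a ≤ M) : F x M 1 a k = if k = 0 then 1 else 0 := by
  rw [F]
  rw [sum_eq_single 0]
  · rw [if_pos (by omega), Nat.sub_zero, F]
    by_cases hk : k = 0
    · subst hk
      simp
    · simp [hk]
  · intro b _ hb
    have h0 : F x M 0 b (k - b) = 0 := by
      rw [F, if_neg (fun h => hb h.1)]
    rw [h0, mul_zero, ite_self]
  · intro h
    exact absurd (mem_range.2 (Nat.succ_pos k)) h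

theorem F_eq_G (x : R) (M : ℕ) : ∀ L a k : ℕ, a + k ≤ M → F x M (L + 2) a k = G x L k := by
  intro L
  induction L with
  | zero =>
    intro a k h
    rw [F, sum_eq_single k]
    · rw [if_pos h, Nat.sub_self, F_one x M k 0 (by omega), G_zero_left]
      simp
    · intro b hb hbk
      rw [mem_range] at hb
      have h0 : F x M 1 b (k - b) = 0 := by
        rw [F_one x M b (k - b) (by omega), if_neg (by omega)]
      rw [h0, mul_zero, ite_self]
    · intro h
      exact absurd (mem_range.2 (Nat.lt_succ_self k)) h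
  | succ L ih =>
    intro a k h
    rw [F, G_sum']
    refine sum_congr rfl fun b hb => ?_
    rw [mem_range] at hb
    rw [if_pos (by omega), ih b (k - b) (by omega)]

theorem G_one_right (x : R) : ∀ n : ℕ, G x n 1 = ∑ i ∈ range (n + 1), x ^ i := by
  intro n
  induction n with
  | zero => simp [G_zero_left]
  | succ n ih =>
    rw [G_succ, G_zero_right, ih, sum_range_succ' _ (n + 1), mul_sum]
    simp only [pow_succ, pow_zero, zero_add]
    rw [add_comm, one_mul]
    congr 1
    exact sum_congr rfl fun i _ => mul_comm _ _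

end

open PowerSeries

/-- positivity of the signed Gaussian binomial, with a small power of `1 + q` -/
def Pos (N m : ℕ) : Prop :=
  NN ((1 + X : PowerSeries ℚ) ^ (min (N / 2) ((m + 1) / 2)) * G (-X : PowerSeries ℚ) N m)

theorem NN_one_add : NN (1 + X : PowerSeries ℚ) := NN.one.add NN.varX

theorem NN_le {e e' : ℕ} (h : e ≤ e') {f : PowerSeries ℚ} (hf : NN ((1 + X) ^ e * f)) :
    NN ((1 + X) ^ e' * f) := by
  obtain ⟨d, rfl⟩ := Nat.exists_eq_add_of_le h
  rw [pow_add, mul_comm ((1 + X : PowerSeries ℚ) ^ e) _, mul_assoc]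
  exact (NN_one_add.pow _).mul hf

theorem Pos_zero_left (m : ℕ) : Pos 0 m := by
  unfold Pos
  rw [G_zero_left, mul_one]
  exact NN_one_add.pow _

theorem Pos_zero_right (N : ℕ) : Pos N 0 := by
  unfold Pos
  rw [G_zero_right, mul_one]
  exact NN_one_add.pow _

theorem Pos_one_right (N : ℕ) (hN : Even N) : Pos N 1 := by
  rcases Nat.eq_zero_or_pos N with h0 | h0
  · rw [h0]; exact Pos_zero_left 1
  obtain ⟨j, rfl⟩ := hN
  unfold Pos
  rw [show min ((j + j) / 2) ((1 + 1) / 2) = 1 by omega, pow_one, G_one_right]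
  have h : (1 + X : PowerSeries ℚ) * ∑ i ∈ range (j + j + 1), (-X) ^ i = 1 + X ^ (j + j + 1) := by
    have h1 := mul_neg_geom_sum (-X : PowerSeries ℚ) (j + j + 1)
    have h2 : (-X : PowerSeries ℚ) ^ (j + j + 1) = - X ^ (j + j + 1) :=
      Odd.neg_pow ⟨j, by ring⟩ _
    rw [h2] at h1
    rw [← sub_neg_eq_add 1 X, h1, sub_neg_eq_add]
  rw [h]
  exact NN.one.add (NN.varX.pow _)

theorem F_pos (k N0 : ℕ) (hk : 2 ≤ k) (hA : ∀ m < k, ∀ N, Even N → Pos N m)
    (hB : ∀ N < N0, Even N → Pos N k) : ∀ M L k' : ℕ, Even L → L ≤ N0 + 2 → k' ≤ k →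
    NN ((1 + X : PowerSeries ℚ) ^ (min ((L - 2) / 2) ((k' + 1) / 2)) *
      F (-X : PowerSeries ℚ) M L 0 k') := by
  intro M
  induction M with
  | zero =>
    intro L k' _ _ _
    rw [F_level_zero]
    split_ifs
    · rw [mul_one]
      exact NN_one_add.pow _
    · rw [mul_zero]
      exact NN.zero
  | succ M ih =>
    intro L k' hL hLN hk'
    rw [domino, mul_sum]
    refine NN.sum fun m _ => ?_
    unfold W
    split_ifs with h
    swap
    · rw [mul_zero]; exact NN.zero
    obtain ⟨h1, h2⟩ := h
    rw [T_zero]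
    have hev : Even ((M + 1) * (m * (m - 1)) + 0 * m + 2 * m * (k' - (M + 1) * m)) := by
      have h3 : Even (m * (m - 1)) := Nat.even_mul_pred_self m
      rw [zero_mul, add_zero]
      exact (h3.mul_left _).add ⟨m * (k' - (M + 1) * m), by ring⟩
    rw [hev.neg_pow]
    set k2 := k' - (M + 1) * m with hk2
    by_cases hL2 : L - 2 * m = 0
    · rw [hL2, F]
      split_ifs with h4
      swap
      · rw [mul_zero, mul_zero]; exact NN.zero
      have h5 : k' = (M + 1) * m := by omega
      have h6 : L * (M + 1) - 0 - 2 * k' = 0 := by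
        have : L * (M + 1) = 2 * ((M + 1) * m) := by
          rw [show L = 2 * m by omega]; ring
        omega
      rw [h6, G_zero_left, mul_one, mul_one]
      exact (NN_one_add.pow _).mul (NN.varX.pow _)
    have hLe : Even (L - 2 * m) := by
      obtain ⟨l, rfl⟩ := hL
      exact ⟨l - m, by omega⟩
    have hL3 : 2 ≤ L - 2 * m := by
      obtain ⟨l, hl⟩ := hLe
      omega
    have h7 := ih (L - 2 * m) k2 hLe (by omega) (by omega)
    have hmk : m ≤ k' := by
      have : m ≤ (M + 1) * m := Nat.le_mul_of_pos_left m (by omega)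
      omega
    have hNe : Even (L * (M + 1) - 0 - 2 * k') := by
      obtain ⟨l, rfl⟩ := hL
      have : (l + l) * (M + 1) = 2 * (l * (M + 1)) := by ring
      exact ⟨l * (M + 1) - k', by omega⟩
    have h8 : Pos (L * (M + 1) - 0 - 2 * k') m := by
      rcases Nat.lt_or_ge m k with hm | hm
      · exact hA m hm _ hNe
      · obtain rfl : m = k := by omega
        have hM : M = 0 := by
          by_contra hM
          have : 2 * m ≤ (M + 1) * m := Nat.mul_le_mul_right m (by omega)
          omega
        subst hM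
        rw [zero_add, mul_one] at hNe ⊢
        rcases Nat.eq_zero_or_pos (L - 0 - 2 * k') with h9 | h9
        · rw [h9]; exact Pos_zero_left m
        · exact hB _ (by omega) hNe
    unfold Pos at h8
    set G0 := G (-X : PowerSeries ℚ) (L * (M + 1) - 0 - 2 * k') m with hG0
    set F0 := F (-X : PowerSeries ℚ) M (L - 2 * m) 0 k2 with hF0
    -- the product, with the right exponent
    have h10 : ∀ e1 e2 e : ℕ, NN ((1 + X) ^ e1 * G0) → NN ((1 + X) ^ e2 * F0) → e1 + e2 ≤ e →
        NN ((1 + X) ^ e * (X ^ ((M + 1) * (m * (m - 1)) + 0 * m + 2 * m * k2) * G0 * F0)) := by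
      intro e1 e2 e a1 a2 a3
      refine NN_le a3 ?_
      have : (1 + X : PowerSeries ℚ) ^ (e1 + e2) *
          (X ^ ((M + 1) * (m * (m - 1)) + 0 * m + 2 * m * k2) * G0 * F0) =
          X ^ ((M + 1) * (m * (m - 1)) + 0 * m + 2 * m * k2) *
          (((1 + X) ^ e1 * G0) * ((1 + X) ^ e2 * F0)) := by
        rw [pow_add]; ring
      rw [this]
      exact (NN.varX.pow _).mul (a1.mul a2)
    have h11 : NN ((1 + X) ^ ((m + 1) / 2) * G0) := NN_le (min_le_right _ _) h8
    rcases Nat.eq_zero_or_pos M with hM | hM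
    · -- the case `M = 0`
      by_cases hk20 : k2 = 0
      · refine h10 ((m + 1) / 2) 0 _ h11 ?_ ?_
        · have : min ((L - 2 * m - 2) / 2) ((k2 + 1) / 2) = 0 := by
            rw [hk20]
            simp
          rw [this] at h7
          exact h7
        · have : k' = m := by
            rw [hM] at hk2 h2
            omega
          omega
      · have : F0 = 0 := by
          rw [hF0, hM, F_level_zero, if_neg hk20]
        rw [this, mul_zero, mul_zero]
        exact NN.zero
    · have h12 : 2 * m ≤ (M + 1) * m := Nat.mul_le_mul_right m (by omega)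
      refine h10 _ _ _ h11 h7 ?_
      omega

theorem pos_main : ∀ k N : ℕ, Even N → Pos N k := by
  intro k
  induction k using Nat.strong_induction_on with
  | _ k ihk =>
    intro N
    induction N using Nat.strong_induction_on with
    | _ N ihN =>
      intro hN
      rcases Nat.lt_or_ge k 2 with hk | hk
      · rcases (show k = 0 ∨ k = 1 by omega) with rfl | rfl
        · exact Pos_zero_right N
        · exact Pos_one_right N hN
      · have h := F_pos k N hk ihk ihN k (N + 2) k (by
          obtain ⟨j, rfl⟩ := hN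
          exact ⟨j + 1, by ring⟩) le_rfl le_rfl
        rw [F_eq_G _ _ _ _ _ (by omega), show N + 2 - 2 = N by omega] at h
        exact h

/-- The theorem of Stanton and Zeilberger. -/
theorem stanton_zeilberger (n k : ℕ) (h : Even (n * k)) :
    NN ((1 + X : PowerSeries ℚ) ^ ((k + 1) / 2) * G (-X : PowerSeries ℚ) n k) := by
  rcases Nat.even_or_odd n with hn | hn
  · exact NN_le (min_le_right _ _) (pos_main k n hn)
  · have hk : Even k := by
      rcases Nat.even_mul.1 h with h1 | h1
      · exact absurd h1 (Nat.not_even_iff_odd.2 hn)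
      · exact h1
    have h2 := pos_main n k hk
    unfold Pos at h2
    have h3 : G (-X : PowerSeries ℚ) k n = G (-X : PowerSeries ℚ) n k := by
      unfold G
      rw [qb_symm k n, add_comm]
    rw [h3] at h2
    exact NN_le (by omega) h2

theorem G_mul_poch (n k : ℕ) : G (-X : PowerSeries ℚ) n k * poch (-X) k =
    ∏ v ∈ range k, (1 - (-X) ^ (1 * (n + v + 1))) := by
  have h1 := qb_mul (-X : PowerSeries ℚ) (n + k) n k rfl
  have h2 : poch (-X : PowerSeries ℚ) (n + k) = poch (-X : PowerSeries ℚ) n *
      ∏ v ∈ range k, (1 - (-X) ^ (1 * (n + v + 1))) := by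
    unfold poch
    rw [prod_range_add]
    simp
  rw [h2] at h1
  have h4 := poch_mul_I n
  unfold G
  calc qb (-X : PowerSeries ℚ) (n + k) k * poch (-X) k
      = (qb (-X : PowerSeries ℚ) (n + k) k * (poch (-X) n * poch (-X) k)) * I n := by
        rw [← mul_one (qb (-X : PowerSeries ℚ) (n + k) k * poch (-X) k), ← h4]; ring
    _ = (poch (-X : PowerSeries ℚ) n * I n) *
        ∏ v ∈ range k, (1 - (-X) ^ (1 * (n + v + 1))) := by rw [h1]; ring
    _ = _ := by rw [h4, one_mul]

/-- The case `a = 1`. -/
theorem a_one (n k : ℕ) (h : Even (n * k)) (f : Polynomial ℚ)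
    (hf : f * poch (-Polynomial.X : Polynomial ℚ) k = num n k 1) : ∀ i, 0 ≤ f.coeff i := by
  intro i
  have h1 := f_series hf
  have h2 : (f : PowerSeries ℚ) =
      (1 + X : PowerSeries ℚ) ^ ((k + 1) / 2) * G (-X : PowerSeries ℚ) n k := by
    rw [h1, ← G_mul_poch]
    unfold SignedQ.G
    have := I_mul_poch k
    linear_combination ((1 + X : PowerSeries ℚ) ^ ((k + 1) / 2) *
      G (-X : PowerSeries ℚ) n k) * this
  have h3 := stanton_zeilberger n k h i
  rw [← h2, Polynomial.coeff_coe] at h3
  exact h3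

/-- The case `a = 1`, in the form of the frozen statement. -/
theorem a_one_icc (n k a : ℕ) (h : Even (n * k)) (ha : a = 1) (i : ℕ) :
    0 ≤ (((1 + Polynomial.X : Polynomial ℚ) ^ ((k + 1) / 2) *
              ∏ v ∈ Finset.Icc 1 k, (1 - (-Polynomial.X : Polynomial ℚ) ^ (a * (n + v)))) /
            ∏ v ∈ Finset.Icc 1 k, (1 - (-Polynomial.X : Polynomial ℚ) ^ v)).coeff i := by
  subst ha
  have hicc : ∀ F : ℕ → Polynomial ℚ, ∏ v ∈ Finset.Icc 1 k, F v = ∏ v ∈ range k, F (v + 1) := by
    intro F
    rw [range_eq_Ico, prod_Ico_add' F 0 k 1, zero_add]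
    congr 1
  have hden : ∏ v ∈ Finset.Icc 1 k, (1 - (-Polynomial.X : Polynomial ℚ) ^ v) =
      poch (-Polynomial.X) k := by
    rw [hicc]; rfl
  have hnum : (1 + Polynomial.X : Polynomial ℚ) ^ ((k + 1) / 2) *
      ∏ v ∈ Finset.Icc 1 k, (1 - (-Polynomial.X : Polynomial ℚ) ^ (1 * (n + v))) = num n k 1 := by
    rw [hicc]; rfl
  rw [hden, hnum]
  refine a_one n k h _ ?_ i
  obtain ⟨f, hf⟩ := den_dvd n k 1 le_rfl
  have hne : poch (-Polynomial.X : Polynomial ℚ) k ≠ 0 :=
    poch_ne_zero _ (fun i => one_sub_ne _ (by omega)) k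
  rw [hf, mul_div_cancel_left₀ _ hne, mul_comm]

end Pool.Agent.SignedQ.Koh
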