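import Pool.Agent.Lib.MP_cf17a0_co.Grow

/-! # Divisibility and symmetry of the polynomial `f` -/

namespace Pool.Agent.SignedQ

open Finset Polynomial

/-- The numerator. -/
noncomputable def num (n k a : ℕ) : ℚ[X] :=
  (1 + X) ^ ((k + 1) / 2) * ∏ v ∈ range k, (1 - (-X) ^ (a * (n + v + 1)))

theorem poch_ne_zero (x : ℚ[X]) (hx : ∀ i, (1 - x ^ (i + 1)) ≠ 0) (k : ℕ) : poch x k ≠ 0 := by
  unfold poch
  exact prod_ne_zero_iff.2 fun i _ => hx i

theorem one_sub_ne (m : ℕ) (hm : 1 ≤ m) : (1 - (-X : ℚ[X]) ^ m) ≠ 0 := by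
  intro h
  have := congrArg (Polynomial.eval 0) h
  have h0 : m ≠ 0 := by omega
  simp [h0] at this

theorem den_dvd (n k a : ℕ) (ha : 1 ≤ a) : poch (-X : ℚ[X]) k ∣ num n k a := by
  refine Dvd.dvd.mul_left ?_ _
  have h1 := qb_mul ((-X : ℚ[X]) ^ a) (n + k) n k rfl
  have h2 : poch ((-X : ℚ[X]) ^ a) (n + k) = poch ((-X : ℚ[X]) ^ a) n *
      ∏ v ∈ range k, (1 - (-X) ^ (a * (n + v + 1))) := by
    unfold poch
    rw [prod_range_add]
    congr 1
    refine prod_congr rfl fun v _ => ?_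
    rw [← pow_mul]
  have h3 : poch ((-X : ℚ[X]) ^ a) n ≠ 0 := by
    refine poch_ne_zero _ (fun i => ?_) n
    rw [← pow_mul]
    exact one_sub_ne _ (Nat.mul_pos ha (by omega))
  have h4 : ∏ v ∈ range k, (1 - (-X : ℚ[X]) ^ (a * (n + v + 1))) =
      qb ((-X : ℚ[X]) ^ a) (n + k) k * poch ((-X : ℚ[X]) ^ a) k := by
    refine mul_left_cancel₀ h3 ?_
    rw [← h2, ← h1]
    ring
  rw [h4]
  refine Dvd.dvd.mul_left ?_ _
  unfold poch
  refine prod_dvd_prod_of_dvd _ _ fun i _ => ?_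
  have := sub_dvd_pow_sub_pow (1 : ℚ[X]) ((-X) ^ (i + 1)) a
  rw [one_pow] at this
  rwa [← pow_mul, mul_comm a (i + 1), pow_mul]

/-- The sign in the reciprocal of `1 - (-X)^m`. -/
def sg (m : ℕ) : ℚ := -(-1) ^ m

theorem sg_sq (m : ℕ) : sg m * sg m = 1 := by
  unfold sg
  rw [neg_mul_neg, ← pow_add, ← two_mul, pow_mul]
  norm_num

theorem factor_eq (m : ℕ) : (1 - (-X : ℚ[X]) ^ m) = C 1 + C (sg m) * X ^ m := by
  unfold sg
  rw [neg_pow, C_1, map_neg, map_pow, map_neg, C_1]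
  ring

theorem natDegree_factor (m : ℕ) : (1 - (-X : ℚ[X]) ^ m).natDegree = m := by
  rcases Nat.eq_zero_or_pos m with rfl | hm
  · simp
  · rw [factor_eq, add_comm]
    have hs : sg m ≠ 0 := by
      intro h
      have := sg_sq m
      rw [h] at this
      norm_num at this
    rw [natDegree_add_C]
    exact natDegree_C_mul_X_pow m (sg m) hs

theorem reverse_factor (m : ℕ) :
    (1 - (-X : ℚ[X]) ^ m).reverse = C (sg m) * (1 - (-X) ^ m) := by
  have h1 : (1 - (-X : ℚ[X]) ^ m).reverse = reflect m (1 - (-X : ℚ[X]) ^ m) := by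
    unfold reverse
    rw [natDegree_factor]
  rw [h1, factor_eq, reflect_add, reflect_C, reflect_C_mul_X_pow]
  have h2 : revAt m m = 0 := by rw [revAt_le le_rfl]; simp
  rw [h2, pow_zero, mul_one, mul_add, ← C_mul, mul_one, ← mul_assoc, ← C_mul, sg_sq, add_comm]

theorem reverse_one_add : (1 + X : ℚ[X]).reverse = 1 + X := by
  have := reverse_factor 1
  have hs : sg 1 = 1 := by unfold sg; norm_num
  rw [hs] at this
  simpa using this

theorem reverse_pow_one_add (K : ℕ) : ((1 + X : ℚ[X]) ^ K).reverse = (1 + X) ^ K := by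
  induction K with
  | zero => simp [reverse]
  | succ K ih => rw [pow_succ, reverse_mul_of_domain, ih, reverse_one_add]

theorem reverse_prod (B : ℕ → ℕ) (k : ℕ) :
    (∏ v ∈ range k, (1 - (-X : ℚ[X]) ^ B v)).reverse =
      C (∏ v ∈ range k, sg (B v)) * ∏ v ∈ range k, (1 - (-X : ℚ[X]) ^ B v) := by
  induction k with
  | zero => simp [reverse]
  | succ k ih =>
    rw [prod_range_succ, reverse_mul_of_domain, ih, reverse_factor, prod_range_succ, map_mul]
    ring

theorem sg_prod (n k a : ℕ) (h : Even (n * k)) (ha : Odd a) :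
    ∏ v ∈ range k, sg (a * (n + v + 1)) = ∏ v ∈ range k, sg (v + 1) := by
  unfold sg
  rw [prod_neg, prod_neg, prod_pow_eq_pow_sum, prod_pow_eq_pow_sum]
  congr 1
  have h1 : ∑ v ∈ range k, a * (n + v + 1) = a * (n * k) + a * ∑ v ∈ range k, (v + 1) := by
    rw [← mul_sum, ← mul_add]
    congr 1
    have : ∀ v ∈ range k, n + v + 1 = n + (v + 1) := fun v _ => by ring
    rw [sum_congr rfl this, sum_add_distrib, sum_const, card_range, smul_eq_mul, mul_comm k n]
  have e1 : (-1 : ℚ) ^ (a * (n * k)) = 1 := (h.mul_left a).neg_one_pow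
  have e2 : (-1 : ℚ) ^ (a * ∑ v ∈ range k, (v + 1)) = (-1) ^ ∑ v ∈ range k, (v + 1) := by
    rw [pow_mul, ha.neg_one_pow]
  rw [h1, pow_add, e1, e2, one_mul]

/-- The polynomial `f` is palindromic. -/
theorem reverse_eq {n k a : ℕ} (h : Even (n * k)) (ha : Odd a) {f : ℚ[X]}
    (hf : f * poch (-X : ℚ[X]) k = num n k a) : f.reverse = f := by
  have hne : poch (-X : ℚ[X]) k ≠ 0 :=
    poch_ne_zero _ (fun i => one_sub_ne _ (by omega)) k
  have h1 := congrArg Polynomial.reverse hf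
  unfold num at h1 hf
  have h2 : (poch (-X : ℚ[X]) k).reverse =
      C (∏ v ∈ range k, sg (v + 1)) * poch (-X : ℚ[X]) k := by
    unfold poch
    exact reverse_prod (fun v => v + 1) k
  rw [reverse_mul_of_domain, reverse_mul_of_domain, reverse_pow_one_add, reverse_prod, h2,
    sg_prod n k a h ha] at h1
  set s := ∏ v ∈ range k, sg (v + 1) with hs
  have hs2 : s * s = 1 := by
    rw [hs, ← prod_mul_distrib]
    exact prod_eq_one fun v _ => sg_sq _
  have hC : C s * C s = (1 : ℚ[X]) := by rw [← C_mul, hs2, C_1]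
  refine mul_right_cancel₀ hne ?_
  calc f.reverse * poch (-X : ℚ[X]) k
      = (C s * C s) * (f.reverse * poch (-X : ℚ[X]) k) := by rw [hC, one_mul]
    _ = C s * (f.reverse * (C s * poch (-X : ℚ[X]) k)) := by ring
    _ = C s * ((1 + X) ^ ((k + 1) / 2) *
          (C s * ∏ v ∈ range k, (1 - (-X : ℚ[X]) ^ (a * (n + v + 1))))) := by rw [h1]
    _ = (C s * C s) * ((1 + X) ^ ((k + 1) / 2) *
          ∏ v ∈ range k, (1 - (-X : ℚ[X]) ^ (a * (n + v + 1)))) := by ring
    _ = f * poch (-X : ℚ[X]) k := by rw [hC, one_mul, hf]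

theorem natDegree_prod_factor (B : ℕ → ℕ) (hB : ∀ v, 1 ≤ B v) (k : ℕ) :
    (∏ v ∈ range k, (1 - (-X : ℚ[X]) ^ B v)).natDegree = ∑ v ∈ range k, B v := by
  rw [natDegree_prod _ _ fun v _ => one_sub_ne _ (hB v)]
  exact sum_congr rfl fun v _ => natDegree_factor _

/-- The degree of `f`. -/
theorem natDegree_f {n k a : ℕ} (ha : 1 ≤ a) {f : ℚ[X]}
    (hf : f * poch (-X : ℚ[X]) k = num n k a) :
    f.natDegree + ∑ v ∈ range k, (v + 1) = (k + 1) / 2 + ∑ v ∈ range k, a * (n + v + 1) := by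
  have hne : poch (-X : ℚ[X]) k ≠ 0 :=
    poch_ne_zero _ (fun i => one_sub_ne _ (by omega)) k
  have hB : ∀ v, 1 ≤ a * (n + v + 1) := fun v => Nat.mul_pos ha (by omega)
  have h1X : (1 + X : ℚ[X]) = 1 - (-X) ^ 1 := by ring
  have hnum : num n k a ≠ 0 := by
    unfold num
    refine mul_ne_zero (pow_ne_zero _ ?_) (prod_ne_zero_iff.2 fun v _ => one_sub_ne _ (hB v))
    rw [h1X]
    exact one_sub_ne 1 le_rfl
  have hf0 : f ≠ 0 := by
    rintro rfl
    rw [zero_mul] at hf
    exact hnum hf.symm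
  have h1 := congrArg natDegree hf
  rw [natDegree_mul hf0 hne] at h1
  have h2 : (poch (-X : ℚ[X]) k).natDegree = ∑ v ∈ range k, (v + 1) := by
    unfold poch
    exact natDegree_prod_factor (fun v => v + 1) (fun v => by omega) k
  rw [h2] at h1
  rw [h1]
  unfold num
  rw [natDegree_mul, natDegree_pow, natDegree_prod_factor _ hB, h1X, natDegree_factor, mul_one]
  · refine pow_ne_zero _ ?_
    rw [h1X]
    exact one_sub_ne 1 le_rfl
  · exact prod_ne_zero_iff.2 fun v _ => one_sub_ne _ (hB v)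

/-- It suffices to look at the first half of the coefficients. -/
theorem half {n k a : ℕ} (h : Even (n * k)) (ha : Odd a) {f : ℚ[X]}
    (hf : f * poch (-X : ℚ[X]) k = num n k a)
    (hh : ∀ N, 2 * N ≤ f.natDegree → 0 ≤ f.coeff N) : ∀ N, 0 ≤ f.coeff N := by
  intro N
  rcases le_or_gt (2 * N) f.natDegree with h1 | h1
  · exact hh N h1
  · rcases le_or_gt N f.natDegree with h2 | h2
    · have h3 := coeff_reverse f N
      rw [reverse_eq h ha hf, revAt_le h2] at h3
      rw [h3]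
      exact hh _ (by omega)
    · rw [coeff_eq_zero_of_natDegree_lt h2]

end Pool.Agent.SignedQ
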