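import Mathlib

/-! # `q`-binomials, and a positivity result for `(1+q)^⌈k/2⌉ / ∏ (1 - (-q)^j)` -/

namespace Pool.Agent.SignedQ

open Finset

section ring

variable {R : Type*} [CommRing R]

/-- The Gaussian binomial coefficient `[n choose k]_x`. -/
def qb (x : R) : ℕ → ℕ → R
  | _, 0 => 1
  | 0, (_ + 1) => 0
  | (n + 1), (k + 1) => qb x n k + x ^ (k + 1) * qb x n (k + 1)

/-- The product `(1 - x) (1 - x ^ 2) ⋯ (1 - x ^ n)`. -/
def poch (x : R) (n : ℕ) : R := ∏ i ∈ range n, (1 - x ^ (i + 1))

theorem qb_zero_right (x : R) (n : ℕ) : qb x n 0 = 1 := by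
  cases n <;> rfl

theorem qb_succ (x : R) (n k : ℕ) :
    qb x (n + 1) (k + 1) = qb x n k + x ^ (k + 1) * qb x n (k + 1) := rfl

theorem qb_eq_zero (x : R) : ∀ n k : ℕ, n < k → qb x n k = 0 := by
  intro n
  induction n with
  | zero =>
    intro k hk
    cases k with
    | zero => omega
    | succ k => rfl
  | succ n ih =>
    intro k hk
    cases k with
    | zero => omega
    | succ k => rw [qb_succ, ih k (by omega), ih (k + 1) (by omega)]; ring

theorem qb_self (x : R) : ∀ n : ℕ, qb x n n = 1 := by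
  intro n
  induction n with
  | zero => rfl
  | succ n ih => rw [qb_succ, ih, qb_eq_zero x n (n + 1) (by omega)]; ring

theorem poch_succ (x : R) (n : ℕ) : poch x (n + 1) = poch x n * (1 - x ^ (n + 1)) := by
  unfold poch
  rw [prod_range_succ]

theorem qb_mul (x : R) : ∀ n m r : ℕ, n = m + r → qb x n r * (poch x m * poch x r) = poch x n := by
  intro n
  induction n with
  | zero =>
    intro m r h
    obtain ⟨rfl, rfl⟩ : m = 0 ∧ r = 0 := by omega
    simp [poch, qb]
  | succ n ih =>
    intro m r h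
    cases r with
    | zero =>
      obtain rfl : m = n + 1 := by omega
      simp [qb_zero_right, poch]
    | succ r =>
      cases m with
      | zero =>
        obtain rfl : r = n := by omega
        rw [qb_self]; simp [poch]
      | succ m =>
        have h1 := ih (m + 1) r (by omega)
        have h2 := ih m (r + 1) (by omega)
        rw [qb_succ, poch_succ x n, poch_succ x r, poch_succ x m]
        rw [poch_succ x m] at h1
        rw [poch_succ x r] at h2
        have e : n + 1 = (r + 1) + (m + 1) := by omega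
        have e2 : x ^ (n + 1) = x ^ (r + 1) * x ^ (m + 1) := by rw [e, pow_add]
        rw [e2]
        linear_combination (1 - x ^ (r + 1)) * h1 + x ^ (r + 1) * (1 - x ^ (m + 1)) * h2

/-- The basic telescoping step. -/
theorem step (x : R) (Φ Φ' : ℕ → R) (h : ∀ N, Φ' (N + 1) = Φ N + x ^ (N + 1) * Φ (N + 1))
    (m c : ℕ) :
    ∑ s ∈ range (m + 2), x ^ (s * (s + c)) * Φ (s + c) * qb x (m + 1) s =
      ∑ s ∈ range (m + 1), x ^ (s * (s + (c + 1))) * Φ' (s + (c + 1)) * qb x m s := by
  have e1 : ∑ s ∈ range (m + 2), x ^ (s * (s + c)) * Φ (s + c) * qb x (m + 1) s =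
      ∑ s ∈ range (m + 2), x ^ (s * (s + c)) * Φ (s + c) * (x ^ s * qb x m s) +
      ∑ t ∈ range (m + 1), x ^ ((t + 1) * (t + 1 + c)) * Φ (t + 1 + c) * qb x m t := by
    rw [sum_range_succ' _ (m + 1), sum_range_succ' _ (m + 1)]
    simp only [qb_succ, qb_zero_right]
    have : ∀ t ∈ range (m + 1), x ^ ((t + 1) * (t + 1 + c)) * Φ (t + 1 + c) *
        (qb x m t + x ^ (t + 1) * qb x m (t + 1)) =
        x ^ ((t + 1) * (t + 1 + c)) * Φ (t + 1 + c) * (x ^ (t + 1) * qb x m (t + 1)) +
        x ^ ((t + 1) * (t + 1 + c)) * Φ (t + 1 + c) * qb x m t := by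
      intro t _; ring
    rw [sum_congr rfl this, sum_add_distrib]
    ring
  rw [e1, sum_range_succ _ (m + 1), qb_eq_zero x m (m + 1) (by omega)]
  rw [mul_zero, mul_zero, add_zero, ← sum_add_distrib]
  refine sum_congr rfl fun t _ => ?_
  rw [show t + (c + 1) = (t + c) + 1 by ring, h (t + c)]
  have e3 : x ^ ((t + 1) * (t + 1 + c)) = x ^ (t * (t + c + 1)) * x ^ (t + c + 1) := by
    rw [← pow_add]; congr 1; ring
  have e4 : x ^ (t * (t + c + 1)) = x ^ (t * (t + c)) * x ^ t := by
    rw [← pow_add]; congr 1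
  rw [e3, e4, show t + 1 + c = t + c + 1 by ring]
  ring

theorem iter (x : R) (Φ : ℕ → ℕ → R)
    (h : ∀ i N, Φ (i + 1) (N + 1) = Φ i N + x ^ (N + 1) * Φ i (N + 1)) :
    ∀ m i c : ℕ, ∑ s ∈ range (m + 1), x ^ (s * (s + c)) * Φ i (s + c) * qb x m s =
      Φ (i + m) (m + c) := by
  intro m
  induction m with
  | zero =>
    intro i c
    simp [qb_zero_right]
  | succ m ih =>
    intro i c
    rw [step x (Φ i) (Φ (i + 1)) (h i) m c, ih (i + 1) (c + 1)]
    congr 1 <;> ring

theorem vander (x : R) (m r : ℕ) :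
    ∑ s ∈ range (m + 1), x ^ (s * (s + 1)) * qb x r (s + 1) * qb x m s = qb x (r + m) (m + 1) := by
  have := iter x (fun i N => qb x (r + i) N) (fun i N => qb_succ x (r + i) N) m 0 1
  simpa using this

end ring

section series

open PowerSeries

/-- All coefficients are nonnegative. -/
def NN (f : PowerSeries ℚ) : Prop := ∀ n, 0 ≤ coeff n f

theorem NN.add {f g : PowerSeries ℚ} (hf : NN f) (hg : NN g) : NN (f + g) := by
  intro n
  rw [map_add]
  exact add_nonneg (hf n) (hg n)

theorem NN.mul {f g : PowerSeries ℚ} (hf : NN f) (hg : NN g) : NN (f * g) := by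
  intro n
  rw [coeff_mul]
  exact sum_nonneg fun p _ => mul_nonneg (hf _) (hg _)

theorem NN.sum {ι : Type*} {s : Finset ι} {f : ι → PowerSeries ℚ} (h : ∀ i ∈ s, NN (f i)) :
    NN (∑ i ∈ s, f i) := by
  intro n
  rw [map_sum]
  exact sum_nonneg fun i hi => h i hi n

theorem NN.zero : NN 0 := by
  intro n
  simp

theorem NN.one : NN 1 := by
  intro n
  rw [coeff_one]
  split <;> norm_num

theorem NN.varX : NN (X : PowerSeries ℚ) := by
  intro n
  rw [coeff_X]
  split <;> norm_num

theorem NN.pow {f : PowerSeries ℚ} (hf : NN f) (n : ℕ) : NN (f ^ n) := by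
  induction n with
  | zero => rw [pow_zero]; exact NN.one
  | succ n ih => rw [pow_succ]; exact ih.mul hf

/-- If `f = g + X ^ d * f` with `g` nonnegative and `d ≥ 1`, then `f` is nonnegative. -/
theorem NN.of_eq {f g : PowerSeries ℚ} {d : ℕ} (hd : 1 ≤ d) (hg : NN g)
    (h : f = g + X ^ d * f) : NN f := by
  intro n
  induction n using Nat.strong_induction_on with
  | _ n ih =>
    rw [h, map_add, coeff_X_pow_mul']
    split
    · exact add_nonneg (hg n) (ih (n - d) (by omega))
    · rw [add_zero]; exact hg n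

/-- The inverse of `(x)_n` for `x = - X`. -/
noncomputable def I (n : ℕ) : PowerSeries ℚ := (poch (-X : PowerSeries ℚ) n)⁻¹

theorem constCoeff_poch (n : ℕ) :
    constantCoeff (poch (-X : PowerSeries ℚ) n) ≠ 0 := by
  unfold poch
  rw [map_prod]
  refine prod_ne_zero_iff.2 fun i _ => ?_
  rw [map_sub, map_pow, map_neg, constantCoeff_X]
  simp

theorem poch_mul_I (n : ℕ) : poch (-X : PowerSeries ℚ) n * I n = 1 :=
  PowerSeries.mul_inv_cancel _ (constCoeff_poch n)

theorem I_mul_poch (n : ℕ) : I n * poch (-X : PowerSeries ℚ) n = 1 := by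
  rw [mul_comm]; exact poch_mul_I n

theorem I_step (n : ℕ) : I (n + 1) = I n + (-X) ^ (n + 1) * I (n + 1) := by
  have h1 := poch_mul_I n
  have h2 := poch_mul_I (n + 1)
  rw [poch_succ] at h2
  have h3 : I n = I (n + 1) * (1 - (-X) ^ (n + 1)) := by
    calc I n = I n * (poch (-X : PowerSeries ℚ) n * (1 - (-X) ^ (n + 1)) * I (n + 1)) := by
          rw [h2, mul_one]
      _ = (poch (-X : PowerSeries ℚ) n * I n) * (I (n + 1) * (1 - (-X) ^ (n + 1))) := by ring
      _ = _ := by rw [h1, one_mul]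
  rw [h3]
  ring

theorem hall (m : ℕ) :
    ∑ s ∈ range (m + 1), (-X : PowerSeries ℚ) ^ (s * (s + 1)) * I (s + 1) * qb (-X) m s =
      I (m + 1) := by
  have := iter (-X : PowerSeries ℚ) (fun _ N => I N) (fun _ N => I_step N) m 0 1
  simpa using this

theorem qb_mul_I {n m r : ℕ} (h : n = m + r) :
    qb (-X : PowerSeries ℚ) n r * I n = I m * I r := by
  have h1 := qb_mul (-X : PowerSeries ℚ) n m r h
  have h2 := poch_mul_I n
  have h3 := poch_mul_I m
  have h4 := poch_mul_I r
  calc qb (-X : PowerSeries ℚ) n r * I n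
      = qb (-X) n r * I n * ((poch (-X : PowerSeries ℚ) m * I m) *
          (poch (-X : PowerSeries ℚ) r * I r)) := by rw [h3, h4]; ring
    _ = (qb (-X) n r * (poch (-X : PowerSeries ℚ) m * poch (-X : PowerSeries ℚ) r)) * I n *
          (I m * I r) := by ring
    _ = I m * I r := by rw [h1, h2, one_mul]

theorem qb_symm (m r : ℕ) :
    qb (-X : PowerSeries ℚ) (m + r) r = qb (-X : PowerSeries ℚ) (m + r) m := by
  have h1 := qb_mul_I (show m + r = m + r from rfl)
  have h2 := qb_mul_I (show m + r = r + m by ring)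
  have h3 : qb (-X : PowerSeries ℚ) (m + r) r * I (m + r) =
      qb (-X : PowerSeries ℚ) (m + r) m * I (m + r) := by
    rw [h1, h2]; ring
  have h4 := poch_mul_I (m + r)
  calc qb (-X : PowerSeries ℚ) (m + r) r
      = qb (-X : PowerSeries ℚ) (m + r) r * (poch (-X : PowerSeries ℚ) (m + r) * I (m + r)) := by
        rw [h4, mul_one]
    _ = (qb (-X : PowerSeries ℚ) (m + r) r * I (m + r)) * poch (-X : PowerSeries ℚ) (m + r) := by
        ring
    _ = (qb (-X : PowerSeries ℚ) (m + r) m * I (m + r)) * poch (-X : PowerSeries ℚ) (m + r) := by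
        rw [h3]
    _ = qb (-X : PowerSeries ℚ) (m + r) m *
          (poch (-X : PowerSeries ℚ) (m + r) * I (m + r)) := by ring
    _ = _ := by rw [h4, mul_one]

/-- The terms of Hall's identity. -/
noncomputable def H (m s : ℕ) : PowerSeries ℚ :=
  (-X : PowerSeries ℚ) ^ (s * (s + 1)) * I (s + 1) * qb (-X) m s

theorem H_rec (m s : ℕ) :
    H (m + s + 1) s = (-X : PowerSeries ℚ) ^ (s * (s + 1)) *
      ∑ t ∈ range (m + 1), (if t ≤ s then H m t * I (s - t) else 0) := by
  unfold H
  rw [mul_assoc]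
  congr 1
  have h1 : qb (-X : PowerSeries ℚ) (m + s + 1) s = qb (-X : PowerSeries ℚ) (s + 1 + m) (m + 1) := by
    have := qb_symm (m + 1) s
    rw [show m + s + 1 = m + 1 + s by ring, this]
    congr 1
    ring
  rw [h1, ← vander, mul_sum]
  refine sum_congr rfl fun t _ => ?_
  split
  · rename_i hts
    have h2 := qb_mul_I (show s + 1 = (s - t) + (t + 1) by omega)
    calc I (s + 1) * ((-X) ^ (t * (t + 1)) * qb (-X) (s + 1) (t + 1) * qb (-X) m t)
        = (-X) ^ (t * (t + 1)) * (qb (-X) (s + 1) (t + 1) * I (s + 1)) * qb (-X) m t := by ring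
      _ = _ := by rw [h2]; ring
  · rename_i hts
    rw [qb_eq_zero (-X : PowerSeries ℚ) (s + 1) (t + 1) (by omega)]
    ring

/-- The series `(1+q)^⌈n/2⌉ / ∏_{j ≤ n} (1 - (-q)^j)`. -/
noncomputable def G (n : ℕ) : PowerSeries ℚ := (1 + X) ^ ((n + 1) / 2) * I n

theorem G_zero : G 0 = 1 := by
  have h : (poch (-X : PowerSeries ℚ) 0) = 1 := by simp [poch]
  have h2 := poch_mul_I 0
  rw [h, one_mul] at h2
  unfold G
  rw [h2]
  simp

theorem G_one : G 1 = 1 := by
  have h2 := poch_mul_I 1
  have h : (poch (-X : PowerSeries ℚ) 1) = 1 + X := by simp [poch]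
  rw [h] at h2
  unfold G
  simpa using h2

theorem neg_X_pow_even (s : ℕ) : (-X : PowerSeries ℚ) ^ (s * (s + 1)) = X ^ (s * (s + 1)) :=
  Even.neg_pow (Nat.even_mul_succ_self s) _

theorem NN_main : ∀ m : ℕ, (∀ s ≤ m, NN ((1 + X) ^ ((m + 2) / 2) * H m s)) ∧ NN (G (m + 1)) := by
  intro m
  induction m using Nat.strong_induction_on with
  | _ m ih =>
    have hG : ∀ j ≤ m, NN (G j) := by
      intro j hj
      cases j with
      | zero => rw [G_zero]; exact NN.one
      | succ j => exact (ih j (by omega)).2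
    have h1X : NN (1 + X : PowerSeries ℚ) := NN.one.add NN.varX
    have key : ∀ s < m, NN ((1 + X) ^ ((m + 2) / 2) * H m s) := by
      intro s hs
      obtain ⟨m', rfl⟩ : ∃ m', m = m' + s + 1 := ⟨m - s - 1, by omega⟩
      rw [H_rec, neg_X_pow_even, ← mul_assoc, mul_comm ((1 + X) ^ _) (X ^ _), mul_assoc, mul_sum]
      refine (NN.varX.pow _).mul (NN.sum fun t ht => ?_)
      rw [mem_range] at ht
      split
      · rename_i hts
        have e : (m' + s + 1 + 2) / 2 =
            ((m' + s + 1 + 2) / 2 - (m' + 2) / 2 - (s - t + 1) / 2) + (m' + 2) / 2 +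
              (s - t + 1) / 2 := by omega
        rw [e, pow_add, pow_add]
        have h2 := (ih m' (by omega)).1 t (by omega)
        have h3 := hG (s - t) (by omega)
        have h4 : (1 + X : PowerSeries ℚ) ^
            ((m' + s + 1 + 2) / 2 - (m' + 2) / 2 - (s - t + 1) / 2) *
            (1 + X) ^ ((m' + 2) / 2) * (1 + X) ^ ((s - t + 1) / 2) * (H m' t * I (s - t)) =
            (1 + X) ^ ((m' + s + 1 + 2) / 2 - (m' + 2) / 2 - (s - t + 1) / 2) *
              (((1 + X) ^ ((m' + 2) / 2) * H m' t) * G (s - t)) := by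
          unfold G; ring
        rw [h4]
        exact (h1X.pow _).mul (h2.mul h3)
      · rw [mul_zero]; exact NN.zero
    have hGm : NN (G (m + 1)) := by
      rcases Nat.eq_zero_or_pos m with rfl | hm
      · rw [G_one]; exact NN.one
      · refine NN.of_eq (d := m * (m + 1)) (Nat.mul_pos hm (by omega))
          (g := ∑ s ∈ range m, (1 + X) ^ ((m + 2) / 2) * H m s)
          (NN.sum fun s hs => key s (mem_range.1 hs)) ?_
        have h5 := hall m
        rw [sum_range_succ, qb_self, mul_one, neg_X_pow_even] at h5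
        have h6 : G (m + 1) = (1 + X) ^ ((m + 2) / 2) * I (m + 1) := rfl
        rw [h6]
        nth_rewrite 1 [← h5]
        rw [mul_add, mul_sum]
        congr 1
        ring
    refine ⟨fun s hs => ?_, hGm⟩
    rcases Nat.lt_or_ge s m with hsm | hsm
    · exact key s hsm
    · obtain rfl : s = m := by omega
      have : (1 + X : PowerSeries ℚ) ^ ((s + 2) / 2) * H s s = X ^ (s * (s + 1)) * G (s + 1) := by
        unfold H G
        rw [qb_self, neg_X_pow_even]
        ring
      rw [this]
      exact (NN.varX.pow _).mul hGm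

/-- The coefficients of `(1+q)^⌈n/2⌉ / ∏_{j ≤ n} (1 - (-q)^j)` are nonnegative. -/
theorem NN_G (n : ℕ) : NN (G n) := by
  cases n with
  | zero => rw [G_zero]; exact NN.one
  | succ n => exact (NN_main n).2

end series

end Pool.Agent.SignedQ
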